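import Pool.Agent.H62.CJ.Def

/-!
# CJ-L1: the Moebius map onto the disc of radius 1 about x + i

`mob x y σ = (x + i) - i (w0 + σ)/(1 + w0 σ)`, `w0 = 1 - y`, `0 < y < 1`.

PROOFS.  `1 + w0 σ ≠ 0` for `|σ| < 1` since `|w0 σ| < 1`.
* `mob_zero`: `x + i - i (1 - y) = x + i y`.
* `mob_dist`: `|(w0 + σ)/(1 + w0 σ)| < 1`: `|1 + w0 σ|^2 - |w0 + σ|^2 = (1 - w0^2)(1 - |σ|^2) > 0`.
* `mob_inj`: `(w0 + σ)/(1 + w0 σ) = (w0 + τ)/(1 + w0 τ)` gives `(1 - w0^2)(σ - τ) = 0`.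
* `mob_hasDerivAt`: quotient rule, numerator `(1 + w0 σ) - w0 (w0 + σ) = 1 - w0^2`.
* `mob_im_ge`: `Im mob = 1 - Re q`, `q = (w0 + σ)/(1 + w0 σ)`.  For `w0 > 0`:
  `q = 1/w0 - (1/w0 - w0)/(1 + w0 σ)`.  With `u = 1 + w0 σ`, `|u - 1| <= k := w0 ρ < 1`:
  `Re (1/u) = Re u/|u|^2 >= 1/(1 + k)` because `|u|^2 = |u - 1|^2 + 2 Re u - 1 <= k^2 + 2 Re u - 1` and
  `(1 + k) Re u - (k^2 + 2 Re u - 1) = (1 - k)(1 + k - Re u) >= 0`.  So
  `Re q <= 1/w0 - (1/w0 - w0)/(1 + w0 ρ) = (w0 + ρ)/(1 + w0 ρ)` and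
  `1 - (w0 + ρ)/(1 + w0 ρ) = (1 - w0)(1 - ρ)/(1 + w0 ρ) >= y (1 - ρ)/(1 + ρ)`.
* `mob_pt`: `w0 = 1 - y1`, `σ = - (y - y1)/(y + y1 - y y1)`: `w0 + σ = (1 - y) (2 y1 - y1^2)/(y + y1 - y y1)`
  hmm: simply check `(w0 + σ) = (1 - y)(1 + w0 σ)`: multiply by `D = y + y1 - y y1`:
  `(1 - y1) D - (y - y1) = (1 - y) (D - (1 - y1)(y - y1))`; both sides are polynomials (`ring`), and
  `1 + w0 σ ≠ 0`.
-/

set_option autoImplicit false

open Set Metric MeasureTheory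

namespace H62.CJ

/-- the Moebius map -/
noncomputable def mob (x y : ℝ) (σ : ℂ) : ℂ :=
  pt x 1 - Complex.I * (((1 - y : ℝ) : ℂ) + σ) / (1 + ((1 - y : ℝ) : ℂ) * σ)

theorem mob_zero (x y : ℝ) : mob x y 0 = pt x y := by
  unfold mob
  rw [pt_eq, pt_eq]
  push_cast
  ring

theorem mob_den (y : ℝ) (hy : 0 < y) (hy1 : y < 1) (σ : ℂ) (hσ : ‖σ‖ < 1) :
    1 + ((1 - y : ℝ) : ℂ) * σ ≠ 0 := by
  intro h
  have h1 : ((1 - y : ℝ) : ℂ) * σ = -1 := by linear_combination h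
  have h2 := congrArg (fun z : ℂ => ‖z‖) h1
  simp only [norm_mul, norm_neg, norm_one, Complex.norm_real, Real.norm_eq_abs] at h2
  rw [abs_of_pos (by linarith)] at h2
  nlinarith [norm_nonneg σ]

/-- squares of the norms -/
theorem L1_sq (y : ℝ) (σ : ℂ) : ‖1 + ((1 - y : ℝ) : ℂ) * σ‖ ^ 2 =
    (1 + (1 - y) * σ.re) ^ 2 + ((1 - y) * σ.im) ^ 2 := by
  rw [← Complex.normSq_eq_norm_sq, Complex.normSq_apply]
  simp only [Complex.add_re, Complex.one_re, Complex.mul_re, Complex.ofReal_re, Complex.ofReal_im,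
    Complex.add_im, Complex.one_im, Complex.mul_im]
  ring

theorem L1_sq' (y : ℝ) (σ : ℂ) : ‖((1 - y : ℝ) : ℂ) + σ‖ ^ 2 =
    (1 - y + σ.re) ^ 2 + σ.im ^ 2 := by
  rw [← Complex.normSq_eq_norm_sq, Complex.normSq_apply]
  simp only [Complex.add_re, Complex.ofReal_re, Complex.ofReal_im, Complex.add_im]
  ring

theorem L1_norm (σ : ℂ) : ‖σ‖ ^ 2 = σ.re ^ 2 + σ.im ^ 2 := by
  rw [← Complex.normSq_eq_norm_sq, Complex.normSq_apply]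
  ring

theorem mob_dist (x y : ℝ) (hy : 0 < y) (hy1 : y < 1) (σ : ℂ) (hσ : ‖σ‖ < 1) :
    ‖mob x y σ - pt x 1‖ < 1 := by
  have hd := mob_den y hy hy1 σ hσ
  have e1 : mob x y σ - pt x 1 =
      -(Complex.I * ((((1 - y : ℝ) : ℂ) + σ) / (1 + ((1 - y : ℝ) : ℂ) * σ))) := by
    unfold mob
    ring
  rw [e1, norm_neg, norm_mul, Complex.norm_I, one_mul, norm_div,
    div_lt_one (norm_pos_iff.2 hd)]
  apply lt_of_pow_lt_pow_left₀ 2 (norm_nonneg _)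
  rw [L1_sq, L1_sq']
  have h1 := L1_norm σ
  have h2 : ‖σ‖ ^ 2 < 1 := by
    have := norm_nonneg σ
    nlinarith
  have h3 : 0 < (1 - (1 - y) ^ 2) * (1 - ‖σ‖ ^ 2) := by
    apply mul_pos
    · nlinarith
    · linarith
  rw [h1] at h3
  nlinarith [h3]

theorem mob_im_pos (x y : ℝ) (hy : 0 < y) (hy1 : y < 1) (σ : ℂ) (hσ : ‖σ‖ < 1) :
    0 < (mob x y σ).im := by
  have h1 := (Complex.abs_im_le_norm (mob x y σ - pt x 1)).trans_lt (mob_dist x y hy hy1 σ hσ)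
  rw [Complex.sub_im, pt_im] at h1
  have := (abs_lt.1 h1).1
  linarith

theorem mob_inj (x y : ℝ) (hy : 0 < y) (hy1 : y < 1) : InjOn (mob x y) (ball 0 1) := by
  intro σ hσ τ hτ h
  rw [mem_ball_zero_iff] at hσ hτ
  have h1 := mob_den y hy hy1 σ hσ
  have h2 := mob_den y hy hy1 τ hτ
  unfold mob at h
  have h3 : Complex.I * (((1 - y : ℝ) : ℂ) + σ) / (1 + ((1 - y : ℝ) : ℂ) * σ) =
      Complex.I * (((1 - y : ℝ) : ℂ) + τ) / (1 + ((1 - y : ℝ) : ℂ) * τ) := sub_right_inj.1 h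
  rw [div_eq_div_iff h1 h2] at h3
  have h4 : Complex.I * ((1 - ((1 - y : ℝ) : ℂ) ^ 2) * (σ - τ)) = 0 := by
    linear_combination h3
  have h5 : (1 - ((1 - y : ℝ) : ℂ) ^ 2) ≠ 0 := by
    have e : (1 - ((1 - y : ℝ) : ℂ) ^ 2) = ((1 - (1 - y) ^ 2 : ℝ) : ℂ) := by push_cast; ring
    rw [e]
    have : (1 - (1 - y) ^ 2 : ℝ) ≠ 0 := by nlinarith
    exact_mod_cast this
  rcases mul_eq_zero.1 h4 with h6 | h6
  · exact absurd h6 Complex.I_ne_zero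
  · rcases mul_eq_zero.1 h6 with h7 | h7
    · exact absurd h7 h5
    · exact sub_eq_zero.1 h7

theorem mob_hasDerivAt (x y : ℝ) (hy : 0 < y) (hy1 : y < 1) (σ : ℂ) (hσ : ‖σ‖ < 1) :
    HasDerivAt (mob x y) (-Complex.I * ((1 - (1 - y) ^ 2 : ℝ) : ℂ) /
      (1 + ((1 - y : ℝ) : ℂ) * σ) ^ 2) σ := by
  have h1 := mob_den y hy hy1 σ hσ
  have h2 : HasDerivAt (fun σ : ℂ => Complex.I * (((1 - y : ℝ) : ℂ) + σ)) (Complex.I * 1) σ :=
    ((hasDerivAt_id σ).const_add _).const_mul _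
  have h3 : HasDerivAt (fun σ : ℂ => 1 + ((1 - y : ℝ) : ℂ) * σ) (((1 - y : ℝ) : ℂ) * 1) σ :=
    ((hasDerivAt_id σ).const_mul _).const_add _
  have h4 := (h2.div h3 h1).const_sub (pt x 1)
  refine h4.congr_deriv ?_
  rw [← neg_div]
  congr 1
  push_cast
  ring

theorem mob_im_ge (x y : ℝ) (hy : 0 < y) (hy1 : y < 1) (ρ : ℝ) (hρ : 0 < ρ) (hρ1 : ρ < 1) (σ : ℂ)
    (hσ : ‖σ‖ < ρ) : (1 - ρ) / (1 + ρ) * y ≤ (mob x y σ).im := by
  have hσ1 : ‖σ‖ < 1 := hσ.trans hρ1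
  have hd := mob_den y hy hy1 σ hσ1
  have hD : 0 < ‖1 + ((1 - y : ℝ) : ℂ) * σ‖ ^ 2 := pow_pos (norm_pos_iff.2 hd) 2
  have hDe := L1_sq y σ
  have him : (mob x y σ).im = y * (1 - σ.re * y - (1 - y) * ‖σ‖ ^ 2) /
      ‖1 + ((1 - y : ℝ) : ℂ) * σ‖ ^ 2 := by
    unfold mob
    rw [Complex.sub_im, pt_im, mul_div_assoc, Complex.I_mul_im, Complex.div_re,
      Complex.normSq_eq_norm_sq]
    simp only [Complex.add_re, Complex.one_re, Complex.mul_re, Complex.ofReal_re,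
      Complex.ofReal_im, Complex.add_im, Complex.one_im, Complex.mul_im]
    rw [← add_div, eq_div_iff hD.ne', sub_mul, div_mul_cancel₀ _ hD.ne', hDe, L1_norm]
    ring
  rw [him, div_mul_eq_mul_div, div_le_div_iff₀ (by linarith) hD, hDe]
  have hre : σ.re ≤ ρ := ((le_abs_self _).trans (Complex.abs_re_le_norm σ)).trans hσ.le
  have hs : ‖σ‖ ^ 2 ≤ ρ ^ 2 := by
    have := norm_nonneg σ
    nlinarith
  have hn := L1_norm σ
  have k1 : 0 ≤ ((1 + ρ) * (1 - y) + (1 - ρ) * (1 - y) ^ 2) * (ρ ^ 2 - ‖σ‖ ^ 2) := by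
    apply mul_nonneg _ (by linarith)
    have : 0 ≤ (1 - ρ) * (1 - y) ^ 2 := mul_nonneg (by linarith) (sq_nonneg _)
    have : 0 ≤ (1 + ρ) * (1 - y) := mul_nonneg (by linarith) (by linarith)
    linarith
  have k2 : 0 ≤ ((1 + ρ) * y + 2 * (1 - y) * (1 - ρ)) * (ρ - σ.re) := by
    apply mul_nonneg _ (by linarith)
    have : 0 ≤ (1 + ρ) * y := mul_nonneg (by linarith) hy.le
    have : 0 ≤ 2 * (1 - y) * (1 - ρ) := mul_nonneg (by linarith) (by linarith)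
    linarith
  have k3 : 0 ≤ (1 - ρ) * (1 + (1 - y) * ρ) * (ρ * y) := by
    apply mul_nonneg (mul_nonneg (by linarith) _) (by positivity)
    have : 0 ≤ (1 - y) * ρ := mul_nonneg (by linarith) hρ.le
    linarith
  have k4 : (1 + (1 - y) * σ.re) ^ 2 + ((1 - y) * σ.im) ^ 2 =
      1 + 2 * (1 - y) * σ.re + (1 - y) ^ 2 * ‖σ‖ ^ 2 := by
    rw [hn]
    ring
  rw [k4]
  have k5 : 0 ≤ y * ((1 + ρ) * (1 - σ.re * y - (1 - y) * ‖σ‖ ^ 2) -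
      (1 - ρ) * (1 + 2 * (1 - y) * σ.re + (1 - y) ^ 2 * ‖σ‖ ^ 2)) := by
    apply mul_nonneg hy.le
    have e : (1 + ρ) * (1 - σ.re * y - (1 - y) * ‖σ‖ ^ 2) -
      (1 - ρ) * (1 + 2 * (1 - y) * σ.re + (1 - y) ^ 2 * ‖σ‖ ^ 2) =
      ((1 + ρ) * (1 - y) + (1 - ρ) * (1 - y) ^ 2) * (ρ ^ 2 - ‖σ‖ ^ 2) +
      ((1 + ρ) * y + 2 * (1 - y) * (1 - ρ)) * (ρ - σ.re) +
      (1 - ρ) * (1 + (1 - y) * ρ) * (ρ * y) := by ring
    rw [e]
    linarith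
  linarith

theorem mob_pt (x y y1 : ℝ) (h1 : 0 < y1) (h2 : y1 < y) (h3 : y < 1) :
    0 < (y - y1) / (y + y1 - y * y1) ∧ (y - y1) / (y + y1 - y * y1) < 1 ∧
      mob x y1 (-(((y - y1) / (y + y1 - y * y1) : ℝ) : ℂ)) = pt x y := by
  have hD : 0 < y + y1 - y * y1 := by nlinarith
  have ha : 0 < (y - y1) / (y + y1 - y * y1) := div_pos (by linarith) hD
  have hb : (y - y1) / (y + y1 - y * y1) < 1 := by
    rw [div_lt_one hD]
    nlinarith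
  refine ⟨ha, hb, ?_⟩
  have hn : ‖(-(((y - y1) / (y + y1 - y * y1) : ℝ) : ℂ))‖ < 1 := by
    rw [norm_neg, Complex.norm_real, Real.norm_eq_abs, abs_of_pos ha]
    exact hb
  have hd := mob_den y1 h1 (h2.trans h3) _ hn
  have key : ((1 - y1 : ℝ) : ℂ) + (-(((y - y1) / (y + y1 - y * y1) : ℝ) : ℂ)) =
      ((1 - y : ℝ) : ℂ) * (1 + ((1 - y1 : ℝ) : ℂ) * (-(((y - y1) / (y + y1 - y * y1) : ℝ) : ℂ))) := by
    have hr : (1 - y1) + -((y - y1) / (y + y1 - y * y1)) =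
        (1 - y) * (1 + (1 - y1) * -((y - y1) / (y + y1 - y * y1))) := by
      have ht := div_mul_cancel₀ (y - y1) hD.ne'
      linear_combination -ht
    exact_mod_cast congrArg (fun r : ℝ => (r : ℂ)) hr
  unfold mob
  rw [key, mul_div_assoc, mul_div_assoc, div_self hd, mul_one, pt_eq, pt_eq]
  push_cast
  ring

end H62.CJ
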