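import Pool.Agent.H62.CJ.L0
import Pool.Agent.H62.CJ.L1

/-!
# CJ-L2: localisation of F in the disc of radius 1 about x + i

`deriv_ne`: for `F` in the class, `F' z ≠ 0` on the upper half plane.
PROOF.  `F` is injective on `ball z (min 1 z.im)`: two points with the same value differ by `2 pi k`, and
their distance is `< 2 < 2 pi`, so `k = 0`.  Use `deriv_ne_zero_of_injOn`.

`exists_g`: with `V = VV F (pt x y)`, `A = AA F (pt x y)` there is `g` in the class `IsS` with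
`F (mob x y σ) - F (pt x y) = (2 - y) V g σ` on the disc and
`- g''(0)/2 = (1 - y) + i (1 - y/2) A`.
PROOF.  `g σ = (F (mob x y σ) - F (pt x y)) / ((2 - y) V)`; `(2 - y) V ≠ 0` by `deriv_ne`.  Differentiable on the
ball (composition; `mob` maps the ball into the upper half plane).  Injective: `F` is injective on
`ball (pt x 1) 1` (distance of two points `< 2 < 2 pi`), `mob` is injective.  `g 0 = 0` by `mob_zero`.
`deriv (F ∘ mob) σ = F' (mob σ) * mob' σ`; at `0`: `mob' 0 = - i (1 - (1-y)^2) = - i y (2 - y)`, so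
`(F ∘ mob)' 0 = F' (pt x y) * (- i y (2 - y)) = (2 - y) V` and `deriv g 0 = 1`.
Second derivative: on the ball `mob' σ = - i (1 - w0^2) (1 + w0 σ)⁻²`, so `mob'' 0 = 2 i w0 (1 - w0^2)`;
`(F ∘ mob)'' 0 = F'' (mob' 0)^2 + F' mob'' 0 = - F'' y^2 (2-y)^2 + 2 i (1 - y) y (2 - y) F'`.
Dividing by `2 (2 - y) V = - 2 i y (2 - y) F'`:
`g''(0)/2 = - i (1 - y/2) (y F''/F') - (1 - y)`; indeed
`- F'' y^2 (2-y)^2 / (- 2 i y (2-y) F') = y (2-y) F'' / (2 i F') = - i (1 - y/2) y F''/F'` and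
`2 i (1-y) y (2-y) F' / (- 2 i y (2-y) F') = - (1 - y)`.
-/

set_option autoImplicit false

open Set Metric MeasureTheory

namespace H62.CJ

private theorem L2_injOn (F : ℂ → ℂ) (M : ℝ) (hF : Cls F M) (z : ℂ) (r : ℝ) (hr : r ≤ 1)
    (hz : r ≤ z.im) : InjOn F (ball z r) := by
  intro a ha b hb h
  rw [mem_ball] at ha hb
  have ha' : 0 < a.im := by
    have h1 := (Complex.abs_im_le_norm (a - z)).trans_lt (by rwa [← dist_eq_norm])
    rw [Complex.sub_im] at h1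
    have := (abs_lt.1 h1).1
    linarith
  have hb' : 0 < b.im := by
    have h1 := (Complex.abs_im_le_norm (b - z)).trans_lt (by rwa [← dist_eq_norm])
    rw [Complex.sub_im] at h1
    have := (abs_lt.1 h1).1
    linarith
  obtain ⟨k, hk⟩ := hF.inj a b ha' hb' h
  have h2 : ‖a - b‖ < 2 := by
    have : dist a b ≤ dist a z + dist b z := dist_triangle_right _ _ _
    rw [← dist_eq_norm]
    linarith
  have h3 : ‖a - b‖ = |(k : ℝ)| * (2 * Real.pi) := by
    rw [hk, Complex.norm_real, Real.norm_eq_abs, abs_mul, abs_of_pos Real.two_pi_pos]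
  have h4 : k = 0 := by
    by_contra hk0
    have h5 : (1 : ℝ) ≤ |(k : ℝ)| := by exact_mod_cast Int.one_le_abs hk0
    have h6 := Real.pi_gt_three
    nlinarith
  rw [h4] at hk
  simp only [Int.cast_zero, zero_mul, Complex.ofReal_zero] at hk
  exact sub_eq_zero.1 hk

private theorem L2_open : IsOpen HP := isOpen_lt continuous_const Complex.continuous_im

theorem deriv_ne (F : ℂ → ℂ) (M : ℝ) (hF : Cls F M) (z : ℂ) (hz : 0 < z.im) : deriv F z ≠ 0 := by
  refine deriv_ne_zero_of_injOn F (ball z (min 1 z.im)) isOpen_ball (hF.diff.mono ?_)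
    (L2_injOn F M hF z _ (min_le_left _ _) (min_le_right _ _)) z
    (mem_ball_self (lt_min one_pos hz))
  intro a ha
  rw [mem_ball] at ha
  show 0 < a.im
  have h1 := (Complex.abs_im_le_norm (a - z)).trans_lt (by rwa [← dist_eq_norm])
  rw [Complex.sub_im] at h1
  have h2 := (abs_lt.1 h1).1
  have h3 := min_le_right 1 z.im
  linarith

theorem exists_g (F : ℂ → ℂ) (M : ℝ) (hF : Cls F M) (x y : ℝ) (hy : 0 < y) (hy1 : y < 1) :
    ∃ g : ℂ → ℂ, IsS g ∧
      (∀ σ ∈ ball (0 : ℂ) 1,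
        F (mob x y σ) - F (pt x y) = ((2 - y : ℝ) : ℂ) * VV F (pt x y) * g σ) ∧
      -(deriv (deriv g) 0 / 2) =
        ((1 - y : ℝ) : ℂ) + Complex.I * ((1 - y / 2 : ℝ) : ℂ) * AA F (pt x y) := by
  have hd1 : deriv F (pt x y) ≠ 0 := deriv_ne F M hF _ hy
  have hy0 : ((y : ℝ) : ℂ) ≠ 0 := by exact_mod_cast hy.ne'
  have h2y : (2 - (y : ℂ)) ≠ 0 := by
    have : (2 - y : ℝ) ≠ 0 := by linarith
    exact_mod_cast this
  have hV : VV F (pt x y) = -Complex.I * (y : ℂ) * deriv F (pt x y) := rfl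
  have hV0 : VV F (pt x y) ≠ 0 := by
    rw [hV]
    exact mul_ne_zero (mul_ne_zero (neg_ne_zero.2 Complex.I_ne_zero) hy0) hd1
  have hc0 : ((2 - y : ℝ) : ℂ) * VV F (pt x y) ≠ 0 := by
    push_cast
    exact mul_ne_zero h2y hV0
  have hA : AA F (pt x y) = (y : ℂ) * deriv (deriv F) (pt x y) / deriv F (pt x y) := rfl
  -- derivative of the composition
  have hD : ∀ σ : ℂ, ‖σ‖ < 1 → HasDerivAt (fun σ : ℂ => F (mob x y σ))
      (deriv F (mob x y σ) * (-Complex.I * ((1 - (1 - y) ^ 2 : ℝ) : ℂ) /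
        (1 + ((1 - y : ℝ) : ℂ) * σ) ^ 2)) σ := by
    intro σ hσ
    have h1 : HasDerivAt F (deriv F (mob x y σ)) (mob x y σ) :=
      (hF.diff.differentiableAt (L2_open.mem_nhds (mob_im_pos x y hy hy1 σ hσ))).hasDerivAt
    exact h1.comp σ (mob_hasDerivAt x y hy hy1 σ hσ)
  have hg : ∀ σ : ℂ, ‖σ‖ < 1 → HasDerivAt
      (fun σ : ℂ => (F (mob x y σ) - F (pt x y)) / (((2 - y : ℝ) : ℂ) * VV F (pt x y)))
      (deriv F (mob x y σ) * (-Complex.I * ((1 - (1 - y) ^ 2 : ℝ) : ℂ) /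
        (1 + ((1 - y : ℝ) : ℂ) * σ) ^ 2) / (((2 - y : ℝ) : ℂ) * VV F (pt x y))) σ := by
    intro σ hσ
    exact ((hD σ hσ).sub_const _).div_const _
  have hn0 : ‖(0 : ℂ)‖ < 1 := by simp
  refine ⟨fun σ : ℂ => (F (mob x y σ) - F (pt x y)) / (((2 - y : ℝ) : ℂ) * VV F (pt x y)),
    ⟨?_, ?_, ?_, ?_⟩, ?_, ?_⟩
  · intro σ hσ
    rw [mem_ball_zero_iff] at hσ
    exact (hg σ hσ).differentiableAt.differentiableWithinAt
  · intro σ hσ τ hτ h
    have h1 : F (mob x y σ) = F (mob x y τ) := by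
      have h2 := (div_left_inj' hc0).1 h
      exact sub_left_inj.1 h2
    have hσ' := hσ
    have hτ' := hτ
    rw [mem_ball_zero_iff] at hσ' hτ'
    refine mob_inj x y hy hy1 hσ hτ (L2_injOn F M hF (pt x 1) 1 le_rfl le_rfl ?_ ?_ h1)
    · rw [mem_ball, dist_eq_norm]
      exact mob_dist x y hy hy1 σ hσ'
    · rw [mem_ball, dist_eq_norm]
      exact mob_dist x y hy hy1 τ hτ'
  · show (F (mob x y 0) - F (pt x y)) / (((2 - y : ℝ) : ℂ) * VV F (pt x y)) = 0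
    rw [mob_zero, sub_self, zero_div]
  · rw [(hg 0 hn0).deriv, mob_zero, div_eq_one_iff_eq hc0, hV]
    push_cast
    ring
  · intro σ hσ
    show _ = ((2 - y : ℝ) : ℂ) * VV F (pt x y) *
      ((F (mob x y σ) - F (pt x y)) / (((2 - y : ℝ) : ℂ) * VV F (pt x y)))
    rw [mul_div_cancel₀ _ hc0]
  · have hev : deriv
        (fun σ : ℂ => (F (mob x y σ) - F (pt x y)) / (((2 - y : ℝ) : ℂ) * VV F (pt x y)))
        =ᶠ[nhds 0] (fun σ : ℂ => deriv F (mob x y σ) *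
          (-Complex.I * ((1 - (1 - y) ^ 2 : ℝ) : ℂ) /
          (1 + ((1 - y : ℝ) : ℂ) * σ) ^ 2) / (((2 - y : ℝ) : ℂ) * VV F (pt x y))) := by
      filter_upwards [ball_mem_nhds (0 : ℂ) one_pos] with σ hσ
      rw [mem_ball_zero_iff] at hσ
      exact (hg σ hσ).deriv
    rw [hev.deriv_eq]
    have k1 : HasDerivAt (fun σ : ℂ => deriv F (mob x y σ))
        (deriv (deriv F) (mob x y 0) * (-Complex.I * ((1 - (1 - y) ^ 2 : ℝ) : ℂ) /
        (1 + ((1 - y : ℝ) : ℂ) * 0) ^ 2)) 0 := by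
      have h1 : HasDerivAt (deriv F) (deriv (deriv F) (mob x y 0)) (mob x y 0) :=
        ((hF.diff.deriv L2_open).differentiableAt
          (L2_open.mem_nhds (mob_im_pos x y hy hy1 0 hn0))).hasDerivAt
      exact h1.comp (0 : ℂ) (mob_hasDerivAt x y hy hy1 0 hn0)
    have k2 : HasDerivAt (fun σ : ℂ => -Complex.I * ((1 - (1 - y) ^ 2 : ℝ) : ℂ) /
        (1 + ((1 - y : ℝ) : ℂ) * σ) ^ 2)
        (2 * Complex.I * ((1 - (1 - y) ^ 2 : ℝ) : ℂ) * ((1 - y : ℝ) : ℂ)) 0 := by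
      have h1 : HasDerivAt (fun σ : ℂ => 1 + ((1 - y : ℝ) : ℂ) * σ) (((1 - y : ℝ) : ℂ) * 1) 0 :=
        ((hasDerivAt_id (0 : ℂ)).const_mul _).const_add _
      have h2 := h1.pow 2
      have h3 : (1 + ((1 - y : ℝ) : ℂ) * 0) ^ 2 ≠ 0 := by simp
      have h4 := (hasDerivAt_const (0 : ℂ) (-Complex.I * ((1 - (1 - y) ^ 2 : ℝ) : ℂ))).div h2 h3
      refine h4.congr_deriv ?_
      simp only [mul_zero, add_zero, one_pow, Pi.pow_apply]
      push_cast
      ring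
    have k3 : HasDerivAt (fun σ : ℂ => deriv F (mob x y σ) *
          (-Complex.I * ((1 - (1 - y) ^ 2 : ℝ) : ℂ) /
          (1 + ((1 - y : ℝ) : ℂ) * σ) ^ 2) / (((2 - y : ℝ) : ℂ) * VV F (pt x y))) _ 0 :=
      (k1.mul k2).div_const _
    rw [k3.deriv, mob_zero, hA]
    simp only [mul_zero, add_zero, one_pow, div_one]
    have hq : deriv F (pt x y) * (deriv (deriv F) (pt x y) / deriv F (pt x y)) =
        deriv (deriv F) (pt x y) := mul_div_cancel₀ _ hd1
    have hnum : deriv (deriv F) (pt x y) * (-Complex.I * ((1 - (1 - y) ^ 2 : ℝ) : ℂ)) *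
          (-Complex.I * ((1 - (1 - y) ^ 2 : ℝ) : ℂ)) + deriv F (pt x y) *
          (2 * Complex.I * ((1 - (1 - y) ^ 2 : ℝ) : ℂ) * ((1 - y : ℝ) : ℂ)) =
        (((2 - y : ℝ) : ℂ) * VV F (pt x y)) * (-2 * (1 - (y : ℂ)) - Complex.I * (2 - (y : ℂ)) *
          ((y : ℂ) * (deriv (deriv F) (pt x y) / deriv F (pt x y)))) := by
      rw [hV]
      push_cast
      linear_combination (-(2 - (y : ℂ)) ^ 2 * (y : ℂ) ^ 2 * Complex.I ^ 2) * hq
    rw [hnum, mul_div_cancel_left₀ _ hc0]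
    push_cast
    ring

end H62.CJ
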