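import Pool.Agent.H62.CJ.A8
import Pool.Agent.H62.CJ.L2

/-!
# CJ-L3: bounds for A = y F''/F'

`0 < y <= 1/2`, `A = AA F (pt x y)`, `β = Im A`.
PROOF.  `exists_g` and `bieberbach`: `|(1 - y) + i (1 - y/2) A| <= 2`.  With `γ = (1-y)/(1-y/2)`,
`Λ = 2/(1 - y/2)`: `|A - i γ| <= Λ` (divide by `i (1 - y/2)`).
* `AA_near`: `1 - γ = (y/2)/(1-y/2)`, so `|A - i| <= Λ + (1 - γ) = (2 + y/2)/(1 - y/2) <= 2 + 4 y`
  since `(2 + 4y)(1 - y/2) - (2 + y/2) = 5y/2 - 2 y^2 >= 0`.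
* `AA_le`: `|A| <= γ + Λ = (3 - y)/(1 - y/2) <= 4`.
* `AA_im`: `β >= γ - Λ = (-1 - y)/(1 - y/2) >= - 1 - 4 y`.
* `AA_sq`: `|A|^2 = |A - i γ|^2 + 2 γ β - γ^2 <= Λ^2 - γ^2 + 2 γ β`;
  `Λ^2 - γ^2 = (3 + 2y - y^2)/(1-y/2)^2 <= 3 + 9 y` and
  `2 γ β = 2 β - 2 (1-γ) β <= 2 β + 2 (2/3) y * 4`.  Total `<= 3 + 2 β + 20 y`.
-/

set_option autoImplicit false

open Set Metric MeasureTheory

namespace H62.CJ

theorem L3_base (F : ℂ → ℂ) (M : ℝ) (hF : Cls F M) (x y : ℝ) (hy : 0 < y) (hy1 : y ≤ 1 / 2) :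
    ‖((1 - y / 2 : ℝ) : ℂ) * AA F (pt x y) - ((1 - y : ℝ) : ℂ) * Complex.I‖ ≤ 2 := by
  obtain ⟨g, hg, -, h⟩ := exists_g F M hF x y hy (by linarith)
  have hb := bieberbach g hg
  have h1 : ‖-(deriv (deriv g) 0 / 2)‖ ≤ 2 := by
    rw [norm_neg, norm_div]
    have : ‖(2:ℂ)‖ = 2 := by norm_num
    rw [this]
    linarith
  rw [h] at h1
  have h2 : ((1 - y : ℝ) : ℂ) + Complex.I * ((1 - y / 2 : ℝ) : ℂ) * AA F (pt x y) =
      Complex.I * (((1 - y / 2 : ℝ) : ℂ) * AA F (pt x y) - ((1 - y : ℝ) : ℂ) * Complex.I) := by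
    linear_combination (((1 - y : ℝ) : ℂ)) * Complex.I_mul_I
  rw [h2, norm_mul, Complex.norm_I, one_mul] at h1
  exact h1

theorem AA_near (F : ℂ → ℂ) (M : ℝ) (hF : Cls F M) (x y : ℝ) (hy : 0 < y) (hy1 : y ≤ 1 / 2) :
    ‖AA F (pt x y) - Complex.I‖ ≤ 2 + 4 * y := by
  have h := L3_base F M hF x y hy hy1
  set A := AA F (pt x y) with hA
  have hu : (0:ℝ) < 1 - y / 2 := by linarith
  have h1 : (1 - y / 2) * ‖A - Complex.I‖ ≤ 2 + y / 2 := by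
    have h2 : ((1 - y / 2 : ℝ) : ℂ) * (A - Complex.I) =
        (((1 - y / 2 : ℝ) : ℂ) * A - ((1 - y : ℝ) : ℂ) * Complex.I) +
          ((-(y / 2) : ℝ) : ℂ) * Complex.I := by
      push_cast
      ring
    have h3 : ‖((1 - y / 2 : ℝ) : ℂ) * (A - Complex.I)‖ = (1 - y / 2) * ‖A - Complex.I‖ := by
      rw [norm_mul, Complex.norm_real, Real.norm_of_nonneg hu.le]
    rw [← h3, h2]
    refine (norm_add_le _ _).trans ?_
    have h4 : ‖((-(y / 2) : ℝ) : ℂ) * Complex.I‖ = y / 2 := by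
      rw [norm_mul, Complex.norm_real, Complex.norm_I, mul_one, norm_neg,
        Real.norm_of_nonneg (by linarith)]
    rw [h4]
    linarith
  by_contra hc
  push Not at hc
  nlinarith [mul_lt_mul_of_pos_left hc hu, mul_pos hy hu]

theorem AA_le (F : ℂ → ℂ) (M : ℝ) (hF : Cls F M) (x y : ℝ) (hy : 0 < y) (hy1 : y ≤ 1 / 2) :
    ‖AA F (pt x y)‖ ≤ 4 := by
  have h := L3_base F M hF x y hy hy1
  set A := AA F (pt x y) with hA
  have hu : (0:ℝ) < 1 - y / 2 := by linarith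
  have h1 : (1 - y / 2) * ‖A‖ ≤ 2 + (1 - y) := by
    have h2 : ((1 - y / 2 : ℝ) : ℂ) * A =
        (((1 - y / 2 : ℝ) : ℂ) * A - ((1 - y : ℝ) : ℂ) * Complex.I) +
          ((1 - y : ℝ) : ℂ) * Complex.I := by
      ring
    have h3 : ‖((1 - y / 2 : ℝ) : ℂ) * A‖ = (1 - y / 2) * ‖A‖ := by
      rw [norm_mul, Complex.norm_real, Real.norm_of_nonneg hu.le]
    rw [← h3, h2]
    refine (norm_add_le _ _).trans ?_
    have h4 : ‖((1 - y : ℝ) : ℂ) * Complex.I‖ = 1 - y := by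
      rw [norm_mul, Complex.norm_real, Complex.norm_I, mul_one,
        Real.norm_of_nonneg (by linarith)]
    rw [h4]
    linarith
  by_contra hc
  push Not at hc
  nlinarith [mul_lt_mul_of_pos_left hc hu]

theorem L3_im (F : ℂ → ℂ) (M : ℝ) (hF : Cls F M) (x y : ℝ) (hy : 0 < y) (hy1 : y ≤ 1 / 2) :
    ((1 - y / 2) * (AA F (pt x y)).re) ^ 2 +
      ((1 - y / 2) * (AA F (pt x y)).im - (1 - y)) ^ 2 ≤ 4 := by
  have h := L3_base F M hF x y hy hy1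
  set A := AA F (pt x y) with hA
  have h1 : ‖((1 - y / 2 : ℝ) : ℂ) * A - ((1 - y : ℝ) : ℂ) * Complex.I‖ ^ 2 ≤ 2 ^ 2 :=
    pow_le_pow_left₀ (norm_nonneg _) h 2
  rw [← Complex.normSq_eq_norm_sq, Complex.normSq_apply] at h1
  simp only [Complex.sub_re, Complex.sub_im, Complex.re_ofReal_mul, Complex.im_ofReal_mul,
    Complex.I_re, Complex.I_im, mul_zero, mul_one, sub_zero] at h1
  nlinarith [h1]

theorem AA_im (F : ℂ → ℂ) (M : ℝ) (hF : Cls F M) (x y : ℝ) (hy : 0 < y) (hy1 : y ≤ 1 / 2) :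
    -1 - 4 * y ≤ (AA F (pt x y)).im := by
  have h := L3_im F M hF x y hy hy1
  set a := (AA F (pt x y)).re
  set b := (AA F (pt x y)).im
  have hu : (0:ℝ) < 1 - y / 2 := by linarith
  have h2 : ((1 - y / 2) * b - (1 - y)) ^ 2 ≤ 2 ^ 2 := by
    nlinarith [sq_nonneg ((1 - y / 2) * a)]
  have h3 := abs_le_of_sq_le_sq' h2 (by norm_num)
  by_contra hc
  push Not at hc
  nlinarith [mul_lt_mul_of_pos_left hc hu, h3.1]

theorem AA_sq (F : ℂ → ℂ) (M : ℝ) (hF : Cls F M) (x y : ℝ) (hy : 0 < y) (hy1 : y ≤ 1 / 2) :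
    ‖AA F (pt x y)‖ ^ 2 ≤ 3 + 2 * (AA F (pt x y)).im + 20 * y := by
  have h := L3_im F M hF x y hy hy1
  have him := AA_im F M hF x y hy hy1
  rw [← Complex.normSq_eq_norm_sq, Complex.normSq_apply]
  set a := (AA F (pt x y)).re
  set b := (AA F (pt x y)).im
  have hu : (3 / 4 : ℝ) ≤ 1 - y / 2 := by linarith
  have hb3 : -3 ≤ b := by linarith
  have h1 : (1 - y / 2) ^ 2 * (a * a + b * b) ≤ 4 - (1 - y) ^ 2 + 2 * (1 - y) * ((1 - y / 2) * b) := by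
    nlinarith [h]
  have h2 : 4 - (1 - y) ^ 2 + 2 * (1 - y) * ((1 - y / 2) * b) ≤
      (1 - y / 2) ^ 2 * (3 + 2 * b + 20 * y) := by
    have h3 : (1 - y / 2) ^ 2 * (3 + 2 * b + 20 * y) -
        (4 - (1 - y) ^ 2 + 2 * (1 - y) * ((1 - y / 2) * b)) =
        y * (-5 + 7 / 4 * y + (1 - y / 2) * b + 20 * (1 - y / 2) ^ 2) := by ring
    have h4 : 0 ≤ -5 + 7 / 4 * y + (1 - y / 2) * b + 20 * (1 - y / 2) ^ 2 := by
      nlinarith [mul_le_mul_of_nonneg_left hb3 (by linarith : (0:ℝ) ≤ 1 - y / 2)]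
    nlinarith [mul_nonneg hy.le h4]
  have hu2 : (0:ℝ) < (1 - y / 2) ^ 2 := by positivity
  exact le_of_mul_le_mul_left (h1.trans h2) hu2

end H62.CJ
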