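import Pool.Agent.H62.CJ.Def

/-!
# CJ-L0: the derivative of an injective holomorphic function does not vanish

PROOF.  Suppose `deriv f z = 0`.  `f` is analytic at `z` (`DifferentiableOn.analyticAt`, `U` a
neighbourhood of `z`) and not locally constant there (injective on the neighbourhood `U`).  By
`AnalyticAt.exists_eventuallyEq_pow_smul_nonzero_iff` applied to `ζ ↦ f ζ - f z`:
`f ζ - f z = (ζ - z)^n • k ζ` near `z` with `k` analytic at `z`, `k z ≠ 0`; `n ≠ 0` since the left side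
vanishes at `z`; `n ≠ 1` since otherwise the derivative at `z` would be `k z ≠ 0`.  So `n >= 2`.
Choose a constant `c` with `c^n = k z` (`c = (k z)^(1/n)` complex power) and
`u ζ = c * exp (log (k ζ / k z) / n)`, which is analytic near `z` (the quotient is near `1`, in the slit
plane) with `u ζ ^ n = k ζ` near `z` and `u z = c ≠ 0`.  Let `ψ ζ = (ζ - z) * u ζ`; then
`f ζ - f z = ψ ζ ^ n` near `z`, `ψ z = 0`, `ψ` is analytic at `z` with derivative `c ≠ 0`; hence
`map ψ (𝓝 z) = 𝓝 0` (`HasStrictDerivAt.map_nhds_eq`).  Let `N ⊆ U` be a neighbourhood of `z` on which the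
identity holds; `ψ '' N` is a neighbourhood of `0`, so for small `ε > 0` it contains `ε` and
`ε ω`, `ω = exp (2 pi i / n) ≠ 1` (`Complex.isPrimitiveRoot_exp`).  So there are `ζ1, ζ2 ∈ N` with
`ψ ζ1 = ε`, `ψ ζ2 = ε ω`, hence `ζ1 ≠ ζ2` but `f ζ1 = f z + ε^n = f ζ2`, contradicting injectivity.
-/

set_option autoImplicit false

open Set Metric MeasureTheory

namespace H62.CJ

theorem deriv_ne_zero_of_injOn (f : ℂ → ℂ) (U : Set ℂ) (hU : IsOpen U)
    (hf : DifferentiableOn ℂ f U) (hi : InjOn f U) (z : ℂ) (hz : z ∈ U) : deriv f z ≠ 0 := by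
  intro hd
  have hUz : U ∈ nhds z := hU.mem_nhds hz
  have hfan : AnalyticAt ℂ f z := hf.analyticAt hUz
  have hg : AnalyticAt ℂ (fun ζ => f ζ - f z) z := hfan.sub analyticAt_const
  have hnl : ¬ ∀ᶠ ζ in nhds z, f ζ - f z = 0 := by
    intro h
    have h2 : ∀ᶠ ζ in nhdsWithin z {z}ᶜ, f ζ - f z = 0 ∧ ζ ∈ U ∧ ζ ≠ z := by
      filter_upwards [h.filter_mono nhdsWithin_le_nhds, nhdsWithin_le_nhds hUz,
        self_mem_nhdsWithin] with ζ h1 h2 h3
      exact ⟨h1, h2, h3⟩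
    obtain ⟨ζ, h1, h2, h3⟩ := h2.exists
    exact h3 (hi h2 hz (sub_eq_zero.mp h1))
  obtain ⟨n, k, hk, hk0, hkeq⟩ := hg.exists_eventuallyEq_pow_smul_nonzero_iff.mpr hnl
  have hn0 : n ≠ 0 := by
    rintro rfl
    have h1 := hkeq.self_of_nhds
    simp only [sub_self, pow_zero, one_smul] at h1
    exact hk0 h1.symm
  have hn1 : n ≠ 1 := by
    rintro rfl
    have h1 : HasDerivAt (fun ζ => (ζ - z) ^ 1 • k ζ) (k z) z := by
      have h2 := ((hasDerivAt_id z).sub_const z).mul hk.differentiableAt.hasDerivAt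
      simp only [id, sub_self, zero_mul, add_zero, one_mul] at h2
      refine h2.congr_of_eventuallyEq (Filter.Eventually.of_forall fun ζ => ?_)
      simp
    have h2 : HasDerivAt (fun ζ => f ζ - f z) (k z) z := h1.congr_of_eventuallyEq hkeq
    have h3 : HasDerivAt (fun ζ => f ζ - f z) (deriv f z) z :=
      (hfan.differentiableAt.hasDerivAt).sub_const _
    exact hk0 ((h2.unique h3).trans hd)
  have hn0' : (n : ℂ) ≠ 0 := by exact_mod_cast hn0
  set c : ℂ := (k z) ^ ((n : ℂ)⁻¹) with hc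
  have hcn : c ^ n = k z := Complex.cpow_nat_inv_pow _ hn0
  have hc0 : c ≠ 0 := by
    intro h
    rw [h, zero_pow hn0] at hcn
    exact hk0 hcn.symm
  have hq : AnalyticAt ℂ (fun ζ => k ζ / k z) z := hk.div analyticAt_const hk0
  have hq1 : k z / k z = 1 := div_self hk0
  have hlog : AnalyticAt ℂ (fun ζ => Complex.log (k ζ / k z)) z := by
    refine hq.clog ?_
    rw [hq1]
    exact Complex.one_mem_slitPlane
  set u : ℂ → ℂ := fun ζ => c * Complex.exp (Complex.log (k ζ / k z) / n) with hu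
  have huan : AnalyticAt ℂ u z :=
    analyticAt_const.mul ((hlog.div analyticAt_const hn0').cexp)
  have huz : u z = c := by
    simp only [hu, hq1, Complex.log_one, zero_div, Complex.exp_zero, mul_one]
  set ψ : ℂ → ℂ := fun ζ => (ζ - z) * u ζ with hψ
  have hψan : AnalyticAt ℂ ψ z := (analyticAt_id.sub analyticAt_const).mul huan
  have hψz : ψ z = 0 := by simp [hψ]
  have hψd : HasDerivAt ψ c z := by
    have h2 := ((hasDerivAt_id z).sub_const z).mul huan.differentiableAt.hasDerivAt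
    simp only [id, sub_self, zero_mul, add_zero, one_mul, huz] at h2
    exact h2
  have hstrict : HasStrictDerivAt ψ c z := by
    have h2 := hψan.hasStrictDerivAt
    rwa [hψd.deriv] at h2
  have hmap : Filter.map ψ (nhds z) = nhds 0 := by
    have h2 := hstrict.map_nhds_eq hc0
    rwa [hψz] at h2
  have hkne : ∀ᶠ ζ in nhds z, k ζ ≠ 0 := hk.continuousAt.eventually_ne hk0
  have hN : {ζ | ζ ∈ U ∧ f ζ - f z = ψ ζ ^ n} ∈ nhds z := by
    filter_upwards [hUz, hkeq, hkne] with ζ h1 h2 h3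
    refine ⟨h1, ?_⟩
    have h4 : u ζ ^ n = k ζ := by
      simp only [hu]
      rw [mul_pow, hcn, ← Complex.exp_nat_mul, mul_div_cancel₀ _ hn0',
        Complex.exp_log (div_ne_zero h3 hk0), mul_div_cancel₀ _ hk0]
    have h5 : ψ ζ ^ n = (ζ - z) ^ n * u ζ ^ n := mul_pow (ζ - z) (u ζ) n
    rw [h2, smul_eq_mul, h5, h4]
  have himg : ψ '' {ζ | ζ ∈ U ∧ f ζ - f z = ψ ζ ^ n} ∈ nhds (0 : ℂ) := by
    rw [← hmap]
    exact Filter.image_mem_map hN
  obtain ⟨δ, hδ, hball⟩ := Metric.mem_nhds_iff.mp himg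
  have hprim := Complex.isPrimitiveRoot_exp n hn0
  set ω : ℂ := Complex.exp (2 * Real.pi * Complex.I / n) with hω
  have hω1 : ω ≠ 1 := hprim.ne_one (by omega)
  have hωn : ω ^ n = 1 := hprim.pow_eq_one
  have hωnorm : ‖ω‖ = 1 := hprim.norm'_eq_one hn0
  have hε0 : ((δ / 2 : ℝ) : ℂ) ≠ 0 := by
    rw [Complex.ofReal_ne_zero]
    positivity
  have hεn : ‖((δ / 2 : ℝ) : ℂ)‖ = δ / 2 := by
    rw [Complex.norm_real, Real.norm_of_nonneg (by positivity)]
  have h1 : ((δ / 2 : ℝ) : ℂ) ∈ ball (0 : ℂ) δ := by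
    rw [mem_ball_zero_iff, hεn]
    linarith
  have h2 : ((δ / 2 : ℝ) : ℂ) * ω ∈ ball (0 : ℂ) δ := by
    rw [mem_ball_zero_iff, norm_mul, hωnorm, hεn, mul_one]
    linarith
  obtain ⟨ζ₁, ⟨hζ₁U, hζ₁⟩, hζ₁e⟩ := hball h1
  obtain ⟨ζ₂, ⟨hζ₂U, hζ₂⟩, hζ₂e⟩ := hball h2
  have h3 : f ζ₁ = f ζ₂ := by
    rw [hζ₁e] at hζ₁
    rw [hζ₂e, mul_pow, hωn, mul_one] at hζ₂
    exact sub_left_inj.mp (hζ₁.trans hζ₂.symm)
  have h4 : ζ₁ = ζ₂ := hi hζ₁U hζ₂U h3
  rw [h4, hζ₂e] at hζ₁e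
  exact hω1 (mul_left_cancel₀ hε0 (by rw [hζ₁e, mul_one]))

end H62.CJ
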