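import Pool.Agent.H62.CJ.Z0
import Pool.Agent.H62.CJ.L0

/-!
# CJ-Z1: the class S_1

`f` holomorphic and injective on the disc, `f 0 = 0`, `|f| <= 1`.  Then `FF f` is in `Cls` with `M = 1`.

PROOF.  Fields `meas, diff, per, inj` from `Z0`; `bdd`: `|f| <= 1`.
`mean`: let `y > 0`, `R = exp (-y) < 1` and suppose `w` is not a value of `FF f` on `Im >= y`, i.e. `f ξ ≠ w` for
`0 < |ξ| <= R` (every such `ξ` is `exp (i z)` with `Im z = - log |ξ| >= y`: `z = - i log ξ`).  By `FF_mean` the integral is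
`∮_{|ξ|=R} f'/(f - w)`.
Case `w ≠ 0`: `f ξ ≠ w` on the closed ball of radius `R` (also at `0`, `f 0 = 0`), so `f'/(f-w)` is holomorphic near the
closed ball and the integral is `0` (`Complex.circleIntegral_eq_zero_of_differentiable_on_off_countable` or
`DiffContOnCl.circleIntegral_eq_zero...`).
Case `w = 0`: `f ξ = ξ k ξ`, `k = dslope f 0`, holomorphic on the ball, `k ξ ≠ 0` on the ball for `ξ ≠ 0` by
injectivity, and `k 0 = f' 0 ≠ 0` (derivative of an injective function; to avoid it one may use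
`Pool/Agent/H50/AT/A0.lean` `deriv_ne_zero_of_injOn`, proved on main, or `L0` of this project).
For `ξ ≠ 0`: `f'/f = 1/ξ + k'/k`; so the integral is `2 pi i + 0`, of norm `2 pi`
(`circleIntegral.integral_sub_center_inv`).
-/

set_option autoImplicit false

open Set Metric MeasureTheory

namespace H62.CJ

/-- a point of the punctured disc comes from the half plane -/
theorem Z1_value (f : ℂ → ℂ) (y : ℝ) (hy : 0 < y) (w : ℂ)
    (hw : ∀ z : ℂ, y ≤ z.im → FF f z ≠ w) (ξ : ℂ) (h0 : ξ ≠ 0) (h1 : ‖ξ‖ ≤ Real.exp (-y)) :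
    f ξ ≠ w := by
  have hpos : 0 < ‖ξ‖ := norm_pos_iff.mpr h0
  have h2 : Real.log ‖ξ‖ ≤ -y := by
    rw [← Real.log_exp (-y)]
    exact Real.log_le_log hpos h1
  have h3 : (-Complex.I * Complex.log ξ).im = -Real.log ‖ξ‖ := by
    simp [Complex.log_re]
  have h4 : Complex.exp (Complex.I * (-Complex.I * Complex.log ξ)) = ξ := by
    have : Complex.I * (-Complex.I * Complex.log ξ) = Complex.log ξ := by
      rw [← mul_assoc]
      simp
    rw [this, Complex.exp_log h0]
  have h5 := hw (-Complex.I * Complex.log ξ) (by rw [h3]; linarith)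
  rw [FF_of_pos _ _ (by rw [h3]; linarith), h4] at h5
  exact h5

/-- a function which is holomorphic on the disc and does not vanish on a smaller closed disc has
vanishing logarithmic residue -/
theorem Z1_zero (g : ℂ → ℂ) (hd : DifferentiableOn ℂ g (ball 0 1)) (R : ℝ) (hR0 : 0 < R)
    (hR1 : R < 1) (hne : ∀ ξ ∈ closedBall (0 : ℂ) R, g ξ ≠ 0) :
    (∮ ξ in C(0, R), deriv g ξ / g ξ) = 0 := by
  have hsub : closedBall (0 : ℂ) R ⊆ ball 0 1 := closedBall_subset_ball hR1
  have hd' : DifferentiableOn ℂ (deriv g) (ball 0 1) := hd.deriv isOpen_ball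
  refine Complex.circleIntegral_eq_zero_of_differentiable_on_off_countable hR0.le
    countable_empty ?_ ?_
  · exact (hd'.continuousOn.mono hsub).div (hd.continuousOn.mono hsub) hne
  · intro z hz
    have hz1 : z ∈ ball (0 : ℂ) 1 := hsub (ball_subset_closedBall hz.1)
    exact (hd'.differentiableAt (isOpen_ball.mem_nhds hz1)).div
      (hd.differentiableAt (isOpen_ball.mem_nhds hz1)) (hne z (ball_subset_closedBall hz.1))

theorem Z1_mean (f : ℂ → ℂ) (hd : DifferentiableOn ℂ f (ball 0 1)) (hi : InjOn f (ball 0 1))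
    (h0 : f 0 = 0) (y : ℝ) (hy : 0 < y) (w : ℂ)
    (hw : ∀ z : ℂ, y ≤ z.im → FF f z ≠ w) :
    ‖∮ ξ in C(0, Real.exp (-y)), deriv f ξ / (f ξ - w)‖ ≤ 2 * Real.pi := by
  have hR0 : 0 < Real.exp (-y) := Real.exp_pos _
  have hR1 : Real.exp (-y) < 1 := by
    rw [Real.exp_lt_one_iff]
    linarith
  have hsub : closedBall (0 : ℂ) (Real.exp (-y)) ⊆ ball 0 1 := closedBall_subset_ball hR1
  have hval := Z1_value f y hy w hw
  by_cases hw0 : w = 0
  · subst hw0
    have hk : DifferentiableOn ℂ (dslope f 0) (ball 0 1) :=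
      (Complex.differentiableOn_dslope (isOpen_ball.mem_nhds (mem_ball_self one_pos))).mpr hd
    have hfk : ∀ ξ, f ξ = ξ * dslope f 0 ξ := by
      intro ξ
      have := sub_smul_dslope f 0 ξ
      rw [h0, sub_zero, sub_zero, smul_eq_mul] at this
      exact this.symm
    have hkne : ∀ ξ ∈ ball (0 : ℂ) 1, dslope f 0 ξ ≠ 0 := by
      intro ξ hξ
      by_cases hξ0 : ξ = 0
      · subst hξ0
        rw [dslope_same]
        exact deriv_ne_zero_of_injOn f (ball 0 1) isOpen_ball hd hi 0 hξ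
      · intro h
        have h1 := hfk ξ
        rw [h, mul_zero] at h1
        exact hξ0 (hi hξ (mem_ball_self one_pos) (h1.trans h0.symm))
    have hsph : sphere (0 : ℂ) (Real.exp (-y)) ⊆ ball 0 1 :=
      sphere_subset_closedBall.trans hsub
    have hcong : (∮ ξ in C(0, Real.exp (-y)), deriv f ξ / (f ξ - 0)) =
        ∮ ξ in C(0, Real.exp (-y)), ((ξ - 0)⁻¹ + deriv (dslope f 0) ξ / dslope f 0 ξ) := by
      refine circleIntegral.integral_congr hR0.le ?_
      intro ξ hξ
      have hξ1 : ξ ∈ ball (0 : ℂ) 1 := hsph hξ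
      have hξ0 : ξ ≠ 0 := by
        intro h
        rw [h, mem_sphere, dist_self] at hξ
        exact hR0.ne hξ
      have hkd : DifferentiableAt ℂ (dslope f 0) ξ :=
        hk.differentiableAt (isOpen_ball.mem_nhds hξ1)
      have hder : deriv f ξ = dslope f 0 ξ + ξ * deriv (dslope f 0) ξ := by
        have h1 : HasDerivAt (fun ξ => ξ * dslope f 0 ξ)
            (1 * dslope f 0 ξ + ξ * deriv (dslope f 0) ξ) ξ :=
          (hasDerivAt_id ξ).mul hkd.hasDerivAt
        have h2 : f = fun ξ => ξ * dslope f 0 ξ := funext hfk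
        have h3 := h1.deriv
        rw [← h2, one_mul] at h3
        exact h3
      have hk0 := hkne ξ hξ1
      simp only
      rw [hder, sub_zero, sub_zero, hfk ξ]
      field_simp
    rw [hcong]
    have hint1 : CircleIntegrable (fun ξ : ℂ => (ξ - 0)⁻¹) 0 (Real.exp (-y)) := by
      refine ContinuousOn.circleIntegrable hR0.le ?_
      refine ContinuousOn.inv₀ (by fun_prop) ?_
      intro ξ hξ h
      rw [sub_zero] at h
      rw [h, mem_sphere, dist_self] at hξ
      exact hR0.ne hξ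
    have hint2 : CircleIntegrable (fun ξ : ℂ => deriv (dslope f 0) ξ / dslope f 0 ξ) 0
        (Real.exp (-y)) := by
      refine ContinuousOn.circleIntegrable hR0.le ?_
      exact ((hk.deriv isOpen_ball).continuousOn.mono hsph).div (hk.continuousOn.mono hsph)
        (fun ξ hξ => hkne ξ (hsph hξ))
    rw [circleIntegral.integral_add hint1 hint2,
      circleIntegral.integral_sub_center_inv _ hR0.ne',
      Z1_zero _ hk _ hR0 hR1 (fun ξ hξ => hkne ξ (hsub hξ)), add_zero]
    have : ‖(2 * (Real.pi : ℂ) * Complex.I)‖ = 2 * Real.pi := by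
      rw [norm_mul, Complex.norm_I, mul_one, norm_mul, Complex.norm_real,
        Real.norm_of_nonneg Real.pi_pos.le]
      simp
    exact this.le
  · have hdg : DifferentiableOn ℂ (fun ξ => f ξ - w) (ball 0 1) := hd.sub_const w
    have hne : ∀ ξ ∈ closedBall (0 : ℂ) (Real.exp (-y)), f ξ - w ≠ 0 := by
      intro ξ hξ
      rw [sub_ne_zero]
      by_cases hξ0 : ξ = 0
      · rw [hξ0, h0]
        exact fun h => hw0 h.symm
      · refine hval ξ hξ0 ?_
        rwa [mem_closedBall, dist_zero_right] at hξ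
    have h1 := Z1_zero _ hdg _ hR0 hR1 hne
    have h2 : (∮ ξ in C(0, Real.exp (-y)), deriv f ξ / (f ξ - w)) = 0 := by
      refine Eq.trans ?_ h1
      have h3 : ∀ ξ : ℂ, deriv f ξ / (f ξ - w) =
          deriv (fun ξ => f ξ - w) ξ / (f ξ - w) := by
        intro ξ
        rw [deriv_sub_const]
      simp only [h3]
    rw [h2, norm_zero]
    positivity

theorem S1_cls (f : ℂ → ℂ) (hd : DifferentiableOn ℂ f (ball 0 1)) (hi : InjOn f (ball 0 1))
    (h0 : f 0 = 0) (hb : ∀ z ∈ ball (0 : ℂ) 1, ‖f z‖ ≤ 1) :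
    Cls (FF f) 1 ∧ ∀ z : ℂ, 0 < z.im → z.im ≤ 3 → ‖FF f z‖ ≤ 1 := by
  have hsub : ball (0 : ℂ) 1 \ {0} ⊆ ball 0 1 := sdiff_subset
  have hb' : ∀ z : ℂ, 0 < z.im → ‖FF f z‖ ≤ 1 := by
    intro z hz
    rw [FF_of_pos _ _ hz]
    exact hb _ (exp_mem z hz).1
  refine ⟨⟨FF_meas f (hd.mono hsub), FF_diff f (hd.mono hsub), fun z hz => FF_per f z hz,
    fun z w hz hw h => FF_inj f (hi.mono hsub) z w hz hw h, fun z hz _ => hb' z hz, ?_⟩,
    fun z hz _ => hb' z hz⟩
  intro y hy w hw
  rw [FF_mean f (hd.mono hsub) y hy w]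
  exact Z1_mean f hd hi h0 y hy w hw

end H62.CJ
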