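import Pool.Agent.H62.CJ.Def

/-!
# CJ-A1: convex exclusion lemma

`phi z = z⁻¹ + h z` with `h` holomorphic near the closed disc `|z| <= r`.  If `phi` omits `w` on
`0 < |z| <= r` and maps the circle `|z| = r` into the closed convex set `K`, then `w ∈ K`.

PROOF.  Let `Phi z = z / (1 + z (h z - w))`.  The denominator is `1` at `z = 0`, and for `z ≠ 0` it is
`z (z⁻¹ + h z - w) ≠ 0`; so `Phi` is differentiable at every point of the closed ball, `Phi 0 = 0`, and
`Phi z = 1 / (phi z - w)` for `z ≠ 0`.  Suppose `w ∉ K`.  By the separation theorem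
(`geometric_hahn_banach_point_closed` or `geometric_hahn_banach_closed_point`) there are a continuous
real linear functional `f` on `ℂ` and `u` with `f w < u < f k` for all `k ∈ K`.  Put
`a = f 1 - i f i`, then `f x = Re (a x)` for all `x` (write `x = x.re * 1 + x.im * i`).  On `|z| = r`:
`Re (a (phi z - w)) > 0`, i.e. `Re (a / Phi z) > 0`, i.e. `Re (a * conj (Phi z)) > 0` after
multiplication with `|Phi z|^2 > 0`; hence `Re (conj a * Phi z) > 0`.
Mean value property: `Phi 0 = (1/(2 pi)) int_0^{2 pi} Phi (r e^{i t}) dt`
(`circleAverage` of a function holomorphic on the closed ball, see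
`Mathlib/Analysis/Complex/MeanValue.lean`; or `Complex.circleIntegral_sub_inv_smul...`).  The continuous
function `t ↦ Re (conj a * Phi (r e^{i t}))` is positive everywhere, so its integral over `[0, 2 pi]` is
positive (`intervalIntegral.intervalIntegral_pos_of_pos_on`), but it equals
`2 pi Re (conj a * Phi 0) = 0`, a contradiction.
-/

set_option autoImplicit false

open Set Metric MeasureTheory

namespace H62.CJ

theorem convex_exclusion (h : ℂ → ℂ) (r : ℝ) (hr : 0 < r) (K : Set ℂ) (hK : Convex ℝ K)
    (hKc : IsClosed K) (hd : ∀ z ∈ closedBall (0 : ℂ) r, DifferentiableAt ℂ h z) (w : ℂ)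
    (hw : ∀ z ∈ closedBall (0 : ℂ) r, z ≠ 0 → z⁻¹ + h z ≠ w)
    (hs : ∀ z : ℂ, ‖z‖ = r → z⁻¹ + h z ∈ K) : w ∈ K := by
  by_contra hwK
  obtain ⟨f, u, hfw, hfK⟩ := geometric_hahn_banach_point_closed hK hKc hwK
  -- the functional in the form `Re (a x)`
  set a : ℂ := ⟨f 1, -f Complex.I⟩ with ha
  have hfa : ∀ x : ℂ, f x = (a * x).re := by
    intro x
    have hx : x = x.re • (1 : ℂ) + x.im • Complex.I := by
      apply Complex.ext <;> simp
    conv_lhs => rw [hx]
    rw [map_add, map_smul, map_smul, Complex.mul_re, ha]
    simp only [smul_eq_mul]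
    ring
  -- denominator
  have hden : ∀ z ∈ closedBall (0 : ℂ) r, 1 + z * (h z - w) ≠ 0 := by
    intro z hz h0
    by_cases hz0 : z = 0
    · rw [hz0] at h0
      simp at h0
    · apply hw z hz hz0
      have h1 : z * (z⁻¹ + h z - w) = 0 := by
        have : z * (z⁻¹ + h z - w) = 1 + z * (h z - w) := by
          field_simp
          ring
        rw [this, h0]
      have h2 := (mul_eq_zero.1 h1).resolve_left hz0
      exact sub_eq_zero.1 h2
  set Phi : ℂ → ℂ := fun z => z / (1 + z * (h z - w)) with hPhi
  have hPd : ∀ z ∈ closedBall (0 : ℂ) r, DifferentiableAt ℂ Phi z := by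
    intro z hz
    have h1 := hd z hz
    have h2 : DifferentiableAt ℂ (fun z : ℂ => 1 + z * (h z - w)) z :=
      (differentiableAt_const _).add (differentiableAt_fun_id.mul (h1.sub (differentiableAt_const _)))
    exact differentiableAt_fun_id.fun_div h2 (hden z hz)
  -- positivity on the circle
  have hpos : ∀ z : ℂ, ‖z‖ = r → 0 < ((starRingEnd ℂ) a * Phi z).re := by
    intro z hz
    have hzb : z ∈ closedBall (0 : ℂ) r := by
      rw [mem_closedBall_zero_iff]
      exact hz.le
    have hz0 : z ≠ 0 := by
      intro h0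
      rw [h0, norm_zero] at hz
      exact hr.ne hz
    have h1 : 0 < (a * (z⁻¹ + h z - w)).re := by
      have h2 := hfK _ (hs z hz)
      have h3 : f w < f (z⁻¹ + h z) := lt_trans hfw h2
      have h4 : 0 < f (z⁻¹ + h z - w) := by
        rw [map_sub]
        linarith
      rwa [hfa] at h4
    set q : ℂ := z⁻¹ + h z - w with hq
    have hq0 : q ≠ 0 := by
      intro h0
      rw [h0] at h1
      simp at h1
    have hPq : Phi z = q⁻¹ := by
      have h5 : 1 + z * (h z - w) = z * q := by
        rw [hq]
        field_simp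
        ring
      rw [hPhi]
      simp only
      rw [h5]
      field_simp
    rw [hPq, Complex.inv_def, ← mul_assoc, ← map_mul, Complex.re_mul_ofReal, Complex.conj_re]
    apply mul_pos h1
    exact inv_pos.2 (Complex.normSq_pos.2 hq0)
  -- compactness: a positive minimum on the circle
  have hcs : IsCompact (sphere (0 : ℂ) r) := isCompact_sphere _ _
  have hne : (sphere (0 : ℂ) r).Nonempty := by
    refine ⟨(r : ℂ), ?_⟩
    rw [mem_sphere_zero_iff_norm, Complex.norm_real, Real.norm_eq_abs, abs_of_pos hr]
  have hcont : ContinuousOn (fun z => ((starRingEnd ℂ) a * Phi z).re) (sphere (0 : ℂ) r) := by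
    intro z hz
    have h1 := (hPd z (sphere_subset_closedBall hz)).continuousAt
    exact (Complex.continuous_re.continuousAt.comp (continuousAt_const.mul h1)).continuousWithinAt
  obtain ⟨z0, hz0, hmin⟩ := hcs.exists_isMinOn hne hcont
  set m : ℝ := ((starRingEnd ℂ) a * Phi z0).re with hm
  have hmpos : 0 < m := hpos z0 (mem_sphere_zero_iff_norm.1 hz0)
  -- maximum principle
  have hE : ∀ z ∈ closedBall (0 : ℂ) r,
      DifferentiableAt ℂ (fun z => Complex.exp (-((starRingEnd ℂ) a * Phi z))) z := by
    intro z hz
    exact (((hPd z hz).const_mul _).neg).cexp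
  have hdc : DiffContOnCl ℂ (fun z => Complex.exp (-((starRingEnd ℂ) a * Phi z)))
      (ball (0 : ℂ) r) := by
    constructor
    · intro z hz
      exact (hE z (ball_subset_closedBall hz)).differentiableWithinAt
    · rw [closure_ball _ hr.ne']
      intro z hz
      exact (hE z hz).continuousAt.continuousWithinAt
  have hmax := Complex.norm_le_of_forall_mem_frontier_norm_le (C := Real.exp (-m)) isBounded_ball hdc
    (by
      intro z hz
      rw [frontier_ball _ hr.ne'] at hz
      rw [Complex.norm_exp, Real.exp_le_exp, Complex.neg_re]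
      have := hmin hz
      simp only [mem_setOf_eq] at this
      linarith)
    (z := 0) (subset_closure (mem_ball_self hr))
  have hP0 : Phi 0 = 0 := by
    rw [hPhi]
    simp
  rw [hP0] at hmax
  simp only [mul_zero, neg_zero, Complex.exp_zero, norm_one] at hmax
  have : Real.exp (-m) < 1 := by
    rw [Real.exp_lt_one_iff]
    linarith
  linarith

end H62.CJ
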