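import Pool.Agent.H62.CJ.Def

/-!
# CJ-A5: from the Dirichlet integral to coefficients

`h` holomorphic on the unit disc, `c n = h^{(n)}(0)/n!`.  For `0 < r < 1` and every `N`:
`pi * sum_{n=1}^{N} n |c n|^2 r^{2n} <= int_{|z|<r} |h'|^2`.

PROOF.  Circle inequality (Bessel): for `0 < s < 1`,
`int_0^{2 pi} |h' (s e^{i t})|^2 dt >= 2 pi sum_{n=1}^N n^2 |c n|^2 s^{2n-2}`.
Let `Q t = sum_{n=1}^N n c_n s^{n-1} e^{i (n-1) t}` and `f t = h' (s e^{i t})`.  By Cauchy's formula
`int_0^{2 pi} f t e^{- i (n-1) t} dt = 2 pi n c_n s^{n-1}` for `n >= 1` (the Taylor coefficient of `h'` of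
order `n - 1` is `n c_n`; in Lean, `h'` has a power series on the ball of radius 1,
`DifferentiableOn.hasFPowerSeriesOnBall` / `Complex.hasFPowerSeriesOnBall...` or
`DiffContOnCl.two_pi_I_inv_smul_circleIntegral...`; another way: the power series
`f t = sum_k (k+1) c_{k+1} s^k e^{i k t}` converges uniformly in `t`, integrate term by term).
Hence `int |f - Q|^2 = int |f|^2 - 2 pi sum n^2 |c n|^2 s^{2n-2} >= 0`.
Then polar coordinates (`Complex.lintegral_comp_polarCoord_symm`):
`int_{|z|<r} |h'|^2 = int_0^r s int_{-pi}^{pi} |h' (s e^{i t})|^2 dt ds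
 >= int_0^r 2 pi sum n^2 |c n|^2 s^{2n-1} ds = pi sum n |c n|^2 r^{2n}`.
-/

set_option autoImplicit false

open Set Metric MeasureTheory

namespace H62.CJ

theorem a5_coeff (g : ℂ → ℂ) (hg : DifferentiableOn ℂ g (ball 0 1)) (s : ℝ) (hs : 0 < s)
    (hs1 : s < 1) (k : ℕ) :
    fourierCoeffOn Real.two_pi_pos (fun t : ℝ => g (circleMap 0 s t)) (k : ℤ) =
      iteratedDeriv k g 0 / (k.factorial : ℂ) * (s : ℂ) ^ k := by
  lift s to NNReal using hs.le
  have hsub : closedBall (0 : ℂ) (s : ℝ) ⊆ ball 0 1 := by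
    apply closedBall_subset_ball
    exact hs1
  have hs' : 0 < s := by exact_mod_cast hs
  have hp := (hg.mono hsub).hasFPowerSeriesOnBall hs'
  have h1 := hp.factorial_smul (1 : ℂ) k
  rw [← iteratedDeriv_eq_iteratedFDeriv, cauchyPowerSeries_apply] at h1
  rw [fourierCoeffOn_eq_integral, ← h1]
  have hk : (k.factorial : ℂ) ≠ 0 := by exact_mod_cast k.factorial_ne_zero
  have hsc : ((s : ℝ) : ℂ) ≠ 0 := by exact_mod_cast hs.ne'
  have hpi : (Real.pi : ℂ) ≠ 0 := by exact_mod_cast Real.pi_ne_zero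
  have h2 : (∮ z : ℂ in C(0, s), (1 / (z - 0)) ^ k • (z - 0)⁻¹ • g z) =
      ∫ t : ℝ in (0 : ℝ)..(2 * Real.pi),
        (Complex.I / ((s : ℝ) : ℂ) ^ k) * (Complex.exp (-(k * t * Complex.I)) * g (circleMap 0 s t)) := by
    unfold circleIntegral
    apply intervalIntegral.integral_congr
    intro t _
    have hc : circleMap 0 s t ≠ 0 := circleMap_ne_center hs.ne'
    have he : (Complex.exp (t * Complex.I)) ^ k = Complex.exp (k * t * Complex.I) := by
      rw [← Complex.exp_nat_mul]
      congr 1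
      ring
    have he2 : Complex.exp (-(k * t * Complex.I)) * Complex.exp (k * t * Complex.I) = 1 := by
      rw [← Complex.exp_add]
      simp
    have he3 : Complex.exp (k * t * Complex.I) ≠ 0 := Complex.exp_ne_zero _
    simp only [deriv_circleMap, smul_eq_mul, sub_zero]
    have h3 : circleMap 0 s t ^ k = ((s : ℝ) : ℂ) ^ k * Complex.exp (k * t * Complex.I) := by
      rw [← he, ← mul_pow]
      congr 1
      simp [circleMap]
    have h4 : (1 / circleMap 0 s t) ^ k = (1 / ((s : ℝ) : ℂ) ^ k) * Complex.exp (-(k * t * Complex.I)) := by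
      rw [div_pow, one_pow, h3, Complex.exp_neg]
      field_simp
    rw [h4]
    field_simp
  have h5 : (∫ x : ℝ in (0 : ℝ)..(2 * Real.pi),
      (fourier (-(k : ℤ))) (x : AddCircle (2 * Real.pi - 0)) • g (circleMap 0 s x)) =
      ∫ t : ℝ in (0 : ℝ)..(2 * Real.pi), Complex.exp (-(k * t * Complex.I)) * g (circleMap 0 s t) := by
    apply intervalIntegral.integral_congr
    intro t _
    simp only [fourier_coe_apply, smul_eq_mul]
    congr 2
    push_cast
    field_simp
    ring
  rw [h5, h2, intervalIntegral.integral_const_mul]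
  simp only [nsmul_eq_mul, smul_eq_mul, Complex.real_smul]
  generalize (∫ t : ℝ in (0 : ℝ)..(2 * Real.pi),
    Complex.exp (-(k * t * Complex.I)) * g (circleMap 0 s t)) = J
  push_cast
  have hI := Complex.I_ne_zero
  field_simp
  ring

theorem a5_bessel (g : ℂ → ℂ) (hg : DifferentiableOn ℂ g (ball 0 1)) (s : ℝ) (hs : 0 < s)
    (hs1 : s < 1) (N : ℕ) :
    2 * Real.pi * ∑ k ∈ Finset.range N,
      (‖iteratedDeriv k g 0‖ / (k.factorial : ℝ)) ^ 2 * s ^ (2 * k) ≤
      ∫ t in (0 : ℝ)..(2 * Real.pi), ‖g (circleMap 0 s t)‖ ^ 2 := by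
  have hc : Continuous (fun t : ℝ => g (circleMap 0 s t)) := by
    have h1 : ContinuousOn g (ball 0 1) := hg.continuousOn
    apply h1.comp_continuous (continuous_circleMap 0 s)
    intro t
    rw [mem_ball_zero_iff, norm_circleMap_zero, abs_of_pos hs]
    exact hs1
  have hL : MemLp (fun t : ℝ => g (circleMap 0 s t)) 2
      (volume.restrict (Ioc 0 (2 * Real.pi))) := by
    have h0 := (hc.continuousOn (s := Icc 0 (2 * Real.pi)))
    obtain ⟨C, hC⟩ := isCompact_Icc.exists_bound_of_continuousOn h0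
    have : IsFiniteMeasure (volume.restrict (Ioc 0 (2 * Real.pi))) := by
      constructor
      rw [Measure.restrict_apply_univ]
      exact measure_Ioc_lt_top
    apply MemLp.of_bound hc.aestronglyMeasurable C
    rw [ae_restrict_iff' measurableSet_Ioc]
    exact Filter.Eventually.of_forall fun t ht => hC t (Ioc_subset_Icc_self ht)
  have hS := hasSum_sq_fourierCoeffOn Real.two_pi_pos hL
  have h2 := sum_le_hasSum ((Finset.range N).map ⟨fun k : ℕ => (k : ℤ), Nat.cast_injective⟩)
    (fun i _ => by positivity) hS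
  rw [Finset.sum_map] at h2
  simp only [Function.Embedding.coeFn_mk, sub_zero, smul_eq_mul] at h2
  have h3 : ∀ k ∈ Finset.range N,
      ‖fourierCoeffOn Real.two_pi_pos (fun t : ℝ => g (circleMap 0 s t)) (k : ℤ)‖ ^ 2 =
      (‖iteratedDeriv k g 0‖ / (k.factorial : ℝ)) ^ 2 * s ^ (2 * k) := by
    intro k _
    rw [a5_coeff g hg s hs hs1 k, norm_mul, norm_div, norm_pow, mul_pow]
    simp only [Complex.norm_natCast, Complex.norm_real, Real.norm_eq_abs, abs_of_pos hs]
    rw [← pow_mul, mul_comm k 2]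
  rw [Finset.sum_congr rfl h3] at h2
  have hpi := Real.two_pi_pos
  calc _ ≤ 2 * Real.pi * ((2 * Real.pi)⁻¹ * ∫ t in (0 : ℝ)..(2 * Real.pi), ‖g (circleMap 0 s t)‖ ^ 2) :=
        mul_le_mul_of_nonneg_left h2 hpi.le
    _ = _ := by
        rw [← mul_assoc, mul_inv_cancel₀ hpi.ne', one_mul]

theorem a5_inner (g : ℂ → ℂ) (hg : DifferentiableOn ℂ g (ball 0 1)) (s : ℝ) (hs : 0 < s)
    (hs1 : s < 1) (N : ℕ) :
    ENNReal.ofReal (2 * Real.pi * ∑ k ∈ Finset.range N,
      (‖iteratedDeriv k g 0‖ / (k.factorial : ℝ)) ^ 2 * s ^ (2 * k)) ≤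
      ∫⁻ t in Ioo (-Real.pi) Real.pi,
        ENNReal.ofReal (‖g (s * (Real.cos t + Real.sin t * Complex.I))‖ ^ 2) := by
  have hmap : ∀ t : ℝ, (s : ℂ) * (Real.cos t + Real.sin t * Complex.I) = circleMap 0 s t := by
    intro t
    rw [circleMap, zero_add, Complex.exp_mul_I]
    push_cast
    ring
  have hc : Continuous (fun t : ℝ => ‖g (circleMap 0 s t)‖ ^ 2) := by
    have h1 : ContinuousOn g (ball 0 1) := hg.continuousOn
    apply Continuous.pow
    apply Continuous.norm
    apply h1.comp_continuous (continuous_circleMap 0 s)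
    intro t
    rw [mem_ball_zero_iff, norm_circleMap_zero, abs_of_pos hs]
    exact hs1
  have hper : Function.Periodic (fun t : ℝ => ‖g (circleMap 0 s t)‖ ^ 2) (2 * Real.pi) := by
    intro t
    simp only [periodic_circleMap 0 s t]
  have h1 := hper.intervalIntegral_add_eq (-Real.pi) 0
  have h2 : -Real.pi + 2 * Real.pi = Real.pi := by ring
  rw [h2, zero_add] at h1
  have h3 := a5_bessel g hg s hs hs1 N
  rw [← h1, intervalIntegral.integral_of_le (by linarith [Real.pi_pos]),
    MeasureTheory.integral_Ioc_eq_integral_Ioo] at h3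
  refine (ENNReal.ofReal_le_ofReal h3).trans ?_
  rw [ofReal_integral_eq_lintegral_ofReal]
  · simp only [hmap]
    exact le_refl _
  · exact (hc.integrableOn_Icc).mono_set Ioo_subset_Icc_self
  · exact Filter.Eventually.of_forall fun t => by positivity

theorem a5_outer (a : ℕ → ℝ) (r : ℝ) (N : ℕ) :
    (∫ s in (0 : ℝ)..r, s * (2 * Real.pi * ∑ k ∈ Finset.range N, a k * s ^ (2 * k))) =
      Real.pi * ∑ k ∈ Finset.range N, a k * r ^ (2 * k + 2) / (k + 1) := by
  have h1 : (fun s : ℝ => s * (2 * Real.pi * ∑ k ∈ Finset.range N, a k * s ^ (2 * k))) =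
      fun s : ℝ => ∑ k ∈ Finset.range N, (2 * Real.pi * a k) * s ^ (2 * k + 1) := by
    funext s
    rw [Finset.mul_sum, Finset.mul_sum]
    apply Finset.sum_congr rfl
    intro k _
    ring
  rw [h1, intervalIntegral.integral_finsetSum]
  · rw [Finset.mul_sum]
    apply Finset.sum_congr rfl
    intro k _
    rw [intervalIntegral.integral_const_mul, integral_pow]
    have : ((k : ℝ) + 1) ≠ 0 := by positivity
    push_cast
    have h3 : (0 : ℝ) ^ (2 * k + 1 + 1) = 0 := by
      apply zero_pow
      omega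
    rw [h3]
    field_simp
    ring
  · intro k _
    exact (by fun_prop : Continuous fun s : ℝ => (2 * Real.pi * a k) * s ^ (2 * k + 1)).intervalIntegrable _ _

theorem coeff_dirichlet (h : ℂ → ℂ) (hd : DifferentiableOn ℂ h (ball 0 1)) (r : ℝ) (hr : 0 < r)
    (hr1 : r < 1) (N : ℕ) :
    ENNReal.ofReal (Real.pi * ∑ n ∈ Finset.Icc 1 N,
      (n : ℝ) * (‖iteratedDeriv n h 0‖ / (n.factorial : ℝ)) ^ 2 * r ^ (2 * n)) ≤
    ∫⁻ z in ball (0 : ℂ) r, ENNReal.ofReal (‖deriv h z‖ ^ 2) := by
  have hg : DifferentiableOn ℂ (deriv h) (ball 0 1) := hd.deriv isOpen_ball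
  set a : ℕ → ℝ := fun k => (‖iteratedDeriv k (deriv h) 0‖ / (k.factorial : ℝ)) ^ 2 with ha
  have hsum : ∑ n ∈ Finset.Icc 1 N,
      (n : ℝ) * (‖iteratedDeriv n h 0‖ / (n.factorial : ℝ)) ^ 2 * r ^ (2 * n) =
      ∑ k ∈ Finset.range N, a k * r ^ (2 * k + 2) / (k + 1) := by
    have e : Finset.Icc 1 N = Finset.Ico 1 (N + 1) := by
      ext x
      simp only [Finset.mem_Icc, Finset.mem_Ico]
      omega
    rw [e, Finset.sum_Ico_eq_sum_range]
    simp only [Nat.add_sub_cancel]
    apply Finset.sum_congr rfl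
    intro k _
    rw [add_comm 1 k, iteratedDeriv_succ', ha]
    simp only [Nat.factorial_succ]
    have hk : (k.factorial : ℝ) ≠ 0 := by exact_mod_cast k.factorial_ne_zero
    have hk1 : ((k : ℝ) + 1) ≠ 0 := by positivity
    push_cast
    have e2 : 2 * (k + 1) = 2 * k + 2 := by ring
    rw [e2]
    field_simp
  rw [hsum, ← a5_outer a r N]
  have hmeas : Measurable (fun z : ℂ => (ball (0 : ℂ) r).indicator
      (fun z => ENNReal.ofReal (‖deriv h z‖ ^ 2)) z) := by
    apply Measurable.indicator _ measurableSet_ball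
    exact ((measurable_deriv h).norm.pow_const 2).ennreal_ofReal
  rw [← lintegral_indicator measurableSet_ball, ← Complex.lintegral_comp_polarCoord_symm]
  have htar : polarCoord.target = Ioi (0 : ℝ) ×ˢ Ioo (-Real.pi) Real.pi := rfl
  rw [htar, Measure.volume_eq_prod, ← Measure.prod_restrict]
  have hsymm : Measurable (fun p : ℝ × ℝ => Complex.polarCoord.symm p) := by
    have : (fun p : ℝ × ℝ => Complex.polarCoord.symm p) =
        fun p : ℝ × ℝ => (p.1 : ℂ) * (Real.cos p.2 + Real.sin p.2 * Complex.I) := by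
      funext p
      exact Complex.polarCoord_symm_apply p
    rw [this]
    fun_prop
  rw [lintegral_prod]
  · have hP : 0 ≤ ∫ s in (0 : ℝ)..r, s * (2 * Real.pi * ∑ k ∈ Finset.range N, a k * s ^ (2 * k)) := by
      apply intervalIntegral.integral_nonneg hr.le
      intro s hs
      have h0 : ∀ k, 0 ≤ a k := fun k => by
        rw [ha]
        positivity
      have h1 : 0 ≤ ∑ k ∈ Finset.range N, a k * s ^ (2 * k) :=
        Finset.sum_nonneg fun k _ => mul_nonneg (h0 k) (pow_nonneg hs.1 _)
      have := Real.pi_pos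
      have h2 := hs.1
      positivity
    rw [intervalIntegral.integral_of_le hr.le, MeasureTheory.integral_Ioc_eq_integral_Ioo,
      ofReal_integral_eq_lintegral_ofReal]
    · refine le_trans ?_ (lintegral_mono_set (μ := volume) (s := Ioo 0 r) (t := Ioi (0 : ℝ))
        Ioo_subset_Ioi_self)
      apply setLIntegral_mono' measurableSet_Ioo
      intro s hs
      have h0 := a5_inner (deriv h) hg s hs.1 (hs.2.trans hr1) N
      rw [ENNReal.ofReal_mul hs.1.le]
      have h3 : ∫⁻ y in Ioo (-Real.pi) Real.pi, ENNReal.ofReal (s, y).1 •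
          (ball (0 : ℂ) r).indicator (fun z => ENNReal.ofReal (‖deriv h z‖ ^ 2))
            (Complex.polarCoord.symm (s, y)) =
          ENNReal.ofReal s * ∫⁻ t in Ioo (-Real.pi) Real.pi,
            ENNReal.ofReal (‖deriv h (s * (Real.cos t + Real.sin t * Complex.I))‖ ^ 2) := by
        rw [← lintegral_const_mul']
        · apply lintegral_congr
          intro t
          rw [Complex.polarCoord_symm_apply, smul_eq_mul, indicator_of_mem]
          rw [mem_ball_zero_iff]
          have h4 := Complex.norm_polarCoord_symm (s, t)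
          rw [Complex.polarCoord_symm_apply] at h4
          rw [h4]
          simp only
          rw [abs_of_pos hs.1]
          exact hs.2
        · exact ENNReal.ofReal_ne_top
      rw [h3]
      exact mul_le_mul_right h0 _
    · apply IntegrableOn.mono_set _ (Ioo_subset_Icc_self (a := (0 : ℝ)) (b := r))
      apply Continuous.integrableOn_Icc
      fun_prop
    · rw [Filter.EventuallyLE, ae_restrict_iff' measurableSet_Ioo]
      refine Filter.Eventually.of_forall fun s hs => ?_
      have h0 : ∀ k, 0 ≤ a k := fun k => by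
        rw [ha]
        positivity
      have h1 : 0 ≤ ∑ k ∈ Finset.range N, a k * s ^ (2 * k) :=
        Finset.sum_nonneg fun k _ => mul_nonneg (h0 k) (pow_nonneg hs.1.le _)
      have := Real.pi_pos
      have h2 := hs.1
      simp only [Pi.zero_apply]
      positivity
  · apply Measurable.aemeasurable
    simp only [smul_eq_mul]
    apply Measurable.mul
    · exact measurable_fst.ennreal_ofReal
    · exact hmeas.comp hsymm

end H62.CJ
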