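import Pool.Agent.H62.CJ.A4
import Pool.Agent.H62.CJ.A5

/-!
# CJ-A6: pointwise form of the area theorem

`IsSig h`: (a) `sum_{n=1}^N n |c n|^2 <= 1` for all `N`, `c n = h^{(n)}(0)/n!`;
(b) `|h' 0| <= 1`; (c) `|h z - h 0| <= sqrt (- log (1 - |z|^2))` for `|z| < 1`.

PROOF.  (a) `coeff_dirichlet` and `dirichlet_le` give `sum_{n=1}^N n |c n|^2 r^{2n} <= 1/r^2` for all
`r < 1`; let `r -> 1` (finite sum, continuity, `le_of_tendsto`).
(b) `N = 1` in (a), `iteratedDeriv 1 h 0 = deriv h 0`.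
(c) `h z = sum c n z^n` on the ball (`hasSum` of the Taylor series, see
`Complex.hasSum_taylorSeries_on_ball` in `Mathlib/Analysis/Complex/TaylorSeries.lean`).  For each `N`:
`|sum_{n=1}^N c_n z^n| <= sqrt (sum n |c_n|^2) sqrt (sum_{n=1}^N |z|^{2n}/n) <= sqrt (- log (1-|z|^2))`
by Cauchy-Schwarz (`Finset.sum_mul_sq_le_sq_mul_sq` or `Finset.inner_mul_le_norm_mul_norm`) and
`sum_{n>=1} x^n/n = - log (1 - x)` for `0 <= x < 1` (`Real.hasSum_pow_div_log_of_abs_lt_one`; partial sums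
are smaller by nonnegativity).  Let `N -> ∞`.
-/

set_option autoImplicit false

open Set Metric MeasureTheory

namespace H62.CJ

theorem area_sum (h : ℂ → ℂ) (hS : IsSig h) (N : ℕ) :
    ∑ n ∈ Finset.Icc 1 N, (n : ℝ) * (‖iteratedDeriv n h 0‖ / (n.factorial : ℝ)) ^ 2 ≤ 1 := by
  have key : ∀ r : ℝ, 0 < r → r < 1 →
      ∑ n ∈ Finset.Icc 1 N,
        (n : ℝ) * (‖iteratedDeriv n h 0‖ / (n.factorial : ℝ)) ^ 2 * r ^ (2 * n) ≤ 1 / r ^ 2 := by
    intro r hr hr1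
    have h1 := (coeff_dirichlet h hS.diff r hr hr1 N).trans (dirichlet_le h hS r hr hr1)
    have h2 : (0 : ℝ) ≤ Real.pi / r ^ 2 := by positivity
    rw [ENNReal.ofReal_le_ofReal_iff h2] at h1
    have h3 : Real.pi / r ^ 2 = Real.pi * (1 / r ^ 2) := by ring
    rw [h3] at h1
    exact le_of_mul_le_mul_left h1 Real.pi_pos
  have hc1 : Filter.Tendsto (fun r : ℝ => ∑ n ∈ Finset.Icc 1 N,
      (n : ℝ) * (‖iteratedDeriv n h 0‖ / (n.factorial : ℝ)) ^ 2 * r ^ (2 * n))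
      (nhdsWithin 1 (Iio 1)) (nhds (∑ n ∈ Finset.Icc 1 N,
      (n : ℝ) * (‖iteratedDeriv n h 0‖ / (n.factorial : ℝ)) ^ 2 * (1 : ℝ) ^ (2 * n))) := by
    have hcont : Continuous (fun r : ℝ => ∑ n ∈ Finset.Icc 1 N,
      (n : ℝ) * (‖iteratedDeriv n h 0‖ / (n.factorial : ℝ)) ^ 2 * r ^ (2 * n)) := by
      fun_prop
    exact (hcont.tendsto 1).mono_left nhdsWithin_le_nhds
  have hc2 : Filter.Tendsto (fun r : ℝ => 1 / r ^ 2) (nhdsWithin 1 (Iio 1))
      (nhds (1 / (1 : ℝ) ^ 2)) := by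
    have hcont : ContinuousAt (fun r : ℝ => 1 / r ^ 2) 1 := by
      apply ContinuousAt.div continuousAt_const (by fun_prop)
      norm_num
    exact hcont.tendsto.mono_left nhdsWithin_le_nhds
  have hev : ∀ᶠ r : ℝ in nhdsWithin 1 (Iio 1), ∑ n ∈ Finset.Icc 1 N,
      (n : ℝ) * (‖iteratedDeriv n h 0‖ / (n.factorial : ℝ)) ^ 2 * r ^ (2 * n) ≤ 1 / r ^ 2 := by
    have h1 : ∀ᶠ r : ℝ in nhdsWithin 1 (Iio 1), r < 1 := eventually_mem_nhdsWithin
    have h0 : ∀ᶠ r : ℝ in nhdsWithin 1 (Iio 1), 0 < r :=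
      nhdsWithin_le_nhds (lt_mem_nhds (by norm_num))
    filter_upwards [h0, h1] with r hr hr1
    exact key r hr hr1
  have := le_of_tendsto_of_tendsto hc1 hc2 hev
  simpa using this

theorem area_deriv (h : ℂ → ℂ) (hS : IsSig h) : ‖deriv h 0‖ ≤ 1 := by
  have h1 := area_sum h hS 1
  simp only [Finset.Icc_self, Finset.sum_singleton, Nat.cast_one, one_mul, Nat.factorial_one,
    div_one, iteratedDeriv_one] at h1
  have h2 : (0 : ℝ) ≤ ‖deriv h 0‖ := norm_nonneg _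
  nlinarith

theorem area_pointwise (h : ℂ → ℂ) (hS : IsSig h) (z : ℂ) (hz : z ∈ ball (0 : ℂ) 1) :
    ‖h z - h 0‖ ≤ Real.sqrt (-Real.log (1 - ‖z‖ ^ 2)) := by
  have hz1 : ‖z‖ < 1 := by simpa using hz
  have hx0 : 0 ≤ ‖z‖ ^ 2 := by positivity
  have hx1 : ‖z‖ ^ 2 < 1 := by
    have := norm_nonneg z
    nlinarith
  have hT := Complex.hasSum_taylorSeries_on_ball hS.diff hz
  have hT2 : Filter.Tendsto (fun N : ℕ => ∑ n ∈ Finset.range (N + 1),
      ((n.factorial : ℂ)⁻¹ • (z - 0) ^ n • iteratedDeriv n h 0)) Filter.atTop (nhds (h z)) :=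
    (Filter.tendsto_add_atTop_iff_nat 1).2 hT.tendsto_sum_nat
  have hL := Real.hasSum_pow_div_log_of_abs_lt_one (x := ‖z‖ ^ 2) (by rw [abs_of_nonneg hx0]; exact hx1)
  have hlog : ∀ N : ℕ, ∑ n ∈ Finset.range N, (‖z‖ ^ 2) ^ (n + 1) / ((n : ℝ) + 1) ≤
      -Real.log (1 - ‖z‖ ^ 2) := fun N =>
    sum_le_hasSum _ (fun i _ => by positivity) hL
  have hpart : ∀ N : ℕ, ‖(∑ n ∈ Finset.range (N + 1),
      ((n.factorial : ℂ)⁻¹ • (z - 0) ^ n • iteratedDeriv n h 0)) - h 0‖ ≤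
      Real.sqrt (-Real.log (1 - ‖z‖ ^ 2)) := by
    intro N
    have e1 : (∑ n ∈ Finset.range (N + 1),
        ((n.factorial : ℂ)⁻¹ • (z - 0) ^ n • iteratedDeriv n h 0)) - h 0 =
        ∑ n ∈ Finset.range N,
          (((n + 1).factorial : ℂ)⁻¹ • (z - 0) ^ (n + 1) • iteratedDeriv (n + 1) h 0) := by
      rw [Finset.sum_range_succ']
      simp
    rw [e1]
    have e2 : ‖∑ n ∈ Finset.range N,
          (((n + 1).factorial : ℂ)⁻¹ • (z - 0) ^ (n + 1) • iteratedDeriv (n + 1) h 0)‖ ≤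
        ∑ n ∈ Finset.range N, (Real.sqrt ((n : ℝ) + 1) *
            (‖iteratedDeriv (n + 1) h 0‖ / ((n + 1).factorial : ℝ))) *
          (‖z‖ ^ (n + 1) / Real.sqrt ((n : ℝ) + 1)) := by
      refine (norm_sum_le _ _).trans (le_of_eq ?_)
      apply Finset.sum_congr rfl
      intro n _
      have hs : Real.sqrt ((n : ℝ) + 1) ≠ 0 := by positivity
      rw [norm_smul, norm_smul, norm_inv, norm_pow, sub_zero, Complex.norm_natCast]
      field_simp
    refine e2.trans ?_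
    apply Real.le_sqrt_of_sq_le
    refine (Finset.sum_mul_sq_le_sq_mul_sq _ _ _).trans ?_
    have e3 : ∑ n ∈ Finset.range N, (Real.sqrt ((n : ℝ) + 1) *
            (‖iteratedDeriv (n + 1) h 0‖ / ((n + 1).factorial : ℝ))) ^ 2 ≤ 1 := by
      refine le_trans (le_of_eq ?_) (area_sum h hS N)
      have e31 : ∑ n ∈ Finset.range N, (Real.sqrt ((n : ℝ) + 1) *
            (‖iteratedDeriv (n + 1) h 0‖ / ((n + 1).factorial : ℝ))) ^ 2 =
          ∑ n ∈ Finset.Ico 0 N, (((n + 1 : ℕ) : ℝ) *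
            (‖iteratedDeriv (n + 1) h 0‖ / ((n + 1).factorial : ℝ)) ^ 2) := by
        rw [Finset.range_eq_Ico]
        apply Finset.sum_congr rfl
        intro n _
        rw [mul_pow, Real.sq_sqrt (by positivity)]
        push_cast
        ring
      rw [e31, Finset.sum_Ico_add' (fun m : ℕ => (m : ℝ) *
            (‖iteratedDeriv m h 0‖ / (m.factorial : ℝ)) ^ 2) 0 N 1]
      apply Finset.sum_congr _ (fun _ _ => rfl)
      ext m
      simp only [Finset.mem_Ico, Finset.mem_Icc]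
      omega
    have e4 : ∑ n ∈ Finset.range N, (‖z‖ ^ (n + 1) / Real.sqrt ((n : ℝ) + 1)) ^ 2 ≤
        -Real.log (1 - ‖z‖ ^ 2) := by
      refine le_trans (le_of_eq ?_) (hlog N)
      apply Finset.sum_congr rfl
      intro n _
      rw [div_pow, Real.sq_sqrt (by positivity), ← pow_mul, ← pow_mul, mul_comm]
    have e5 : 0 ≤ ∑ n ∈ Finset.range N, (‖z‖ ^ (n + 1) / Real.sqrt ((n : ℝ) + 1)) ^ 2 :=
      Finset.sum_nonneg (fun i _ => sq_nonneg _)
    calc _ ≤ 1 * ∑ n ∈ Finset.range N, (‖z‖ ^ (n + 1) / Real.sqrt ((n : ℝ) + 1)) ^ 2 :=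
          mul_le_mul_of_nonneg_right e3 e5
      _ ≤ _ := by rw [one_mul]; exact e4
  have hlim : Filter.Tendsto (fun N : ℕ => ‖(∑ n ∈ Finset.range (N + 1),
      ((n.factorial : ℂ)⁻¹ • (z - 0) ^ n • iteratedDeriv n h 0)) - h 0‖) Filter.atTop
      (nhds ‖h z - h 0‖) := (hT2.sub_const (h 0)).norm
  exact le_of_tendsto' hlim hpart

end H62.CJ
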