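import Pool.Agent.H62.CJ.Z0
import Pool.Agent.H62.CJ.A1
import Pool.Agent.H62.CJ.A6

/-!
# CJ-Z2: the class S_2

`h` holomorphic on the disc, `h 0 = 0`, `z ↦ z + h (1/z)` injective on `|z| > 1`.  With `φ ξ = ξ⁻¹ + h ξ`, `FF φ` is in
`Cls` with `M = exp 4 + 1`.

PROOF.  `φ ξ = f (1/ξ)`, `f z = z + h (1/z)`, so `φ` is injective on the punctured disc: `IsSig h`.  Fields
`meas, diff, per, inj` from `Z0`.
`bdd` (for all `0 < Im z <= 3`): `ξ0 = exp (i z)`, `exp (-3) <= |ξ0| < 1`, `w = φ ξ0`.  `convex_exclusion` with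
`r = exp (-4)`, `K = closedBall 0 (exp 4 + 1)`: on `|ξ| = r`: `|ξ⁻¹ + h ξ| <= exp 4 + |h ξ - h 0|` and
`|h ξ - h 0| <= sqrt (- log (1 - r^2)) <= 1` by `area_pointwise` (`1 - r^2 >= exp (-1)`); for `0 < |ξ| <= r`:
`φ ξ ≠ w` by injectivity since `|ξ| < |ξ0|`.  So `‖w‖ <= exp 4 + 1`.
`mean`: `R = exp (-y)`; `w` omitted means `φ ξ ≠ w` for `0 < |ξ| <= R`.  `u ξ = 1 + ξ (h ξ - w)` is holomorphic on the
ball, `u ξ = ξ (φ ξ - w) ≠ 0` for `0 < |ξ| <= R`, `u 0 = 1`.  For `ξ ≠ 0` in the ball: `φ ξ - w = u ξ/ξ`, so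
`φ' ξ/(φ ξ - w) = u' ξ/u ξ - 1/ξ` (differentiate `ξ (φ ξ - w) = u ξ`).  Hence
`∮_{|ξ|=R} φ'/(φ-w) = 0 - 2 pi i`, norm `2 pi`.
-/

set_option autoImplicit false

open Set Metric MeasureTheory

namespace H62.CJ

private theorem Z2_sig {h : ℂ → ℂ} (hd : DifferentiableOn ℂ h (ball 0 1))
    (hi : InjOn (fun z : ℂ => z + h z⁻¹) {z : ℂ | 1 < ‖z‖}) : IsSig h := by
  refine ⟨hd, ?_⟩
  intro a ha b hb hab
  have key : ∀ c : ℂ, c ∈ ball (0 : ℂ) 1 \ {0} → c⁻¹ ∈ {z : ℂ | 1 < ‖z‖} := by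
    rintro c ⟨hc1, hc0⟩
    show 1 < ‖c⁻¹‖
    rw [norm_inv]
    have h1 : ‖c‖ < 1 := by simpa using hc1
    have h2 : 0 < ‖c‖ := norm_pos_iff.2 hc0
    exact (one_lt_inv₀ h2).2 h1
  have h1 := hi (key a ha) (key b hb) (by
    show a⁻¹ + h (a⁻¹)⁻¹ = b⁻¹ + h (b⁻¹)⁻¹
    rw [inv_inv, inv_inv]
    exact hab)
  exact inv_injective h1

private theorem Z2_diff {h : ℂ → ℂ} (hd : DifferentiableOn ℂ h (ball 0 1)) :
    DifferentiableOn ℂ (fun ξ => ξ⁻¹ + h ξ) (ball 0 1 \ {0}) := by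
  refine DifferentiableOn.add ?_ (hd.mono sdiff_subset)
  intro ξ hξ
  exact (differentiableAt_inv hξ.2).differentiableWithinAt

private theorem Z2_bound {h : ℂ → ℂ} (hd : DifferentiableOn ℂ h (ball 0 1)) (h0 : h 0 = 0)
    (hS : IsSig h) (z : ℂ) (hz : 0 < z.im) (hz3 : z.im ≤ 3) :
    ‖FF (fun ξ => ξ⁻¹ + h ξ) z‖ ≤ Real.exp 4 + 1 := by
  rw [FF_of_pos _ _ hz]
  set ξ0 := Complex.exp (Complex.I * z) with hξ0
  have hn : ‖ξ0‖ = Real.exp (-z.im) := norm_exp_I_mul z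
  have hm : ξ0 ∈ ball (0 : ℂ) 1 \ {0} := exp_mem z hz
  have hr0 : 0 < Real.exp (-4) := Real.exp_pos _
  have hr1 : Real.exp (-4) < 1 := by
    rw [Real.exp_lt_one_iff]
    norm_num
  have hlt : Real.exp (-4) < ‖ξ0‖ := by
    rw [hn]
    exact Real.exp_lt_exp.2 (by linarith)
  have h1 : (ξ0⁻¹ + h ξ0) ∈ closedBall (0 : ℂ) (Real.exp 4 + 1) := by
    refine convex_exclusion h (Real.exp (-4)) hr0 _ (convex_closedBall _ _) isClosed_closedBall
      ?_ _ ?_ ?_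
    · intro ξ hξ
      refine hd.differentiableAt (isOpen_ball.mem_nhds ?_)
      rw [mem_ball_zero_iff]
      rw [mem_closedBall_zero_iff] at hξ
      linarith
    · intro ξ hξ hne heq
      rw [mem_closedBall_zero_iff] at hξ
      have hξm : ξ ∈ ball (0 : ℂ) 1 \ {0} := ⟨by rw [mem_ball_zero_iff]; linarith, hne⟩
      have h2 : ξ = ξ0 := hS.inj hξm hm heq
      rw [h2] at hξ
      linarith
    · intro ξ hξ
      rw [mem_closedBall_zero_iff]
      have hξm : ξ ∈ ball (0 : ℂ) 1 := by rw [mem_ball_zero_iff]; linarith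
      have h2 := area_pointwise h hS ξ hξm
      rw [h0, sub_zero, hξ] at h2
      have h3 : Real.sqrt (-Real.log (1 - Real.exp (-4) ^ 2)) ≤ 1 := by
        refine Real.sqrt_le_iff.2 ⟨zero_le_one, ?_⟩
        rw [one_pow]
        have e2 : (2 : ℝ) ≤ Real.exp 1 := by
          have := Real.add_one_le_exp (1 : ℝ)
          linarith
        have e3 : Real.exp (-1) ≤ 1 / 2 := by
          rw [Real.exp_neg, inv_le_comm₀ (Real.exp_pos _) (by norm_num)]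
          norm_num
          linarith
        have e4 : Real.exp (-4) ≤ Real.exp (-1) := Real.exp_le_exp.2 (by norm_num)
        have e5 : Real.exp (-1) ≤ 1 - Real.exp (-4) ^ 2 := by nlinarith
        have e6 := Real.log_le_log (Real.exp_pos _) e5
        rw [Real.log_exp] at e6
        linarith
      have h4 : ‖ξ⁻¹‖ = Real.exp 4 := by
        rw [norm_inv, hξ, ← Real.exp_neg, neg_neg]
      calc ‖ξ⁻¹ + h ξ‖ ≤ ‖ξ⁻¹‖ + ‖h ξ‖ := norm_add_le _ _
        _ ≤ Real.exp 4 + 1 := by rw [h4]; linarith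
  exact mem_closedBall_zero_iff.1 h1

private theorem Z2_mean {h : ℂ → ℂ} (hd : DifferentiableOn ℂ h (ball 0 1)) (y : ℝ) (hy : 0 < y)
    (w : ℂ) (hw : ∀ z : ℂ, y ≤ z.im → FF (fun ξ => ξ⁻¹ + h ξ) z ≠ w) :
    ‖∫ x in (0 : ℝ)..(2 * Real.pi), deriv (FF (fun ξ => ξ⁻¹ + h ξ)) (pt x y) /
      (FF (fun ξ => ξ⁻¹ + h ξ) (pt x y) - w)‖ ≤ 2 * Real.pi := by
  rw [FF_mean _ (Z2_diff hd) y hy w]
  set R : ℝ := Real.exp (-y) with hR
  have hR0 : 0 < R := Real.exp_pos _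
  have hR1 : R < 1 := by
    rw [hR, Real.exp_lt_one_iff]
    linarith
  have hsub : ∀ ξ : ℂ, ‖ξ‖ ≤ R → ξ ∈ ball (0 : ℂ) 1 := by
    intro ξ hξ
    rw [mem_ball_zero_iff]
    linarith
  have homit : ∀ ξ : ℂ, ξ ≠ 0 → ‖ξ‖ ≤ R → ξ⁻¹ + h ξ ≠ w := by
    intro ξ hne hξ heq
    have him : (-Complex.I * Complex.log ξ).im = -Real.log ‖ξ‖ := by
      simp [Complex.log_re]
    have hlog : Real.log ‖ξ‖ ≤ -y := by
      have := Real.log_le_log (norm_pos_iff.2 hne) hξ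
      rwa [hR, Real.log_exp] at this
    have hy' : y ≤ (-Complex.I * Complex.log ξ).im := by
      rw [him]
      linarith
    have h1 := hw _ hy'
    rw [FF_of_pos _ _ (by linarith)] at h1
    have h2 : Complex.exp (Complex.I * (-Complex.I * Complex.log ξ)) = ξ := by
      rw [show Complex.I * (-Complex.I * Complex.log ξ) = -(Complex.I * Complex.I) * Complex.log ξ
        by ring, Complex.I_mul_I, neg_neg, one_mul, Complex.exp_log hne]
    rw [h2] at h1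
    exact h1 heq
  set u : ℂ → ℂ := fun ξ => 1 + ξ * (h ξ - w) with hu
  have hdu : DifferentiableOn ℂ u (ball 0 1) :=
    (differentiableOn_const _).add (differentiableOn_id.mul (hd.sub (differentiableOn_const _)))
  have hdu' : DifferentiableOn ℂ (deriv u) (ball 0 1) := hdu.deriv isOpen_ball
  have hu0 : ∀ ξ : ℂ, ‖ξ‖ ≤ R → u ξ ≠ 0 := by
    intro ξ hξ
    by_cases hne : ξ = 0
    · rw [hu, hne]
      simp
    · have h1 : u ξ = ξ * (ξ⁻¹ + h ξ - w) := by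
        rw [hu]
        field_simp
        ring
      rw [h1]
      exact mul_ne_zero hne (sub_ne_zero.2 (homit ξ hne hξ))
  have hdiv : ∀ ξ : ℂ, ‖ξ‖ ≤ R → DifferentiableAt ℂ (fun ξ => deriv u ξ / u ξ) ξ := by
    intro ξ hξ
    have hm := isOpen_ball.mem_nhds (hsub ξ hξ)
    exact (hdu'.differentiableAt hm).div (hdu.differentiableAt hm) (hu0 ξ hξ)
  have hI0 : (∮ ξ in C(0, R), deriv u ξ / u ξ) = 0 := by
    refine Complex.circleIntegral_eq_zero_of_differentiable_on_off_countable hR0.le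
      Set.countable_empty ?_ ?_
    · intro ξ hξ
      exact (hdiv ξ (by simpa using hξ)).continuousAt.continuousWithinAt
    · intro ξ hξ
      have h1 : ‖ξ‖ < R := by simpa using hξ.1
      exact hdiv ξ h1.le
  have hI1 : (∮ ξ in C(0, R), (ξ - 0)⁻¹) = 2 * Real.pi * Complex.I :=
    circleIntegral.integral_sub_center_inv 0 hR0.ne'
  have hcongr : (∮ ξ in C(0, R), deriv (fun ξ => ξ⁻¹ + h ξ) ξ / ((ξ⁻¹ + h ξ) - w)) =
      ∮ ξ in C(0, R), (deriv u ξ / u ξ - (ξ - 0)⁻¹) := by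
    refine circleIntegral.integral_congr hR0.le ?_
    intro ξ hξ
    have hn : ‖ξ‖ = R := by simpa using hξ
    have hne : ξ ≠ 0 := by
      intro h1
      rw [h1, norm_zero] at hn
      linarith
    have hm := isOpen_ball.mem_nhds (hsub ξ hn.le)
    have hh := (hd.differentiableAt hm).hasDerivAt
    have h1 : HasDerivAt (fun ξ : ℂ => ξ⁻¹ + h ξ) (-(ξ ^ 2)⁻¹ + deriv h ξ) ξ :=
      (hasDerivAt_inv hne).add hh
    have h2 : HasDerivAt u (0 + (1 * (h ξ - w) + ξ * deriv h ξ)) ξ := by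
      refine (hasDerivAt_const ξ (1 : ℂ)).add ?_
      exact (hasDerivAt_id ξ).mul (hh.sub_const w)
    have h3 := hu0 ξ hn.le
    have h4 : u ξ = ξ * (ξ⁻¹ + h ξ - w) := by
      rw [hu]
      field_simp
      ring
    have h5 : ξ⁻¹ + h ξ - w ≠ 0 := sub_ne_zero.2 (homit ξ hne hn.le)
    show deriv (fun ξ : ℂ => ξ⁻¹ + h ξ) ξ / ((ξ⁻¹ + h ξ) - w) = deriv u ξ / u ξ - (ξ - 0)⁻¹
    rw [h1.deriv, h2.deriv, h4, sub_zero]
    rw [div_eq_iff h5, sub_mul, div_mul_eq_mul_div, eq_sub_iff_add_eq, eq_div_iff (mul_ne_zero hne h5)]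
    field_simp
    ring
  rw [hcongr, circleIntegral.integral_sub, hI0, hI1]
  · rw [zero_sub, norm_neg]
    simp [abs_of_pos Real.pi_pos]
  · refine ContinuousOn.circleIntegrable hR0.le ?_
    intro ξ hξ
    have hn : ‖ξ‖ = R := by simpa using hξ
    exact (hdiv ξ hn.le).continuousAt.continuousWithinAt
  · refine ContinuousOn.circleIntegrable hR0.le ?_
    intro ξ hξ
    have hn : ‖ξ‖ = R := by simpa using hξ
    have hne : ξ - 0 ≠ 0 := by
      rw [sub_zero]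
      intro h1
      rw [h1, norm_zero] at hn
      linarith
    exact ((continuousAt_id.sub continuousAt_const).inv₀ hne).continuousWithinAt

theorem S2_cls (h : ℂ → ℂ) (hd : DifferentiableOn ℂ h (ball 0 1)) (h0 : h 0 = 0)
    (hi : InjOn (fun z : ℂ => z + h z⁻¹) {z : ℂ | 1 < ‖z‖}) :
    Cls (FF (fun ξ => ξ⁻¹ + h ξ)) (Real.exp 4 + 1) ∧
      ∀ z : ℂ, 0 < z.im → z.im ≤ 3 → ‖FF (fun ξ => ξ⁻¹ + h ξ) z‖ ≤ Real.exp 4 + 1 := by
  have hS := Z2_sig hd hi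
  have hφ := Z2_diff hd
  refine ⟨⟨FF_meas _ hφ, FF_diff _ hφ, fun z hz => FF_per _ z hz,
    fun z w hz hw h => FF_inj _ hS.inj z w hz hw h,
    fun z hz hz2 => Z2_bound hd h0 hS z hz (by linarith), fun y hy w hw => Z2_mean hd y hy w hw⟩,
    fun z hz hz3 => Z2_bound hd h0 hS z hz hz3⟩

end H62.CJ
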