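import Pool.Agent.H62.CJ.Z0

/-!
# CJ-Z3: coefficients and arclength in terms of the first mean

`h` holomorphic on the disc, `e` a constant, `ψ ξ = e ξ⁻¹ + h ξ`, `n >= 1`.  Then
`|h^{(n)}(0)|/n! <= (exp 1/(2 pi n)) PP (FF ψ) 1 (1/n)`.
PROOF.  `r = exp (-1/n) < 1`.  `ψ' ξ = - e ξ⁻² + h' ξ` for `ξ ≠ 0`.  `∮_{|ξ|=r} ξ^(-n-2) = 0`
(`circleIntegral.integral_sub_zpow_of_ne`), and `∮_{|ξ|=r} h' ξ ξ^(-n) dξ = 2 pi i h^{(n)}(0)/(n-1)!`: Cauchy's formula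
for the derivative of order `n - 1` of `h'` at `0` (in Mathlib: the power series of `h'` on the ball
(`DifferentiableOn.hasFPowerSeriesOnBall`, `cauchyPowerSeries`), or
`DiffContOnCl.iteratedDeriv...circleIntegral`; `iteratedDeriv (n-1) (deriv h) = iteratedDeriv n h`).
So `2 pi |h^{(n)}(0)|/(n-1)! = |∮ ψ' ξ ξ^(-n) dξ| <= int_0^{2 pi} r |ψ' (r e^{iθ})| r^(-n) dθ = r^(-n) PP (FF ψ) 1 (1/n)`
(`PP_FF`), `r^(-n) = exp 1`.  Divide by `n`.

`arc_S2`: for `f z = z + h (1/z)`, `ε > 0`: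
`int_0^{2 pi} |f' (e^ε e^{iθ})| e^ε dθ = PP (FF φ) 1 ε`, `φ ξ = ξ⁻¹ + h ξ`.
PROOF.  `f z = φ (1/z)`, `f' z = - φ' (1/z)/z^2`; for `z = e^ε e^{iθ}`: `|f' z| e^ε = |φ' (e^(-ε) e^(-iθ))| e^(-ε)`.
Substitute `θ -> 2 pi - θ` (`intervalIntegral.integral_comp_sub_left`, `circleMap` is `2 pi` periodic) and use `PP_FF`.
-/

set_option autoImplicit false

open Set Metric MeasureTheory

namespace H62.CJ

theorem Z3_hasDeriv {h : ℂ → ℂ} (hd : DifferentiableOn ℂ h (ball 0 1)) (e : ℂ) {ξ : ℂ}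
    (hξ : ξ ∈ ball (0 : ℂ) 1) (h0 : ξ ≠ 0) :
    HasDerivAt (fun ξ => e * ξ⁻¹ + h ξ) (e * -(ξ ^ 2)⁻¹ + deriv h ξ) ξ :=
  ((hasDerivAt_inv h0).const_mul e).add
    (hd.differentiableAt (isOpen_ball.mem_nhds hξ)).hasDerivAt

theorem Z3_diff {h : ℂ → ℂ} (hd : DifferentiableOn ℂ h (ball 0 1)) (e : ℂ) :
    DifferentiableOn ℂ (fun ξ => e * ξ⁻¹ + h ξ) (ball 0 1 \ {0}) := fun _ hξ =>
  (Z3_hasDeriv hd e hξ.1 (fun h => hξ.2 (mem_singleton_iff.2 h))).differentiableAt.differentiableWithinAt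

theorem Z3_contour {h : ℂ → ℂ} (hd : DifferentiableOn ℂ h (ball 0 1)) (e : ℂ) (k : ℕ) {r : ℝ}
    (hr : 0 < r) (hr1 : r < 1) :
    (∮ z in C(0, r), (1 / (z - 0) ^ (k + 1)) • deriv (fun ξ => e * ξ⁻¹ + h ξ) z) =
      (2 * Real.pi * Complex.I / k.factorial) • iteratedDeriv (k + 1) h 0 := by
  have hsub : closedBall (0 : ℂ) r ⊆ ball 0 1 := closedBall_subset_ball hr1
  have hd' : DifferentiableOn ℂ (deriv h) (ball 0 1) := hd.deriv isOpen_ball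
  have h1 := (hd'.mono hsub).circleIntegral_one_div_sub_center_pow_smul hr k
  rw [iteratedDeriv_succ', ← h1]
  have hne : ∀ z ∈ sphere (0 : ℂ) r, z ≠ 0 := by
    rintro z hz rfl
    rw [mem_sphere, dist_self] at hz
    exact hr.ne hz
  have h2 : EqOn (fun z : ℂ => (1 / (z - 0) ^ (k + 1)) • deriv (fun ξ => e * ξ⁻¹ + h ξ) z)
      (fun z : ℂ => (-e) • (z - 0) ^ (-(k + 3 : ℕ) : ℤ) + (1 / (z - 0) ^ (k + 1)) • deriv h z)
      (sphere 0 r) := by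
    intro z hz
    have hz0 := hne z hz
    have hzb : z ∈ ball (0 : ℂ) 1 := hsub (sphere_subset_closedBall hz)
    change (1 / (z - 0) ^ (k + 1)) • deriv (fun ξ => e * ξ⁻¹ + h ξ) z =
      (-e) • (z - 0) ^ (-(k + 3 : ℕ) : ℤ) + (1 / (z - 0) ^ (k + 1)) • deriv h z
    rw [(Z3_hasDeriv hd e hzb hz0).deriv, sub_zero, zpow_neg, zpow_natCast]
    simp only [smul_eq_mul]
    have h3 : z ^ (k + 3) = z ^ (k + 1) * z ^ 2 := by ring
    rw [h3]
    field_simp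
  rw [circleIntegral.integral_congr hr.le h2]
  have hc1 : CircleIntegrable (fun z : ℂ => (-e) • (z - 0) ^ (-(k + 3 : ℕ) : ℤ)) 0 r := by
    apply ContinuousOn.circleIntegrable hr.le
    have hz1 : ContinuousOn (fun z : ℂ => (z - 0) ^ (-(k + 3 : ℕ) : ℤ)) (sphere 0 r) := by
      intro z hz
      have hz0 : z - 0 ≠ 0 := by simpa using hne z hz
      exact ((continuousAt_id.sub continuousAt_const).zpow₀ _ (Or.inl hz0)).continuousWithinAt
    exact hz1.const_smul (-e)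
  have hc2 : CircleIntegrable (fun z : ℂ => (1 / (z - 0) ^ (k + 1)) • deriv h z) 0 r := by
    apply ContinuousOn.circleIntegrable hr.le
    have hz1 : ContinuousOn (fun z : ℂ => 1 / (z - 0) ^ (k + 1)) (sphere 0 r) := by
      intro z hz
      have hz0 : z - 0 ≠ 0 := by simpa using hne z hz
      exact (continuousAt_const.div ((continuousAt_id.sub continuousAt_const).pow (k + 1))
        (pow_ne_zero _ hz0)).continuousWithinAt
    exact hz1.smul (hd'.continuousOn.mono (sphere_subset_closedBall.trans hsub))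
  have h4 : (∮ z in C(0, r), (-e) • (z - 0) ^ (-(k + 3 : ℕ) : ℤ)) = 0 := by
    rw [circleIntegral.integral_smul, circleIntegral.integral_sub_zpow_of_ne, smul_zero]
    intro hh
    push_cast at hh
    omega
  rw [circleIntegral.integral_add hc1 hc2, h4, zero_add]

theorem coeff_bound (h : ℂ → ℂ) (hd : DifferentiableOn ℂ h (ball 0 1)) (e : ℂ) (n : ℕ)
    (hn : 1 ≤ n) :
    ‖iteratedDeriv n h 0‖ / (n.factorial : ℝ) ≤
      Real.exp 1 / (2 * Real.pi * n) * PP (FF (fun ξ => e * ξ⁻¹ + h ξ)) 1 (1 / n) := by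
  obtain ⟨k, rfl⟩ : ∃ k, n = k + 1 := ⟨n - 1, by omega⟩
  have hN : (0 : ℝ) < ((k + 1 : ℕ) : ℝ) := by positivity
  have hy : (0 : ℝ) < 1 / ((k + 1 : ℕ) : ℝ) := by positivity
  obtain ⟨r, hr⟩ : ∃ r, r = Real.exp (-(1 / ((k + 1 : ℕ) : ℝ))) := ⟨_, rfl⟩
  have hr0 : 0 < r := by rw [hr]; exact Real.exp_pos _
  have hr1 : r < 1 := by
    rw [hr, Real.exp_lt_one_iff]
    linarith
  have hrn : r ^ (k + 1) = Real.exp (-1) := by
    rw [hr, ← Real.exp_nat_mul]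
    congr 1
    field_simp
  have hPP := PP_FF _ (Z3_diff hd e) _ hy
  rw [← hr] at hPP
  have h1 := Z3_contour hd e k hr0 hr1
  have h2 : ‖∮ z in C(0, r), (1 / (z - 0) ^ (k + 1)) • deriv (fun ξ => e * ξ⁻¹ + h ξ) z‖ ≤
      Real.exp 1 * PP (FF (fun ξ => e * ξ⁻¹ + h ξ)) 1 (1 / ((k + 1 : ℕ) : ℝ)) := by
    unfold circleIntegral
    refine (intervalIntegral.norm_integral_le_integral_norm (by positivity)).trans ?_
    rw [hPP, ← intervalIntegral.integral_const_mul]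
    apply le_of_eq
    apply intervalIntegral.integral_congr
    intro θ _
    change ‖deriv (circleMap 0 r) θ • ((1 / (circleMap 0 r θ - 0) ^ (k + 1)) •
      deriv (fun ξ => e * ξ⁻¹ + h ξ) (circleMap 0 r θ))‖ =
      Real.exp 1 * (‖deriv (fun ξ => e * ξ⁻¹ + h ξ) (circleMap 0 r θ)‖ * r)
    rw [norm_smul, norm_smul, deriv_circleMap, norm_mul, Complex.norm_I, mul_one, sub_zero,
      norm_div, norm_one, norm_pow, norm_circleMap_zero, abs_of_pos hr0, hrn, Real.exp_neg]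
    simp only [one_div, inv_inv]
    ring
  rw [h1, norm_smul] at h2
  have h3 : ‖(2 * Real.pi * Complex.I / k.factorial : ℂ)‖ = 2 * Real.pi / k.factorial := by
    rw [norm_div, norm_mul, norm_mul, Complex.norm_I, Complex.norm_real, Complex.norm_natCast,
      Real.norm_eq_abs, abs_of_pos Real.pi_pos]
    norm_num
  rw [h3] at h2
  have hk : (0 : ℝ) < (k.factorial : ℝ) := by exact_mod_cast k.factorial_pos
  have hf : (((k + 1).factorial : ℕ) : ℝ) = ((k + 1 : ℕ) : ℝ) * k.factorial := by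
    rw [Nat.factorial_succ]
    push_cast
    ring
  rw [hf, div_le_iff₀ (by positivity)]
  have hpi := Real.pi_pos
  have h4 : 2 * Real.pi / (k.factorial : ℝ) * ‖iteratedDeriv (k + 1) h 0‖ *
      (k.factorial / (2 * Real.pi)) ≤
      Real.exp 1 * PP (FF (fun ξ => e * ξ⁻¹ + h ξ)) 1 (1 / ((k + 1 : ℕ) : ℝ)) *
      (k.factorial / (2 * Real.pi)) :=
    mul_le_mul_of_nonneg_right h2 (by positivity)
  have h5 : 2 * Real.pi / (k.factorial : ℝ) * ‖iteratedDeriv (k + 1) h 0‖ *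
      (k.factorial / (2 * Real.pi)) = ‖iteratedDeriv (k + 1) h 0‖ := by
    field_simp
  rw [h5] at h4
  refine h4.trans (le_of_eq ?_)
  field_simp

theorem arc_S2 (h : ℂ → ℂ) (hd : DifferentiableOn ℂ h (ball 0 1)) (ε : ℝ) (hε : 0 < ε) :
    ∫ θ in (0 : ℝ)..(2 * Real.pi),
      ‖deriv (fun z : ℂ => z + h z⁻¹) (circleMap 0 (Real.exp ε) θ)‖ * Real.exp ε =
    PP (FF (fun ξ => ξ⁻¹ + h ξ)) 1 ε := by
  have e1 : (fun ξ : ℂ => ξ⁻¹ + h ξ) = fun ξ => 1 * ξ⁻¹ + h ξ := by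
    funext ξ
    rw [one_mul]
  rw [e1, PP_FF _ (Z3_diff hd 1) ε hε]
  obtain ⟨G, hG⟩ : ∃ G : ℝ → ℝ, G = fun θ => ‖deriv (fun ξ => 1 * ξ⁻¹ + h ξ)
    (circleMap 0 (Real.exp (-ε)) θ)‖ * Real.exp (-ε) := ⟨_, rfl⟩
  have hGp : Function.Periodic G (2 * Real.pi) := by
    intro θ
    rw [hG]
    change ‖deriv (fun ξ => 1 * ξ⁻¹ + h ξ) (circleMap 0 (Real.exp (-ε)) (θ + 2 * Real.pi))‖ *
      Real.exp (-ε) = ‖deriv (fun ξ => 1 * ξ⁻¹ + h ξ) (circleMap 0 (Real.exp (-ε)) θ)‖ *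
      Real.exp (-ε)
    rw [periodic_circleMap 0 (Real.exp (-ε)) θ]
  have h1 : ∫ θ in (0 : ℝ)..(2 * Real.pi), G (-θ) = ∫ θ in (0 : ℝ)..(2 * Real.pi), G θ := by
    rw [intervalIntegral.integral_comp_neg]
    have h2 := hGp.intervalIntegral_add_eq (-(2 * Real.pi)) 0
    rw [neg_add_cancel, zero_add] at h2
    rw [neg_zero]
    exact h2
  have h3 : (∫ θ in (0 : ℝ)..(2 * Real.pi), ‖deriv (fun ξ => 1 * ξ⁻¹ + h ξ)
    (circleMap 0 (Real.exp (-ε)) θ)‖ * Real.exp (-ε)) = ∫ θ in (0 : ℝ)..(2 * Real.pi), G θ := by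
    rw [hG]
  rw [h3, ← h1]
  apply intervalIntegral.integral_congr
  intro θ _
  rw [hG]
  change ‖deriv (fun z : ℂ => z + h z⁻¹) (circleMap 0 (Real.exp ε) θ)‖ * Real.exp ε =
    ‖deriv (fun ξ => 1 * ξ⁻¹ + h ξ) (circleMap 0 (Real.exp (-ε)) (-θ))‖ * Real.exp (-ε)
  have hz : (circleMap 0 (Real.exp ε) θ)⁻¹ = circleMap 0 (Real.exp (-ε)) (-θ) := by
    unfold circleMap
    rw [zero_add, zero_add, mul_inv, ← Complex.exp_neg, Real.exp_neg]
    push_cast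
    rw [neg_mul]
  have hn : ‖circleMap 0 (Real.exp ε) θ‖ = Real.exp ε := by
    rw [norm_circleMap_zero, abs_of_pos (Real.exp_pos _)]
  obtain ⟨z, hzd⟩ : ∃ z, z = circleMap 0 (Real.exp ε) θ := ⟨_, rfl⟩
  rw [← hz, ← hzd]
  rw [← hzd] at hn
  have hz0 : z ≠ 0 := by
    intro h0
    rw [h0, norm_zero] at hn
    exact (Real.exp_pos ε).ne hn
  have hzi : z⁻¹ ∈ ball (0 : ℂ) 1 := by
    rw [mem_ball_zero_iff, norm_inv, hn, ← Real.exp_neg, Real.exp_lt_one_iff]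
    linarith
  have hf : HasDerivAt (fun z : ℂ => z + h z⁻¹) (1 + deriv h z⁻¹ * -(z ^ 2)⁻¹) z :=
    (hasDerivAt_id z).add ((hd.differentiableAt (isOpen_ball.mem_nhds hzi)).hasDerivAt.comp z
      (hasDerivAt_inv hz0))
  rw [hf.deriv, (Z3_hasDeriv hd 1 hzi (inv_ne_zero hz0)).deriv]
  have h5 : (1 + deriv h z⁻¹ * -(z ^ 2)⁻¹ : ℂ) =
      -((1 * -(z⁻¹ ^ 2)⁻¹ + deriv h z⁻¹) * (z ^ 2)⁻¹) := by
    field_simp
    ring
  rw [h5, norm_neg, norm_mul, norm_inv, norm_pow, hn, mul_assoc]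
  congr 1
  rw [Real.exp_neg]
  have := Real.exp_pos ε
  field_simp

end H62.CJ
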