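import Pool.Agent.H62.CJ.Def

/-!
# CJ-A7: the Laurent expansion of 1/g

`g` in the class `IsS`.  There is `h` with `IsSig h`, `(g z)⁻¹ = z⁻¹ + h z` for `0 < |z| < 1`, and
`h 0 = - g''(0)/2`.

PROOF.  Let `k = dslope g 0` (so `g z = z * k z`, `k 0 = deriv g 0 = 1`), holomorphic on the ball
(`Complex.differentiableOn_dslope`, the ball is a neighbourhood of `0`).  `k z ≠ 0` on the ball: for
`z ≠ 0`, `g z ≠ g 0 = 0` by injectivity.  Let `h z = - (dslope k 0 z) / k z`, holomorphic on the ball.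
For `z ≠ 0`: `dslope k 0 z = (k z - 1)/z`, so `z⁻¹ + h z = z⁻¹ - (k z - 1)/(z k z) = 1/(z k z) = (g z)⁻¹`.
Injectivity on the punctured ball follows from injectivity of `g` (`inv_injective`).
Value at `0`: `h 0 = - deriv k 0`, and `deriv k 0 = g''(0)/2`: on the ball `g = z * k z`, so
`deriv g z = k z + z * deriv k z` (open set), hence
`deriv (deriv g) 0 = deriv k 0 + (deriv k 0 + 0 * ...) = 2 deriv k 0` (product rule; `deriv k` is
differentiable at `0` because `k` is analytic on the ball).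
-/

set_option autoImplicit false

open Set Metric MeasureTheory

namespace H62.CJ

theorem sig_of_S (g : ℂ → ℂ) (hg : IsS g) :
    ∃ h : ℂ → ℂ, IsSig h ∧ (∀ z ∈ ball (0 : ℂ) 1, z ≠ 0 → (g z)⁻¹ = z⁻¹ + h z) ∧
      h 0 = -(deriv (deriv g) 0 / 2) := by
  have hop : IsOpen (ball (0:ℂ) 1) := isOpen_ball
  have h0m : (0:ℂ) ∈ ball (0:ℂ) 1 := mem_ball_self one_pos
  have hnb : ball (0:ℂ) 1 ∈ nhds (0:ℂ) := ball_mem_nhds 0 one_pos
  obtain ⟨k, hk⟩ : ∃ k, k = dslope g 0 := ⟨_, rfl⟩
  have hkd : DifferentiableOn ℂ k (ball 0 1) := by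
    rw [hk]; exact (Complex.differentiableOn_dslope hnb).2 hg.diff
  have hgk : ∀ z, g z = z * k z := by
    intro z
    have h1 := sub_smul_dslope g 0 z
    rw [hg.zero, ← hk, smul_eq_mul, sub_zero, sub_zero] at h1
    exact h1.symm
  have hk0 : k 0 = 1 := by rw [hk, dslope_same, hg.one]
  have hkne : ∀ z ∈ ball (0:ℂ) 1, k z ≠ 0 := by
    intro z hz hz0
    by_cases h : z = 0
    · rw [h, hk0] at hz0; exact one_ne_zero hz0
    · apply h
      apply hg.inj hz h0m
      rw [hg.zero, hgk z, hz0, mul_zero]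
  obtain ⟨d, hd⟩ : ∃ d, d = dslope k 0 := ⟨_, rfl⟩
  have hdd : DifferentiableOn ℂ d (ball 0 1) := by
    rw [hd]; exact (Complex.differentiableOn_dslope hnb).2 hkd
  have hkd2 : ∀ z, k z = 1 + z * d z := by
    intro z
    have h1 := sub_smul_dslope k 0 z
    rw [hk0, ← hd, smul_eq_mul, sub_zero] at h1
    rw [h1]; ring
  have hinv : ∀ z ∈ ball (0 : ℂ) 1, z ≠ 0 → (g z)⁻¹ = z⁻¹ + -(d z) / k z := by
    intro z hz hz0
    have h1 := hkne z hz
    rw [hgk z]
    field_simp
    rw [hkd2 z]; ring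
  refine ⟨fun z => -(d z) / k z, ⟨?_, ?_⟩, hinv, ?_⟩
  · exact hdd.neg.div hkd hkne
  · intro z hz w hw hzw
    have h1 : z ≠ 0 := hz.2
    have h2 : w ≠ 0 := hw.2
    have h3 : (g z)⁻¹ = (g w)⁻¹ := by
      rw [hinv z hz.1 h1, hinv w hw.1 h2]
      exact hzw
    exact hg.inj hz.1 hw.1 (inv_injective h3)
  · have hd0 : d 0 = deriv k 0 := by rw [hd, dslope_same]
    have hder : ∀ z ∈ ball (0:ℂ) 1, deriv g z = k z + z * deriv k z := by
      intro z hz
      have h1 : g = fun z => z * k z := funext hgk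
      have h2 : HasDerivAt k (deriv k z) z :=
        ((hkd z hz).differentiableAt (hop.mem_nhds hz)).hasDerivAt
      have h3 := (hasDerivAt_id z).mul h2
      rw [h1]
      have h4 := h3.deriv
      simp only [id, one_mul] at h4
      rw [← h4]
      rfl
    have hdk : DifferentiableOn ℂ (deriv k) (ball 0 1) := hkd.deriv hop
    have h5 : deriv (deriv g) 0 = deriv (fun z => k z + z * deriv k z) 0 := by
      apply Filter.EventuallyEq.deriv_eq
      filter_upwards [hnb] with z hz using hder z hz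
    have h6 : HasDerivAt k (deriv k 0) 0 :=
      ((hkd 0 h0m).differentiableAt hnb).hasDerivAt
    have h7 : HasDerivAt (deriv k) (deriv (deriv k) 0) 0 :=
      ((hdk 0 h0m).differentiableAt hnb).hasDerivAt
    have h8 := h6.add ((hasDerivAt_id (0:ℂ)).mul h7)
    have h9 : deriv (fun z => k z + z * deriv k z) 0 = deriv k 0 + (1 * deriv k 0 + 0 * deriv (deriv k) 0) := h8.deriv
    rw [h5, h9]
    show -(d 0) / k 0 = _
    rw [hk0, hd0]; ring

end H62.CJ
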