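import Pool.Agent.H62.CJ.A6
import Pool.Agent.H62.CJ.A7

/-!
# CJ-A8: Bieberbach's inequality for the second coefficient

`IsS g` implies `|g''(0)| <= 4`.

PROOF.  `k = dslope g 0` is holomorphic and nonvanishing on the ball, `k 0 = 1`, `g z = z k z`
(as in `A7`).  The ball is simply connected (convex), so there is a continuous `q` on the ball with
`q z ^ 2 = k z` (`Complex.exists_continuousOn_pow_eq` in `Mathlib/Analysis/Complex/BranchLogRoot.lean`);
replacing `q` by `-q` we may assume `q 0 = 1`.  `q` is holomorphic on the ball: it is continuous, nonzero,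
and `q^2` is holomorphic, so locally `q` is the composition with the inverse of the local
homeomorphism `u ↦ u^2` (`HasStrictDerivAt.of_local_left_inverse` or `HasDerivAt.of_local_left_inverse`;
model: the proof of `exists_injective_not_dense_image_deriv_ne_zero` in
`Mathlib/Analysis/Complex/RiemannMapping.lean`; another way: take a holomorphic logarithm of `k` with
`exists_continuousOn_eqOn_exp_comp`, or a primitive of `k'/k` on the ball via
`Mathlib/Analysis/Complex/HasPrimitives.lean` and put `q = exp (primitive/2)`).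
Put `G z = z * q (z^2)` on the ball (`z^2` is in the ball).  Then `G z ^ 2 = z^2 k (z^2) = g (z^2)`, `G 0 = 0`,
`deriv G 0 = q 0 = 1`, and `G (-z) = - G z`.
`G` is injective on the ball: `G z1 = G z2` gives `g (z1^2) = g (z2^2)`, so `z1^2 = z2^2`; if `z1 = - z2`
then `G z2 = G z1 = - G z2`, so `G z2 = 0`, so `z2 * q (z2^2) = 0`, `z2 = 0 = z1`.
So `IsS G`.  Let `h` be the function of `sig_of_S G`; `|deriv h 0| <= 1` by `area_deriv`.
Compute `deriv h 0`.  For `0 < |z| < 1`: `h z = 1/(z q(z^2)) - 1/z = (1 - q(z^2))/(z q(z^2))`.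
With `m = dslope q 0` (`q z - 1 = z m z`, `m 0 = q' 0`): `q(z^2) - 1 = z^2 m(z^2)`, so
`h z = - z m(z^2)/q(z^2)` for `z ≠ 0`; both sides are continuous at `0`, so it also holds at `0`, and
`deriv h 0 = - m 0 / q 0 = - q' 0`.  From `q^2 = k` on the ball: `2 q 0 q' 0 = k' 0`, so
`q' 0 = k' 0 / 2 = g''(0)/4` (`k' 0 = g''(0)/2` as in `A7`).  Hence `|g''(0)|/4 <= 1`.
-/

set_option autoImplicit false

open Set Metric MeasureTheory

namespace H62.CJ

/-- a holomorphic square root of a nonvanishing function on the disc -/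
theorem A8_sqrt (u : ℂ → ℂ) (hud : DifferentiableOn ℂ u (ball 0 1))
    (hune : ∀ z ∈ ball (0:ℂ) 1, u z ≠ 0) (hu0 : u 0 = 1) :
    ∃ q : ℂ → ℂ, DifferentiableOn ℂ q (ball 0 1) ∧ (∀ z ∈ ball (0:ℂ) 1, q z ^ 2 = u z) ∧
      q 0 = 1 := by
  have h0m : (0:ℂ) ∈ ball (0:ℂ) 1 := mem_ball_self one_pos
  have hd1 : DifferentiableOn ℂ (deriv u) (ball 0 1) := hud.deriv isOpen_ball
  have hq : DifferentiableOn ℂ (fun z => deriv u z / u z) (ball 0 1) := hd1.div hud hune
  obtain ⟨L, hL⟩ := hq.isExactOn_ball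
  have hE : ∀ z ∈ ball (0:ℂ) 1,
      HasDerivAt (fun z => u z * Complex.exp (-(L z - L 0))) 0 z := by
    intro z hz
    have h1 := (hud.differentiableAt (isOpen_ball.mem_nhds hz)).hasDerivAt
    have h2 : HasDerivAt (fun z => Complex.exp (-(L z - L 0)))
        (Complex.exp (-(L z - L 0)) * (-(deriv u z / u z))) z :=
      (((hL z hz).sub_const (L 0)).neg).cexp
    have h3 := h1.mul h2
    have h4 : deriv u z * Complex.exp (-(L z - L 0)) +
        u z * (Complex.exp (-(L z - L 0)) * (-(deriv u z / u z))) = 0 := by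
      have := hune z hz
      field_simp
      ring
    rw [h4] at h3
    exact h3
  have hconst : ∀ z ∈ ball (0:ℂ) 1, u z * Complex.exp (-(L z - L 0)) = 1 := by
    intro z hz
    have := isOpen_ball.is_const_of_deriv_eq_zero (convex_ball (0:ℂ) 1).isPreconnected
      (fun w hw => (hE w hw).differentiableAt.differentiableWithinAt)
      (fun w hw => (hE w hw).deriv) hz h0m
    rw [this]
    simp [hu0]
  refine ⟨fun z => Complex.exp ((L z - L 0) / 2), ?_, ?_, ?_⟩
  · intro z hz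
    exact ((((hL z hz).sub_const (L 0)).div_const 2).cexp).differentiableAt.differentiableWithinAt
  · intro z hz
    show Complex.exp ((L z - L 0) / 2) ^ 2 = u z
    rw [← Complex.exp_nat_mul]
    have h1 : ((2:ℕ):ℂ) * ((L z - L 0) / 2) = L z - L 0 := by push_cast; ring
    rw [h1]
    have h2 := hconst z hz
    rw [Complex.exp_neg] at h2
    field_simp at h2
    exact h2.symm
  · simp

theorem bieberbach (g : ℂ → ℂ) (hg : IsS g) : ‖deriv (deriv g) 0‖ ≤ 4 := by
  have hnh : ball (0:ℂ) 1 ∈ nhds (0:ℂ) := ball_mem_nhds 0 one_pos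
  have h0m : (0:ℂ) ∈ ball (0:ℂ) 1 := mem_ball_self one_pos
  obtain ⟨u, hu⟩ : ∃ u : ℂ → ℂ, u = dslope g 0 := ⟨_, rfl⟩
  have hud : DifferentiableOn ℂ u (ball 0 1) := by
    rw [hu]; exact (Complex.differentiableOn_dslope hnh).2 hg.diff
  have hu0 : u 0 = 1 := by rw [hu, dslope_same, hg.one]
  have hgu : ∀ z, g z = z * u z := by
    intro z
    have := sub_smul_dslope g 0 z
    rw [hg.zero, sub_zero, sub_zero, smul_eq_mul] at this
    rw [hu]
    exact this.symm
  have hune : ∀ z ∈ ball (0:ℂ) 1, u z ≠ 0 := by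
    intro z hz hz0
    by_cases hzz : z = 0
    · rw [hzz, hu0] at hz0
      exact one_ne_zero hz0
    · have : g z = g 0 := by rw [hgu z, hz0, mul_zero, hg.zero]
      exact hzz (hg.inj hz h0m this)
  obtain ⟨q, hqd, hqs, hq0⟩ := A8_sqrt u hud hune hu0
  have hqne : ∀ z ∈ ball (0:ℂ) 1, q z ≠ 0 := by
    intro z hz h0
    have := hqs z hz
    rw [h0] at this
    exact hune z hz (by rw [← this]; norm_num)
  have hsq : ∀ z ∈ ball (0:ℂ) 1, z ^ 2 ∈ ball (0:ℂ) 1 := by
    intro z hz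
    rw [mem_ball_zero_iff] at hz ⊢
    rw [norm_pow]
    exact pow_lt_one₀ (norm_nonneg _) hz (by norm_num)
  have hq2d : DifferentiableOn ℂ (fun z => q (z ^ 2)) (ball 0 1) := by
    refine hqd.comp ?_ hsq
    exact (differentiable_id.pow 2).differentiableOn
  obtain ⟨G, hG⟩ : ∃ G : ℂ → ℂ, G = fun z => z * q (z ^ 2) := ⟨_, rfl⟩
  have hGz : ∀ z, G z = z * q (z ^ 2) := fun z => by rw [hG]
  have hGd : DifferentiableOn ℂ G (ball 0 1) := by
    rw [hG]; exact differentiableOn_id.mul hq2d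
  have hG2 : ∀ z ∈ ball (0:ℂ) 1, G z ^ 2 = g (z ^ 2) := by
    intro z hz
    rw [hGz, hgu (z ^ 2), mul_pow, hqs _ (hsq z hz)]
  have hGS : IsS G := by
    refine ⟨hGd, ?_, ?_, ?_⟩
    · intro z₁ h1 z₂ h2 h12
      have h3 : g (z₁ ^ 2) = g (z₂ ^ 2) := by rw [← hG2 z₁ h1, ← hG2 z₂ h2, h12]
      have h4 := hg.inj (hsq z₁ h1) (hsq z₂ h2) h3
      rcases sq_eq_sq_iff_eq_or_eq_neg.1 h4 with h5 | h5
      · exact h5
      · have h6 : G z₁ = - G z₂ := by
          rw [hGz, hGz, h5]; ring_nf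
        have h7 : G z₂ = 0 := by
          have : G z₂ = - G z₂ := h12.symm.trans h6
          linear_combination (1/2 : ℂ) * this
        rw [hGz] at h7
        rcases mul_eq_zero.1 h7 with h8 | h8
        · rw [h5, h8, neg_zero]
        · exact absurd h8 (hqne _ (hsq z₂ h2))
    · rw [hGz, zero_mul]
    · have h1 : HasDerivAt (fun z => z * q (z ^ 2))
          (1 * q (0 ^ 2) + 0 * deriv (fun z => q (z ^ 2)) 0) 0 :=
        (hasDerivAt_id (0:ℂ)).mul (hq2d.differentiableAt hnh).hasDerivAt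
      rw [hG, h1.deriv]
      simp [hq0]
  obtain ⟨h, hhS, hhG, -⟩ := sig_of_S G hGS
  have hle := area_deriv h hhS
  -- m = dslope q 0
  obtain ⟨m, hm⟩ : ∃ m : ℂ → ℂ, m = dslope q 0 := ⟨_, rfl⟩
  have hmd : DifferentiableOn ℂ m (ball 0 1) := by
    rw [hm]; exact (Complex.differentiableOn_dslope hnh).2 hqd
  have hm0 : m 0 = deriv q 0 := by rw [hm, dslope_same]
  have hqm : ∀ z, q z = 1 + z * m z := by
    intro z
    have := sub_smul_dslope q 0 z
    rw [hq0, sub_zero, smul_eq_mul, ← hm] at this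
    rw [this]; ring
  have hm2d : DifferentiableOn ℂ (fun z => m (z ^ 2)) (ball 0 1) := by
    refine hmd.comp ?_ hsq
    exact (differentiable_id.pow 2).differentiableOn
  have hhm : ∀ z ∈ ball (0:ℂ) 1, z ≠ 0 → h z = z * (-(m (z ^ 2)) / q (z ^ 2)) := by
    intro z hz hz0
    have h1 := hhG z hz hz0
    have h2 : h z = (G z)⁻¹ - z⁻¹ := by rw [h1]; ring
    have h3 := hqne _ (hsq z hz)
    rw [h2, hGz]
    have h4 := hqm (z ^ 2)
    field_simp
    rw [h4]; ring
  have hR : DifferentiableOn ℂ (fun z => -(m (z ^ 2)) / q (z ^ 2)) (ball 0 1) :=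
    hm2d.neg.div hq2d (fun z hz => hqne _ (hsq z hz))
  have hRd : HasDerivAt (fun z : ℂ => z * (-(m (z ^ 2)) / q (z ^ 2)))
      (1 * (-(m (0 ^ 2)) / q (0 ^ 2)) + 0 * deriv (fun z => -(m (z ^ 2)) / q (z ^ 2)) 0) 0 :=
    (hasDerivAt_id (0:ℂ)).mul (hR.differentiableAt hnh).hasDerivAt
  -- h = R near 0 : equality on punctured nbhd + continuity
  have hev : h =ᶠ[nhds 0] fun z : ℂ => z * (-(m (z ^ 2)) / q (z ^ 2)) := by
    have h1 : ∀ᶠ z in nhdsWithin (0:ℂ) {0}ᶜ, h z = z * (-(m (z ^ 2)) / q (z ^ 2)) := by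
      have h2 : ∀ᶠ z in nhdsWithin (0:ℂ) {0}ᶜ, z ∈ ball (0:ℂ) 1 := mem_nhdsWithin_of_mem_nhds hnh
      have h3 : ∀ᶠ z in nhdsWithin (0:ℂ) {0}ᶜ, z ≠ 0 := eventually_mem_nhdsWithin
      filter_upwards [h2, h3] with z hz hz0 using hhm z hz hz0
    have hc1 : ContinuousAt h 0 := (hhS.diff.differentiableAt hnh).continuousAt
    have hc2 : ContinuousAt (fun z : ℂ => z * (-(m (z ^ 2)) / q (z ^ 2))) 0 := hRd.continuousAt
    have h4 : h 0 = (fun z : ℂ => z * (-(m (z ^ 2)) / q (z ^ 2))) 0 := by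
      refine tendsto_nhds_unique (f := h) (l := nhdsWithin (0:ℂ) {0}ᶜ) ?_ ?_
      · exact hc1.tendsto.mono_left nhdsWithin_le_nhds
      · refine Filter.Tendsto.congr' ?_ (hc2.tendsto.mono_left nhdsWithin_le_nhds)
        filter_upwards [h1] with z hz using hz.symm
    rw [eventually_nhdsWithin_iff] at h1
    filter_upwards [h1] with z hz
    by_cases hz0 : z = 0
    · rw [hz0]; exact h4
    · exact hz hz0
  have hdh : deriv h 0 = - deriv q 0 := by
    rw [hev.deriv_eq, hRd.deriv]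
    have h00 : (0:ℂ) ^ 2 = 0 := by norm_num
    rw [h00, hm0, hq0]; ring
  -- q^2 = u: 2 q'(0) = u'(0)
  have hdu : deriv u 0 = 2 * deriv q 0 := by
    have h1 : u =ᶠ[nhds 0] fun z => q z ^ 2 :=
      Filter.eventually_of_mem hnh (fun z hz => (hqs z hz).symm)
    have h2 := ((hqd.differentiableAt hnh).hasDerivAt).pow 2
    rw [h1.deriv_eq]
    have h3 : deriv (fun z => q z ^ 2) 0 = _ := h2.deriv
    rw [h3, hq0]; norm_num
  have hua : AnalyticAt ℂ u 0 := hud.analyticAt hnh
  have hddg : deriv (deriv g) 0 = 2 * deriv u 0 := by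
    have hg1 : ∀ z ∈ ball (0:ℂ) 1, deriv g z = u z + z * deriv u z := by
      intro z hz
      have hgf : g = fun z => z * u z := funext hgu
      have hdu : DifferentiableAt ℂ u z := hud.differentiableAt (isOpen_ball.mem_nhds hz)
      have h3 : HasDerivAt (fun z => z * u z) (1 * u z + z * deriv u z) z :=
        (hasDerivAt_id z).mul hdu.hasDerivAt
      conv_lhs => rw [hgf]
      rw [h3.deriv]; ring
    have hev : deriv g =ᶠ[nhds 0] fun z => u z + z * deriv u z :=
      Filter.eventually_of_mem hnh hg1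
    have hdd : DifferentiableAt ℂ (deriv u) 0 := hua.deriv.differentiableAt
    have h4 : HasDerivAt (fun z => u z + z * deriv u z)
        (deriv u 0 + (1 * deriv u 0 + 0 * deriv (deriv u) 0)) 0 :=
      hua.differentiableAt.hasDerivAt.add ((hasDerivAt_id (0:ℂ)).mul hdd.hasDerivAt)
    rw [hev.deriv_eq, h4.deriv]
    ring
  have hfin : deriv (deriv g) 0 = -4 * deriv h 0 := by
    rw [hddg, hdu, hdh]; ring
  rw [hfin, norm_mul, norm_neg]
  have h4 : ‖(4:ℂ)‖ = 4 := by norm_num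
  rw [h4]
  linarith

end H62.CJ
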