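import Pool.Agent.H62.CJ.A1

/-!
# CJ-A2: upper bound for the area of the image of an annulus

`volume_image_le` (pure linear algebra): the map `u ↦ a u + b conj u` (`a` real positive, `b` complex,
`|b| <= a`) maps the closed ball of radius `s` onto a set of area at most `pi s^2 a^2`.
PROOF.  It is a real linear map `L` of `ℂ` with determinant `a^2 - |b|^2` (compute the determinant of
the matrix in the basis `Complex.basisOneI`: with `b = b1 + i b2` the matrix is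
`[[a + b1, b2], [b2, a - b1]]`), and `|det| = a^2 - |b|^2 <= a^2`.  Use
`MeasureTheory.Measure.addHaar_image_linearMap` and `Complex.volume_closedBall`.

`area_upper`.  Let `phi z = z⁻¹ + h z`, `IsSig h`, `c0 = h 0`, `c1 = h' 0`.  There are `C, δ0` such that for
`0 < δ < δ0` and `δ < r < 1`: area of `phi {δ < |z| < r}` is at most `pi (1 + C δ^3)^2 / δ^2`.
PROOF.  On `|z| <= 1/2` we have `|h z - c0 - c1 z| <= B |z|^2` for some `B >= 0` (Taylor; for instance
`dslope` twice is continuous on the compact ball; or `Asymptotics` gives it for `|z| < δ1`, which is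
enough).  Take `δ0 < 1/2` also so small that `2 |c1| δ0^2 <= 1`.  Fix `δ < δ0` and let
`L u = (1/δ) u + (c1 δ) conj u`, `K = {c0 + L u : |u| <= 1 + 2 B δ^3}` (image of a closed ball under
an affine map, so compact, closed and convex).
(i) `K` contains `phi z` for `|z| = δ`: put `u = conj z / δ`, `|u| = 1`; then
`(1/δ) u = conj z / δ^2 = z⁻¹` and `(c1 δ) conj u = c1 z`, so `phi z = c0 + L u + e` with
`|e| <= B δ^2`.  Solve `L u' = e`: `|L u'| >= (1/δ - |c1| δ) |u'| >= |u'| / (2 δ)`, so `L` is injective, hence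
bijective (`LinearMap.injective_iff_surjective`), and `u' = L⁻¹ e` has `|u'| <= 2 δ |e| <= 2 B δ^3`.
Then `phi z = c0 + L (u + u')` with `|u + u'| <= 1 + 2 B δ^3`.
(ii) for `δ < |z0| < r < 1`, the value `w = phi z0` is in `K` by `convex_exclusion` with radius `δ`
(`phi z ≠ w` for `0 < |z| <= δ` by injectivity on the punctured disc).
(iii) so the image lies in `K`, whose volume is at most `pi (1 + 2 B δ^3)^2 (1/δ)^2` by
`volume_image_le` and translation invariance.  `C = 2 B`.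
-/

set_option autoImplicit false

open Set Metric MeasureTheory

namespace H62.CJ

/-- the real linear map `u ↦ a u + b conj u` -/
noncomputable def LL (a : ℝ) (b : ℂ) : ℂ →ₗ[ℝ] ℂ where
  toFun := fun u => (a : ℂ) * u + b * (starRingEnd ℂ) u
  map_add' := by
    intro x y
    rw [map_add]; ring
  map_smul' := by
    intro c x
    simp only [Complex.real_smul, map_mul, Complex.conj_ofReal, RingHom.id_apply]
    ring

theorem LL_apply (a : ℝ) (b u : ℂ) : LL a b u = (a : ℂ) * u + b * (starRingEnd ℂ) u := rfl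

theorem volume_image_le (a : ℝ) (b : ℂ) (s : ℝ) (ha : 0 < a) (hb : ‖b‖ ≤ a) (hs : 0 ≤ s) :
    volume ((fun u : ℂ => (a : ℂ) * u + b * (starRingEnd ℂ) u) '' closedBall (0 : ℂ) s) ≤
      ENNReal.ofReal (Real.pi * (s ^ 2 * a ^ 2)) := by
  have hdet : LinearMap.det (LL a b) = a ^ 2 - ‖b‖ ^ 2 := by
    rw [← LinearMap.det_toMatrix Complex.basisOneI, Matrix.det_fin_two]
    simp only [LinearMap.toMatrix_apply, Complex.coe_basisOneI, Complex.coe_basisOneI_repr, LL_apply]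
    simp
    rw [← Complex.normSq_eq_norm_sq, Complex.normSq_apply]
    ring
  have h1 : (fun u : ℂ => (a : ℂ) * u + b * (starRingEnd ℂ) u) = ⇑(LL a b) := by
    funext u; rw [LL_apply]
  rw [h1, Measure.addHaar_image_linearMap, Complex.volume_closedBall, hdet]
  have h2 : |a ^ 2 - ‖b‖ ^ 2| ≤ a ^ 2 := by
    rw [abs_le]
    have := norm_nonneg b
    constructor <;> nlinarith
  have h3 : ENNReal.ofReal s ^ 2 * (NNReal.pi : ENNReal) = ENNReal.ofReal (s ^ 2 * Real.pi) := by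
    rw [ENNReal.ofReal_mul (by positivity), ENNReal.ofReal_pow hs]
    congr 1
    rw [← NNReal.coe_real_pi, ENNReal.ofReal_coe_nnreal]
  rw [h3, ← ENNReal.ofReal_mul (abs_nonneg _)]
  apply ENNReal.ofReal_le_ofReal
  have := Real.pi_pos
  calc |a ^ 2 - ‖b‖ ^ 2| * (s ^ 2 * Real.pi) ≤ a ^ 2 * (s ^ 2 * Real.pi) := by
        apply mul_le_mul_of_nonneg_right h2; positivity
    _ = Real.pi * (s ^ 2 * a ^ 2) := by ring

theorem taylor2 (h : ℂ → ℂ) (hS : DifferentiableOn ℂ h (ball 0 1)) :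
    ∃ c0 c1 : ℂ, ∃ B ρ : ℝ, 0 ≤ B ∧ 0 < ρ ∧ ∀ z : ℂ, ‖z‖ < ρ → ‖h z - (c0 + c1 * z)‖ ≤ B * ‖z‖ ^ 2 := by
  have han : AnalyticAt ℂ h 0 := hS.analyticAt (ball_mem_nhds 0 one_pos)
  obtain ⟨p, hp⟩ := han
  have hO := hp.isBigO_sub_partialSum_pow 2
  obtain ⟨C, hC, hO2⟩ := hO.exists_pos
  rw [Asymptotics.IsBigOWith] at hO2
  obtain ⟨ρ, hρ, hh⟩ := Metric.eventually_nhds_iff.1 hO2
  refine ⟨p.coeff 0, p.coeff 1, C, ρ, hC.le, hρ, fun z hz => ?_⟩
  have h1 := hh (y := z) (by simpa [dist_eq_norm] using hz)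
  have h2 : p.partialSum 2 z = p.coeff 0 + p.coeff 1 * z := by
    simp only [FormalMultilinearSeries.partialSum, Finset.sum_range_succ, Finset.sum_range_zero, zero_add,
      FormalMultilinearSeries.apply_eq_pow_smul_coeff, smul_eq_mul]
    ring
  rw [h2, zero_add] at h1
  simpa using h1

theorem area_upper (h : ℂ → ℂ) (hS : IsSig h) :
    ∃ C δ0 : ℝ, 0 ≤ C ∧ 0 < δ0 ∧ δ0 < 1 ∧ ∀ δ : ℝ, 0 < δ → δ < δ0 → ∀ r : ℝ, δ < r → r < 1 →
      volume ((fun z : ℂ => z⁻¹ + h z) '' {z : ℂ | δ < ‖z‖ ∧ ‖z‖ < r}) ≤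
        ENNReal.ofReal (Real.pi * ((1 + C * δ ^ 3) ^ 2 / δ ^ 2)) := by
  obtain ⟨c0, c1, B, ρ, hB, hρ, hT⟩ := taylor2 h hS.diff
  have hc1 := norm_nonneg c1
  have hq : 0 < 1 / (2 * (‖c1‖ + 1)) := by positivity
  refine ⟨2 * B, min (ρ / 2) (min (1 / 2) (1 / (2 * (‖c1‖ + 1)))), by positivity, ?_, ?_, ?_⟩
  · exact lt_min (by linarith) (lt_min (by norm_num) hq)
  · exact lt_of_le_of_lt ((min_le_right _ _).trans (min_le_left _ _)) (by norm_num)
  intro δ hδ hδ0 r hr hr1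
  have e1 : δ < ρ / 2 := hδ0.trans_le (min_le_left _ _)
  have e2 : δ < 1 / 2 := hδ0.trans_le ((min_le_right _ _).trans (min_le_left _ _))
  have e3 : δ < 1 / (2 * (‖c1‖ + 1)) := hδ0.trans_le ((min_le_right _ _).trans (min_le_right _ _))
  have e4 : ‖c1‖ * δ ≤ 1 / 2 := by
    rw [lt_div_iff₀ (by positivity)] at e3
    nlinarith
  have e5 : 2 * ‖c1‖ * δ ^ 2 ≤ 1 := by nlinarith
  have e6 : ‖c1 * (δ : ℂ)‖ = ‖c1‖ * δ := by
    rw [norm_mul, Complex.norm_real, Real.norm_of_nonneg hδ.le]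
  have hinv : 0 < 1 / δ := by positivity
  have e7 : ‖c1‖ * δ ≤ 1 / (2 * δ) := by
    rw [le_div_iff₀ (by positivity)]
    nlinarith
  have e8 : 1 / (2 * δ) ≤ 1 / δ := by
    apply one_div_le_one_div_of_le hδ; linarith
  -- lower bound of L
  have hL : ∀ u : ℂ, ‖u‖ / (2 * δ) ≤ ‖LL (1 / δ) (c1 * (δ : ℂ)) u‖ := by
    intro u
    rw [LL_apply]
    have t1 : ‖((1 / δ : ℝ) : ℂ) * u‖ = 1 / δ * ‖u‖ := by
      rw [norm_mul, Complex.norm_real, Real.norm_of_nonneg hinv.le]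
    have t2 : ‖c1 * (δ : ℂ) * (starRingEnd ℂ) u‖ = ‖c1‖ * δ * ‖u‖ := by
      rw [norm_mul, e6, RCLike.norm_conj]
    have t3 : ‖((1 / δ : ℝ) : ℂ) * u‖ ≤
        ‖((1 / δ : ℝ) : ℂ) * u + c1 * (δ : ℂ) * (starRingEnd ℂ) u‖ + ‖c1 * (δ : ℂ) * (starRingEnd ℂ) u‖ := by
      calc ‖((1 / δ : ℝ) : ℂ) * u‖
          = ‖(((1 / δ : ℝ) : ℂ) * u + c1 * (δ : ℂ) * (starRingEnd ℂ) u) - c1 * (δ : ℂ) * (starRingEnd ℂ) u‖ := by
            congr 1; ring
        _ ≤ _ := norm_sub_le _ _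
    rw [t1, t2] at t3
    have t4 : ‖c1‖ * δ * ‖u‖ ≤ 1 / (2 * δ) * ‖u‖ := mul_le_mul_of_nonneg_right e7 (norm_nonneg u)
    have t5 : 1 / δ * ‖u‖ - 1 / (2 * δ) * ‖u‖ = ‖u‖ / (2 * δ) := by
      field_simp; ring
    linarith
  have hinj : Function.Injective (LL (1 / δ) (c1 * (δ : ℂ))) := by
    rw [← LinearMap.ker_eq_bot, LinearMap.ker_eq_bot']
    intro u hu
    have := hL u
    rw [hu, norm_zero] at this
    have h0 : ‖u‖ ≤ 0 := by
      rwa [div_le_iff₀ (by positivity), zero_mul] at this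
    exact norm_le_zero_iff.1 h0
  have hsurj := LinearMap.injective_iff_surjective.1 hinj
  have hs0 : 0 ≤ 1 + 2 * B * δ ^ 3 := by positivity
  set K : Set ℂ := (fun v : ℂ => c0 + v) '' (⇑(LL (1 / δ) (c1 * (δ : ℂ))) '' closedBall (0 : ℂ) (1 + 2 * B * δ ^ 3))
    with hK
  have hKcomp : IsCompact K := by
    apply IsCompact.image _ (continuous_const.add continuous_id)
    exact (isCompact_closedBall _ _).image (LinearMap.continuous_of_finiteDimensional _)
  have hKconv : Convex ℝ K := by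
    apply Convex.translate
    exact (convex_closedBall _ _).linear_image _
  have hKs : ∀ z : ℂ, ‖z‖ = δ → z⁻¹ + h z ∈ K := by
    intro z hz
    have hz0 : z ≠ 0 := by
      rintro rfl
      rw [norm_zero] at hz; linarith
    have hδc : (δ : ℂ) ≠ 0 := by exact_mod_cast hδ.ne'
    have hTz := hT z (by rw [hz]; linarith)
    rw [hz] at hTz
    obtain ⟨u', hu'⟩ := hsurj (h z - (c0 + c1 * z))
    have hn := hL u'
    rw [hu'] at hn
    have hn2 : ‖u'‖ ≤ 2 * B * δ ^ 3 := by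
      have : ‖u'‖ / (2 * δ) ≤ B * δ ^ 2 := hn.trans hTz
      rw [div_le_iff₀ (by positivity)] at this
      nlinarith
    have hcz : z * (starRingEnd ℂ) z = (δ : ℂ) ^ 2 := by
      rw [Complex.mul_conj, Complex.normSq_eq_norm_sq, hz]
      push_cast; ring
    refine ⟨LL (1 / δ) (c1 * (δ : ℂ)) ((starRingEnd ℂ) z / (δ : ℂ) + u'), ⟨_, ?_, rfl⟩, ?_⟩
    · rw [mem_closedBall_zero_iff]
      have : ‖(starRingEnd ℂ) z / (δ : ℂ)‖ = 1 := by
        rw [norm_div, RCLike.norm_conj, hz, Complex.norm_real, Real.norm_of_nonneg hδ.le, div_self hδ.ne']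
      calc _ ≤ ‖(starRingEnd ℂ) z / (δ : ℂ)‖ + ‖u'‖ := norm_add_le _ _
        _ ≤ _ := by rw [this]; linarith
    · show c0 + LL (1 / δ) (c1 * (δ : ℂ)) ((starRingEnd ℂ) z / (δ : ℂ) + u') = z⁻¹ + h z
      rw [map_add, hu', LL_apply]
      have t1 : (starRingEnd ℂ) ((starRingEnd ℂ) z / (δ : ℂ)) = z / (δ : ℂ) := by
        rw [map_div₀, Complex.conj_conj, Complex.conj_ofReal]
      rw [t1]
      have t2 : z⁻¹ = (starRingEnd ℂ) z / (δ : ℂ) ^ 2 := by
        rw [← hcz, eq_comm, div_eq_iff (by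
          rw [hcz]; exact pow_ne_zero 2 hδc)]
        field_simp
      rw [t2]
      push_cast
      field_simp
      ring
  have hsub : (fun z : ℂ => z⁻¹ + h z) '' {z : ℂ | δ < ‖z‖ ∧ ‖z‖ < r} ⊆ K := by
    rintro _ ⟨z0, ⟨hz1, hz2⟩, rfl⟩
    apply convex_exclusion h δ hδ K hKconv hKcomp.isClosed
    · intro z hz
      rw [mem_closedBall_zero_iff] at hz
      exact hS.diff.differentiableAt (isOpen_ball.mem_nhds (by
        rw [mem_ball_zero_iff]; linarith))
    · intro z hz hz0 heq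
      rw [mem_closedBall_zero_iff] at hz
      have hm1 : z ∈ ball (0 : ℂ) 1 \ {0} := ⟨by rw [mem_ball_zero_iff]; linarith, hz0⟩
      have hm2 : z0 ∈ ball (0 : ℂ) 1 \ {0} := by
        refine ⟨by rw [mem_ball_zero_iff]; linarith, ?_⟩
        intro h0
        rw [mem_singleton_iff] at h0
        rw [h0, norm_zero] at hz1
        linarith
      have := hS.inj hm1 hm2 heq
      rw [this] at hz
      linarith
    · exact hKs
  refine (measure_mono hsub).trans ?_
  rw [hK, image_add_left, measure_preimage_add]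
  have hv := volume_image_le (1 / δ) (c1 * (δ : ℂ)) (1 + 2 * B * δ ^ 3) hinv (by
    rw [e6]; exact e7.trans e8) hs0
  have h1 : (fun u : ℂ => ((1 / δ : ℝ) : ℂ) * u + c1 * (δ : ℂ) * (starRingEnd ℂ) u)
      = ⇑(LL (1 / δ) (c1 * (δ : ℂ))) := by
    funext u; rw [LL_apply]
  rw [h1] at hv
  refine hv.trans (le_of_eq ?_)
  congr 2
  rw [one_div, inv_pow, div_eq_mul_inv]

end H62.CJ
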