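import Pool.Agent.H62.CJ.Def

/-!
# CJ-A3: area formula on an annulus and orthogonality

`phi z = z⁻¹ + h z`, `IsSig h`, `0 < δ < r < 1`, `N = {δ < |z| < r}`.  Then
`pi (1/δ^2 - 1/r^2) + int_N |h'|^2 <= area (phi N)` (in fact equality).

PROOF.  Area formula: `MeasureTheory.lintegral_abs_det_fderiv_eq_addHaar_image` for the injective map
`phi` on the open (measurable) set `N`; the real derivative of `phi` at `z` is multiplication by
`phi' z = - z⁻² + h' z`, whose determinant is `|phi' z|^2` (model: `det_restrict` in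
`Pool/Agent/H38/Nev/Plane.lean`, copy the five lines).  So
`volume (phi '' N) = int⁻_N ofReal (|h' z - z⁻²|^2)`.
Now `|h' - z⁻²|^2 = |h'|^2 + |z|⁻⁴ - 2 Re (conj (z⁻²) h')` and all three functions are continuous and
bounded on `N` (its closure is a compact subset of the punctured disc, `h'` is continuous there because
`h` is analytic on the ball), hence integrable; `volume N < ∞`.
Cross term: `int_N Re (conj (z⁻²) h' z) = 0`.  In polar coordinates (`integral_comp_polarCoord_symm` of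
Mathlib, `Complex.integral_comp_polarCoord_symm`) it is `int_δ^r s (int_{-pi}^{pi} Re (s⁻² e^{2 i t} h' (s e^{i t})) dt) ds`
since `conj ((s e^{i t})⁻²) = s⁻² e^{2 i t}`, and
`int_{-pi}^{pi} e^{2 i t} h' (s e^{i t}) dt = s⁻² int k (s e^{i t}) dt = 2 pi s⁻² k 0 = 0` where
`k z = z^2 h' z` is holomorphic on the ball (mean value property on the circle of radius `s < 1`).
Also `int_N |z|⁻⁴ = 2 pi int_δ^r s⁻³ ds = pi (1/δ^2 - 1/r^2)` (polar coordinates again).
So the real integral `int_N |h' - z⁻²|^2 = pi (1/δ^2 - 1/r^2) + int_N |h'|^2`; convert with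
`ofReal_integral_eq_lintegral_ofReal`.
(It is convenient to prove first a lemma: for `f` continuous on the closed annulus,
`int_N f = int_{s in δ..r} s * int_{t in 0..2 pi} f (s e^{i t})`.)
-/

set_option autoImplicit false

open Set Metric MeasureTheory

namespace H62.CJ

/-- the open annulus -/
def a3_N (δ r : ℝ) : Set ℂ := {z : ℂ | δ < ‖z‖ ∧ ‖z‖ < r}

/-- the closed annulus -/
def a3_K (δ r : ℝ) : Set ℂ := {z : ℂ | δ ≤ ‖z‖ ∧ ‖z‖ ≤ r}

theorem a3_open (δ r : ℝ) : IsOpen (a3_N δ r) :=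
  (isOpen_lt continuous_const continuous_norm).inter (isOpen_lt continuous_norm continuous_const)

theorem a3_compact (δ r : ℝ) : IsCompact (a3_K δ r) := by
  have h1 : a3_K δ r = closedBall 0 r ∩ {z : ℂ | δ ≤ ‖z‖} := by
    ext z
    simp [a3_K, and_comm]
  rw [h1]
  exact (isCompact_closedBall 0 r).inter_right (isClosed_le continuous_const continuous_norm)

theorem a3_sub (δ r : ℝ) : a3_N δ r ⊆ a3_K δ r := fun _ hz => ⟨hz.1.le, hz.2.le⟩

theorem a3_det (c : ℂ) :
    ((ContinuousLinearMap.toSpanSingleton ℂ c).restrictScalars ℝ : ℂ →L[ℝ] ℂ).det = ‖c‖ ^ 2 := by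
  have h1 : (((ContinuousLinearMap.toSpanSingleton ℂ c).restrictScalars ℝ : ℂ →L[ℝ] ℂ) :
      ℂ →ₗ[ℝ] ℂ) = Algebra.lmul ℝ ℂ c := by
    ext x
    simp [mul_comm]
  rw [ContinuousLinearMap.det, h1, ← Algebra.norm_apply, Algebra.norm_complex_apply,
    Complex.normSq_eq_norm_sq]

theorem a3_symm (p : ℝ × ℝ) : Complex.polarCoord.symm p = circleMap 0 p.1 p.2 := by
  rw [Complex.polarCoord_symm_apply, circleMap_zero, Complex.exp_mul_I]
  push_cast
  ring

/-- polar coordinates on an annulus -/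
theorem a3_polar (F : ℂ → ℝ) (δ r : ℝ) (hδ : 0 < δ) (hF : ContinuousOn F (a3_K δ r)) :
    ∫ z in a3_N δ r, F z =
      ∫ s in Ioo δ r, s * ∫ t in Ioo (-Real.pi) Real.pi, F (circleMap 0 s t) := by
  have hcont : ContinuousOn (fun p : ℝ × ℝ => p.1 * F (circleMap 0 p.1 p.2))
      (Icc δ r ×ˢ Icc (-Real.pi) Real.pi) := by
    apply ContinuousOn.mul continuous_fst.continuousOn
    apply hF.comp
    · apply Continuous.continuousOn
      unfold circleMap
      fun_prop
    · intro p hp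
      have h0 : 0 ≤ p.1 := hδ.le.trans hp.1.1
      have h1 : ‖circleMap 0 p.1 p.2‖ = p.1 := by
        rw [norm_circleMap_zero, abs_of_nonneg h0]
      exact ⟨by rw [h1]; exact hp.1.1, by rw [h1]; exact hp.1.2⟩
  have hint : IntegrableOn (fun p : ℝ × ℝ => p.1 * F (circleMap 0 p.1 p.2))
      (Ioo δ r ×ˢ Ioo (-Real.pi) Real.pi) (volume.prod volume) := by
    refine IntegrableOn.mono_set (ContinuousOn.integrableOn_compact
      (isCompact_Icc.prod isCompact_Icc) hcont) ?_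
    exact prod_mono Ioo_subset_Icc_self Ioo_subset_Icc_self
  have h1 : ∫ z in a3_N δ r, F z =
      ∫ p in Ioo δ r ×ˢ Ioo (-Real.pi) Real.pi, p.1 * F (circleMap 0 p.1 p.2) := by
    rw [← integral_indicator (a3_open δ r).measurableSet, ← Complex.integral_comp_polarCoord_symm,
      polarCoord_target]
    have h2 : ∀ p ∈ Ioi (0 : ℝ) ×ˢ Ioo (-Real.pi) Real.pi,
        p.1 • (a3_N δ r).indicator F (Complex.polarCoord.symm p) =
        (Ioo δ r ×ˢ (univ : Set ℝ)).indicator (fun p => p.1 * F (circleMap 0 p.1 p.2)) p := by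
      intro p hp
      have h0 : (0 : ℝ) < p.1 := hp.1
      have hn : ‖circleMap 0 p.1 p.2‖ = p.1 := by
        rw [norm_circleMap_zero, abs_of_pos h0]
      rw [a3_symm, smul_eq_mul]
      by_cases hq : p.1 ∈ Ioo δ r
      · rw [indicator_of_mem (show circleMap 0 p.1 p.2 ∈ a3_N δ r from by
            change δ < ‖circleMap 0 p.1 p.2‖ ∧ ‖circleMap 0 p.1 p.2‖ < r
            rw [hn]; exact hq),
          indicator_of_mem (show p ∈ Ioo δ r ×ˢ (univ : Set ℝ) from ⟨hq, mem_univ _⟩)]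
      · rw [indicator_of_notMem (show circleMap 0 p.1 p.2 ∉ a3_N δ r from by
            change ¬ (δ < ‖circleMap 0 p.1 p.2‖ ∧ ‖circleMap 0 p.1 p.2‖ < r)
            rw [hn]; exact hq),
          indicator_of_notMem (show p ∉ Ioo δ r ×ˢ (univ : Set ℝ) from fun h => hq h.1), mul_zero]
    rw [setIntegral_congr_fun (measurableSet_Ioi.prod measurableSet_Ioo) h2,
      setIntegral_indicator (measurableSet_Ioo.prod MeasurableSet.univ)]
    congr 2
    rw [prod_inter_prod, inter_univ, inter_eq_right.2]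
    intro s hs
    exact hδ.trans hs.1
  rw [h1, Measure.volume_eq_prod, setIntegral_prod _ hint]
  apply setIntegral_congr_fun measurableSet_Ioo
  intro s _
  change ∫ y in Ioo (-Real.pi) Real.pi, s * F (circleMap 0 s y) = _
  rw [integral_const_mul]

theorem a3_g (h : ℂ → ℂ) (hS : IsSig h) : DifferentiableOn ℂ (deriv h) (ball 0 1) :=
  (hS.diff.deriv isOpen_ball)

/-- the cross term on a circle -/
theorem a3_circle (h : ℂ → ℂ) (hS : IsSig h) (s : ℝ) (hs : 0 < s) (hs1 : s < 1) :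
    ∫ t in Ioo (-Real.pi) Real.pi,
      ((circleMap 0 s t) ^ 2 * deriv h (circleMap 0 s t)).re = 0 := by
  have hd : DifferentiableOn ℂ (fun z => z * deriv h z) (closedBall 0 s) := by
    apply DifferentiableOn.mul differentiableOn_id
    exact (a3_g h hS).mono (closedBall_subset_ball hs1)
  have hd' : DiffContOnCl ℂ (fun z => z * deriv h z) (ball 0 s) := by
    apply DifferentiableOn.diffContOnCl
    rw [closure_ball 0 hs.ne']
    exact hd
  have h1 := hd'.circleIntegral_eq_zero hs.le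
  rw [circleIntegral] at h1
  have h2 : ∫ t in (0 : ℝ)..(2 * Real.pi),
      (circleMap 0 s t) ^ 2 * deriv h (circleMap 0 s t) = 0 := by
    have h3 : ∫ t in (0 : ℝ)..(2 * Real.pi), deriv (circleMap 0 s) t •
        (circleMap 0 s t * deriv h (circleMap 0 s t)) =
        Complex.I * ∫ t in (0 : ℝ)..(2 * Real.pi),
      (circleMap 0 s t) ^ 2 * deriv h (circleMap 0 s t) := by
      rw [← intervalIntegral.integral_const_mul]
      apply intervalIntegral.integral_congr
      intro t _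
      simp only [deriv_circleMap, smul_eq_mul]
      ring
    rw [h3] at h1
    rcases mul_eq_zero.1 h1 with h4 | h4
    · exact absurd h4 Complex.I_ne_zero
    · exact h4
  have hper : Function.Periodic (fun t =>
      (circleMap 0 s t) ^ 2 * deriv h (circleMap 0 s t)) (2 * Real.pi) := fun t => by
    simp only [periodic_circleMap 0 s t]
  have h5 := hper.intervalIntegral_add_eq (-Real.pi) 0
  rw [show -Real.pi + 2 * Real.pi = Real.pi by ring, zero_add, h2] at h5
  have hc : Continuous (fun t => (circleMap 0 s t) ^ 2 * deriv h (circleMap 0 s t)) := by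
    apply Continuous.mul ((continuous_circleMap 0 s).pow 2)
    apply (a3_g h hS).continuousOn.comp_continuous (continuous_circleMap 0 s)
    intro t
    rw [mem_ball_zero_iff, norm_circleMap_zero, abs_of_pos hs]
    exact hs1
  rw [← integral_Ioc_eq_integral_Ioo, ← intervalIntegral.integral_of_le (by linarith [Real.pi_pos])]
  have h6 : ∫ t in (-Real.pi)..Real.pi,
      ((circleMap 0 s t) ^ 2 * deriv h (circleMap 0 s t)).re =
      (∫ t in (-Real.pi)..Real.pi,
      (circleMap 0 s t) ^ 2 * deriv h (circleMap 0 s t)).re := by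
    have := Complex.reCLM.intervalIntegral_comp_comm (hc.intervalIntegrable (μ := volume)
      (-Real.pi) Real.pi)
    simpa using this
  rw [h6, h5, Complex.zero_re]

theorem a3_cross (h : ℂ → ℂ) (hS : IsSig h) (δ r : ℝ) (hδ : 0 < δ) (hr1 : r < 1) :
    ∫ z in a3_N δ r, (‖z‖ ^ 4)⁻¹ * (z ^ 2 * deriv h z).re = 0 := by
  rw [a3_polar _ δ r hδ]
  · apply setIntegral_eq_zero_of_forall_eq_zero
    intro s hs
    have hs0 : 0 < s := hδ.trans hs.1
    have h1 : ∀ t : ℝ, (‖circleMap 0 s t‖ ^ 4)⁻¹ *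
        ((circleMap 0 s t) ^ 2 * deriv h (circleMap 0 s t)).re =
        (s ^ 4)⁻¹ * ((circleMap 0 s t) ^ 2 * deriv h (circleMap 0 s t)).re := by
      intro t
      rw [norm_circleMap_zero, abs_of_pos hs0]
    simp_rw [h1]
    rw [integral_const_mul, a3_circle h hS s hs0 (hs.2.trans hr1), mul_zero, mul_zero]
  · have h0 : ∀ z ∈ a3_K δ r, ‖z‖ ^ 4 ≠ 0 := fun z hz => by
      have : 0 < ‖z‖ := hδ.trans_le hz.1
      positivity
    apply ContinuousOn.mul
    · exact ContinuousOn.inv₀ (by fun_prop) h0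
    · apply Complex.continuous_re.comp_continuousOn
      apply ContinuousOn.mul (by fun_prop)
      apply (a3_g h hS).continuousOn.mono
      intro z hz
      rw [mem_ball_zero_iff]
      exact hz.2.trans_lt hr1

theorem a3_main (δ r : ℝ) (hδ : 0 < δ) (hr : δ < r) :
    ∫ z in a3_N δ r, (‖z‖ ^ 4)⁻¹ = Real.pi * (1 / δ ^ 2 - 1 / r ^ 2) := by
  rw [a3_polar _ δ r hδ]
  · have h1 : ∀ s ∈ Ioo δ r, s * ∫ t in Ioo (-Real.pi) Real.pi, (‖circleMap 0 s t‖ ^ 4)⁻¹ =
        2 * Real.pi * s ^ (-3 : ℤ) := by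
      intro s hs
      have hs0 : 0 < s := hδ.trans hs.1
      simp_rw [norm_circleMap_zero, abs_of_pos hs0]
      rw [setIntegral_const, smul_eq_mul, Measure.real, Real.volume_Ioo,
        ENNReal.toReal_ofReal (by linarith [Real.pi_pos])]
      rw [zpow_neg]
      norm_cast
      field_simp
      ring
    rw [setIntegral_congr_fun measurableSet_Ioo h1, integral_const_mul,
      ← integral_Ioc_eq_integral_Ioo, ← intervalIntegral.integral_of_le hr.le,
      integral_zpow]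
    · have hr0 : 0 < r := hδ.trans hr
      have e1 : ((-3 : ℤ) : ℝ) + 1 = -2 := by norm_num
      have e2 : ∀ x : ℝ, x ^ (-2 : ℤ) = (x ^ 2)⁻¹ := fun x => by
        rw [zpow_neg]
        norm_cast
      rw [e1, show (-3 : ℤ) + 1 = -2 by norm_num, e2, e2]
      field_simp
      ring
    · right
      refine ⟨by norm_num, ?_⟩
      rw [uIcc_of_le hr.le]
      intro h
      exact absurd h.1 (not_le.2 hδ)
  · have h0 : ∀ z ∈ a3_K δ r, ‖z‖ ^ 4 ≠ 0 := fun z hz => by
      have : 0 < ‖z‖ := hδ.trans_le hz.1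
      positivity
    exact ContinuousOn.inv₀ (by fun_prop) h0

theorem a3_pt (a z : ℂ) (hz : z ≠ 0) :
    ‖-(z ^ 2)⁻¹ + a‖ ^ 2 = ‖a‖ ^ 2 + (‖z‖ ^ 4)⁻¹ - 2 * ((‖z‖ ^ 4)⁻¹ * (z ^ 2 * a).re) := by
  have h1 : ‖-(z ^ 2)⁻¹ + a‖ ^ 2 * ‖z ^ 2‖ ^ 2 = ‖-1 + z ^ 2 * a‖ ^ 2 := by
    rw [← mul_pow, ← norm_mul]
    congr 2
    field_simp
  have h2 : ‖-1 + z ^ 2 * a‖ ^ 2 = 1 + ‖z ^ 2 * a‖ ^ 2 - 2 * (z ^ 2 * a).re := by
    rw [← Complex.normSq_eq_norm_sq, ← Complex.normSq_eq_norm_sq, Complex.normSq_apply,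
      Complex.normSq_apply]
    simp only [Complex.add_re, Complex.add_im, Complex.neg_re, Complex.neg_im, Complex.one_re,
      Complex.one_im]
    ring
  have h3 : ‖z‖ ≠ 0 := norm_ne_zero_iff.2 hz
  rw [h2, norm_mul, norm_pow] at h1
  have h4 : ‖z‖ ^ 4 ≠ 0 := pow_ne_zero 4 h3
  generalize ‖-(z ^ 2)⁻¹ + a‖ ^ 2 = X at *
  generalize (z ^ 2 * a).re = c at *
  generalize ‖z‖ = n at *
  generalize ‖a‖ = A at *
  apply mul_right_cancel₀ h4
  rw [show X * n ^ 4 = X * (n ^ 2) ^ 2 by ring, h1]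
  field_simp
  ring

theorem area_lower (h : ℂ → ℂ) (hS : IsSig h) (δ r : ℝ) (hδ : 0 < δ) (hr : δ < r) (hr1 : r < 1) :
    ENNReal.ofReal (Real.pi * (1 / δ ^ 2 - 1 / r ^ 2)) +
      ∫⁻ z in {z : ℂ | δ < ‖z‖ ∧ ‖z‖ < r}, ENNReal.ofReal (‖deriv h z‖ ^ 2) ≤
    volume ((fun z : ℂ => z⁻¹ + h z) '' {z : ℂ | δ < ‖z‖ ∧ ‖z‖ < r}) := by
  change _ + ∫⁻ z in a3_N δ r, ENNReal.ofReal (‖deriv h z‖ ^ 2) ≤
    volume ((fun z : ℂ => z⁻¹ + h z) '' a3_N δ r)
  have hne : ∀ z ∈ a3_K δ r, z ≠ 0 := fun z hz => by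
    have : 0 < ‖z‖ := hδ.trans_le hz.1
    exact norm_pos_iff.1 this
  have hb : ∀ z ∈ a3_K δ r, z ∈ ball (0 : ℂ) 1 := fun z hz => by
    rw [mem_ball_zero_iff]
    exact hz.2.trans_lt hr1
  have hder : ∀ z ∈ a3_N δ r, HasFDerivWithinAt (fun z : ℂ => z⁻¹ + h z)
      ((ContinuousLinearMap.toSpanSingleton ℂ (-(z ^ 2)⁻¹ + deriv h z)).restrictScalars ℝ :
        ℂ →L[ℝ] ℂ) (a3_N δ r) z := by
    intro z hz
    have h1 : HasDerivAt (fun z : ℂ => z⁻¹ + h z) (-(z ^ 2)⁻¹ + deriv h z) z := by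
      apply HasDerivAt.add (hasDerivAt_inv (hne z (a3_sub δ r hz)))
      exact (hS.diff.differentiableAt
        (isOpen_ball.mem_nhds (hb z (a3_sub δ r hz)))).hasDerivAt
    exact (h1.hasFDerivAt.restrictScalars ℝ).hasFDerivWithinAt
  have hinj : InjOn (fun z : ℂ => z⁻¹ + h z) (a3_N δ r) := by
    apply hS.inj.mono
    intro z hz
    exact ⟨hb z (a3_sub δ r hz), hne z (a3_sub δ r hz)⟩
  rw [← lintegral_abs_det_fderiv_eq_addHaar_image volume (a3_open δ r).measurableSet hder hinj]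
  have hgc : ContinuousOn (deriv h) (a3_K δ r) :=
    (a3_g h hS).continuousOn.mono hb
  have h0 : ∀ z ∈ a3_K δ r, ‖z‖ ^ 4 ≠ 0 := fun z hz => by
    have : 0 < ‖z‖ := hδ.trans_le hz.1
    positivity
  have hc1 : ContinuousOn (fun z => ‖deriv h z‖ ^ 2) (a3_K δ r) := hgc.norm.pow 2
  have hc2 : ContinuousOn (fun z : ℂ => (‖z‖ ^ 4)⁻¹) (a3_K δ r) :=
    ContinuousOn.inv₀ (by fun_prop) h0
  have hc3 : ContinuousOn (fun z : ℂ => (‖z‖ ^ 4)⁻¹ * (z ^ 2 * deriv h z).re) (a3_K δ r) :=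
    hc2.mul (Complex.continuous_re.comp_continuousOn (ContinuousOn.mul (by fun_prop) hgc))
  have hi1 : IntegrableOn (fun z => ‖deriv h z‖ ^ 2) (a3_N δ r) :=
    (hc1.integrableOn_compact (a3_compact δ r)).mono_set (a3_sub δ r)
  have hi2 : IntegrableOn (fun z : ℂ => (‖z‖ ^ 4)⁻¹) (a3_N δ r) :=
    (hc2.integrableOn_compact (a3_compact δ r)).mono_set (a3_sub δ r)
  have hi3 : IntegrableOn (fun z : ℂ => (‖z‖ ^ 4)⁻¹ * (z ^ 2 * deriv h z).re) (a3_N δ r) :=
    (hc3.integrableOn_compact (a3_compact δ r)).mono_set (a3_sub δ r)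
  have hi12 : IntegrableOn (fun z => ‖deriv h z‖ ^ 2 + (‖z‖ ^ 4)⁻¹) (a3_N δ r) := hi1.add hi2
  have hi3' : IntegrableOn (fun z : ℂ => 2 * ((‖z‖ ^ 4)⁻¹ * (z ^ 2 * deriv h z).re))
      (a3_N δ r) := hi3.const_mul 2
  have hi : IntegrableOn (fun z => ‖deriv h z‖ ^ 2 + (‖z‖ ^ 4)⁻¹ -
      2 * ((‖z‖ ^ 4)⁻¹ * (z ^ 2 * deriv h z).re)) (a3_N δ r) := hi12.sub hi3'
  have hL : ENNReal.ofReal (Real.pi * (1 / δ ^ 2 - 1 / r ^ 2)) +
      ∫⁻ z in a3_N δ r, ENNReal.ofReal (‖deriv h z‖ ^ 2) =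
      ENNReal.ofReal (∫ z in a3_N δ r, (‖deriv h z‖ ^ 2 + (‖z‖ ^ 4)⁻¹ -
        2 * ((‖z‖ ^ 4)⁻¹ * (z ^ 2 * deriv h z).re))) := by
    rw [integral_sub hi12 hi3', integral_add hi1 hi2, integral_const_mul,
      a3_cross h hS δ r hδ hr1, a3_main δ r hδ hr, mul_zero, sub_zero, add_comm,
      ENNReal.ofReal_add (integral_nonneg fun z => by positivity)]
    · rw [ofReal_integral_eq_lintegral_ofReal hi1 (ae_of_all _ fun z => by positivity)]
    · have h1 : 1 / r ^ 2 ≤ 1 / δ ^ 2 :=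
        one_div_le_one_div_of_le (by positivity) (by gcongr)
      have := Real.pi_pos
      nlinarith
  rw [hL, ofReal_integral_eq_lintegral_ofReal hi]
  · apply le_of_eq
    apply setLIntegral_congr_fun (a3_open δ r).measurableSet
    intro z hz
    simp only [a3_det]
    rw [abs_of_nonneg (by positivity), a3_pt _ _ (hne z (a3_sub δ r hz))]
  · refine (ae_restrict_iff' (a3_open δ r).measurableSet).2 (ae_of_all _ fun z hz => ?_)
    change 0 ≤ ‖deriv h z‖ ^ 2 + (‖z‖ ^ 4)⁻¹ - 2 * ((‖z‖ ^ 4)⁻¹ * (z ^ 2 * deriv h z).re)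
    rw [← a3_pt _ _ (hne z (a3_sub δ r hz))]
    positivity

end H62.CJ
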