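import Pool.Agent.H62.CJ.A2
import Pool.Agent.H62.CJ.A3

/-!
# CJ-A4: the area theorem (Dirichlet integral form)

`IsSig h`, `0 < r < 1` imply `int_{|z| < r} |h'|^2 <= pi / r^2`.

PROOF.  `area_upper` gives `C, δ0`; for `0 < δ < min δ0 r`: by `area_lower` and `area_upper`
`ofReal (pi (1/δ^2 - 1/r^2)) + int⁻_{δ<|z|<r} |h'|^2 <= ofReal (pi (1 + C δ^3)^2/δ^2)`, and
`(1 + C δ^3)^2/δ^2 = 1/δ^2 + 2 C δ + C^2 δ^4`, so
`int⁻_{δ<|z|<r} |h'|^2 <= ofReal (pi (1/r^2 + 2 C δ + C^2 δ^4))`.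
Let `δ -> 0` along `δ_n = 1/(n+n0)`: the sets `{δ_n < |z| < r}` increase to the punctured ball (monotone
convergence for set integrals: `MeasureTheory.lintegral_iUnion_of_directed`, or
`tendsto_lintegral...`), the punctured ball and the ball differ by a null set (a point), and the right
side converges to `ofReal (pi / r^2)`.
-/

set_option autoImplicit false

open Set Metric MeasureTheory

namespace H62.CJ

theorem dirichlet_le (h : ℂ → ℂ) (hS : IsSig h) (r : ℝ) (hr : 0 < r) (hr1 : r < 1) :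
    ∫⁻ z in ball (0 : ℂ) r, ENNReal.ofReal (‖deriv h z‖ ^ 2) ≤ ENNReal.ofReal (Real.pi / r ^ 2) := by
  obtain ⟨C, δ0, hC, hδ0, hδ01, hA⟩ := area_upper h hS
  set f : ℂ → ENNReal := fun z => ENNReal.ofReal (‖deriv h z‖ ^ 2) with hf
  have hmin : 0 < min δ0 r := lt_min hδ0 hr
  obtain ⟨ρ, hρ⟩ : ∃ ρ : ℝ, ρ = min δ0 r / 2 := ⟨_, rfl⟩
  have hρ0 : 0 < ρ := by rw [hρ]; linarith
  have hρ1 : ρ < δ0 := by
    have := min_le_left δ0 r
    rw [hρ]; linarith
  have hρ2 : ρ < r := by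
    have := min_le_right δ0 r
    rw [hρ]; linarith
  obtain ⟨δ, hδ⟩ : ∃ δ : ℕ → ℝ, δ = fun n : ℕ => ρ * (1 / ((n : ℝ) + 1)) := ⟨_, rfl⟩
  have hδpos : ∀ n, 0 < δ n := by
    intro n
    rw [hδ]
    positivity
  have hδle : ∀ n, δ n ≤ ρ := by
    intro n
    rw [hδ]
    have h1 : 1 / ((n : ℝ) + 1) ≤ 1 := by
      rw [div_le_one (by positivity)]
      have : (0 : ℝ) ≤ n := Nat.cast_nonneg n
      linarith
    calc ρ * (1 / ((n : ℝ) + 1)) ≤ ρ * 1 := mul_le_mul_of_nonneg_left h1 hρ0.le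
      _ = ρ := mul_one ρ
  have hδanti : ∀ m n : ℕ, m ≤ n → δ n ≤ δ m := by
    intro m n hmn
    rw [hδ]
    have h1 : 1 / ((n : ℝ) + 1) ≤ 1 / ((m : ℝ) + 1) := by
      apply one_div_le_one_div_of_le (by positivity)
      have : (m : ℝ) ≤ n := Nat.cast_le.2 hmn
      linarith
    exact mul_le_mul_of_nonneg_left h1 hρ0.le
  have hδlim : Filter.Tendsto δ Filter.atTop (nhds 0) := by
    rw [hδ]
    have h1 := (tendsto_one_div_add_atTop_nhds_zero_nat (𝕜 := ℝ)).const_mul ρ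
    rw [mul_zero] at h1
    exact h1
  obtain ⟨S, hSdef⟩ : ∃ S : ℕ → Set ℂ, S = fun n => {z : ℂ | δ n < ‖z‖ ∧ ‖z‖ < r} := ⟨_, rfl⟩
  have hSmono : Monotone S := by
    intro m n hmn z hz
    rw [hSdef] at hz ⊢
    exact ⟨lt_of_le_of_lt (hδanti m n hmn) hz.1, hz.2⟩
  have hSU : (⋃ n, S n) = ball (0 : ℂ) r \ {0} := by
    ext z
    rw [mem_iUnion]
    constructor
    · rintro ⟨n, hn⟩
      rw [hSdef] at hn
      refine ⟨mem_ball_zero_iff.2 hn.2, ?_⟩
      intro hz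
      rw [mem_singleton_iff] at hz
      have h1 := hn.1
      rw [hz, norm_zero] at h1
      exact absurd h1 (not_lt.2 (hδpos n).le)
    · rintro ⟨hz1, hz2⟩
      have hz3 : 0 < ‖z‖ := norm_pos_iff.2 hz2
      obtain ⟨n, hn⟩ := (hδlim.eventually (gt_mem_nhds hz3)).exists
      refine ⟨n, ?_⟩
      rw [hSdef]
      exact ⟨hn, mem_ball_zero_iff.1 hz1⟩
  have hball : ∫⁻ z in ball (0 : ℂ) r, f z = ∫⁻ z in ball (0 : ℂ) r \ {0}, f z := by
    refine setLIntegral_congr ?_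
    exact (sdiff_null_ae_eq_self (measure_singleton (0 : ℂ))).symm
  have hbound : ∀ n, ∫⁻ z in S n, f z ≤
      ENNReal.ofReal (Real.pi * (1 / r ^ 2 + 2 * C * δ n + C ^ 2 * δ n ^ 4)) := by
    intro n
    have h0 := hδpos n
    have h1 : δ n < r := lt_of_le_of_lt (hδle n) hρ2
    have h2 : δ n < δ0 := lt_of_le_of_lt (hδle n) hρ1
    have h3 := (area_lower h hS (δ n) r h0 h1 hr1).trans (hA (δ n) h0 h2 r h1 hr1)
    have h4 := ENNReal.le_sub_of_add_le_left ENNReal.ofReal_ne_top h3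
    have hpos : 0 ≤ Real.pi * (1 / δ n ^ 2 - 1 / r ^ 2) := by
      apply mul_nonneg Real.pi_pos.le
      rw [sub_nonneg]
      apply one_div_le_one_div_of_le (by positivity)
      exact pow_le_pow_left₀ h0.le h1.le 2
    rw [← ENNReal.ofReal_sub _ hpos] at h4
    have h5 : Real.pi * ((1 + C * δ n ^ 3) ^ 2 / δ n ^ 2) - Real.pi * (1 / δ n ^ 2 - 1 / r ^ 2) =
        Real.pi * (1 / r ^ 2 + 2 * C * δ n + C ^ 2 * δ n ^ 4) := by
      have hne : δ n ≠ 0 := h0.ne'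
      have hrne : r ≠ 0 := hr.ne'
      field_simp
      ring
    rw [h5] at h4
    rw [hSdef]
    exact h4
  have hlim1 : Filter.Tendsto (fun n => ∫⁻ z in S n, f z) Filter.atTop
      (nhds (⨆ n, ∫⁻ z in S n, f z)) := by
    refine tendsto_atTop_iSup ?_
    intro m n hmn
    exact lintegral_mono_set (hSmono hmn)
  have hlim2 : Filter.Tendsto (fun n => ENNReal.ofReal
      (Real.pi * (1 / r ^ 2 + 2 * C * δ n + C ^ 2 * δ n ^ 4))) Filter.atTop
      (nhds (ENNReal.ofReal (Real.pi / r ^ 2))) := by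
    refine ENNReal.tendsto_ofReal ?_
    have h1 : Filter.Tendsto (fun n => Real.pi * (1 / r ^ 2 + 2 * C * δ n + C ^ 2 * δ n ^ 4))
        Filter.atTop (nhds (Real.pi * (1 / r ^ 2 + 2 * C * 0 + C ^ 2 * 0 ^ 4))) :=
      ((tendsto_const_nhds.add (hδlim.const_mul (2 * C))).add
        ((hδlim.pow 4).const_mul (C ^ 2))).const_mul Real.pi
    have h2 : Real.pi * (1 / r ^ 2 + 2 * C * 0 + C ^ 2 * 0 ^ 4) = Real.pi / r ^ 2 := by
      ring
    rw [h2] at h1
    exact h1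
  rw [hball, ← hSU, setLIntegral_iUnion_of_directed f hSmono.directed_le]
  exact le_of_tendsto_of_tendsto' hlim1 hlim2 hbound

end H62.CJ
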