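import Pool.Agent.H62.CJ.A1
import Pool.Agent.H62.CJ.A6
import Pool.Agent.H62.CJ.A7

/-!
# CJ-A9: exclusion and two point inequality for the class S

`two_point`: `|1/g z - 1/z + g''(0)/2| <= sqrt (- log (1 - |z|^2))` for `0 < |z| < 1`.
PROOF.  `sig_of_S` gives `h`; `(g z)⁻¹ - z⁻¹ + g''(0)/2 = h z - h 0`; `area_pointwise`.

`exclusion`: if `w ≠ 0` is not a value of `g` on `|z| < ρ` (`0 < ρ < 1`), then
`|1/w + g''(0)/2| <= 1/ρ + sqrt (- log (1 - ρ^2))`.
PROOF.  Let `0 < r < ρ` and `K = closedBall (h 0) (1/r + sqrt (- log (1 - r^2)))`, closed and convex.  For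
`|z| = r`: `|z⁻¹ + h z - h 0| <= 1/r + sqrt (-log (1 - r^2))` by `area_pointwise`.  For `0 < |z| <= r`:
`z⁻¹ + h z = (g z)⁻¹ ≠ w⁻¹`.  `convex_exclusion` with `w⁻¹` gives `w⁻¹ ∈ K`, i.e. the inequality with `r`
in place of `ρ`.  Let `r -> ρ` (the right side is continuous in `r` at `ρ`; `ge_of_tendsto` along
`𝓝[<] ρ`).
-/

set_option autoImplicit false

open Set Metric MeasureTheory

namespace H62.CJ

theorem two_point (g : ℂ → ℂ) (hg : IsS g) (z : ℂ) (hz : z ∈ ball (0 : ℂ) 1) (h0 : z ≠ 0) :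
    ‖(g z)⁻¹ - z⁻¹ + deriv (deriv g) 0 / 2‖ ≤ Real.sqrt (-Real.log (1 - ‖z‖ ^ 2)) := by
  obtain ⟨h, hS, hgh, h00⟩ := sig_of_S g hg
  have h1 : (g z)⁻¹ - z⁻¹ + deriv (deriv g) 0 / 2 = h z - h 0 := by
    rw [hgh z hz h0, h00]
    ring
  rw [h1]
  exact area_pointwise h hS z hz

theorem exclusion (g : ℂ → ℂ) (hg : IsS g) (ρ : ℝ) (hρ : 0 < ρ) (hρ1 : ρ < 1) (w : ℂ) (hw : w ≠ 0)
    (hw' : ∀ z ∈ ball (0 : ℂ) ρ, g z ≠ w) :
    ‖w⁻¹ + deriv (deriv g) 0 / 2‖ ≤ 1 / ρ + Real.sqrt (-Real.log (1 - ρ ^ 2)) := by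
  obtain ⟨h, hS, hgh, h00⟩ := sig_of_S g hg
  -- the inequality for all smaller radii
  have key : ∀ r : ℝ, 0 < r → r < ρ →
      ‖w⁻¹ + deriv (deriv g) 0 / 2‖ ≤ 1 / r + Real.sqrt (-Real.log (1 - r ^ 2)) := by
    intro r hr hrρ
    have hr1 : r < 1 := hrρ.trans hρ1
    have hmem : w⁻¹ ∈ closedBall (h 0) (1 / r + Real.sqrt (-Real.log (1 - r ^ 2))) := by
      apply convex_exclusion h r hr _ (convex_closedBall _ _) isClosed_closedBall
      · intro z hz
        have hzb : z ∈ ball (0 : ℂ) 1 := by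
          rw [mem_ball_zero_iff]
          rw [mem_closedBall_zero_iff] at hz
          linarith
        exact hS.diff.differentiableAt (isOpen_ball.mem_nhds hzb)
      · intro z hz hz0 heq
        rw [mem_closedBall_zero_iff] at hz
        have hzb : z ∈ ball (0 : ℂ) 1 := by
          rw [mem_ball_zero_iff]
          linarith
        have hzρ : z ∈ ball (0 : ℂ) ρ := by
          rw [mem_ball_zero_iff]
          linarith
        rw [← hgh z hzb hz0] at heq
        exact hw' z hzρ (inv_injective heq)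
      · intro z hz
        have hzb : z ∈ ball (0 : ℂ) 1 := by
          rw [mem_ball_zero_iff, hz]
          exact hr1
        rw [mem_closedBall_iff_norm]
        have h1 : z⁻¹ + h z - h 0 = z⁻¹ + (h z - h 0) := by ring
        rw [h1]
        have h2 := area_pointwise h hS z hzb
        rw [hz] at h2
        have h3 : ‖z⁻¹‖ = 1 / r := by rw [norm_inv, hz, one_div]
        calc ‖z⁻¹ + (h z - h 0)‖ ≤ ‖z⁻¹‖ + ‖h z - h 0‖ := norm_add_le _ _
          _ ≤ 1 / r + Real.sqrt (-Real.log (1 - r ^ 2)) := by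
            rw [h3]
            linarith
    rw [mem_closedBall_iff_norm] at hmem
    have h4 : w⁻¹ + deriv (deriv g) 0 / 2 = w⁻¹ - h 0 := by
      rw [h00]
      ring
    rw [h4]
    exact hmem
  -- continuity of the right side
  have hcont : ContinuousAt (fun r : ℝ => 1 / r + Real.sqrt (-Real.log (1 - r ^ 2))) ρ := by
    apply ContinuousAt.add
    · exact continuousAt_const.div continuousAt_id hρ.ne'
    · apply Real.continuous_sqrt.continuousAt.comp
      apply ContinuousAt.neg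
      apply ContinuousAt.log
      · exact continuousAt_const.sub (continuousAt_id.pow 2)
      · have : ρ ^ 2 < 1 := by nlinarith
        exact (sub_pos.2 this).ne'
  have htend : Filter.Tendsto (fun r : ℝ => 1 / r + Real.sqrt (-Real.log (1 - r ^ 2)))
      (nhdsWithin ρ (Iio ρ)) (nhds (1 / ρ + Real.sqrt (-Real.log (1 - ρ ^ 2)))) :=
    hcont.tendsto.mono_left nhdsWithin_le_nhds
  refine ge_of_tendsto htend ?_
  filter_upwards [Ioo_mem_nhdsLT hρ] with r hr
  exact key r hr.1 hr.2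

end H62.CJ
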