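import Pool.Agent.H62.CJ.Def

/-!
# CJ-M0: the strip as a product, measurability

`lintegral_strip`: for measurable `f`, `int⁻_{strip a b} f = int⁻_{v ∈ (a,b)} int⁻_{x ∈ (0, 2 pi)} f (pt x v)`.
PROOF.  `Complex.measurableEquivRealProd` preserves volume (`Complex.volume_preserving_equiv_real_prod`),
it maps the strip onto `Ioo 0 (2 pi) ×ˢ Ioo a b`; then `lintegral_prod_symm` / `setLIntegral_prod`
for the restricted product measure (`Measure.prod_restrict`).

`measurable_GG`, `measurable_HH` etc: joint measurability of `(w, z) ↦ GG F w z` etc. from `Measurable F`,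
`measurable_deriv F` (twice).
-/

set_option autoImplicit false

open Set Metric MeasureTheory

namespace H62.CJ

theorem measurableSet_strip (a b : ℝ) : MeasurableSet (strip a b) :=
  (measurableSet_lt measurable_const Complex.measurable_re).inter
    ((measurableSet_lt Complex.measurable_re measurable_const).inter
      ((measurableSet_lt measurable_const Complex.measurable_im).inter
        (measurableSet_lt Complex.measurable_im measurable_const)))

theorem measurable_pt : Measurable (fun p : ℝ × ℝ => pt p.1 p.2) := by
  simp only [pt_eq]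
  exact (Complex.measurable_ofReal.comp measurable_fst).add
    ((Complex.measurable_ofReal.comp measurable_snd).mul_const _)

theorem lintegral_strip (f : ℂ → ENNReal) (hf : Measurable f) (a b : ℝ) :
    ∫⁻ ζ in strip a b, f ζ =
      ∫⁻ v in Ioo a b, ∫⁻ x in Ioo 0 (2 * Real.pi), f (pt x v) := by
  have h0 : strip a b = Complex.measurableEquivRealProd ⁻¹' (Ioo 0 (2 * Real.pi) ×ˢ Ioo a b) := by
    ext z
    simp only [strip, mem_ofPred_eq, mem_preimage, Complex.measurableEquivRealProd_apply,
      mem_prod, mem_Ioo]
    tauto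
  have h1 : ∀ z : ℂ, f z = (fun p : ℝ × ℝ => f (pt p.1 p.2)) (Complex.measurableEquivRealProd z) :=
    fun z => rfl
  have h2 : Measurable (fun p : ℝ × ℝ => f (pt p.1 p.2)) := hf.comp measurable_pt
  calc ∫⁻ ζ in strip a b, f ζ
      = ∫⁻ ζ in Complex.measurableEquivRealProd ⁻¹' (Ioo 0 (2 * Real.pi) ×ˢ Ioo a b),
          (fun p : ℝ × ℝ => f (pt p.1 p.2)) (Complex.measurableEquivRealProd ζ) := by
        rw [h0]
        exact lintegral_congr h1
    _ = ∫⁻ p in Ioo 0 (2 * Real.pi) ×ˢ Ioo a b, f (pt p.1 p.2) :=
        Complex.volume_preserving_equiv_real_prod.setLIntegral_comp_preimage_emb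
          Complex.measurableEquivRealProd.measurableEmbedding
          (fun p : ℝ × ℝ => f (pt p.1 p.2)) (Ioo 0 (2 * Real.pi) ×ˢ Ioo a b)
    _ = ∫⁻ v in Ioo a b, ∫⁻ x in Ioo 0 (2 * Real.pi), f (pt x v) := by
        rw [Measure.volume_eq_prod, ← Measure.prod_restrict]
        exact lintegral_prod_symm _ h2.aemeasurable

theorem measurable_AA (F : ℂ → ℂ) (hF : Measurable F) : Measurable (AA F) := by
  have h1 : Measurable (deriv F) := measurable_deriv F
  have h2 : Measurable (deriv (deriv F)) := measurable_deriv _
  exact ((Complex.measurable_ofReal.comp Complex.measurable_im).mul h2).div h1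

private theorem measurable_VV (F : ℂ → ℂ) : Measurable (VV F) := by
  have h1 : Measurable (deriv F) := measurable_deriv F
  exact ((Complex.measurable_ofReal.comp Complex.measurable_im).const_mul (-Complex.I)).mul h1

theorem measurable_ss (F : ℂ → ℂ) (hF : Measurable F) :
    Measurable (fun p : ℂ × ℂ => ss F p.1 p.2) :=
  ((measurable_VV F).comp measurable_snd).div (measurable_fst.sub (hF.comp measurable_snd))

theorem measurable_GG (F : ℂ → ℂ) (hF : Measurable F) :
    Measurable (fun p : ℂ × ℂ => GG F p.1 p.2) := by
  have h1 : Measurable (fun p : ℂ × ℂ => ‖p.1 - F p.2‖) :=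
    (measurable_fst.sub (hF.comp measurable_snd)).norm
  have h2 : Measurable (fun p : ℂ × ℂ => (ss F p.1 p.2).re) :=
    Complex.measurable_re.comp (measurable_ss F hF)
  exact (h1.pow_const _).mul ((h2.const_mul _).sub measurable_const)

private theorem measurable_GX (F : ℂ → ℂ) (hF : Measurable F) :
    Measurable (fun p : ℂ × ℂ => GX F p.1 p.2) := by
  have h0 : Measurable (fun p : ℂ × ℂ => p.2.im) := Complex.measurable_im.comp measurable_snd
  have h1 : Measurable (fun p : ℂ × ℂ => ‖p.1 - F p.2‖) :=
    (measurable_fst.sub (hF.comp measurable_snd)).norm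
  have h2 : Measurable (fun p : ℂ × ℂ => (ss F p.1 p.2).re) :=
    Complex.measurable_re.comp (measurable_ss F hF)
  have h3 : Measurable (fun p : ℂ × ℂ => (ss F p.1 p.2).im) :=
    Complex.measurable_im.comp (measurable_ss F hF)
  have h4 : Measurable (fun p : ℂ × ℂ => (AA F p.2 * ss F p.1 p.2).re) :=
    Complex.measurable_re.comp (((measurable_AA F hF).comp measurable_snd).mul
      (measurable_ss F hF))
  exact (((measurable_const.div h0).mul (h1.pow_const _))).mul
    (h4.sub (h3.mul ((h2.const_mul _).sub measurable_const)))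

theorem measurable_HH (F : ℂ → ℂ) (hF : Measurable F) :
    Measurable (fun p : ℂ × ℂ => HH F p.1 p.2) := by
  have h2 : Measurable (fun p : ℂ × ℂ => (ss F p.1 p.2).re) :=
    Complex.measurable_re.comp (measurable_ss F hF)
  have h5 : MeasurableSet {p : ℂ × ℂ | kap < (1 / 2) * (ss F p.1 p.2).re} :=
    measurableSet_lt measurable_const (h2.const_mul _)
  exact Measurable.ite h5 (measurable_abs.comp (measurable_GX F hF)) measurable_const

theorem measurable_KA (A : ℂ) : Measurable (KA A) := by
  have h5 : MeasurableSet {s : ℂ | kap < (1 / 2) * s.re} :=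
    measurableSet_lt measurable_const (Complex.measurable_re.const_mul _)
  have h6 : Measurable (fun s : ℂ => (A * s).re - s.im * ((5 / 2) * s.re - kap)) :=
    (Complex.measurable_re.comp (measurable_id.const_mul A)).sub
      (Complex.measurable_im.mul ((Complex.measurable_re.const_mul _).sub measurable_const))
  have h7 : Measurable (fun s : ℂ => ‖s‖ ^ (-(7 / 2) : ℝ)) := measurable_norm.pow_const _
  exact Measurable.ite h5 ((h7.const_mul _).mul (measurable_abs.comp h6)) measurable_const

end H62.CJ
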