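import Pool.Agent.H62.CJ.L4
import Pool.Agent.H62.CJ.M0

/-!
# CJ-C1: area formula for the map ζ ↦ s

`F` in the class, `z = pt x y`, `0 < y <= 1/2`, `0 < a`.  Let `V = VV F z`, `A = AA F z`,
`S ζ = ss F (F ζ) z = V/(F ζ - F z)`.  Then
`int_{ζ ∈ strip a (3/5 y)} |F' ζ|^2 HH F (F ζ) z
   <= y^(1/2) |F' z|^(3/2) int_{|s - (1 + i A)/2| <= (4+eps0)/2 + 4y} KA A s`.

PROOF.  On `strip a (3/5 y)` (open, measurable) `F ζ ≠ F z` (`excl`), `S` is differentiable with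
`S' ζ = - V F' ζ/(F ζ - F z)^2`, and injective (`V ≠ 0` by `deriv_ne`; `F` is injective on the strip: real
parts in `(0, 2 pi)`, class property `inj`).  `|S'|^2 = |V|^2 |F'|^2/|F ζ - F z|^4 = |F'|^2 |S|^4/|V|^2`.
Area formula `lintegral_image_eq_lintegral_abs_det_fderiv_mul` with the measurable set `strip a (3/5 y)`
and the function `g s = ofReal (KA A s)` (model for the determinant: `det_restrict` in
`Pool/Agent/H38/Nev/Plane.lean`, copy it):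
`int⁻_{S '' strip} g = int⁻_strip ofReal (|S' ζ|^2) g (S ζ)`.
Pointwise identity: with `E = Re (A s) - Im s ((5/2) Re s - kap)`, `s = S ζ`, and if `kap < (1/2) Re s`:
`|F'|^2 HH = |F'|^2 (1/(2y)) |F ζ - F z|^(-1/2) |E|`, `|F ζ - F z| = |V|/|s|`, so
`= |F'|^2 (1/(2y)) |V|^(-1/2) |s|^(1/2) |E|`; and
`|S'|^2 KA A s = |F'|^2 |s|^4 |V|^(-2) (1/2) |s|^(-7/2) |E| = |F'|^2 |V|^(-2) (1/2) |s|^(1/2) |E|`.
So `|F'|^2 HH = (1/y) |V|^(3/2) |S'|^2 KA A s` and `(1/y)|V|^(3/2) = y^(1/2) |F' z|^(3/2)`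
(`|V| = y |F' z|`).  If `kap < (1/2) Re s` fails both sides are `0`.
Finally `S '' strip ⊆ closedBall` by `excl`, `lintegral_mono_set`.
-/

set_option autoImplicit false

open Set Metric MeasureTheory

namespace H62.CJ

private lemma c1_det_restrict (c : ℂ) :
    ((ContinuousLinearMap.toSpanSingleton ℂ c).restrictScalars ℝ : ℂ →L[ℝ] ℂ).det = ‖c‖ ^ 2 := by
  have h1 : (((ContinuousLinearMap.toSpanSingleton ℂ c).restrictScalars ℝ : ℂ →L[ℝ] ℂ) :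
      ℂ →ₗ[ℝ] ℂ) = Algebra.lmul ℝ ℂ c := by
    ext x
    simp [mul_comm]
  rw [ContinuousLinearMap.det, h1, ← Algebra.norm_apply, Algebra.norm_complex_apply,
    Complex.normSq_eq_norm_sq]

/-- the power identity -/
private lemma c1_pow (y p v D : ℝ) (hy : 0 < y) (hp : 0 < p) (hD : 0 < D) (hv : v = y * p) :
    ((1 / 2) / y) * D ^ (-(1 / 2) : ℝ) =
      (y ^ (1 / 2 : ℝ) * p ^ (3 / 2 : ℝ)) * ((v / D ^ 2) ^ 2 * ((1 / 2) * (v / D) ^ (-(7 / 2) : ℝ))) := by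
  have hv0 : 0 < v := by rw [hv]; positivity
  have h1 : (v / D) ^ (-(7 / 2) : ℝ) = v ^ (-(7 / 2) : ℝ) / D ^ (-(7 / 2) : ℝ) :=
    Real.div_rpow hv0.le hD.le _
  have h2 : v ^ (-(7 / 2) : ℝ) = y ^ (-(7 / 2) : ℝ) * p ^ (-(7 / 2) : ℝ) := by
    rw [hv, Real.mul_rpow hy.le hp.le]
  have h3 : D ^ (-(1 / 2) : ℝ) = D ^ (-(7 / 2) : ℝ) * D ^ 3 := by
    rw [← Real.rpow_natCast D 3, ← Real.rpow_add hD]
    norm_num
  have h3' : D ^ (-(7 / 2) : ℝ) * D ^ (-(7 / 2) : ℝ) * D ^ 7 = 1 := by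
    rw [← Real.rpow_natCast D 7, ← Real.rpow_add hD, ← Real.rpow_add hD]
    norm_num
  have h4 : y ^ (1 / 2 : ℝ) * y ^ (-(7 / 2) : ℝ) = (y ^ 3)⁻¹ := by
    rw [← Real.rpow_add hy, ← Real.rpow_natCast y 3, ← Real.rpow_neg hy.le]
    norm_num
  have h5 : p ^ (3 / 2 : ℝ) * p ^ (-(7 / 2) : ℝ) = (p ^ 2)⁻¹ := by
    rw [← Real.rpow_add hp, ← Real.rpow_natCast p 2, ← Real.rpow_neg hp.le]
    norm_num
  have hD7 : (D ^ (-(7 / 2) : ℝ)) ≠ 0 := (Real.rpow_pos_of_pos hD _).ne'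
  have hyn : y ≠ 0 := hy.ne'
  have hpn : p ≠ 0 := hp.ne'
  have hDn : D ≠ 0 := hD.ne'
  rw [h1, h2]
  have e1 : (y ^ (1 / 2 : ℝ) * p ^ (3 / 2 : ℝ)) * ((v / D ^ 2) ^ 2 * ((1 / 2) *
      (y ^ (-(7 / 2) : ℝ) * p ^ (-(7 / 2) : ℝ) / D ^ (-(7 / 2) : ℝ)))) =
      (1 / 2) * (y ^ (1 / 2 : ℝ) * y ^ (-(7 / 2) : ℝ)) * (p ^ (3 / 2 : ℝ) * p ^ (-(7 / 2) : ℝ)) *
        (v ^ 2 / D ^ 4) / D ^ (-(7 / 2) : ℝ) := by
    field_simp
  rw [e1, h4, h5, hv, h3]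
  rw [eq_div_iff hD7]
  have : 1 / 2 / y * (D ^ (-(7 / 2) : ℝ) * D ^ 3) * D ^ (-(7 / 2) : ℝ) =
      1 / 2 / y * (D ^ (-(7 / 2) : ℝ) * D ^ (-(7 / 2) : ℝ) * D ^ 7) / D ^ 4 := by
    field_simp
  rw [this, h3']
  field_simp

theorem cost_change (F : ℂ → ℂ) (M : ℝ) (hF : Cls F M) (x y a : ℝ) (hy : 0 < y)
    (hy1 : y ≤ 1 / 2) (ha : 0 < a) :
    ∫⁻ ζ in strip a (3 / 5 * y), ENNReal.ofReal (‖deriv F ζ‖ ^ 2 * HH F (F ζ) (pt x y)) ≤
      ENNReal.ofReal (y ^ (1 / 2 : ℝ) * ‖deriv F (pt x y)‖ ^ (3 / 2 : ℝ)) *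
      ∫⁻ s in closedBall ((1 + Complex.I * AA F (pt x y)) / 2) ((4 + eps0) / 2 + 4 * y),
        ENNReal.ofReal (KA (AA F (pt x y)) s) := by
  have hFz : deriv F (pt x y) ≠ 0 := deriv_ne F M hF (pt x y) (by simpa using hy)
  have hp : 0 < ‖deriv F (pt x y)‖ := norm_pos_iff.2 hFz
  have hvn : ‖VV F (pt x y)‖ = y * ‖deriv F (pt x y)‖ := by
    unfold VV
    rw [norm_mul, norm_mul, norm_neg, Complex.norm_I, one_mul, pt_im, Complex.norm_real,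
      Real.norm_of_nonneg hy.le]
  have hV : VV F (pt x y) ≠ 0 := by
    rw [← norm_pos_iff, hvn]
    positivity
  have hex : ∀ ζ ∈ strip a (3 / 5 * y), F ζ ≠ F (pt x y) ∧
      ‖ss F (F ζ) (pt x y) - (1 + Complex.I * AA F (pt x y)) / 2‖ ≤ (4 + eps0) / 2 + 4 * y := by
    intro ζ hζ
    exact excl F M hF x y hy hy1 ζ (ha.trans hζ.2.2.1) hζ.2.2.2
  have hHP : IsOpen HP := isOpen_lt continuous_const Complex.continuous_im
  have hder : ∀ ζ ∈ strip a (3 / 5 * y), HasDerivAt (fun ζ => ss F (F ζ) (pt x y))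
      (-(VV F (pt x y) * deriv F ζ / (F ζ - F (pt x y)) ^ 2)) ζ := by
    intro ζ hζ
    have h1 : DifferentiableAt ℂ F ζ :=
      (hF.diff ζ (ha.trans hζ.2.2.1)).differentiableAt (hHP.mem_nhds (ha.trans hζ.2.2.1))
    have h2 : F ζ - F (pt x y) ≠ 0 := sub_ne_zero.2 (hex ζ hζ).1
    have h3 := (hasDerivAt_const ζ (VV F (pt x y))).div (h1.hasDerivAt.sub_const (F (pt x y))) h2
    refine h3.congr_deriv ?_
    ring
  have hinj : InjOn (fun ζ => ss F (F ζ) (pt x y)) (strip a (3 / 5 * y)) := by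
    intro ζ hζ ζ' hζ' he
    have h2 : F ζ - F (pt x y) ≠ 0 := sub_ne_zero.2 (hex ζ hζ).1
    have h2' : F ζ' - F (pt x y) ≠ 0 := sub_ne_zero.2 (hex ζ' hζ').1
    have h3 : F ζ = F ζ' := by
      simp only [ss] at he
      rw [div_eq_div_iff h2 h2'] at he
      have := mul_left_cancel₀ hV he
      exact (sub_left_inj.1 this).symm
    obtain ⟨k, hk⟩ := hF.inj ζ ζ' (ha.trans hζ.2.2.1) (ha.trans hζ'.2.2.1) h3
    have hre := congrArg Complex.re hk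
    rw [Complex.sub_re, Complex.ofReal_re] at hre
    have hk0 : k = 0 := by
      have hpi := Real.pi_pos
      have h5 : (k : ℝ) < 1 := by
        by_contra h
        push Not at h
        have := hζ.2.1
        have := hζ'.1
        nlinarith
      have h6 : (-1 : ℝ) < k := by
        by_contra h
        push Not at h
        have := hζ.1
        have := hζ'.2.1
        nlinarith
      have h5' : k < 1 := by exact_mod_cast h5
      have h6' : -1 < k := by exact_mod_cast h6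
      omega
    rw [hk0] at hk
    have : ζ - ζ' = 0 := by rw [hk]; simp
    exact sub_eq_zero.1 this
  have hfd : ∀ ζ ∈ strip a (3 / 5 * y), HasFDerivWithinAt (fun ζ => ss F (F ζ) (pt x y))
      ((ContinuousLinearMap.toSpanSingleton ℂ
        (-(VV F (pt x y) * deriv F ζ / (F ζ - F (pt x y)) ^ 2))).restrictScalars ℝ)
      (strip a (3 / 5 * y)) ζ := by
    intro ζ hζ
    exact ((hder ζ hζ).hasFDerivAt.restrictScalars ℝ).hasFDerivWithinAt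
  have hcv := lintegral_image_eq_lintegral_abs_det_fderiv_mul volume
    (measurableSet_strip a (3 / 5 * y)) hfd hinj
    (fun s => ENNReal.ofReal (KA (AA F (pt x y)) s))
  have hc0 : 0 ≤ y ^ (1 / 2 : ℝ) * ‖deriv F (pt x y)‖ ^ (3 / 2 : ℝ) := by positivity
  have hpoint : ∀ ζ ∈ strip a (3 / 5 * y),
      ENNReal.ofReal (‖deriv F ζ‖ ^ 2 * HH F (F ζ) (pt x y)) =
      ENNReal.ofReal (y ^ (1 / 2 : ℝ) * ‖deriv F (pt x y)‖ ^ (3 / 2 : ℝ)) *
      (ENNReal.ofReal |((ContinuousLinearMap.toSpanSingleton ℂ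
        (-(VV F (pt x y) * deriv F ζ / (F ζ - F (pt x y)) ^ 2))).restrictScalars ℝ : ℂ →L[ℝ] ℂ).det| *
        ENNReal.ofReal (KA (AA F (pt x y)) (ss F (F ζ) (pt x y)))) := by
    intro ζ hζ
    rw [c1_det_restrict, abs_of_nonneg (by positivity), ← ENNReal.ofReal_mul (by positivity),
      ← ENNReal.ofReal_mul hc0]
    congr 1
    have hD : 0 < ‖F ζ - F (pt x y)‖ := norm_pos_iff.2 (sub_ne_zero.2 (hex ζ hζ).1)
    have hS' : ‖-(VV F (pt x y) * deriv F ζ / (F ζ - F (pt x y)) ^ 2)‖ =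
        ‖VV F (pt x y)‖ * ‖deriv F ζ‖ / ‖F ζ - F (pt x y)‖ ^ 2 := by
      rw [norm_neg, norm_div, norm_mul, norm_pow]
    have hs : ‖ss F (F ζ) (pt x y)‖ = ‖VV F (pt x y)‖ / ‖F ζ - F (pt x y)‖ := by
      rw [ss, norm_div]
    have hpow := c1_pow y ‖deriv F (pt x y)‖ ‖VV F (pt x y)‖ ‖F ζ - F (pt x y)‖ hy hp hD hvn
    unfold HH KA
    by_cases hk : kap < (1 / 2) * (ss F (F ζ) (pt x y)).re
    · rw [if_pos hk, if_pos hk]
      unfold GX
      rw [abs_mul, abs_of_nonneg (a := (1 / 2) / (pt x y).im * _) (by rw [pt_im]; positivity),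
        hS', hs, pt_im, hpow]
      ring
    · rw [if_neg hk, if_neg hk]
      ring
  calc ∫⁻ ζ in strip a (3 / 5 * y), ENNReal.ofReal (‖deriv F ζ‖ ^ 2 * HH F (F ζ) (pt x y))
      = ∫⁻ ζ in strip a (3 / 5 * y),
        ENNReal.ofReal (y ^ (1 / 2 : ℝ) * ‖deriv F (pt x y)‖ ^ (3 / 2 : ℝ)) *
        (ENNReal.ofReal |((ContinuousLinearMap.toSpanSingleton ℂ
          (-(VV F (pt x y) * deriv F ζ / (F ζ - F (pt x y)) ^ 2))).restrictScalars ℝ :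
            ℂ →L[ℝ] ℂ).det| *
          ENNReal.ofReal (KA (AA F (pt x y)) (ss F (F ζ) (pt x y)))) :=
        setLIntegral_congr_fun (measurableSet_strip _ _) hpoint
    _ = ENNReal.ofReal (y ^ (1 / 2 : ℝ) * ‖deriv F (pt x y)‖ ^ (3 / 2 : ℝ)) *
        ∫⁻ s in (fun ζ => ss F (F ζ) (pt x y)) '' strip a (3 / 5 * y),
          ENNReal.ofReal (KA (AA F (pt x y)) s) := by
        rw [hcv, lintegral_const_mul' _ _ ENNReal.ofReal_ne_top]
    _ ≤ _ := by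
        gcongr
        rintro _ ⟨ζ, hζ, rfl⟩
        rw [mem_closedBall, dist_eq_norm]
        exact (hex ζ hζ).2

end H62.CJ
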