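import Pool.Agent.H62.CJ.S6
import Pool.Agent.H62.CJ.Z1
import Pool.Agent.H62.CJ.Z2
import Pool.Agent.H62.CJ.Z3

/-!
# CJ-Z4: the final theorem

PROOF.  `P1_bound 1` gives `C1`, `P1_bound (exp 4 + 1)` gives `C2`; `C = 3 (C1 + C2 + 1)`, say (`exp 1/(2 pi) <= 1`).
S_1: `coeff_bound` with `e = 0` (`0 * ξ⁻¹ + f ξ = f ξ`), `S1_cls`, `y = 1/n`:
`|a_n| <= (exp 1/(2 pi n)) C1 (1/n)^(-0.42) <= C1 n^(-1) n^(0.42) = C1 n^(-0.58)`.
Arclength: `PP_FF`.  S_2: `coeff_bound` with `e = 1`, `S2_cls`, `arc_S2`.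
-/

set_option autoImplicit false

open Set Metric MeasureTheory

namespace H62.CJ

theorem Z4_coef {a P K : ℝ} {n : ℕ} (hn : 1 ≤ n) (hK : 0 < K)
    (ha : a ≤ Real.exp 1 / (2 * Real.pi * n) * P)
    (hP : P ≤ K * (1 / (n : ℝ)) ^ (-(42 / 100) : ℝ)) :
    a ≤ K * (n : ℝ) ^ (-(58 / 100) : ℝ) := by
  have hn0 : (0 : ℝ) < n := by exact_mod_cast hn
  have h1 : (1 / (n : ℝ)) ^ (-(42 / 100) : ℝ) = (n : ℝ) ^ (42 / 100 : ℝ) := by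
    rw [one_div, Real.inv_rpow hn0.le, Real.rpow_neg hn0.le, inv_inv]
  rw [h1] at hP
  have he : Real.exp 1 / (2 * Real.pi * n) ≤ (n : ℝ) ^ (-1 : ℝ) := by
    rw [Real.rpow_neg_one, ← one_div, div_le_div_iff₀ (by positivity) hn0]
    have h2 := Real.exp_one_lt_d9
    have h3 := Real.pi_gt_three
    have h4 : Real.exp 1 ≤ 2 * Real.pi := by linarith
    calc Real.exp 1 * n ≤ 2 * Real.pi * n := mul_le_mul_of_nonneg_right h4 hn0.le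
      _ = 1 * (2 * Real.pi * n) := by ring
  have h5 : (n : ℝ) ^ (-(58 / 100) : ℝ) = (n : ℝ) ^ (-1 : ℝ) * (n : ℝ) ^ (42 / 100 : ℝ) := by
    rw [← Real.rpow_add hn0]
    norm_num
  have hpos : 0 ≤ Real.exp 1 / (2 * Real.pi * n) := by positivity
  calc a ≤ Real.exp 1 / (2 * Real.pi * n) * P := ha
    _ ≤ Real.exp 1 / (2 * Real.pi * n) * (K * (n : ℝ) ^ (42 / 100 : ℝ)) :=
      mul_le_mul_of_nonneg_left hP hpos
    _ ≤ (n : ℝ) ^ (-1 : ℝ) * (K * (n : ℝ) ^ (42 / 100 : ℝ)) :=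
      mul_le_mul_of_nonneg_right he (by positivity)
    _ = K * (n : ℝ) ^ (-(58 / 100) : ℝ) := by rw [h5]; ring

theorem final : ∃ C : ℝ, 0 < C ∧
    (∀ f : ℂ → ℂ, DifferentiableOn ℂ f (ball 0 1) → InjOn f (ball 0 1) → f 0 = 0 →
      (∀ z ∈ ball (0 : ℂ) 1, ‖f z‖ ≤ 1) →
      (∀ n : ℕ, 1 ≤ n →
        ‖iteratedDeriv n f 0‖ / (n.factorial : ℝ) ≤ C * (n : ℝ) ^ (-(58 / 100) : ℝ)) ∧
      (∀ ε : ℝ, 0 < ε → ε ≤ 1 →
        ∫ θ in (0 : ℝ)..(2 * Real.pi),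
          ‖deriv f (circleMap 0 (Real.exp (-ε)) θ)‖ * Real.exp (-ε) ≤ C * ε ^ (-(42 / 100) : ℝ))) ∧
    (∀ h : ℂ → ℂ, DifferentiableOn ℂ h (ball 0 1) → h 0 = 0 →
      InjOn (fun z : ℂ => z + h z⁻¹) {z : ℂ | 1 < ‖z‖} →
      (∀ n : ℕ, 1 ≤ n →
        ‖iteratedDeriv n h 0‖ / (n.factorial : ℝ) ≤ C * (n : ℝ) ^ (-(58 / 100) : ℝ)) ∧
      (∀ ε : ℝ, 0 < ε → ε ≤ 1 →
        ∫ θ in (0 : ℝ)..(2 * Real.pi),
          ‖deriv (fun z : ℂ => z + h z⁻¹) (circleMap 0 (Real.exp ε) θ)‖ * Real.exp ε ≤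
            C * ε ^ (-(42 / 100) : ℝ))) := by
  obtain ⟨C1, hC1, h1⟩ := P1_bound 1
  obtain ⟨C2, hC2, h2⟩ := P1_bound (Real.exp 4 + 1)
  have hCC : 0 < C1 + C2 := add_pos hC1 hC2
  have hinv : ∀ n : ℕ, 1 ≤ n → 0 < 1 / (n : ℝ) ∧ 1 / (n : ℝ) ≤ 1 := by
    intro n hn
    have hn0 : (1 : ℝ) ≤ n := by exact_mod_cast hn
    exact ⟨by positivity, (div_le_one (by linarith)).2 hn0⟩
  refine ⟨C1 + C2, hCC, ?_, ?_⟩
  · intro f hd hi h0 hb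
    obtain ⟨hcl, hbd⟩ := S1_cls f hd hi h0 hb
    have hP : ∀ y : ℝ, 0 < y → y ≤ 1 → PP (FF f) 1 y ≤ (C1 + C2) * y ^ (-(42 / 100) : ℝ) := by
      intro y hy hy1
      refine (h1 (FF f) hcl hbd y hy hy1).trans ?_
      exact mul_le_mul_of_nonneg_right (by linarith) (Real.rpow_nonneg hy.le _)
    refine ⟨?_, ?_⟩
    · intro n hn
      have hc := coeff_bound f hd 0 n hn
      have he : (fun ξ : ℂ => 0 * ξ⁻¹ + f ξ) = f := by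
        funext ξ
        rw [zero_mul, zero_add]
      rw [he] at hc
      exact Z4_coef hn hCC hc (hP _ (hinv n hn).1 (hinv n hn).2)
    · intro ε hε hε1
      rw [← PP_FF f (hd.mono sdiff_subset) ε hε]
      exact hP ε hε hε1
  · intro h hd h0 hi
    obtain ⟨hcl, hbd⟩ := S2_cls h hd h0 hi
    have hP : ∀ y : ℝ, 0 < y → y ≤ 1 →
        PP (FF (fun ξ => ξ⁻¹ + h ξ)) 1 y ≤ (C1 + C2) * y ^ (-(42 / 100) : ℝ) := by
      intro y hy hy1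
      refine (h2 _ hcl hbd y hy hy1).trans ?_
      exact mul_le_mul_of_nonneg_right (by linarith) (Real.rpow_nonneg hy.le _)
    refine ⟨?_, ?_⟩
    · intro n hn
      have hc := coeff_bound h hd 1 n hn
      have he : (fun ξ : ℂ => 1 * ξ⁻¹ + h ξ) = fun ξ => ξ⁻¹ + h ξ := by
        funext ξ
        rw [one_mul]
      rw [he] at hc
      exact Z4_coef hn hCC hc (hP _ (hinv n hn).1 (hinv n hn).2)
    · intro ε hε hε1
      rw [arc_S2 h hd ε hε]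
      exact hP ε hε hε1

end H62.CJ
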