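import Mathlib
import Pool.Agent.H62.CJ.Z4

/-!
# MP_ecfee9_an: the Carleson-Jones exponent satisfies `γ ≥ 0.58`

There is a constant `C` such that the coefficients of every univalent function `f = Σ a_n z^n` of the
unit disc with `|f| ≤ 1` satisfy `|a_n| ≤ C n^(-0.58)`, and the coefficients of every univalent
function `z + Σ b_n z^(-n)` of `|z| > 1` satisfy `|b_n| ≤ C n^(-0.58)`.

Method: in the half plane coordinate `F`, the functional `∫∫ |F'|² |F(x+iv) - F(x+iy)|^(-1/2)` is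
followed in `y`; the lateral total variation of its density, the area theorem and the exact moment
identities `∫ |F'|^p Im A = - y P'/p`, `∫ |F'|^p |A|² = y² P''/p²` (`A = y F''/F'`, `P = ∫ |F'|^p`) give
`∫ |F'|^(3/2) ≤ C y^(-0.6369)`; Hölder's inequality with the exponent `1/16` gives
`∫ |F'| ≤ C y^(-0.42)`.
-/

set_option autoImplicit false

open Set Metric

namespace H62.CJ.CoefficientExponentOld

theorem result : ∃ C : ℝ, 0 < C ∧
    (∀ f : ℂ → ℂ, DifferentiableOn ℂ f (ball (0 : ℂ) 1) → InjOn f (ball (0 : ℂ) 1) → f 0 = 0 →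
      (∀ z ∈ ball (0 : ℂ) 1, ‖f z‖ ≤ 1) → ∀ n : ℕ, 1 ≤ n →
        ‖iteratedDeriv n f 0‖ / (n.factorial : ℝ) ≤ C * (n : ℝ) ^ (-(58 / 100) : ℝ)) ∧
    (∀ h : ℂ → ℂ, DifferentiableOn ℂ h (ball (0 : ℂ) 1) → h 0 = 0 →
      InjOn (fun z : ℂ => z + h z⁻¹) {z : ℂ | 1 < ‖z‖} → ∀ n : ℕ, 1 ≤ n →
        ‖iteratedDeriv n h 0‖ / (n.factorial : ℝ) ≤ C * (n : ℝ) ^ (-(58 / 100) : ℝ)) := by
  obtain ⟨C, hC, h1, h2⟩ := H62.CJ.final
  refine ⟨C, hC, ?_, ?_⟩
  · intro f hd hi h0 hb n hn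
    exact (h1 f hd hi h0 hb).1 n hn
  · intro h hd h0 hi n hn
    exact (h2 h hd h0 hi).1 n hn

end H62.CJ.CoefficientExponentOld
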