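import Mathlib

/-!
# Definitions for the project CJ (MP_ecfee9_an, Carleson-Jones exponent)

`pt x y` is the point `x + i y`.  `Cls F M` is the class of all functions `F` which are holomorphic
on the upper half plane, periodic with period `2 pi`, injective modulo `2 pi`, bounded by `M` on
`0 < Im z <= 2`, and which satisfy the argument principle bound `mean`.
-/

set_option autoImplicit false

open Set Metric MeasureTheory

namespace H62.CJ

/-- the point x + i y -/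
def pt (x y : ℝ) : ℂ := ⟨x, y⟩

@[simp] theorem pt_re (x y : ℝ) : (pt x y).re = x := rfl
@[simp] theorem pt_im (x y : ℝ) : (pt x y).im = y := rfl

theorem pt_eq (x y : ℝ) : pt x y = (x : ℂ) + (y : ℂ) * Complex.I := by
  apply Complex.ext <;> simp

theorem pt_re_im (z : ℂ) : pt z.re z.im = z := rfl

/-- the upper half plane -/
def HP : Set ℂ := {z : ℂ | 0 < z.im}

/-- `z⁻¹ + h z` is injective on the punctured unit disc, `h` holomorphic. -/
structure IsSig (h : ℂ → ℂ) : Prop where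
  diff : DifferentiableOn ℂ h (ball 0 1)
  inj : InjOn (fun z : ℂ => z⁻¹ + h z) (ball 0 1 \ {0})

/-- normalised univalent functions on the unit disc -/
structure IsS (g : ℂ → ℂ) : Prop where
  diff : DifferentiableOn ℂ g (ball 0 1)
  inj : InjOn g (ball 0 1)
  zero : g 0 = 0
  one : deriv g 0 = 1

/-- the class of periodic conformal maps of the upper half plane -/
structure Cls (F : ℂ → ℂ) (M : ℝ) : Prop where
  meas : Measurable F
  diff : DifferentiableOn ℂ F HP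
  per : ∀ z : ℂ, 0 < z.im → F (z + ((2 * Real.pi : ℝ) : ℂ)) = F z
  inj : ∀ z w : ℂ, 0 < z.im → 0 < w.im → F z = F w →
    ∃ k : ℤ, z - w = (((k : ℝ) * (2 * Real.pi) : ℝ) : ℂ)
  bdd : ∀ z : ℂ, 0 < z.im → z.im ≤ 2 → ‖F z‖ ≤ M
  mean : ∀ y : ℝ, 0 < y → ∀ w : ℂ, (∀ z : ℂ, y ≤ z.im → F z ≠ w) →
    ‖∫ x in (0 : ℝ)..(2 * Real.pi), deriv F (pt x y) / (F (pt x y) - w)‖ ≤ 2 * Real.pi

/-- `V = - i y F'` -/
noncomputable def VV (F : ℂ → ℂ) (z : ℂ) : ℂ := -Complex.I * (z.im : ℂ) * deriv F z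

/-- `A = y F'' / F'` -/
noncomputable def AA (F : ℂ → ℂ) (z : ℂ) : ℂ := (z.im : ℂ) * deriv (deriv F) z / deriv F z

/-- `s = V / (w - b)`, `b = F z` -/
noncomputable def ss (F : ℂ → ℂ) (w z : ℂ) : ℂ := VV F z / (w - F z)

/-- the exponent kappa -/
noncomputable def kap : ℝ := 1369 / 10000

/-- the height y0 -/
noncomputable def y0 : ℝ := 1 / 100000

/-- the open period strip -/
def strip (a b : ℝ) : Set ℂ := {z : ℂ | 0 < z.re ∧ z.re < 2 * Real.pi ∧ a < z.im ∧ z.im < b}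

/-- `G = |w - b|^(-1/2) (Re s / 2 - kappa)` -/
noncomputable def GG (F : ℂ → ℂ) (w z : ℂ) : ℝ :=
  ‖w - F z‖ ^ (-(1 / 2) : ℝ) * ((1 / 2) * (ss F w z).re - kap)

/-- the lateral derivative of `G` without absolute value -/
noncomputable def GX (F : ℂ → ℂ) (w z : ℂ) : ℝ :=
  ((1 / 2) / z.im) * ‖w - F z‖ ^ (-(1 / 2) : ℝ) *
    ((AA F z * ss F w z).re - (ss F w z).im * ((5 / 2) * (ss F w z).re - kap))

/-- `|d_x G|` on the set where `G > 0` -/
noncomputable def HH (F : ℂ → ℂ) (w z : ℂ) : ℝ :=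
  if kap < (1 / 2) * (ss F w z).re then |GX F w z| else 0

/-- the density in the s plane -/
noncomputable def KA (A s : ℂ) : ℝ :=
  if kap < (1 / 2) * s.re then
    (1 / 2) * ‖s‖ ^ (-(7 / 2) : ℝ) * |(A * s).re - s.im * ((5 / 2) * s.re - kap)| else 0

/-- the integral means -/
noncomputable def PP (F : ℂ → ℂ) (p y : ℝ) : ℝ :=
  ∫ x in (0 : ℝ)..(2 * Real.pi), ‖deriv F (pt x y)‖ ^ p

/-- the first moment -/
noncomputable def B1 (F : ℂ → ℂ) (p y : ℝ) : ℝ :=
  ∫ x in (0 : ℝ)..(2 * Real.pi), ‖deriv F (pt x y)‖ ^ p * (AA F (pt x y)).im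

/-- the second moment -/
noncomputable def B2 (F : ℂ → ℂ) (p y : ℝ) : ℝ :=
  ∫ x in (0 : ℝ)..(2 * Real.pi), ‖deriv F (pt x y)‖ ^ p * ‖AA F (pt x y)‖ ^ 2

/-- `sqrt (- log (15/16))` -/
noncomputable def eps0 : ℝ := Real.sqrt (-Real.log (15 / 16))

end H62.CJ
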