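import Pool.Agent.H62.CJ.JD

/-!
# CJ-J1: the chord lemma

`σ > 0`, `h >= 0`, `α, T` real, `Y >= 0`, and `Y <= (σ^2 + h^2 + α^2/4)^(-3/4)` if `T >= 0`.  Then
`int_{α/2-h}^{α/2+h} (1/2)(σ^2+τ^2)^(-7/4) |α σ - τ T| dτ
   <= (2/3) T (σ^(-3/2) - Y) + σ^(-3/2) (sqrt (α^2+T^2) - T)`.

PROOF.  Write `W τ = (1/2)(σ^2+τ^2)^(-7/4)`.  The substitution `τ -> -τ` shows that we may assume
`α >= 0`.
Facts: (F1) `int_p^q τ W dτ = (1/3)[(σ^2+p^2)^(-3/4) - (σ^2+q^2)^(-3/4)]` (antiderivative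
`- (1/3)(σ^2+τ^2)^(-3/4)`).
(F2) for every `b >= 0`: `int_0^b W (α σ - τ T)^+ dτ <= (1/2) σ^(-3/2)(sqrt (α^2+T^2) - T)` if `T >= 0`.
Proof of (F2): `W τ = (1/2) σ^(-7/2) (1+x^2)^(-7/4) <= (1/2) σ^(-7/2)(1+x^2)^(-3/2)`, `x = τ/σ`, and
`(α σ - τ T)^+ = σ (α - x T)^+`; with `dτ = σ dx` the integral is at most
`(1/2) σ^(-3/2) int_0^{b/σ} (1+x^2)^(-3/2) (α - x T)^+ dx`.  An antiderivative of
`(1+x^2)^(-3/2)(α - x T)` is `(α x + T)/sqrt (1+x^2)`.  If `T > 0` the positive part is supported on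
`[0, α/T]`, value there `(α^2/T + T)/sqrt(1+α^2/T^2) - T = sqrt (α^2+T^2) - T`; if `T = 0` the integral is
`α x/sqrt(1+x^2) <= α`.  (One can also avoid the substitution: the function
`(α τ + T σ)/sqrt(σ^2+τ^2)` has derivative `σ (α σ - T τ)(σ^2+τ^2)^(-3/2)`, and
`σ^2+τ^2 >= σ^2` gives `W τ <= (1/2) σ^(-1/2) (σ^2+τ^2)^(-3/2)`; its maximum is `sqrt (α^2+T^2)` by
Cauchy-Schwarz and its value at `0` is `T`.)
(F3) convexity: with `X1 = σ^2+(h-α/2)^2`, `X2 = σ^2+(h+α/2)^2`, `(X1+X2)/2 = σ^2+h^2+α^2/4`, so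
`X1^(-3/4)+X2^(-3/4) >= 2 (σ^2+h^2+α^2/4)^(-3/4) >= 2 Y`
(convexity of `x^(-3/4)` on `(0, ∞)`: `convexOn_rpow...` for negative exponents, or the tangent
inequality `(1+u)^(-3/4) >= 1 - (3/4) u`, `one_add_mul_self_le_rpow_one_add`-type lemmas with a negative
exponent, or AM-GM).

CASE `T >= 0`, `h >= α/2`: split at `0`: the part `τ ∈ [-(h-α/2), 0]` equals
`int_0^{h-α/2} W (α σ + τ T) dτ`.  So the integral is
`int_0^{h-α/2} W (|α σ - τ T| + α σ + τ T) + int_{h-α/2}^{h+α/2} W |α σ - τ T|`.  Here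
`|a - b| + a + b = 2 max(a,b) = 2 b + 2 (a-b)^+` and `|a-b| <= max(a,b) = b + (a-b)^+` for
`a, b >= 0`.  Total `<= T (int_0^{h-α/2} τ W + int_0^{h+α/2} τ W) + 2 int_0^{h+α/2} W (α σ - τ T)^+`,
and by (F1), (F2), (F3) this is
`<= (T/3)(2 σ^(-3/2) - X1^(-3/4) - X2^(-3/4)) + σ^(-3/2)(sqrt(α^2+T^2)-T)
 <= (2/3) T (σ^(-3/2) - Y) + ...`.
CASE `T >= 0`, `h < α/2`: the interval lies in `(0, ∞)`; the integral is at most
`T int τ W + int W (α σ - τ T)^+ = (T/3)(X1^(-3/4) - X2^(-3/4)) + ...` and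
`X1^(-3/4) <= 2 σ^(-3/2) - X1^(-3/4)` since `X1 >= σ^2`.  Conclude as before.
CASE `T < 0`: extend the integral to `[-b, b]`, `b = h + α/2`:
`int_{-b}^{b} W |α σ - τ T| = int_0^b W (|α σ + τ|T|| + |α σ - τ |T||) = int_0^b 2 W max(α σ, τ |T|)
 = int_0^b 2 W (τ |T| + (α σ - τ|T|)^+)`.  By (F1), (F2) with `|T|`:
`<= (2/3) |T| σ^(-3/2) + σ^(-3/2)(sqrt(α^2+T^2) - |T|)`.  The claim's right side is
`>= (2/3) T σ^(-3/2) + σ^(-3/2)(sqrt(α^2+T^2) + |T|)` (as `- T Y >= 0`), and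
`(2/3)|T| - |T| <= -(2/3)|T| + |T|` holds because `-1/3 <= 1/3`.
-/

set_option autoImplicit false

open Set Metric MeasureTheory

namespace H62.CJ

private noncomputable def J1_W (σ τ : ℝ) : ℝ := 1 / 2 * (σ ^ 2 + τ ^ 2) ^ (-(7 / 4) : ℝ)

private theorem J1_pos {σ : ℝ} (hσ : 0 < σ) (τ : ℝ) : 0 < σ ^ 2 + τ ^ 2 := by positivity

private theorem J1_W_cont {σ : ℝ} (hσ : 0 < σ) : Continuous (J1_W σ) := by
  unfold J1_W
  refine continuous_const.mul (Continuous.rpow_const (by fun_prop) fun τ => Or.inl ?_)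
  exact (J1_pos hσ τ).ne'

private theorem J1_W_nonneg (σ τ : ℝ) : 0 ≤ J1_W σ τ := by
  unfold J1_W
  positivity

private theorem J1_W_neg (σ τ : ℝ) : J1_W σ (-τ) = J1_W σ τ := by
  unfold J1_W
  rw [neg_sq]

/-- (F1) -/
private theorem J1_int {σ : ℝ} (hσ : 0 < σ) (a b : ℝ) :
    ∫ τ in a..b, J1_W σ τ * τ =
      1 / 3 * ((σ ^ 2 + a ^ 2) ^ (-(3 / 4) : ℝ) - (σ ^ 2 + b ^ 2) ^ (-(3 / 4) : ℝ)) := by
  have hd : ∀ τ : ℝ, HasDerivAt (fun τ : ℝ => -(1 / 3) * (σ ^ 2 + τ ^ 2) ^ (-(3 / 4) : ℝ))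
      (J1_W σ τ * τ) τ := by
    intro τ
    have h1 : HasDerivAt (fun τ : ℝ => σ ^ 2 + τ ^ 2) (2 * τ) τ := by
      have h2 := (hasDerivAt_pow 2 τ).const_add (σ ^ 2)
      simpa using h2
    have h3 := (h1.rpow_const (p := (-(3 / 4) : ℝ)) (Or.inl (J1_pos hσ τ).ne')).const_mul
      (-(1 / 3) : ℝ)
    have e : -(1 / 3) * (2 * τ * -(3 / 4) * (σ ^ 2 + τ ^ 2) ^ ((-(3 / 4) : ℝ) - 1)) =
        J1_W σ τ * τ := by
      unfold J1_W
      rw [show (-(3 / 4) : ℝ) - 1 = -(7 / 4) by norm_num]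
      ring
    rw [← e]
    exact h3
  rw [intervalIntegral.integral_eq_sub_of_hasDerivAt (fun τ _ => hd τ)
    (((J1_W_cont hσ).mul continuous_id).intervalIntegrable _ _)]
  ring

/-- (F2) on the part where the integrand is nonnegative -/
private theorem J1_P {σ α T c : ℝ} (hσ : 0 < σ) (hc : 0 ≤ c) (hT : 0 ≤ T)
    (hTc : T * c ≤ α * σ) :
    ∫ τ in (0:ℝ)..c, J1_W σ τ * (α * σ - τ * T) ≤
      1 / 2 * σ ^ (-(3 / 2) : ℝ) * (Real.sqrt (α ^ 2 + T ^ 2) - T) := by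
  set G' : ℝ → ℝ := fun τ => σ * (α * σ - τ * T) * (σ ^ 2 + τ ^ 2) ^ (-(3 / 2) : ℝ) with hG'
  have hG'c : Continuous G' := by
    refine Continuous.mul (by fun_prop) (Continuous.rpow_const (by fun_prop) fun τ => Or.inl ?_)
    exact (J1_pos hσ τ).ne'
  have hd : ∀ τ : ℝ, HasDerivAt (fun τ : ℝ => (α * τ + T * σ) * (σ ^ 2 + τ ^ 2) ^ (-(1 / 2) : ℝ))
      (G' τ) τ := by
    intro τ
    have h1 : HasDerivAt (fun τ : ℝ => σ ^ 2 + τ ^ 2) (2 * τ) τ := by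
      have h2 := (hasDerivAt_pow 2 τ).const_add (σ ^ 2)
      simpa using h2
    have h3 := h1.rpow_const (p := (-(1 / 2) : ℝ)) (Or.inl (J1_pos hσ τ).ne')
    have h4 : HasDerivAt (fun τ : ℝ => α * τ + T * σ) α τ := by
      have h5 := ((hasDerivAt_id τ).const_mul α).add_const (T * σ)
      simpa using h5
    have h6 := h4.mul h3
    have e1 : (σ ^ 2 + τ ^ 2) ^ (-(1 / 2) : ℝ) =
        (σ ^ 2 + τ ^ 2) * (σ ^ 2 + τ ^ 2) ^ (-(3 / 2) : ℝ) := by
      rw [← Real.rpow_one_add' (J1_pos hσ τ).le (by norm_num)]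
      norm_num
    have e : α * (σ ^ 2 + τ ^ 2) ^ (-(1 / 2) : ℝ) +
        (α * τ + T * σ) * (2 * τ * -(1 / 2) * (σ ^ 2 + τ ^ 2) ^ ((-(1 / 2) : ℝ) - 1)) = G' τ := by
      rw [show (-(1 / 2) : ℝ) - 1 = -(3 / 2) by norm_num, e1, hG']
      ring
    rw [← e]
    exact h6
  have h1 : ∫ τ in (0:ℝ)..c, J1_W σ τ * (α * σ - τ * T) ≤
      ∫ τ in (0:ℝ)..c, 1 / 2 * σ ^ (-(3 / 2) : ℝ) * G' τ := by
    refine intervalIntegral.integral_mono_on hc
      (((J1_W_cont hσ).mul (by fun_prop)).intervalIntegrable _ _)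
      ((continuous_const.mul hG'c).intervalIntegrable _ _) ?_
    intro τ hτ
    have h2 : 0 ≤ α * σ - τ * T := by
      have := mul_le_mul_of_nonneg_left hτ.2 hT
      nlinarith
    have h3 : (σ ^ 2 + τ ^ 2) ^ (-(7 / 4) : ℝ) ≤
        σ ^ (-(3 / 2) : ℝ) * σ * (σ ^ 2 + τ ^ 2) ^ (-(3 / 2) : ℝ) := by
      have h4 : (σ ^ 2 + τ ^ 2) ^ (-(7 / 4) : ℝ) =
          (σ ^ 2 + τ ^ 2) ^ (-(1 / 4) : ℝ) * (σ ^ 2 + τ ^ 2) ^ (-(3 / 2) : ℝ) := by
        rw [← Real.rpow_add (J1_pos hσ τ)]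
        norm_num
      have h5 : σ ^ (-(3 / 2) : ℝ) * σ = (σ ^ 2) ^ (-(1 / 4) : ℝ) := by
        rw [← Real.rpow_natCast σ 2, ← Real.rpow_mul hσ.le]
        nth_rewrite 2 [← Real.rpow_one σ]
        rw [← Real.rpow_add hσ]
        norm_num
      rw [h4, h5]
      refine mul_le_mul_of_nonneg_right ?_ (by positivity)
      exact Real.rpow_le_rpow_of_nonpos (by positivity) (by nlinarith [sq_nonneg τ])
        (by norm_num)
    unfold J1_W
    rw [hG']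
    have h6 := mul_le_mul_of_nonneg_right h3 h2
    show 1 / 2 * (σ ^ 2 + τ ^ 2) ^ (-(7 / 4) : ℝ) * (α * σ - τ * T) ≤
      1 / 2 * σ ^ (-(3 / 2) : ℝ) * (σ * (α * σ - τ * T) * (σ ^ 2 + τ ^ 2) ^ (-(3 / 2) : ℝ))
    nlinarith
  refine h1.trans ?_
  rw [intervalIntegral.integral_const_mul, intervalIntegral.integral_eq_sub_of_hasDerivAt
    (fun τ _ => hd τ) (hG'c.intervalIntegrable _ _)]
  refine mul_le_mul_of_nonneg_left ?_ (by positivity)
  have h0 : (α * 0 + T * σ) * (σ ^ 2 + 0 ^ 2) ^ (-(1 / 2) : ℝ) = T := by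
    have h5 : (σ ^ 2 + 0 ^ 2) ^ (-(1 / 2) : ℝ) = σ⁻¹ := by
      rw [show σ ^ 2 + 0 ^ 2 = σ ^ 2 by ring, ← Real.rpow_natCast σ 2, ← Real.rpow_mul hσ.le]
      norm_num
      rw [Real.rpow_neg_one]
    rw [h5]
    field_simp
    ring
  have h7 : (α * c + T * σ) * (σ ^ 2 + c ^ 2) ^ (-(1 / 2) : ℝ) ≤ Real.sqrt (α ^ 2 + T ^ 2) := by
    have h5 : (σ ^ 2 + c ^ 2) ^ (-(1 / 2) : ℝ) = (Real.sqrt (σ ^ 2 + c ^ 2))⁻¹ := by
      rw [Real.sqrt_eq_rpow, ← Real.rpow_neg (J1_pos hσ c).le]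
    rw [h5, ← div_eq_mul_inv, div_le_iff₀ (Real.sqrt_pos.2 (J1_pos hσ c)),
      ← Real.sqrt_mul (by positivity)]
    refine Real.le_sqrt_of_sq_le ?_
    nlinarith [sq_nonneg (α * σ - T * c)]
  rw [h0]
  linarith

/-- `int_0^b W max (α σ) (τ T)` -/
private theorem J1_M {σ α T b : ℝ} (hσ : 0 < σ) (hα : 0 ≤ α) (hb : 0 ≤ b) (hT : 0 ≤ T) :
    ∫ τ in (0:ℝ)..b, J1_W σ τ * max (α * σ) (τ * T) ≤
      T / 3 * (σ ^ (-(3 / 2) : ℝ) - (σ ^ 2 + b ^ 2) ^ (-(3 / 4) : ℝ)) +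
      1 / 2 * σ ^ (-(3 / 2) : ℝ) * (Real.sqrt (α ^ 2 + T ^ 2) - T) := by
  have hW := J1_W_cont hσ
  have e0 : (σ ^ 2 + 0 ^ 2) ^ (-(3 / 4) : ℝ) = σ ^ (-(3 / 2) : ℝ) := by
    rw [show σ ^ 2 + 0 ^ 2 = σ ^ 2 by ring, ← Real.rpow_natCast σ 2, ← Real.rpow_mul hσ.le]
    norm_num
  have i1 : ∀ a b : ℝ, IntervalIntegrable (fun τ => J1_W σ τ * (α * σ - τ * T)) volume a b :=
    fun a b => (hW.mul (by fun_prop)).intervalIntegrable _ _
  have i2 : ∀ a b : ℝ, IntervalIntegrable (fun τ => J1_W σ τ * τ * T) volume a b :=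
    fun a b => ((hW.mul continuous_id).mul continuous_const).intervalIntegrable _ _
  have i3 : ∀ a b : ℝ, IntervalIntegrable (fun τ => J1_W σ τ * max (α * σ) (τ * T)) volume a b :=
    fun a b => (hW.mul (by fun_prop)).intervalIntegrable _ _
  have hJ : ∫ τ in (0:ℝ)..b, J1_W σ τ * τ * T =
      T / 3 * (σ ^ (-(3 / 2) : ℝ) - (σ ^ 2 + b ^ 2) ^ (-(3 / 4) : ℝ)) := by
    rw [intervalIntegral.integral_mul_const, J1_int hσ, e0]
    ring
  rcases le_or_gt (T * b) (α * σ) with h | h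
  · have h1 : ∫ τ in (0:ℝ)..b, J1_W σ τ * max (α * σ) (τ * T) =
        (∫ τ in (0:ℝ)..b, J1_W σ τ * τ * T) + ∫ τ in (0:ℝ)..b, J1_W σ τ * (α * σ - τ * T) := by
      rw [← intervalIntegral.integral_add (i2 _ _) (i1 _ _)]
      refine intervalIntegral.integral_congr fun τ hτ => ?_
      rw [uIcc_of_le hb] at hτ
      have h2 : τ * T ≤ α * σ := by
        have := mul_le_mul_of_nonneg_right hτ.2 hT
        linarith
      show J1_W σ τ * max (α * σ) (τ * T) = J1_W σ τ * τ * T + J1_W σ τ * (α * σ - τ * T)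
      rw [max_eq_left h2]
      ring
    rw [h1, hJ]
    have h3 := J1_P hσ hb hT h
    linarith
  · have hT' : 0 < T := by
      rcases hT.eq_or_lt with h2 | h2
      · rw [← h2, zero_mul] at h
        exact absurd h (not_lt.2 (mul_nonneg hα hσ.le))
      · exact h2
    set c := α * σ / T with hc
    have hcT : T * c = α * σ := by rw [hc]; field_simp
    have hc0 : 0 ≤ c := by positivity
    have hcb : c ≤ b := by
      rw [hc, div_le_iff₀ hT']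
      linarith
    have h1 : ∫ τ in (0:ℝ)..b, J1_W σ τ * max (α * σ) (τ * T) =
        (∫ τ in (0:ℝ)..b, J1_W σ τ * τ * T) + ∫ τ in (0:ℝ)..c, J1_W σ τ * (α * σ - τ * T) := by
      rw [← intervalIntegral.integral_add_adjacent_intervals (i3 0 c) (i3 c b),
        ← intervalIntegral.integral_add_adjacent_intervals (i2 0 c) (i2 c b)]
      have h2 : ∫ τ in (0:ℝ)..c, J1_W σ τ * max (α * σ) (τ * T) =
          (∫ τ in (0:ℝ)..c, J1_W σ τ * τ * T) + ∫ τ in (0:ℝ)..c, J1_W σ τ * (α * σ - τ * T) := by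
        rw [← intervalIntegral.integral_add (i2 _ _) (i1 _ _)]
        refine intervalIntegral.integral_congr fun τ hτ => ?_
        rw [uIcc_of_le hc0] at hτ
        have h2 : τ * T ≤ α * σ := by
          have := mul_le_mul_of_nonneg_right hτ.2 hT
          linarith
        show J1_W σ τ * max (α * σ) (τ * T) = J1_W σ τ * τ * T + J1_W σ τ * (α * σ - τ * T)
        rw [max_eq_left h2]
        ring
      have h3 : ∫ τ in c..b, J1_W σ τ * max (α * σ) (τ * T) = ∫ τ in c..b, J1_W σ τ * τ * T := by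
        refine intervalIntegral.integral_congr fun τ hτ => ?_
        rw [uIcc_of_le hcb] at hτ
        have h2 : α * σ ≤ τ * T := by
          have := mul_le_mul_of_nonneg_right hτ.1 hT
          linarith
        show J1_W σ τ * max (α * σ) (τ * T) = J1_W σ τ * τ * T
        rw [max_eq_right h2]
        ring
      rw [h2, h3]
      ring
    rw [h1, hJ]
    have h3 := J1_P hσ hc0 hT hcT.le
    linarith

/-- (F3) -/
private theorem J1_conv {X1 X2 : ℝ} (h1 : 0 < X1) (h2 : 0 < X2) :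
    2 * ((X1 + X2) / 2) ^ (-(3 / 4) : ℝ) ≤ X1 ^ (-(3 / 4) : ℝ) + X2 ^ (-(3 / 4) : ℝ) := by
  have h3 : 0 < Real.sqrt (X1 * X2) := Real.sqrt_pos.2 (mul_pos h1 h2)
  have h4 : Real.sqrt (X1 * X2) ≤ (X1 + X2) / 2 := by
    rw [Real.sqrt_le_left (by positivity)]
    nlinarith [sq_nonneg (X1 - X2)]
  have h5 : ((X1 + X2) / 2) ^ (-(3 / 4) : ℝ) ≤ (Real.sqrt (X1 * X2)) ^ (-(3 / 4) : ℝ) :=
    Real.rpow_le_rpow_of_nonpos h3 h4 (by norm_num)
  have h6 : (Real.sqrt (X1 * X2)) ^ (-(3 / 4) : ℝ) =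
      X1 ^ (-(3 / 8) : ℝ) * X2 ^ (-(3 / 8) : ℝ) := by
    rw [Real.sqrt_eq_rpow, ← Real.rpow_mul (by positivity), ← Real.mul_rpow h1.le h2.le]
    norm_num
  have h7 : X1 ^ (-(3 / 4) : ℝ) = (X1 ^ (-(3 / 8) : ℝ)) ^ 2 := by
    rw [← Real.rpow_natCast, ← Real.rpow_mul h1.le]
    norm_num
  have h8 : X2 ^ (-(3 / 4) : ℝ) = (X2 ^ (-(3 / 8) : ℝ)) ^ 2 := by
    rw [← Real.rpow_natCast, ← Real.rpow_mul h2.le]
    norm_num
  rw [h7, h8]
  rw [h6] at h5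
  nlinarith [sq_nonneg (X1 ^ (-(3 / 8) : ℝ) - X2 ^ (-(3 / 8) : ℝ))]

private theorem J1_abs {a b : ℝ} (ha : 0 ≤ a) (hb : 0 ≤ b) :
    |a + b| + |a - b| = 2 * max a b ∧ |a - b| ≤ max a b := by
  rcases le_total a b with h | h
  · rw [max_eq_right h, abs_of_nonneg (by linarith), abs_of_nonpos (by linarith)]
    constructor <;> linarith
  · rw [max_eq_left h, abs_of_nonneg (by linarith), abs_of_nonneg (by linarith)]
    constructor <;> linarith

/-- symmetric part -/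
private theorem J1_sym {σ α T p : ℝ} (hσ : 0 < σ) (hα : 0 ≤ α) (hp : 0 ≤ p) :
    ∫ τ in (-p)..p, J1_W σ τ * |α * σ - τ * T| =
      2 * ∫ τ in (0:ℝ)..p, J1_W σ τ * max (α * σ) (τ * |T|) := by
  have hW := J1_W_cont hσ
  have i1 : ∀ a b : ℝ, IntervalIntegrable (fun τ => J1_W σ τ * |α * σ - τ * T|) volume a b :=
    fun a b => (hW.mul (by fun_prop)).intervalIntegrable _ _
  have i2 : ∀ a b : ℝ, IntervalIntegrable (fun τ => J1_W σ (-τ) * |α * σ - (-τ) * T|) volume a b :=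
    fun a b => ((hW.comp continuous_neg).mul (by fun_prop)).intervalIntegrable _ _
  rw [← intervalIntegral.integral_add_adjacent_intervals (i1 (-p) 0) (i1 0 p)]
  have h1 := intervalIntegral.integral_comp_neg (a := 0) (b := p)
    (fun τ => J1_W σ τ * |α * σ - τ * T|)
  rw [neg_zero] at h1
  rw [← h1, ← intervalIntegral.integral_add (i2 _ _) (i1 _ _),
    ← intervalIntegral.integral_const_mul]
  refine intervalIntegral.integral_congr fun τ hτ => ?_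
  rw [uIcc_of_le hp] at hτ
  show J1_W σ (-τ) * |α * σ - (-τ) * T| + J1_W σ τ * |α * σ - τ * T| =
    2 * (J1_W σ τ * max (α * σ) (τ * |T|))
  rw [J1_W_neg]
  have h2 := (J1_abs (mul_nonneg hα hσ.le) (mul_nonneg hτ.1 (abs_nonneg T))).1
  have h3 : |α * σ - (-τ) * T| + |α * σ - τ * T| = 2 * max (α * σ) (τ * |T|) := by
    rw [← h2]
    rcases abs_cases T with ⟨h4, -⟩ | ⟨h4, -⟩
    · rw [h4, show α * σ - -τ * T = α * σ + τ * T by ring]
    · rw [h4, show α * σ - -τ * T = α * σ - τ * -T by ring,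
        show α * σ - τ * T = α * σ + τ * -T by ring, add_comm]
  rw [← mul_add, h3]
  ring

/-- the chord lemma for `α >= 0` -/
private theorem J1_main (σ h α T Y : ℝ) (hσ : 0 < σ) (hh : 0 ≤ h) (hY : 0 ≤ Y) (hα : 0 ≤ α)
    (hY' : 0 ≤ T → Y ≤ (σ ^ 2 + h ^ 2 + α ^ 2 / 4) ^ (-(3 / 4) : ℝ)) :
    ∫ τ in (α / 2 - h)..(α / 2 + h), J1_W σ τ * |α * σ - τ * T| ≤
      2 / 3 * T * (σ ^ (-(3 / 2) : ℝ) - Y) +
        σ ^ (-(3 / 2) : ℝ) * (Real.sqrt (α ^ 2 + T ^ 2) - T) := by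
  have hW := J1_W_cont hσ
  have i1 : ∀ a b : ℝ, IntervalIntegrable (fun τ => J1_W σ τ * |α * σ - τ * T|) volume a b :=
    fun a b => (hW.mul (by fun_prop)).intervalIntegrable _ _
  have i3 : ∀ (T a b : ℝ), IntervalIntegrable (fun τ => J1_W σ τ * max (α * σ) (τ * T))
      volume a b :=
    fun T a b => (hW.mul (by fun_prop)).intervalIntegrable _ _
  have n1 : ∀ τ, 0 ≤ J1_W σ τ * |α * σ - τ * T| := fun τ =>
    mul_nonneg (J1_W_nonneg _ _) (abs_nonneg _)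
  have n3 : ∀ (T τ : ℝ), 0 ≤ J1_W σ τ * max (α * σ) (τ * T) := fun T τ =>
    mul_nonneg (J1_W_nonneg _ _) (le_max_of_le_left (mul_nonneg hα hσ.le))
  have hs : 0 ≤ σ ^ (-(3 / 2) : ℝ) := by positivity
  rcases le_or_gt 0 T with hT | hT
  · -- T >= 0
    have key : ∫ τ in (α / 2 - h)..(α / 2 + h), J1_W σ τ * |α * σ - τ * T| ≤
        (∫ τ in (0:ℝ)..|h - α / 2|, J1_W σ τ * max (α * σ) (τ * T)) +
          ∫ τ in (0:ℝ)..(h + α / 2), J1_W σ τ * max (α * σ) (τ * T) := by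
      rcases le_or_gt (α / 2) h with h1 | h1
      · have hp : 0 ≤ h - α / 2 := by linarith
        rw [abs_of_nonneg hp]
        have e1 : ∫ τ in (α / 2 - h)..(α / 2 + h), J1_W σ τ * |α * σ - τ * T| =
            (∫ τ in (-(h - α / 2))..(h - α / 2), J1_W σ τ * |α * σ - τ * T|) +
              ∫ τ in (h - α / 2)..(h + α / 2), J1_W σ τ * |α * σ - τ * T| := by
          rw [intervalIntegral.integral_add_adjacent_intervals (i1 _ _) (i1 _ _)]
          congr 1 <;> ring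
        have e2 := J1_sym (T := T) hσ hα hp
        rw [abs_of_nonneg hT] at e2
        have e3 : ∫ τ in (h - α / 2)..(h + α / 2), J1_W σ τ * |α * σ - τ * T| ≤
            ∫ τ in (h - α / 2)..(h + α / 2), J1_W σ τ * max (α * σ) (τ * T) := by
          refine intervalIntegral.integral_mono_on (by linarith) (i1 _ _) (i3 _ _ _) ?_
          intro τ hτ
          have h2 : 0 ≤ τ := hp.trans hτ.1
          exact mul_le_mul_of_nonneg_left
            (J1_abs (mul_nonneg hα hσ.le) (mul_nonneg h2 hT)).2 (J1_W_nonneg _ _)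
        have e4 := intervalIntegral.integral_add_adjacent_intervals (i3 T 0 (h - α / 2))
          (i3 T (h - α / 2) (h + α / 2))
        rw [e1, e2]
        linarith
      · have hp : 0 < α / 2 - h := by linarith
        have e3 : ∫ τ in (α / 2 - h)..(α / 2 + h), J1_W σ τ * |α * σ - τ * T| ≤
            ∫ τ in (α / 2 - h)..(α / 2 + h), J1_W σ τ * max (α * σ) (τ * T) := by
          refine intervalIntegral.integral_mono_on (by linarith) (i1 _ _) (i3 _ _ _) ?_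
          intro τ hτ
          have h2 : 0 ≤ τ := hp.le.trans hτ.1
          exact mul_le_mul_of_nonneg_left
            (J1_abs (mul_nonneg hα hσ.le) (mul_nonneg h2 hT)).2 (J1_W_nonneg _ _)
        have e4 := intervalIntegral.integral_add_adjacent_intervals (i3 T 0 (α / 2 - h))
          (i3 T (α / 2 - h) (α / 2 + h))
        have e5 : 0 ≤ ∫ τ in (0:ℝ)..(α / 2 - h), J1_W σ τ * max (α * σ) (τ * T) :=
          intervalIntegral.integral_nonneg hp.le fun τ _ => n3 T τ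
        have e6 : 0 ≤ ∫ τ in (0:ℝ)..|h - α / 2|, J1_W σ τ * max (α * σ) (τ * T) :=
          intervalIntegral.integral_nonneg (abs_nonneg _) fun τ _ => n3 T τ
        rw [show h + α / 2 = α / 2 + h by ring]
        linarith
    have m1 := J1_M (α := α) hσ hα (abs_nonneg (h - α / 2)) hT
    have m2 := J1_M (α := α) hσ hα (b := h + α / 2) (by positivity) hT
    rw [sq_abs] at m1
    have c1 := J1_conv (J1_pos hσ (h - α / 2)) (J1_pos hσ (h + α / 2))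
    rw [show (σ ^ 2 + (h - α / 2) ^ 2 + (σ ^ 2 + (h + α / 2) ^ 2)) / 2 =
      σ ^ 2 + h ^ 2 + α ^ 2 / 4 by ring] at c1
    have hY1 := hY' hT
    have c2 : T / 3 * (2 * Y) ≤ T / 3 * ((σ ^ 2 + (h - α / 2) ^ 2) ^ (-(3 / 4) : ℝ) +
        (σ ^ 2 + (h + α / 2) ^ 2) ^ (-(3 / 4) : ℝ)) :=
      mul_le_mul_of_nonneg_left (by linarith) (by positivity)
    refine key.trans ((add_le_add m1 m2).trans ?_)
    nlinarith
  · -- T < 0
    have hT' : |T| = -T := abs_of_neg hT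
    have hb : 0 ≤ h + α / 2 := by positivity
    have key : ∫ τ in (α / 2 - h)..(α / 2 + h), J1_W σ τ * |α * σ - τ * T| ≤
        ∫ τ in (-(h + α / 2))..(h + α / 2), J1_W σ τ * |α * σ - τ * T| := by
      rw [show α / 2 + h = h + α / 2 by ring,
        ← intervalIntegral.integral_add_adjacent_intervals (i1 (-(h + α / 2)) (α / 2 - h))
          (i1 (α / 2 - h) (h + α / 2))]
      have e5 : 0 ≤ ∫ τ in (-(h + α / 2))..(α / 2 - h), J1_W σ τ * |α * σ - τ * T| :=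
        intervalIntegral.integral_nonneg (by linarith) fun τ _ => n1 τ
      linarith
    rw [J1_sym (T := T) hσ hα hb, hT'] at key
    have m2 := J1_M (α := α) (T := -T) hσ hα hb (by linarith)
    rw [neg_sq] at m2
    have c3 : 0 ≤ (σ ^ 2 + (h + α / 2) ^ 2) ^ (-(3 / 4) : ℝ) := by positivity
    have c4 : 0 ≤ -T * (σ ^ 2 + (h + α / 2) ^ 2) ^ (-(3 / 4) : ℝ) :=
      mul_nonneg (by linarith) c3
    have c5 : 0 ≤ -T * Y := mul_nonneg (by linarith) hY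
    have c6 : 0 ≤ -T * σ ^ (-(3 / 2) : ℝ) := mul_nonneg (by linarith) hs
    refine key.trans ?_
    nlinarith

theorem chord (σ h α T Y : ℝ) (hσ : 0 < σ) (hh : 0 ≤ h) (hY : 0 ≤ Y)
    (hY' : 0 ≤ T → Y ≤ (σ ^ 2 + h ^ 2 + α ^ 2 / 4) ^ (-(3 / 4) : ℝ)) :
    ∫ τ in (α / 2 - h)..(α / 2 + h), 1 / 2 * (σ ^ 2 + τ ^ 2) ^ (-(7 / 4) : ℝ) * |α * σ - τ * T| ≤
      2 / 3 * T * (σ ^ (-(3 / 2) : ℝ) - Y) + σ ^ (-(3 / 2) : ℝ) * (Real.sqrt (α ^ 2 + T ^ 2) - T) := by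
  rcases le_total 0 α with hα | hα
  · exact J1_main σ h α T Y hσ hh hY hα hY'
  · have h1 := J1_main σ h (-α) T Y hσ hh hY (by linarith) (by rw [neg_sq]; exact hY')
    rw [neg_sq] at h1
    refine le_trans (le_of_eq ?_) h1
    have h2 := intervalIntegral.integral_comp_neg (a := -α / 2 - h) (b := -α / 2 + h)
      (fun τ => J1_W σ τ * |α * σ - τ * T|)
    have e1 : -(-α / 2 + h) = α / 2 - h := by ring
    have e2 : -(-α / 2 - h) = α / 2 + h := by ring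
    rw [e1, e2] at h2
    show ∫ τ in (α / 2 - h)..(α / 2 + h), J1_W σ τ * |α * σ - τ * T| = _
    rw [← h2]
    refine intervalIntegral.integral_congr fun τ _ => ?_
    show J1_W σ (-τ) * |α * σ - (-τ) * T| = J1_W σ τ * |-α * σ - τ * T|
    rw [J1_W_neg, ← abs_neg]
    congr 2
    ring

end H62.CJ
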