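import Pool.Agent.H62.CJ.J1
import Pool.Agent.H62.CJ.M0

/-!
# CJ-J2: slicing the disc

`A = α + i β`, `‖A - i‖ <= 2.001`, `c0 = (1-β)/2`; the centre `(1 + i A)/2` has real part `c0` and imaginary part
`α/2`.  If `Yf A σ` is admissible (hypothesis `hY`) for `s0 < σ <= c0 + RR`, then
`int_{closedBall ((1+iA)/2) RR} KA A <= int_{σ ∈ (s0, c0+RR]} chb A σ`.

PROOF.  `KA A s = 0` unless `Re s > 2 kap = s0`.  Identify `ℂ` with `ℝ × ℝ`
(`Complex.volume_preserving_equiv_real_prod`, measurable by `measurable_KA`), Tonelli: the integral is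
`int⁻_{σ > s0} int⁻_{τ : (σ - c0)^2 + (τ - α/2)^2 <= RR^2} ofReal (KA A (σ + i τ))`.
For `s = σ + i τ`: `Re (A s) - Im s ((5/2) Re s - kap) = α σ - τ T`, `T = β - kap + (5/2) σ`, and
`‖s‖^(-7/2) = (σ^2+τ^2)^(-7/4)`.  The section is empty if `|σ - c0| > RR`, in particular for
`σ > c0 + RR`; for `s0 < σ <= c0 + RR` we have `|σ - c0| <= RR` (`c0 - σ <= c0 <= 1.001 < RR`) and the section
is `Icc (α/2 - h) (α/2 + h)`, `h = sqrt (RR^2 - (σ-c0)^2)`.  The inner integral is
`ofReal (int_{α/2-h}^{α/2+h} ...)` (continuous nonnegative integrand) and `chord` applies with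
`σ^2 + h^2 + α^2/4 = RR^2 - c0^2 + 2 c0 σ + α^2/4 = Xm A σ`.  (`lintegral_mono`, no measurability of
`chb` needed.)

`chb_nonneg`: under the same hypothesis `0 <= chb A σ`, because the left side of `chord` is `>= 0`.
-/

set_option autoImplicit false

open Set Metric MeasureTheory

namespace H62.CJ

private theorem J2_c0 (A : ℂ) (hA : ‖A - Complex.I‖ ≤ 2 + 1 / 1000) : (1 - A.im) / 2 ≤ 1001 / 1000 := by
  have h1 : |(A - Complex.I).im| ≤ ‖A - Complex.I‖ := Complex.abs_im_le_norm _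
  have h2 := neg_abs_le (A - Complex.I).im
  have h3 : (A - Complex.I).im = A.im - 1 := by simp
  rw [h3] at h2 h1
  linarith

private theorem J2_sq (A : ℂ) (hA : ‖A - Complex.I‖ ≤ 2 + 1 / 1000)
    (σ : ℝ) (h1 : s0 < σ) (h2 : σ ≤ (1 - A.im) / 2 + RR) :
    0 ≤ RR ^ 2 - (σ - (1 - A.im) / 2) ^ 2 := by
  have h3 := J2_c0 A hA
  have h4 : (0 : ℝ) < s0 := by unfold s0; norm_num
  have h5 : RR = 266 / 125 := rfl
  have h6 : |σ - (1 - A.im) / 2| ≤ RR := by
    rw [abs_le]
    constructor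
    · rw [h5]; linarith
    · linarith
  have h7 := sq_le_sq' (abs_le.1 h6).1 (abs_le.1 h6).2
  linarith

private theorem J2_chord (A : ℂ) (hA : ‖A - Complex.I‖ ≤ 2 + 1 / 1000)
    (hY : ∀ σ : ℝ, s0 < σ → σ ≤ (1 - A.im) / 2 + RR →
      0 ≤ Yf A σ ∧ (0 ≤ A.im - kap + 5 / 2 * σ → Yf A σ ≤ Xm A σ ^ (-(3 / 4) : ℝ)))
    (σ : ℝ) (h1 : s0 < σ) (h2 : σ ≤ (1 - A.im) / 2 + RR) :
    ∫ τ in (A.re / 2 - Real.sqrt (RR ^ 2 - (σ - (1 - A.im) / 2) ^ 2))..(A.re / 2 +
      Real.sqrt (RR ^ 2 - (σ - (1 - A.im) / 2) ^ 2)),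
      1 / 2 * (σ ^ 2 + τ ^ 2) ^ (-(7 / 4) : ℝ) *
        |A.re * σ - τ * (A.im - kap + 5 / 2 * σ)| ≤ chb A σ := by
  have h4 : (0 : ℝ) < s0 := by unfold s0; norm_num
  obtain ⟨h5, h6⟩ := hY σ h1 h2
  refine chord σ _ A.re (A.im - kap + 5 / 2 * σ) (Yf A σ) (h4.trans h1) (Real.sqrt_nonneg _) h5 ?_
  intro hT
  have h7 := h6 hT
  rw [Real.sq_sqrt (J2_sq A hA σ h1 h2)]
  have h8 : σ ^ 2 + (RR ^ 2 - (σ - (1 - A.im) / 2) ^ 2) + A.re ^ 2 / 4 = Xm A σ := by
    unfold Xm
    ring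
  rw [h8]
  exact h7

theorem chb_nonneg (A : ℂ) (hA : ‖A - Complex.I‖ ≤ 2 + 1 / 1000)
    (hY : ∀ σ : ℝ, s0 < σ → σ ≤ (1 - A.im) / 2 + RR →
      0 ≤ Yf A σ ∧ (0 ≤ A.im - kap + 5 / 2 * σ → Yf A σ ≤ Xm A σ ^ (-(3 / 4) : ℝ)))
    (σ : ℝ) (h1 : s0 < σ) (h2 : σ ≤ (1 - A.im) / 2 + RR) : 0 ≤ chb A σ := by
  refine le_trans ?_ (J2_chord A hA hY σ h1 h2)
  refine intervalIntegral.integral_nonneg ?_ ?_
  · have := Real.sqrt_nonneg (RR ^ 2 - (σ - (1 - A.im) / 2) ^ 2)
    linarith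
  · intro τ _
    have : 0 ≤ (σ ^ 2 + τ ^ 2) ^ (-(7 / 4) : ℝ) := Real.rpow_nonneg (by positivity) _
    positivity

theorem slice (A : ℂ) (hA : ‖A - Complex.I‖ ≤ 2 + 1 / 1000)
    (hY : ∀ σ : ℝ, s0 < σ → σ ≤ (1 - A.im) / 2 + RR →
      0 ≤ Yf A σ ∧ (0 ≤ A.im - kap + 5 / 2 * σ → Yf A σ ≤ Xm A σ ^ (-(3 / 4) : ℝ))) :
    ∫⁻ s in closedBall ((1 + Complex.I * A) / 2) RR, ENNReal.ofReal (KA A s) ≤
      ∫⁻ σ in Ioc s0 ((1 - A.im) / 2 + RR), ENNReal.ofReal (chb A σ) := by
  have hs0 : (0 : ℝ) < s0 := by unfold s0; norm_num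
  have hm : Measurable (fun s : ℂ => (closedBall ((1 + Complex.I * A) / 2) RR).indicator
      (fun s => ENNReal.ofReal (KA A s)) s) :=
    (ENNReal.measurable_ofReal.comp (measurable_KA A)).indicator isClosed_closedBall.measurableSet
  have hm2 : Measurable (fun p : ℝ × ℝ => (closedBall ((1 + Complex.I * A) / 2) RR).indicator
      (fun s => ENNReal.ofReal (KA A s)) (pt p.1 p.2)) := hm.comp measurable_pt
  have e1 : ∫⁻ s in closedBall ((1 + Complex.I * A) / 2) RR, ENNReal.ofReal (KA A s) =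
      ∫⁻ σ : ℝ, ∫⁻ τ : ℝ, (closedBall ((1 + Complex.I * A) / 2) RR).indicator
        (fun s => ENNReal.ofReal (KA A s)) (pt σ τ) := by
    rw [← lintegral_indicator isClosed_closedBall.measurableSet]
    have h1 : ∫⁻ s : ℂ, (closedBall ((1 + Complex.I * A) / 2) RR).indicator
        (fun s => ENNReal.ofReal (KA A s)) s =
        ∫⁻ s : ℂ, (fun p : ℝ × ℝ => (closedBall ((1 + Complex.I * A) / 2) RR).indicator
        (fun s => ENNReal.ofReal (KA A s)) (pt p.1 p.2)) (Complex.measurableEquivRealProd s) :=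
      lintegral_congr fun s => rfl
    rw [h1, Complex.volume_preserving_equiv_real_prod.lintegral_comp hm2,
      Measure.volume_eq_prod, lintegral_prod _ hm2.aemeasurable]
  rw [e1, ← lintegral_indicator measurableSet_Ioc]
  refine lintegral_mono fun σ => ?_
  have hre : ((1 + Complex.I * A) / 2).re = (1 - A.im) / 2 := by
    rw [show (1 + Complex.I * A) / 2 = ((1 / 2 : ℝ) : ℂ) * (1 + Complex.I * A) by push_cast; ring,
      Complex.re_ofReal_mul]
    simp
    ring
  have him : ((1 + Complex.I * A) / 2).im = A.re / 2 := by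
    rw [show (1 + Complex.I * A) / 2 = ((1 / 2 : ℝ) : ℂ) * (1 + Complex.I * A) by push_cast; ring,
      Complex.im_ofReal_mul]
    simp
    ring
  have hball : ∀ τ : ℝ, pt σ τ ∈ closedBall ((1 + Complex.I * A) / 2) RR →
      (σ - (1 - A.im) / 2) ^ 2 + (τ - A.re / 2) ^ 2 ≤ RR ^ 2 := by
    intro τ h
    rw [mem_closedBall, dist_eq_norm] at h
    have h3 : ‖pt σ τ - (1 + Complex.I * A) / 2‖ ^ 2 ≤ RR ^ 2 :=
      pow_le_pow_left₀ (norm_nonneg _) h 2
    rw [← Complex.normSq_eq_norm_sq, Complex.normSq_apply, Complex.sub_re, Complex.sub_im, hre, him,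
      pt_re, pt_im] at h3
    nlinarith
  by_cases hσ : σ ∈ Ioc s0 ((1 - A.im) / 2 + RR)
  · rw [indicator_of_mem hσ]
    obtain ⟨h1, h2⟩ := hσ
    have hpos : 0 < σ := hs0.trans h1
    set h : ℝ := Real.sqrt (RR ^ 2 - (σ - (1 - A.im) / 2) ^ 2) with hh
    have hc : Continuous (fun τ : ℝ => 1 / 2 * (σ ^ 2 + τ ^ 2) ^ (-(7 / 4) : ℝ) *
        |A.re * σ - τ * (A.im - kap + 5 / 2 * σ)|) := by
      refine ((Continuous.rpow_const ?_ ?_).const_mul (1 / 2) |>.mul ?_)
      · fun_prop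
      · intro τ
        left
        positivity
      · fun_prop
    have hnn : ∀ τ : ℝ, 0 ≤ 1 / 2 * (σ ^ 2 + τ ^ 2) ^ (-(7 / 4) : ℝ) *
        |A.re * σ - τ * (A.im - kap + 5 / 2 * σ)| := by
      intro τ
      have : 0 ≤ (σ ^ 2 + τ ^ 2) ^ (-(7 / 4) : ℝ) := Real.rpow_nonneg (by positivity) _
      positivity
    calc ∫⁻ τ : ℝ, (closedBall ((1 + Complex.I * A) / 2) RR).indicator
          (fun s => ENNReal.ofReal (KA A s)) (pt σ τ)
        ≤ ∫⁻ τ : ℝ, (Icc (A.re / 2 - h) (A.re / 2 + h)).indicator (fun τ => ENNReal.ofReal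
            (1 / 2 * (σ ^ 2 + τ ^ 2) ^ (-(7 / 4) : ℝ) *
              |A.re * σ - τ * (A.im - kap + 5 / 2 * σ)|)) τ := by
          refine lintegral_mono fun τ => ?_
          by_cases hb : pt σ τ ∈ closedBall ((1 + Complex.I * A) / 2) RR
          · rw [indicator_of_mem hb]
            have h3 := hball τ hb
            have h4 : |τ - A.re / 2| ≤ h := by
              rw [hh]
              apply Real.abs_le_sqrt
              linarith
            rw [abs_le] at h4
            have h5 : τ ∈ Icc (A.re / 2 - h) (A.re / 2 + h) := ⟨by linarith [h4.1], by linarith [h4.2]⟩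
            rw [indicator_of_mem h5]
            refine ENNReal.ofReal_le_ofReal ?_
            unfold KA
            split_ifs with h6
            · have h7 : ‖pt σ τ‖ ^ (-(7 / 2) : ℝ) = (σ ^ 2 + τ ^ 2) ^ (-(7 / 4) : ℝ) := by
                have h8 : ‖pt σ τ‖ = (σ ^ 2 + τ ^ 2) ^ (1 / 2 : ℝ) := by
                  rw [← Real.sqrt_eq_rpow, Complex.norm_eq_sqrt_sq_add_sq, pt_re, pt_im]
                rw [h8, ← Real.rpow_mul (by positivity)]
                norm_num
              have h9 : (A * pt σ τ).re - (pt σ τ).im * (5 / 2 * (pt σ τ).re - kap) =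
                  A.re * σ - τ * (A.im - kap + 5 / 2 * σ) := by
                rw [Complex.mul_re, pt_re, pt_im]
                ring
              rw [h7, h9]
            · exact hnn τ
          · rw [indicator_of_notMem hb]
            exact zero_le
      _ = ∫⁻ τ in Icc (A.re / 2 - h) (A.re / 2 + h), ENNReal.ofReal
            (1 / 2 * (σ ^ 2 + τ ^ 2) ^ (-(7 / 4) : ℝ) *
              |A.re * σ - τ * (A.im - kap + 5 / 2 * σ)|) := by
          rw [lintegral_indicator measurableSet_Icc]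
      _ = ENNReal.ofReal (∫ τ in Icc (A.re / 2 - h) (A.re / 2 + h),
            (1 / 2 * (σ ^ 2 + τ ^ 2) ^ (-(7 / 4) : ℝ) *
              |A.re * σ - τ * (A.im - kap + 5 / 2 * σ)|)) := by
          rw [ofReal_integral_eq_lintegral_ofReal]
          · exact hc.integrableOn_Icc
          · exact Filter.Eventually.of_forall hnn
      _ ≤ ENNReal.ofReal (chb A σ) := by
          refine ENNReal.ofReal_le_ofReal ?_
          have h10 := J2_chord A hA hY σ h1 h2
          rw [← hh] at h10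
          have h11 : A.re / 2 - h ≤ A.re / 2 + h := by
            have : 0 ≤ h := Real.sqrt_nonneg _
            linarith
          rw [intervalIntegral.integral_of_le h11, ← integral_Icc_eq_integral_Ioc] at h10
          exact h10
  · rw [indicator_of_notMem hσ]
    suffices hz : ∀ τ : ℝ, (closedBall ((1 + Complex.I * A) / 2) RR).indicator
          (fun s => ENNReal.ofReal (KA A s)) (pt σ τ) = 0 by
      rw [lintegral_congr hz, lintegral_zero]
    intro τ
    by_cases hb : pt σ τ ∈ closedBall ((1 + Complex.I * A) / 2) RR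
    · rw [indicator_of_mem hb]
      have h3 := hball τ hb
      have hR : (0 : ℝ) < RR := by unfold RR; norm_num
      have h4 : |σ - (1 - A.im) / 2| ≤ RR := by
        apply abs_le_of_sq_le_sq' _ hR.le |> abs_le.2
        nlinarith [sq_nonneg (τ - A.re / 2)]
      have h5 : σ ≤ s0 := by
        by_contra h6
        push Not at h6
        exact hσ ⟨h6, by linarith [(abs_le.1 h4).2]⟩
      have h6 : ¬ (kap < 1 / 2 * (pt σ τ).re) := by
        rw [pt_re]
        unfold s0 at h5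
        unfold kap
        linarith
      unfold KA
      rw [if_neg h6, ENNReal.ofReal_zero]
    · rw [indicator_of_notMem hb]

end H62.CJ
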