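import Pool.Agent.H62.CJ.JD

/-!
# CJ-J3: pointwise bounds for the chord density

`A = α + i β`, `‖A - i‖ <= 2.001`, `δ = β - bbar`, `c0 = (1-β)/2 = cbar - δ/2`, `T = β - kap + (5/2) σ = Tb σ + δ`.
From `‖A - i‖^2 = α^2 + (β-1)^2 <= 4.004001`: `-1.0015 <= β <= 3.0015`.
Algebra: `Xm A σ = Xb σ + (cbar - σ) δ - δ^2/4 + α^2/4`, and also
`Xm A σ = RR^2 - (σ - c0)^2 + σ^2 + α^2/4`; for `s0 < σ <= c0 + RR` we have `|σ - c0| <= RR`
(`c0 <= 1.001 < RR`), so `Xm A σ >= σ^2 > 0`.  `Xb σ >= 4.4 > 0` for `σ >= 0`.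

`tangent`: for `x, X > 0`: `x^(-3/4) >= X^(-3/4) - (3/4) X^(-7/4) (x - X)` (convexity; e.g. put
`x = X (1+u)`, `u > -1`, and `(1+u)^(-3/4) >= 1 - (3/4) u`:
`one_add_mul_self_le_rpow_one_add`-like lemma for negative exponents
`Real.rpow_one_add...`, or `(convexOn_rpow ...)`; or directly: the function
`u ↦ (1+u)^(-3/4) + (3/4) u` has derivative `(3/4)(1 - (1+u)^(-7/4))`, sign of `u`).

`Yf_ok`.  If `σ > se`: `Yf = Xm^(-3/4) >= 0`.  If `σ <= se`: `Yf = max (Lf) 0 >= 0`, `Lf <= Xm^(-3/4)` by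
`tangent` and `0 <= Xm^(-3/4)`.

`chb_le1` (`s0 < σ <= se`, `σ <= c0 + RR`): `chb A σ <= g1 A σ + gx A σ`.
Excess term: `sqrt (α^2+T^2) <= (α^2+T^2)/(2 Tb) + Tb/2` (AM-GM, `Tb σ > 0`), so
`sqrt(α^2+T^2) - T <= (α^2 + (T - Tb)^2)/(2 Tb) = (α^2+δ^2)/(2 Tb)`; multiply with `σ^(-3/2)`.
Main term: `T (σ^(-3/2) - Yf) <= T (σ^(-3/2) - Lf)`: if `T >= 0` because `Yf >= Lf`.  If `T < 0`: then
`Lf >= 0`, so `Yf = Lf`.  Proof of `Lf >= 0` when `T < 0`: `T < 0` means `σ < (kap - β)/2.5 <= 0.46`, and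
`β < kap - 2.5 s0 < - 0.54`; `Lf = Xb^(-7/4) (Xb - (3/4)(Xm - Xb))`, and
`Xm - Xb = (σ - cbar) |δ| - δ^2/4 + α^2/4 <= 0.18 * 1.43 + 1.002 <= 1.3` (`α^2 <= 4.004001`,
`|δ| <= 1.4265`) while `Xb >= 4.4`.
And `T (σ^(-3/2) - Lf) = T (σ^(-3/2) - Xb^(-3/4) + Db (Xm - Xb))`, which is `(3/2) g1` by the algebra.

`chb_le2` (`se < σ <= c0 + RR`): `chb A σ <= g2 A σ + gx A σ`.  Such `σ` exists only if `c0 > cbar`, i.e.
`δ < 0`.  `T >= -1.0015 - 0.1369 + 2.5 * 2.4155 > 0`.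
`σ^(-3/2) - Xm^(-3/4) = (σ^2)^(-3/4) - Xm^(-3/4) <= (3/4)(σ^2)^(-7/4) (Xm - σ^2)`: this is `tangent` with
`X = σ^2`, `x = Xm`: `Xm^(-3/4) >= (σ^2)^(-3/4) - (3/4)(σ^2)^(-7/4)(Xm - σ^2)`;
`(σ^2)^(-7/4) = σ^(-7/2)`.  So `(2/3) T (σ^(-3/2) - Yf) <= (1/2) T σ^(-7/2) (Xm - σ^2) = g2`.
Excess as before.
-/

set_option autoImplicit false

open Set Metric MeasureTheory

namespace H62.CJ

theorem tangent (x X : ℝ) (hx : 0 < x) (hX : 0 < X) :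
    X ^ (-(3 / 4) : ℝ) - 3 / 4 * X ^ (-(7 / 4) : ℝ) * (x - X) ≤ x ^ (-(3 / 4) : ℝ) := by
  have hu : 0 < x / X := div_pos hx hX
  have h1 : 1 - 3 / 4 * (x / X - 1) ≤ (x / X) ^ (-(3 / 4) : ℝ) := by
    rw [Real.rpow_def_of_pos hu]
    have h2 := Real.add_one_le_exp (Real.log (x / X) * -(3 / 4))
    have h3 := Real.log_le_sub_one_of_pos hu
    nlinarith
  have h4 : x ^ (-(3 / 4) : ℝ) = X ^ (-(3 / 4) : ℝ) * (x / X) ^ (-(3 / 4) : ℝ) := by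
    rw [← Real.mul_rpow hX.le hu.le, mul_div_cancel₀ _ hX.ne']
  have h5 : X ^ (-(7 / 4) : ℝ) = X ^ (-(3 / 4) : ℝ) / X := by
    rw [show (-(7 / 4) : ℝ) = -(3 / 4) - 1 by norm_num, Real.rpow_sub_one hX.ne']
  have h6 : 0 < X ^ (-(3 / 4) : ℝ) := Real.rpow_pos_of_pos hX _
  rw [h4, h5]
  have h7 : X ^ (-(3 / 4) : ℝ) - 3 / 4 * (X ^ (-(3 / 4) : ℝ) / X) * (x - X) =
      X ^ (-(3 / 4) : ℝ) * (1 - 3 / 4 * (x / X - 1)) := by
    field_simp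
  rw [h7]
  exact mul_le_mul_of_nonneg_left h1 h6.le

/-- the range of `A` -/
theorem j3_range (A : ℂ) (hA : ‖A - Complex.I‖ ≤ 2 + 1 / 1000) :
    A.re ^ 2 + (A.im - 1) ^ 2 ≤ (2 + 1 / 1000) ^ 2 ∧ -(1001 / 1000) ≤ A.im ∧
      A.im ≤ 3001 / 1000 := by
  have h1 : ‖A - Complex.I‖ ^ 2 = A.re ^ 2 + (A.im - 1) ^ 2 := by
    rw [← Complex.normSq_eq_norm_sq, Complex.normSq_apply]
    simp
    ring
  have h2 : A.re ^ 2 + (A.im - 1) ^ 2 ≤ (2 + 1 / 1000) ^ 2 := by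
    rw [← h1]
    exact pow_le_pow_left₀ (norm_nonneg _) hA 2
  refine ⟨h2, ?_, ?_⟩
  · nlinarith [sq_nonneg A.re]
  · nlinarith [sq_nonneg A.re]

theorem j3_Xm_sub (A : ℂ) (σ : ℝ) : Xm A σ - Xb σ =
    (cbar - σ) * (A.im - bbar) + (A.re ^ 2 - (A.im - bbar) ^ 2) / 4 := by
  unfold Xm Xb cbar bbar RR
  ring

theorem j3_Xm_eq (A : ℂ) (σ : ℝ) : Xm A σ - σ ^ 2 =
    RR ^ 2 - (σ - (1 - A.im) / 2) ^ 2 + A.re ^ 2 / 4 := by
  unfold Xm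
  ring

theorem j3_Xm_ge (A : ℂ) (hA : ‖A - Complex.I‖ ≤ 2 + 1 / 1000) (σ : ℝ) (h1 : s0 < σ)
    (h2 : σ ≤ (1 - A.im) / 2 + RR) : σ ^ 2 ≤ Xm A σ := by
  obtain ⟨_, hb, _⟩ := j3_range A hA
  have e := j3_Xm_eq A σ
  have h3 : (σ - (1 - A.im) / 2) ^ 2 ≤ RR ^ 2 := by
    apply sq_le_sq'
    · unfold RR s0 at *
      linarith
    · linarith
  nlinarith [sq_nonneg A.re]

theorem j3_Xb_ge (σ : ℝ) (h : 0 ≤ σ) : 44 / 10 ≤ Xb σ := by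
  unfold Xb cbar RR
  nlinarith

theorem j3_Tb_pos (σ : ℝ) (h : 0 ≤ σ) : 0 < Tb σ := by
  unfold Tb bbar kap
  linarith

theorem Yf_ok (A : ℂ) (hA : ‖A - Complex.I‖ ≤ 2 + 1 / 1000) (σ : ℝ) (h1 : s0 < σ)
    (h2 : σ ≤ (1 - A.im) / 2 + RR) :
    0 ≤ Yf A σ ∧ (0 ≤ A.im - kap + 5 / 2 * σ → Yf A σ ≤ Xm A σ ^ (-(3 / 4) : ℝ)) := by
  have hσ : 0 < σ := lt_trans (by unfold s0; norm_num) h1
  have hX : 0 < Xm A σ := lt_of_lt_of_le (by positivity) (j3_Xm_ge A hA σ h1 h2)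
  have hXb : 0 < Xb σ := lt_of_lt_of_le (by norm_num) (j3_Xb_ge σ hσ.le)
  have hp : 0 < Xm A σ ^ (-(3 / 4) : ℝ) := Real.rpow_pos_of_pos hX _
  unfold Yf
  split_ifs with h
  · refine ⟨le_max_right _ _, fun _ => max_le ?_ hp.le⟩
    unfold Lf Db
    exact tangent _ _ hX hXb
  · exact ⟨hp.le, fun _ => le_rfl⟩

theorem j3_excess (A : ℂ) (σ : ℝ) (hσ : 0 < σ) :
    σ ^ (-(3 / 2) : ℝ) * (Real.sqrt (A.re ^ 2 + (A.im - kap + 5 / 2 * σ) ^ 2) -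
      (A.im - kap + 5 / 2 * σ)) ≤ gx A σ := by
  have hT := j3_Tb_pos σ hσ.le
  have hs : 0 < σ ^ (-(3 / 2) : ℝ) := Real.rpow_pos_of_pos hσ _
  set T : ℝ := A.im - kap + 5 / 2 * σ with hTd
  have hTT : T = Tb σ + (A.im - bbar) := by
    rw [hTd]
    unfold Tb
    ring
  have h0 : 0 ≤ A.re ^ 2 + T ^ 2 := by positivity
  have hq := Real.sq_sqrt h0
  have hqn := Real.sqrt_nonneg (A.re ^ 2 + T ^ 2)
  have h1 : Real.sqrt (A.re ^ 2 + T ^ 2) - T ≤ (A.re ^ 2 + (A.im - bbar) ^ 2) / (2 * Tb σ) := by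
    rw [le_div_iff₀ (by positivity)]
    have h3 : A.im - bbar = T - Tb σ := by rw [hTT]; ring
    rw [h3]
    nlinarith [sq_nonneg (Real.sqrt (A.re ^ 2 + T ^ 2) - Tb σ)]
  unfold gx
  calc σ ^ (-(3 / 2) : ℝ) * (Real.sqrt (A.re ^ 2 + T ^ 2) - T)
      ≤ σ ^ (-(3 / 2) : ℝ) * ((A.re ^ 2 + (A.im - bbar) ^ 2) / (2 * Tb σ)) :=
        mul_le_mul_of_nonneg_left h1 hs.le
    _ = σ ^ (-(3 / 2) : ℝ) / (2 * Tb σ) * (A.re ^ 2 + (A.im - bbar) ^ 2) := by ring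

theorem chb_le1 (A : ℂ) (hA : ‖A - Complex.I‖ ≤ 2 + 1 / 1000) (σ : ℝ) (h1 : s0 < σ)
    (h2 : σ ≤ (1 - A.im) / 2 + RR) (h3 : σ ≤ se) : chb A σ ≤ g1 A σ + gx A σ := by
  have hσ : 0 < σ := lt_trans (by unfold s0; norm_num) h1
  obtain ⟨hr1, hr2, hr3⟩ := j3_range A hA
  have hXb44 := j3_Xb_ge σ hσ.le
  have hXb : 0 < Xb σ := lt_of_lt_of_le (by norm_num) hXb44
  have hex := j3_excess A σ hσ
  have hY : Yf A σ = max (Lf A σ) 0 := by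
    unfold Yf
    rw [if_pos h3]
  have hg : g1 A σ = 2 / 3 * (A.im - kap + 5 / 2 * σ) * (σ ^ (-(3 / 2) : ℝ) - Lf A σ) := by
    unfold g1 Lf
    rw [j3_Xm_sub]
    unfold Tb
    ring
  have hmain : (A.im - kap + 5 / 2 * σ) * (σ ^ (-(3 / 2) : ℝ) - Yf A σ) ≤
      (A.im - kap + 5 / 2 * σ) * (σ ^ (-(3 / 2) : ℝ) - Lf A σ) := by
    rcases le_or_gt 0 (A.im - kap + 5 / 2 * σ) with hT | hT
    · apply mul_le_mul_of_nonneg_left _ hT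
      rw [hY]
      linarith [le_max_left (Lf A σ) 0]
    · have hL : 0 ≤ Lf A σ := by
        have hd : Xm A σ - Xb σ ≤ 13 / 10 := by
          rw [j3_Xm_sub]
          have ha : A.re ^ 2 ≤ (2 + 1 / 1000) ^ 2 := by nlinarith [sq_nonneg (A.im - 1)]
          have hβ : A.im ≤ - (1 / 2) := by
            unfold kap at hT
            unfold s0 at h1
            linarith
          have hσ2 : σ ≤ 46 / 100 := by
            unfold kap at hT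
            linarith
          have hδ : 0 ≤ bbar - A.im := by unfold bbar; linarith
          have hδ2 : bbar - A.im ≤ 15 / 10 := by unfold bbar; linarith
          have h5 : (cbar - σ) * (A.im - bbar) ≤ 18 / 100 * (15 / 10) := by
            have : (cbar - σ) * (A.im - bbar) = (σ - cbar) * (bbar - A.im) := by ring
            rw [this]
            calc (σ - cbar) * (bbar - A.im) ≤ 18 / 100 * (bbar - A.im) := by
                  apply mul_le_mul_of_nonneg_right _ hδ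
                  unfold cbar
                  linarith
              _ ≤ 18 / 100 * (15 / 10) := by
                  apply mul_le_mul_of_nonneg_left hδ2
                  norm_num
          nlinarith [sq_nonneg (A.im - bbar)]
        have h74 : 0 < Xb σ ^ (-(7 / 4) : ℝ) := Real.rpow_pos_of_pos hXb _
        have h34 : Xb σ ^ (-(3 / 4) : ℝ) = Xb σ ^ (-(7 / 4) : ℝ) * Xb σ := by
          rw [← Real.rpow_add_one hXb.ne']
          norm_num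
        unfold Lf Db
        rw [h34]
        have : Xb σ ^ (-(7 / 4) : ℝ) * Xb σ - 3 / 4 * Xb σ ^ (-(7 / 4) : ℝ) * (Xm A σ - Xb σ) =
            Xb σ ^ (-(7 / 4) : ℝ) * (Xb σ - 3 / 4 * (Xm A σ - Xb σ)) := by ring
        rw [this]
        apply mul_nonneg h74.le
        linarith
      rw [hY, max_eq_left hL]
  unfold chb
  rw [hg]
  nlinarith

theorem chb_le2 (A : ℂ) (hA : ‖A - Complex.I‖ ≤ 2 + 1 / 1000) (σ : ℝ) (h1 : se < σ)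
    (h2 : σ ≤ (1 - A.im) / 2 + RR) : chb A σ ≤ g2 A σ + gx A σ := by
  have hσ : 0 < σ := lt_trans (by unfold se; norm_num) h1
  have h1' : s0 < σ := lt_trans (by unfold s0 se; norm_num) h1
  obtain ⟨hr1, hr2, hr3⟩ := j3_range A hA
  have hXm := j3_Xm_ge A hA σ h1' h2
  have hX : 0 < Xm A σ := lt_of_lt_of_le (by positivity) hXm
  have hex := j3_excess A σ hσ
  have hY : Yf A σ = Xm A σ ^ (-(3 / 4) : ℝ) := by
    unfold Yf
    rw [if_neg (not_le.mpr h1)]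
  have hT : 0 ≤ A.im - kap + 5 / 2 * σ := by
    unfold kap
    unfold se at h1
    linarith
  have ht := tangent (Xm A σ) (σ ^ 2) hX (by positivity)
  have e1 : (σ ^ 2) ^ (-(3 / 4) : ℝ) = σ ^ (-(3 / 2) : ℝ) := by
    rw [← Real.rpow_natCast σ 2, ← Real.rpow_mul hσ.le]
    norm_num
  have e2 : (σ ^ 2) ^ (-(7 / 4) : ℝ) = σ ^ (-(7 / 2) : ℝ) := by
    rw [← Real.rpow_natCast σ 2, ← Real.rpow_mul hσ.le]
    norm_num
  rw [e1, e2] at ht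
  have hg : g2 A σ = 2 / 3 * (A.im - kap + 5 / 2 * σ) *
      (3 / 4 * σ ^ (-(7 / 2) : ℝ) * (Xm A σ - σ ^ 2)) := by
    unfold g2
    rw [← j3_Xm_eq]
    ring
  have hmain : 2 / 3 * (A.im - kap + 5 / 2 * σ) * (σ ^ (-(3 / 2) : ℝ) - Yf A σ) ≤ g2 A σ := by
    rw [hg, hY]
    apply mul_le_mul_of_nonneg_left _ (by positivity)
    linarith
  unfold chb
  linarith

end H62.CJ
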