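import Pool.Agent.H62.CJ.JD

/-!
# CJ-J4: numerical bounds for E0, E1, E2

True values: `E0 = 0.015024`, `E1 = 0.052057`, `E2 = 0.059087`.
`Xb σ = 4.44572775 + 0.575 σ`, `Tb σ = 0.2881 + 2.5 σ`, `Db σ = (3/4) Xb σ^(-7/4)`, `s0 = 0.2738`, `se = 2.4155`,
`Xb s0 = 4.60316275`, `Xb se = 5.83464025 = 2.4155^2`.
Closed forms: with `u = Xb σ`, `dσ = du/0.575`, `σ = (u - u0)/0.575`, `u0 = 4.44572775`:
`int Db = (1/0.575) [- u^(-3/4)]`, and `int σ Db dσ = (1/0.575^2)[3 u^(1/4) + u0 u^(-3/4)]` (antiderivative of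
`(u - u0)(3/4) u^(-7/4)` is `3 u^(1/4) + u0 u^(-3/4)`).  So all three are explicit combinations of
`u^(1/4)` and `u^(-3/4)` at the two end points; rational bounds of `u^(1/4)` follow from fourth powers:
`4.60316275^(1/4) ∈ (1.46475, 1.46476)`, `5.83464025^(1/4) = 2.4155^(1/2) ∈ (1.55418, 1.55419)`, and
`u^(-3/4) = u^(1/4)/u`.
(Alternative: `Xb^(-7/4)` is convex, so chords and midpoint tangents give bounds.)
Note `E1 = (1/6) int (0.2881 + 2.5 σ) Db`, `E2 = (2/3) int Db (σ - 0.2875)`.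
-/

set_option autoImplicit false

open Set Metric MeasureTheory

namespace H62.CJ

theorem J4_Xb (σ : ℝ) : Xb σ = 17782911 / 4000000 + 23 / 40 * σ := by
  unfold Xb RR cbar
  ring

theorem J4_Tb (σ : ℝ) : Tb σ = 2881 / 10000 + 5 / 2 * σ := by
  unfold Tb bbar kap
  ring

theorem J4_pos {σ : ℝ} (h : 0 ≤ σ) : 0 < Xb σ := by
  rw [J4_Xb]
  positivity

theorem J4_der (σ : ℝ) : HasDerivAt Xb (23 / 40) σ := by
  have h1 : HasDerivAt (fun σ : ℝ => 17782911 / 4000000 + 23 / 40 * σ) (23 / 40 * 1) σ :=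
    ((hasDerivAt_id σ).const_mul (23 / 40 : ℝ)).const_add _
  rw [mul_one] at h1
  exact h1.congr_of_eventuallyEq (Filter.Eventually.of_forall J4_Xb)

theorem J4_le : s0 ≤ se := by
  unfold s0 se
  norm_num

theorem J4_mem {σ : ℝ} (h : σ ∈ uIcc s0 se) : 0 ≤ σ := by
  rw [uIcc_of_le J4_le] at h
  have h1 := h.1
  unfold s0 at h1
  linarith

theorem J4_cont : ContinuousOn Db (uIcc s0 se) := by
  unfold Db
  intro σ hσ
  have h1 : ContinuousAt Xb σ := (J4_der σ).continuousAt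
  exact (continuousAt_const.mul
    (h1.rpow_const (Or.inl (J4_pos (J4_mem hσ)).ne'))).continuousWithinAt

theorem J4_I0 : ∫ σ in s0..se, Db σ =
    40 / 23 * (Xb s0 ^ (-(3 / 4) : ℝ) - Xb se ^ (-(3 / 4) : ℝ)) := by
  have h1 : ∀ σ ∈ uIcc s0 se,
      HasDerivAt (fun σ => -(40 / 23) * Xb σ ^ (-(3 / 4) : ℝ)) (Db σ) σ := by
    intro σ hσ
    have hp := J4_pos (J4_mem hσ)
    have h2 := ((J4_der σ).rpow_const (p := (-(3 / 4) : ℝ)) (Or.inl hp.ne')).const_mul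
      (-(40 / 23) : ℝ)
    refine h2.congr_deriv ?_
    unfold Db
    rw [show (-(3 / 4) - 1 : ℝ) = -(7 / 4) by norm_num]
    ring
  rw [intervalIntegral.integral_eq_sub_of_hasDerivAt h1 J4_cont.intervalIntegrable]
  ring

theorem J4_I1 : ∫ σ in s0..se, σ * Db σ =
    1600 / 529 * ((3 * Xb se ^ (1 / 4 : ℝ) + 17782911 / 4000000 * Xb se ^ (-(3 / 4) : ℝ)) -
      (3 * Xb s0 ^ (1 / 4 : ℝ) + 17782911 / 4000000 * Xb s0 ^ (-(3 / 4) : ℝ))) := by
  have h1 : ∀ σ ∈ uIcc s0 se,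
      HasDerivAt (fun σ => 1600 / 529 * (3 * Xb σ ^ (1 / 4 : ℝ) +
        17782911 / 4000000 * Xb σ ^ (-(3 / 4) : ℝ))) (σ * Db σ) σ := by
    intro σ hσ
    have hp := J4_pos (J4_mem hσ)
    have h2 := ((J4_der σ).rpow_const (p := (-(3 / 4) : ℝ)) (Or.inl hp.ne')).const_mul
      (17782911 / 4000000 : ℝ)
    have h3 := ((J4_der σ).rpow_const (p := (1 / 4 : ℝ)) (Or.inl hp.ne')).const_mul (3 : ℝ)
    have h4 := (h3.add h2).const_mul (1600 / 529 : ℝ)
    refine h4.congr_deriv ?_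
    unfold Db
    rw [show (-(3 / 4) - 1 : ℝ) = -(7 / 4) by norm_num,
      show (1 / 4 - 1 : ℝ) = -(7 / 4) + 1 by norm_num, Real.rpow_add hp, Real.rpow_one]
    have h5 := J4_Xb σ
    linear_combination (30 / 23 * Xb σ ^ (-(7 / 4) : ℝ)) * h5
  rw [intervalIntegral.integral_eq_sub_of_hasDerivAt h1
    (continuousOn_id.mul J4_cont).intervalIntegrable]
  ring

theorem J4_quarter {x : ℝ} (hx : 0 < x) : x ^ (-(3 / 4) : ℝ) = x ^ (1 / 4 : ℝ) / x := by
  rw [show (-(3 / 4) : ℝ) = 1 / 4 - 1 by norm_num, Real.rpow_sub hx, Real.rpow_one]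

theorem J4_four {x : ℝ} (hx : 0 < x) : (x ^ (1 / 4 : ℝ)) ^ 4 = x := by
  rw [← Real.rpow_natCast, ← Real.rpow_mul hx.le]
  norm_num

theorem J4_bd {x l r : ℝ} (hx : 0 < x) (h0 : 0 ≤ r) (h1 : l ^ 4 < x) (h2 : x < r ^ 4) :
    l < x ^ (1 / 4 : ℝ) ∧ x ^ (1 / 4 : ℝ) < r := by
  have h3 := J4_four hx
  constructor
  · apply lt_of_pow_lt_pow_left₀ 4 (Real.rpow_nonneg hx.le _)
    rw [h3]
    exact h1
  · apply lt_of_pow_lt_pow_left₀ 4 h0
    rw [h3]
    exact h2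

theorem J4_X0 : Xb s0 = 18412651 / 4000000 := by
  rw [J4_Xb]
  unfold s0
  norm_num

theorem J4_Xe : Xb se = 23338561 / 4000000 := by
  rw [J4_Xb]
  unfold se
  norm_num

theorem J4_a : (146475 / 100000 : ℝ) < Xb s0 ^ (1 / 4 : ℝ) ∧
    Xb s0 ^ (1 / 4 : ℝ) < 146476 / 100000 := by
  rw [J4_X0]
  exact J4_bd (by norm_num) (by norm_num) (by norm_num) (by norm_num)

theorem J4_b : (155418 / 100000 : ℝ) < Xb se ^ (1 / 4 : ℝ) ∧
    Xb se ^ (1 / 4 : ℝ) < 155419 / 100000 := by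
  rw [J4_Xe]
  exact J4_bd (by norm_num) (by norm_num) (by norm_num) (by norm_num)

theorem J4_E0 : E0 = 1 / 6 * (40 / 23 * (Xb s0 ^ (1 / 4 : ℝ) / (18412651 / 4000000) -
    Xb se ^ (1 / 4 : ℝ) / (23338561 / 4000000))) := by
  unfold E0
  rw [J4_I0, J4_quarter (by rw [J4_X0]; norm_num : 0 < Xb s0),
    J4_quarter (by rw [J4_Xe]; norm_num : 0 < Xb se)]
  rw [← J4_X0, ← J4_Xe]

theorem J4_I0' : ∫ σ in s0..se, Db σ =
    40 / 23 * (Xb s0 ^ (1 / 4 : ℝ) / (18412651 / 4000000) -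
    Xb se ^ (1 / 4 : ℝ) / (23338561 / 4000000)) := by
  rw [J4_I0, J4_quarter (by rw [J4_X0]; norm_num : 0 < Xb s0),
    J4_quarter (by rw [J4_Xe]; norm_num : 0 < Xb se)]
  rw [← J4_X0, ← J4_Xe]

theorem J4_I1' : ∫ σ in s0..se, σ * Db σ =
    1600 / 529 * ((3 * Xb se ^ (1 / 4 : ℝ) + 17782911 / 4000000 *
        (Xb se ^ (1 / 4 : ℝ) / (23338561 / 4000000))) -
      (3 * Xb s0 ^ (1 / 4 : ℝ) + 17782911 / 4000000 *
        (Xb s0 ^ (1 / 4 : ℝ) / (18412651 / 4000000)))) := by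
  rw [J4_I1, J4_quarter (by rw [J4_X0]; norm_num : 0 < Xb s0),
    J4_quarter (by rw [J4_Xe]; norm_num : 0 < Xb se)]
  rw [← J4_X0, ← J4_Xe]

theorem J4_E1 : E1 = 1 / 6 * (2881 / 10000 * (∫ σ in s0..se, Db σ) +
    5 / 2 * ∫ σ in s0..se, σ * Db σ) := by
  unfold E1
  have h1 : IntervalIntegrable Db volume s0 se := J4_cont.intervalIntegrable
  have h2 : IntervalIntegrable (fun σ => σ * Db σ) volume s0 se :=
    (continuousOn_id.mul J4_cont).intervalIntegrable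
  have e : ∫ σ in s0..se, Tb σ * Db σ = 2881 / 10000 * (∫ σ in s0..se, Db σ) +
      5 / 2 * ∫ σ in s0..se, σ * Db σ := by
    have e1 := intervalIntegral.integral_const_mul (μ := volume) (a := s0) (b := se)
      (2881 / 10000 : ℝ) Db
    have e2 := intervalIntegral.integral_const_mul (μ := volume) (a := s0) (b := se)
      (5 / 2 : ℝ) (fun σ => σ * Db σ)
    rw [← e1, ← e2, ← intervalIntegral.integral_add (h1.const_mul _) (h2.const_mul _)]
    apply intervalIntegral.integral_congr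
    intro σ _
    change Tb σ * Db σ = 2881 / 10000 * Db σ + 5 / 2 * (σ * Db σ)
    rw [J4_Tb]
    ring
  rw [e]

theorem J4_E2 : E2 = 2 / 3 * ((∫ σ in s0..se, σ * Db σ) - 23 / 80 * ∫ σ in s0..se, Db σ) := by
  unfold E2
  have h1 : IntervalIntegrable Db volume s0 se := J4_cont.intervalIntegrable
  have h2 : IntervalIntegrable (fun σ => σ * Db σ) volume s0 se :=
    (continuousOn_id.mul J4_cont).intervalIntegrable
  have e : ∫ σ in s0..se, Db σ * (σ - cbar) = (∫ σ in s0..se, σ * Db σ) -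
      23 / 80 * ∫ σ in s0..se, Db σ := by
    have e1 := intervalIntegral.integral_const_mul (μ := volume) (a := s0) (b := se)
      (23 / 80 : ℝ) Db
    rw [← e1, ← intervalIntegral.integral_sub h2 (h1.const_mul _)]
    apply intervalIntegral.integral_congr
    intro σ _
    change Db σ * (σ - cbar) = σ * Db σ - 23 / 80 * Db σ
    unfold cbar
    ring
  rw [e]

theorem E0_lb : 148 / 10000 ≤ E0 := by
  rw [J4_E0]
  have h1 := J4_a
  have h2 := J4_b
  linarith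

theorem E0_ub : E0 ≤ 153 / 10000 := by
  rw [J4_E0]
  have h1 := J4_a
  have h2 := J4_b
  linarith

theorem E1_lb : 515 / 10000 ≤ E1 := by
  rw [J4_E1, J4_I0', J4_I1']
  have h1 := J4_a
  have h2 := J4_b
  linarith

theorem E1_ub : E1 ≤ 535 / 10000 := by
  rw [J4_E1, J4_I0', J4_I1']
  have h1 := J4_a
  have h2 := J4_b
  linarith

theorem E2_lb : 58 / 1000 ≤ E2 := by
  rw [J4_E2, J4_I0', J4_I1']
  have h1 := J4_a
  have h2 := J4_b
  linarith

end H62.CJ
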