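import Pool.Agent.H62.CJ.J4

/-!
# CJ-J5: numerical bounds for Phi0, Phi1, KE

True values: `Phi0 = 2.442443`, `Phi1 = 1.013606`, `KE = 0.725482`.
Closed forms.  `int Tb σ^(-3/2) = -0.5762 σ^(-1/2) + 5 σ^(1/2)`;
with `u = Xb σ = u0 + 0.575 σ`, `u0 = 4.44572775`, `Tb σ = 0.2881 + (2.5/0.575)(u - u0)`:
`int Tb Xb^(-3/4) dσ = (1/0.575) [ (0.2881 - (2.5/0.575) u0) 4 u^(1/4) + (2.5/0.575) (4/5) u^(5/4) ]`.
End points: `s0 = 0.2738`, `s0^(1/2) ∈ (0.523259, 0.523260)`, `se = 2.4155`,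
`se^(1/2) ∈ (1.554187, 1.554188)`, `Xb s0 = 4.60316275`, fourth root in `(1.464751, 1.464752)`,
`Xb se = se^2`, fourth root `= se^(1/2)`, `u^(5/4) = u * u^(1/4)`.
(Check the digits before use; any correct bounds of this precision suffice, the claim for `Phi0` has a
margin of `0.001`.)
`Phi1`: `int σ^(-3/2) = -2 σ^(-1/2)`, `int Xb^(-3/4) = (4/0.575) u^(1/4)`, and
`int Tb Db (cbar - σ)` has a quadratic polynomial times `(3/4) u^(-7/4)`: antiderivatives of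
`u^k (3/4) u^(-7/4)`: `k=0: - u^(-3/4)`, `k=1: 3 u^(1/4)`, `k=2: (3/5) u^(5/4)`.  For `Phi1` only
`0 <= Phi1 <= 1.2` is needed, so crude bounds suffice.
`KE = (1/2) int_{s0}^{3.13} σ^(-3/2)/(a + 2.5 σ)`, `a = 0.2881`.  Identity:
`σ^(-3/2)/(a+2.5σ) = (1/a)[σ^(-3/2) - 2.5 σ^(-1/2)/(a+2.5σ)]`; antiderivative
`(1/a)[-2 σ^(-1/2) - 2 sqrt(2.5/a) arctan (sqrt(2.5 σ/a))]`.  Numerically:
`KE = (1/a)[ s0^(-1/2) - 3.13^(-1/2) - sqrt(2.5/a) (arctan(sqrt(2.5*3.13/a)) - arctan (sqrt(2.5 s0/a))) ]`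
with `sqrt(2.5/a) = 2.945767`, arguments `5.211594` and `1.541399`.  A lower bound for the arctan
difference is needed: `arctan x - arctan y = arctan ((x-y)/(1+xy))`, argument `0.406303`, and
`arctan t >= t - t^3/3 + t^5/5 - t^7/7` (alternating series).  ALTERNATIVE without arctan: substitute
`σ = x^2` and bound the convex function `1/(a + 2.5 x^2)`-type integrand below by tangents on a few
subintervals; or compare derivatives with a rational function.  The claim has a margin of `0.0007`.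
-/

set_option autoImplicit false

open Set Metric MeasureTheory

namespace H62.CJ

theorem J5_derS (α β : ℝ) {σ : ℝ} (h : 0 < σ) :
    HasDerivAt (fun σ : ℝ => α * σ ^ (1 / 2 : ℝ) + β * σ ^ (-(1 / 2) : ℝ))
      ((α / 2 * σ - β / 2) * σ ^ (-(3 / 2) : ℝ)) σ := by
  have h1 := (Real.hasDerivAt_rpow_const (p := (1 / 2 : ℝ)) (Or.inl h.ne')).const_mul α
  have h2 := (Real.hasDerivAt_rpow_const (p := (-(1 / 2) : ℝ)) (Or.inl h.ne')).const_mul β
  refine (h1.add h2).congr_deriv ?_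
  rw [show (1 / 2 - 1 : ℝ) = -(3 / 2) + 1 by norm_num, Real.rpow_add h, Real.rpow_one,
    show (-(1 / 2) - 1 : ℝ) = -(3 / 2) by norm_num]
  ring

theorem J5_derX (α β γ : ℝ) {σ : ℝ} (h : 0 ≤ σ) :
    HasDerivAt (fun σ : ℝ => α * Xb σ ^ (5 / 4 : ℝ) + β * Xb σ ^ (1 / 4 : ℝ) +
        γ * Xb σ ^ (-(3 / 4) : ℝ))
      (23 / 40 * (5 / 4 * α * Xb σ ^ 2 + β / 4 * Xb σ - 3 / 4 * γ) * Xb σ ^ (-(7 / 4) : ℝ)) σ := by
  have hp := J4_pos h
  have h1 := ((J4_der σ).rpow_const (p := (5 / 4 : ℝ)) (Or.inl hp.ne')).const_mul α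
  have h2 := ((J4_der σ).rpow_const (p := (1 / 4 : ℝ)) (Or.inl hp.ne')).const_mul β
  have h3 := ((J4_der σ).rpow_const (p := (-(3 / 4) : ℝ)) (Or.inl hp.ne')).const_mul γ
  refine ((h1.add h2).add h3).congr_deriv ?_
  rw [show (5 / 4 - 1 : ℝ) = -(7 / 4) + 1 + 1 by norm_num,
    show (1 / 4 - 1 : ℝ) = -(7 / 4) + 1 by norm_num,
    show (-(3 / 4) - 1 : ℝ) = -(7 / 4) by norm_num, Real.rpow_add hp, Real.rpow_add hp,
    Real.rpow_one]
  ring

theorem J5_pos {σ : ℝ} (h : σ ∈ uIcc s0 se) : 0 < σ := by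
  rw [uIcc_of_le J4_le] at h
  have h1 := h.1
  unfold s0 at h1
  linarith

theorem J5_34 {x : ℝ} (hx : 0 < x) : x ^ (-(3 / 4) : ℝ) = x * x ^ (-(7 / 4) : ℝ) := by
  rw [show (-(3 / 4) : ℝ) = -(7 / 4) + 1 by norm_num, Real.rpow_add hx, Real.rpow_one]
  ring

theorem J5_54 {x : ℝ} (hx : 0 < x) : x ^ (5 / 4 : ℝ) = x * x ^ (1 / 4 : ℝ) := by
  rw [show (5 / 4 : ℝ) = 1 / 4 + 1 by norm_num, Real.rpow_add hx, Real.rpow_one]
  ring

theorem J5_12 {x : ℝ} (hx : 0 < x) : x ^ (-(1 / 2) : ℝ) = x ^ (1 / 2 : ℝ) / x := by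
  rw [show (-(1 / 2) : ℝ) = 1 / 2 - 1 by norm_num, Real.rpow_sub hx, Real.rpow_one]

theorem J5_contS : ContinuousOn (fun σ : ℝ => σ ^ (-(3 / 2) : ℝ)) (uIcc s0 se) := by
  intro σ hσ
  exact (continuousAt_id.rpow_const (Or.inl (J5_pos hσ).ne')).continuousWithinAt

theorem J5_contX (p : ℝ) : ContinuousOn (fun σ : ℝ => Xb σ ^ p) (uIcc s0 se) := by
  intro σ hσ
  have h1 : ContinuousAt Xb σ := (J4_der σ).continuousAt
  exact (h1.rpow_const (Or.inl (J4_pos (J5_pos hσ).le).ne')).continuousWithinAt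

theorem J5_contT : Continuous Tb := by
  unfold Tb
  fun_prop

/-- the general antiderivative -/
noncomputable def J5F (a b α β γ : ℝ) (σ : ℝ) : ℝ :=
  (a * σ ^ (1 / 2 : ℝ) + b * σ ^ (-(1 / 2) : ℝ)) +
    (α * Xb σ ^ (5 / 4 : ℝ) + β * Xb σ ^ (1 / 4 : ℝ) + γ * Xb σ ^ (-(3 / 4) : ℝ))

theorem J5_derF (a b α β γ : ℝ) {σ : ℝ} (h : 0 < σ) :
    HasDerivAt (J5F a b α β γ) ((a / 2 * σ - b / 2) * σ ^ (-(3 / 2) : ℝ) +
      23 / 40 * (5 / 4 * α * Xb σ ^ 2 + β / 4 * Xb σ - 3 / 4 * γ) * Xb σ ^ (-(7 / 4) : ℝ)) σ :=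
  (J5_derS a b h).add (J5_derX α β γ h.le)

theorem J5F_s0 (a b α β γ : ℝ) : J5F a b α β γ s0 =
    (a + b * (5000 / 1369)) * s0 ^ (1 / 2 : ℝ) + (α * (18412651 / 4000000) + β +
      γ * (4000000 / 18412651)) * Xb s0 ^ (1 / 4 : ℝ) := by
  have h0 : (0 : ℝ) < s0 := by unfold s0; norm_num
  have h1 : 0 < Xb s0 := J4_pos h0.le
  unfold J5F
  rw [J5_54 h1, J4_quarter h1, J5_12 h0]
  have e1 : Xb s0 ^ (1 / 4 : ℝ) / Xb s0 = Xb s0 ^ (1 / 4 : ℝ) * (4000000 / 18412651) := by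
    rw [div_eq_mul_inv]
    congr 1
    rw [J4_X0]
    norm_num
  have e2 : Xb s0 * Xb s0 ^ (1 / 4 : ℝ) = 18412651 / 4000000 * Xb s0 ^ (1 / 4 : ℝ) := by
    congr 1
    exact J4_X0
  have e3 : s0 ^ (1 / 2 : ℝ) / s0 = s0 ^ (1 / 2 : ℝ) * (5000 / 1369) := by
    rw [div_eq_mul_inv]
    congr 1
    unfold s0
    norm_num
  rw [e1, e2, e3]
  ring

theorem J5F_se (a b α β γ : ℝ) : J5F a b α β γ se =
    (a + b * (2000 / 4831)) * se ^ (1 / 2 : ℝ) + (α * (23338561 / 4000000) + β +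
      γ * (4000000 / 23338561)) * Xb se ^ (1 / 4 : ℝ) := by
  have h0 : (0 : ℝ) < se := by unfold se; norm_num
  have h1 : 0 < Xb se := J4_pos h0.le
  unfold J5F
  rw [J5_54 h1, J4_quarter h1, J5_12 h0]
  have e1 : Xb se ^ (1 / 4 : ℝ) / Xb se = Xb se ^ (1 / 4 : ℝ) * (4000000 / 23338561) := by
    rw [div_eq_mul_inv]
    congr 1
    rw [J4_Xe]
    norm_num
  have e2 : Xb se * Xb se ^ (1 / 4 : ℝ) = 23338561 / 4000000 * Xb se ^ (1 / 4 : ℝ) := by
    congr 1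
    exact J4_Xe
  have e3 : se ^ (1 / 2 : ℝ) / se = se ^ (1 / 2 : ℝ) * (2000 / 4831) := by
    rw [div_eq_mul_inv]
    congr 1
    unfold se
    norm_num
  rw [e1, e2, e3]
  ring

theorem J5_sq {x l r : ℝ} (hx : 0 < x) (h0 : 0 ≤ r) (h1 : l ^ 2 < x) (h2 : x < r ^ 2) :
    l < x ^ (1 / 2 : ℝ) ∧ x ^ (1 / 2 : ℝ) < r := by
  have h3 : (x ^ (1 / 2 : ℝ)) ^ 2 = x := by
    rw [← Real.rpow_natCast, ← Real.rpow_mul hx.le]
    norm_num
  constructor
  · apply lt_of_pow_lt_pow_left₀ 2 (Real.rpow_nonneg hx.le _)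
    rw [h3]
    exact h1
  · apply lt_of_pow_lt_pow_left₀ 2 h0
    rw [h3]
    exact h2

theorem J5_p0 : (5232590 / 10000000 : ℝ) < s0 ^ (1 / 2 : ℝ) ∧
    s0 ^ (1 / 2 : ℝ) < 5232591 / 10000000 := by
  unfold s0
  exact J5_sq (by norm_num) (by norm_num) (by norm_num) (by norm_num)

theorem J5_pe : (15541878 / 10000000 : ℝ) < se ^ (1 / 2 : ℝ) ∧
    se ^ (1 / 2 : ℝ) < 15541879 / 10000000 := by
  unfold se
  exact J5_sq (by norm_num) (by norm_num) (by norm_num) (by norm_num)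

theorem J5_p3 : (17691806 / 10000000 : ℝ) < (313 / 100 : ℝ) ^ (1 / 2 : ℝ) ∧
    (313 / 100 : ℝ) ^ (1 / 2 : ℝ) < 17691807 / 10000000 :=
  J5_sq (by norm_num) (by norm_num) (by norm_num) (by norm_num)

theorem J5_a : (14647519 / 10000000 : ℝ) < Xb s0 ^ (1 / 4 : ℝ) ∧
    Xb s0 ^ (1 / 4 : ℝ) < 14647520 / 10000000 := by
  rw [J4_X0]
  exact J4_bd (by norm_num) (by norm_num) (by norm_num) (by norm_num)

theorem J5_b : (15541878 / 10000000 : ℝ) < Xb se ^ (1 / 4 : ℝ) ∧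
    Xb se ^ (1 / 4 : ℝ) < 15541879 / 10000000 := by
  rw [J4_Xe]
  exact J4_bd (by norm_num) (by norm_num) (by norm_num) (by norm_num)

theorem J5_Phi0 : Phi0 = 2 / 3 *
    (J5F 5 (-(2881 / 5000)) (-(3200 / 529))
        (-(160 / 23 * (2881 / 10000 - 100 / 23 * (17782911 / 4000000)))) 0 se -
      J5F 5 (-(2881 / 5000)) (-(3200 / 529))
        (-(160 / 23 * (2881 / 10000 - 100 / 23 * (17782911 / 4000000)))) 0 s0) := by
  unfold Phi0
  congr 1
  refine intervalIntegral.integral_eq_sub_of_hasDerivAt ?_ ?_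
  · intro σ hσ
    have hp := J5_pos hσ
    refine (J5_derF _ _ _ _ _ hp).congr_deriv ?_
    have hX := J4_pos hp.le
    rw [J5_34 hX, J4_Tb]
    have h5 := J4_Xb σ
    have h6 : σ = 40 / 23 * (Xb σ - 17782911 / 4000000) := by rw [h5]; ring
    linear_combination (5 / 2 * Xb σ * Xb σ ^ (-(7 / 4) : ℝ)) * h6
  · apply ContinuousOn.intervalIntegrable
    exact J5_contT.continuousOn.mul (J5_contS.sub (J5_contX _))

theorem Phi0_le : Phi0 ≤ 24435 / 10000 := by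
  rw [J5_Phi0, J5F_s0, J5F_se]
  have h1 := J5_a
  have h2 := J5_b
  have h3 := J5_p0
  have h4 := J5_pe
  linarith

theorem Phi0_ge : 2 ≤ Phi0 := by
  rw [J5_Phi0, J5F_s0, J5F_se]
  have h1 := J5_a
  have h2 := J5_b
  have h3 := J5_p0
  have h4 := J5_pe
  linarith

theorem J5_Phi1 : Phi1 = 2 / 3 *
    (J5F 0 (-2) (-(96000 / 12167))
        (160 / 23 * (-1 + 3 / 4 * (5 * (17782911 / 4000000) * (1600 / 529) +
          (23 / 32 - 2881 / 10000) * (40 / 23))))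
        (-(40 / 23 * (-(5 / 2 * (17782911 / 4000000) ^ 2 * (1600 / 529)) -
          (23 / 32 - 2881 / 10000) * (17782911 / 4000000) * (40 / 23) +
          2881 / 10000 * (23 / 80)))) se -
      J5F 0 (-2) (-(96000 / 12167))
        (160 / 23 * (-1 + 3 / 4 * (5 * (17782911 / 4000000) * (1600 / 529) +
          (23 / 32 - 2881 / 10000) * (40 / 23))))
        (-(40 / 23 * (-(5 / 2 * (17782911 / 4000000) ^ 2 * (1600 / 529)) -
          (23 / 32 - 2881 / 10000) * (17782911 / 4000000) * (40 / 23) +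
          2881 / 10000 * (23 / 80)))) s0) := by
  unfold Phi1
  congr 1
  refine intervalIntegral.integral_eq_sub_of_hasDerivAt ?_ ?_
  · intro σ hσ
    have hp := J5_pos hσ
    refine (J5_derF _ _ _ _ _ hp).congr_deriv ?_
    have hX := J4_pos hp.le
    have h5 := J4_Xb σ
    have h6 : σ = 40 / 23 * (Xb σ - 17782911 / 4000000) := by rw [h5]; ring
    have key : ∀ u R s : ℝ, s = 40 / 23 * (u - 17782911 / 4000000) →
        23 / 40 * (5 / 4 * (-(96000 / 12167)) * u ^ 2 +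
          (160 / 23 * (-1 + 3 / 4 * (5 * (17782911 / 4000000) * (1600 / 529) +
          (23 / 32 - 2881 / 10000) * (40 / 23)))) / 4 * u -
          3 / 4 * (-(40 / 23 * (-(5 / 2 * (17782911 / 4000000) ^ 2 * (1600 / 529)) -
          (23 / 32 - 2881 / 10000) * (17782911 / 4000000) * (40 / 23) +
          2881 / 10000 * (23 / 80))))) * R =
        -(u * R) + (2881 / 10000 + 5 / 2 * s) * (3 / 4 * R) * (23 / 80 - s) := by
      intro u R s hs
      subst hs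
      ring
    rw [key _ _ σ h6, J5_34 hX, J4_Tb]
    unfold Db cbar
    ring
  · apply ContinuousOn.intervalIntegrable
    refine (J5_contS.sub (J5_contX _)).add ?_
    exact (J5_contT.continuousOn.mul J4_cont).mul (continuousOn_const.sub continuousOn_id)

theorem Phi1_nonneg : 0 ≤ Phi1 := by
  rw [J5_Phi1, J5F_s0, J5F_se]
  have h1 := J5_a
  have h2 := J5_b
  have h3 := J5_p0
  have h4 := J5_pe
  linarith

theorem Phi1_le : Phi1 ≤ 12 / 10 := by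
  rw [J5_Phi1, J5F_s0, J5F_se]
  have h1 := J5_a
  have h2 := J5_b
  have h3 := J5_p0
  have h4 := J5_pe
  linarith

/-- lower bound of the arctangent -/
theorem J5_arctan_ge {t : ℝ} (ht : 0 ≤ t) :
    t - t ^ 3 / 3 + t ^ 5 / 5 - t ^ 7 / 7 ≤ Real.arctan t := by
  have hd : ∀ x : ℝ, HasDerivAt (fun x : ℝ => Real.arctan x -
      (x - x ^ 3 / 3 + x ^ 5 / 5 - x ^ 7 / 7)) (x ^ 8 / (1 + x ^ 2)) x := by
    intro x
    have h1 := Real.hasDerivAt_arctan x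
    have h3 : HasDerivAt (fun x : ℝ => x ^ 3 / 3) (x ^ 2) x := by
      refine ((hasDerivAt_pow 3 x).div_const 3).congr_deriv ?_
      push_cast; ring
    have h5 : HasDerivAt (fun x : ℝ => x ^ 5 / 5) (x ^ 4) x := by
      refine ((hasDerivAt_pow 5 x).div_const 5).congr_deriv ?_
      push_cast; ring
    have h7 : HasDerivAt (fun x : ℝ => x ^ 7 / 7) (x ^ 6) x := by
      refine ((hasDerivAt_pow 7 x).div_const 7).congr_deriv ?_
      push_cast; ring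
    refine (h1.sub ((((hasDerivAt_id x).sub h3).add h5).sub h7)).congr_deriv ?_
    have h8 : 1 + x ^ 2 ≠ 0 := by positivity
    field_simp
    ring
  have hm : Monotone (fun x : ℝ => Real.arctan x -
      (x - x ^ 3 / 3 + x ^ 5 / 5 - x ^ 7 / 7)) := by
    refine monotone_of_deriv_nonneg (fun x => (hd x).differentiableAt) (fun x => ?_)
    rw [(hd x).deriv]
    positivity
  have h := hm ht
  simp only [Real.arctan_zero] at h
  norm_num at h
  linarith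

theorem J5_arctan_le {t : ℝ} (ht : 0 ≤ t) : Real.arctan t ≤ t := by
  have hd : ∀ x : ℝ, HasDerivAt (fun x : ℝ => x - Real.arctan x) (x ^ 2 / (1 + x ^ 2)) x := by
    intro x
    refine ((hasDerivAt_id x).sub (Real.hasDerivAt_arctan x)).congr_deriv ?_
    have h8 : 1 + x ^ 2 ≠ 0 := by positivity
    field_simp
    ring
  have hm : Monotone (fun x : ℝ => x - Real.arctan x) := by
    refine monotone_of_deriv_nonneg (fun x => (hd x).differentiableAt) (fun x => ?_)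
    rw [(hd x).deriv]
    positivity
  have h := hm ht
  simp only [Real.arctan_zero] at h
  linarith

theorem J5_KE : ∃ k : ℝ, 0 < k ∧ k ^ 2 = 25000 / 2881 ∧
    KE = 10000 / 2881 * (s0 ^ (1 / 2 : ℝ) * (5000 / 1369) -
      (313 / 100 : ℝ) ^ (1 / 2 : ℝ) * (100 / 313) -
      k * Real.arctan ((k * (313 / 100 : ℝ) ^ (1 / 2 : ℝ) - k * s0 ^ (1 / 2 : ℝ)) /
        (1 + k ^ 2 * ((313 / 100 : ℝ) ^ (1 / 2 : ℝ) * s0 ^ (1 / 2 : ℝ))))) := by
  have hk2 : Real.sqrt (25000 / 2881) ^ 2 = 25000 / 2881 := Real.sq_sqrt (by norm_num)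
  have hk0 : 0 < Real.sqrt (25000 / 2881) := Real.sqrt_pos.2 (by norm_num)
  obtain ⟨k, hk⟩ : ∃ k : ℝ, k = Real.sqrt (25000 / 2881) := ⟨_, rfl⟩
  rw [← hk] at hk2 hk0
  refine ⟨k, hk0, hk2, ?_⟩
  have hs0 : (0 : ℝ) < s0 := by unfold s0; norm_num
  have h3 : (0 : ℝ) < 313 / 100 := by norm_num
  have hle : s0 ≤ 313 / 100 := by unfold s0; norm_num
  have hpos : ∀ σ ∈ uIcc s0 (313 / 100), 0 < σ := by
    intro σ hσ
    rw [uIcc_of_le hle] at hσ
    exact lt_of_lt_of_le hs0 hσ.1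
  have hder : ∀ σ ∈ uIcc s0 (313 / 100), HasDerivAt (fun σ : ℝ => 10000 / 2881 *
      (-2 * σ ^ (-(1 / 2) : ℝ) - 2 * k * Real.arctan (k * σ ^ (1 / 2 : ℝ))))
      (σ ^ (-(3 / 2) : ℝ) / Tb σ) σ := by
    intro σ hσ
    have hp := hpos σ hσ
    have h1 := (Real.hasDerivAt_rpow_const (p := (1 / 2 : ℝ)) (Or.inl hp.ne')).const_mul k
    have h2 := (Real.hasDerivAt_rpow_const (p := (-(1 / 2) : ℝ)) (Or.inl hp.ne')).const_mul
      (-2 : ℝ)
    have h4 := (h1.arctan).const_mul (2 * k)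
    refine ((h2.sub h4).const_mul (10000 / 2881 : ℝ)).congr_deriv ?_
    have e1 : (k * σ ^ (1 / 2 : ℝ)) ^ 2 = 25000 / 2881 * σ := by
      rw [mul_pow, hk2, ← Real.rpow_natCast (σ ^ (1 / 2 : ℝ)), ← Real.rpow_mul hp.le]
      norm_num
    rw [e1, J4_Tb, show (1 / 2 - 1 : ℝ) = -(3 / 2) + 1 by norm_num, Real.rpow_add hp,
      Real.rpow_one, show (-(1 / 2) - 1 : ℝ) = -(3 / 2) by norm_num]
    have e2 : (1 + 25000 / 2881 * σ) ≠ 0 := by positivity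
    have e3 : (2881 / 10000 + 5 / 2 * σ) ≠ 0 := by positivity
    have e4 : 2 * k * (1 / (1 + 25000 / 2881 * σ) *
        (k * (1 / 2 * (σ ^ (-(3 / 2) : ℝ) * σ)))) =
        k ^ 2 * (σ ^ (-(3 / 2) : ℝ) * σ) / (1 + 25000 / 2881 * σ) := by ring
    rw [e4, hk2]
    field_simp
    ring
  have hcont : ContinuousOn (fun σ : ℝ => σ ^ (-(3 / 2) : ℝ) / Tb σ)
      (uIcc s0 (313 / 100)) := by
    intro σ hσ
    have hp := hpos σ hσ
    refine ContinuousAt.continuousWithinAt ?_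
    refine ContinuousAt.div (continuousAt_id.rpow_const (Or.inl hp.ne'))
      J5_contT.continuousAt ?_
    rw [J4_Tb]
    positivity
  have hI := intervalIntegral.integral_eq_sub_of_hasDerivAt hder hcont.intervalIntegrable
  have hA := Real.arctan_add (x := k * (313 / 100 : ℝ) ^ (1 / 2 : ℝ))
    (y := -(k * s0 ^ (1 / 2 : ℝ))) (by
      have h5 : 0 < k * (313 / 100 : ℝ) ^ (1 / 2 : ℝ) := by positivity
      have h6 : 0 < k * s0 ^ (1 / 2 : ℝ) := mul_pos hk0 (Real.rpow_pos_of_pos hs0 _)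
      nlinarith [mul_pos h5 h6])
  rw [Real.arctan_neg] at hA
  have e5 : (k * (313 / 100 : ℝ) ^ (1 / 2 : ℝ) + -(k * s0 ^ (1 / 2 : ℝ))) /
      (1 - k * (313 / 100 : ℝ) ^ (1 / 2 : ℝ) * -(k * s0 ^ (1 / 2 : ℝ))) =
      (k * (313 / 100 : ℝ) ^ (1 / 2 : ℝ) - k * s0 ^ (1 / 2 : ℝ)) /
        (1 + k ^ 2 * ((313 / 100 : ℝ) ^ (1 / 2 : ℝ) * s0 ^ (1 / 2 : ℝ))) := by
    congr 1 <;> ring
  rw [e5] at hA
  unfold KE
  rw [hI, ← hA, J5_12 hs0, J5_12 h3]
  have e6 : s0 ^ (1 / 2 : ℝ) / s0 = s0 ^ (1 / 2 : ℝ) * (5000 / 1369) := by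
    rw [div_eq_mul_inv]
    congr 1
    unfold s0
    norm_num
  rw [e6]
  ring

theorem J5_kbd {k : ℝ} (hk0 : 0 < k) (hk2 : k ^ 2 = 25000 / 2881) :
    (29457668 / 10000000 : ℝ) < k ∧ k < 29457669 / 10000000 := by
  constructor
  · apply lt_of_pow_lt_pow_left₀ 2 hk0.le
    rw [hk2]
    norm_num
  · apply lt_of_pow_lt_pow_left₀ 2 (by norm_num)
    rw [hk2]
    norm_num

theorem KE_le : KE ≤ 7262 / 10000 := by
  obtain ⟨k, hk0, hk2, hKE⟩ := J5_KE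
  have hk := J5_kbd hk0 hk2
  have h0 := J5_p0
  have h3 := J5_p3
  rw [hKE]
  obtain ⟨p, hp⟩ : ∃ p : ℝ, p = s0 ^ (1 / 2 : ℝ) := ⟨_, rfl⟩
  obtain ⟨q, hq⟩ : ∃ q : ℝ, q = (313 / 100 : ℝ) ^ (1 / 2 : ℝ) := ⟨_, rfl⟩
  rw [← hp] at h0 ⊢
  rw [← hq] at h3 ⊢
  have hpq : q * p ≤ 17691807 / 10000000 * (5232591 / 10000000) :=
    mul_le_mul h3.2.le h0.2.le (by linarith) (by norm_num)
  have hpq0 : 0 < q * p := mul_pos (by linarith) (by linarith)
  have hkd : 29457668 / 10000000 * (17691806 / 10000000 - 5232591 / 10000000) ≤ k * q - k * p := by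
    rw [← mul_sub]
    exact mul_le_mul hk.1.le (by linarith) (by norm_num) hk0.le
  have ht : 4063 / 10000 ≤ (k * q - k * p) / (1 + k ^ 2 * (q * p)) := by
    rw [hk2, le_div_iff₀ (by positivity)]
    linarith
  have hat : 4063 / 10000 - (4063 / 10000 : ℝ) ^ 3 / 3 + (4063 / 10000 : ℝ) ^ 5 / 5 -
      (4063 / 10000 : ℝ) ^ 7 / 7 ≤ Real.arctan ((k * q - k * p) / (1 + k ^ 2 * (q * p))) :=
    (J5_arctan_ge (by norm_num)).trans (Real.arctan_le_arctan_iff.2 ht)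
  have hk3 : 29457668 / 10000000 * (4063 / 10000 - (4063 / 10000 : ℝ) ^ 3 / 3 +
      (4063 / 10000 : ℝ) ^ 5 / 5 - (4063 / 10000 : ℝ) ^ 7 / 7) ≤
      k * Real.arctan ((k * q - k * p) / (1 + k ^ 2 * (q * p))) :=
    mul_le_mul hk.1.le hat (by norm_num) hk0.le
  norm_num at hk3
  linarith

theorem KE_ge : 1 / 2 ≤ KE := by
  obtain ⟨k, hk0, hk2, hKE⟩ := J5_KE
  have hk := J5_kbd hk0 hk2
  have h0 := J5_p0
  have h3 := J5_p3
  rw [hKE]
  obtain ⟨p, hp⟩ : ∃ p : ℝ, p = s0 ^ (1 / 2 : ℝ) := ⟨_, rfl⟩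
  obtain ⟨q, hq⟩ : ∃ q : ℝ, q = (313 / 100 : ℝ) ^ (1 / 2 : ℝ) := ⟨_, rfl⟩
  rw [← hp] at h0 ⊢
  rw [← hq] at h3 ⊢
  have hpq : 17691806 / 10000000 * (5232590 / 10000000) ≤ q * p :=
    mul_le_mul h3.1.le h0.1.le (by norm_num) (by linarith)
  have hpq0 : 0 < q * p := mul_pos (by linarith) (by linarith)
  have hkd : k * q - k * p ≤ 29457669 / 10000000 * (17691807 / 10000000 - 5232590 / 10000000) := by
    rw [← mul_sub]
    exact mul_le_mul hk.2.le (by linarith) (by linarith) (by norm_num)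
  have hkd0 : 0 ≤ k * q - k * p := by
    rw [← mul_sub]
    exact mul_nonneg hk0.le (by linarith)
  have ht : (k * q - k * p) / (1 + k ^ 2 * (q * p)) ≤ 4064 / 10000 := by
    rw [hk2, div_le_iff₀ (by positivity)]
    linarith
  have ht0 : 0 ≤ (k * q - k * p) / (1 + k ^ 2 * (q * p)) := by positivity
  have hat := (J5_arctan_le ht0).trans ht
  have hat0 : 0 ≤ Real.arctan ((k * q - k * p) / (1 + k ^ 2 * (q * p))) :=
    Real.arctan_nonneg.2 ht0
  have hk3 : k * Real.arctan ((k * q - k * p) / (1 + k ^ 2 * (q * p))) ≤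
      29457669 / 10000000 * (4064 / 10000) :=
    mul_le_mul hk.2.le hat hat0 (by norm_num)
  linarith

end H62.CJ
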