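import Pool.Agent.H62.CJ.J4

/-!
# CJ-J6: the main part, integrated

`A = α + i β`, `‖A - i‖ <= 2.001`, `δ = β - bbar`, `c0 = (1-β)/2 = cbar - δ/2`, `b = c0 + RR = se - δ/2`.
(`‖A - i‖^2 = α^2 + (β-1)^2 = α^2 + (δ - 0.575)^2 <= 4.004001`.)

COMMON.  `int_{s0}^{se} g1 = Phi0 + Phi1 δ - E2 δ^2 + (α^2 - δ^2)(E1 + E0 δ)`: expand
`g1 = (2/3)(Tb + δ)(B + Db (cbar - σ) δ + Db (α^2-δ^2)/4)`, `B = σ^(-3/2) - Xb^(-3/4)`:
`= (2/3) Tb B + (2/3) δ (B + Tb Db (cbar - σ)) + (2/3) δ^2 Db (cbar - σ) + (α^2-δ^2)(1/6)(Tb Db + δ Db)`, all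
continuous functions on `[s0, se]`.
`‖A - i bbar‖^2 = α^2 + δ^2`.

`main_pos` (`δ >= 0`, so `b <= se`; `δ <= 2.5765`; `b >= 1.127`):
`int_{s0}^{b} g1 = int_{s0}^{se} g1 - int_b^{se} g1` and for `b <= σ <= se`:
`- g1 = (2/3)(Tb+δ)(Xb^(-3/4) - σ^(-3/2) - Db (Xm - Xb))` with `Xm = Xb + (cbar-σ) δ + (α^2-δ^2)/4`.
The tangent inequality at `X = Xb σ`, `x = σ^2` (prove it here or import `tangent` from J3):
`σ^(-3/2) = (σ^2)^(-3/4) >= Xb^(-3/4) - Db (σ^2 - Xb)`.  So the bracket is at most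
`Db (σ^2 - Xb) - Db (Xm - Xb) = Db (σ^2 - Xm)`, and
`σ^2 - Xm = (σ - c0)^2 - RR^2 - α^2/4 <= (σ - c0)^2 - RR^2 = e (2 RR + e)`, `e = σ - c0 - RR = σ - b ∈ [0, δ/2]`.
`Db σ <= 0.0435` there since `Xb σ >= 5.09` (`σ >= 1.127`); `5.09^(-7/4) <= 0.058`.
`Tb σ <= Tb se = 6.32685 <= 6.327`.  So
`- int_b^{se} g1 <= (2/3)(6.327+δ)(0.0435) int_0^{δ/2} e (2 RR + e) de
   = 0.029 (6.327+δ)(0.532 δ^2 + δ^3/24)`.
So it remains: `α^2 (E1 + E0 δ - 0.065) + δ^2 [0.029 (6.327+δ)(0.532+δ/24) - E1 - E0 δ - E2 - 0.065] <= 0`.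
With `E1 <= 0.0535`, `E0 <= 0.0153` the coefficient of `α^2` is `<= 0.0153 δ - 0.0115`; with
`E1 >= 0.0515`, `E0 >= 0.0148`, `E2 >= 0.058` the bracket is `<= -0.0768 + 0.0084 δ + 0.0013 δ^2 <= -0.046`.
If `δ <= 0.75` both are `<= 0`.  If `δ >= 0.75`: `α^2 <= 4.005 - (δ-0.575)^2 <= 3.98` and
`3.98 (0.0153 δ - 0.0115) <= 0.061 δ - 0.0457 <= 0.046 δ^2` (discriminant negative).

`main_neg` (`δ = -d`, `0 < d <= 1.4265`): on `[se, b]`, `b = se + d/2`: `T = Tb σ - d <= 6.327 + 1.25 d - d <= 6.69`,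
`T >= 0`, `σ^(-7/2) <= se^(-7/2) <= 0.0457`, and with `e = b - σ ∈ [0, d/2]`:
`0 <= RR^2 - (σ-c0)^2 = e (2 RR - e) <= 2 RR e`.  So
`int_se^b g2 <= (1/2)(6.69)(0.0457) (RR d^2/4 + α^2 d/8) <= 0.1529 (0.532 d^2 + 0.125 α^2 d)
 <= 0.0814 d^2 + 0.0192 α^2 d`.
Remaining inequality:
`α^2 (E1 - E0 d + 0.0192 d - 0.065) + d^2 (0.0814 - E2 - E1 + E0 d - 0.065) <= 0`: first coefficient
`<= 0.0535 + 0.0044 * 1.4265 - 0.065 < 0`, second `<= 0.0814 - 0.058 - 0.0515 + 0.0219 - 0.065 < 0`.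
-/

set_option autoImplicit false

open Set Metric MeasureTheory

namespace H62.CJ

private theorem J6_tangent (x X : ℝ) (hx : 0 < x) (hX : 0 < X) :
    X ^ (-(3 / 4) : ℝ) - 3 / 4 * X ^ (-(7 / 4) : ℝ) * (x - X) ≤ x ^ (-(3 / 4) : ℝ) := by
  have hy : 0 < x / X := div_pos hx hX
  have h1 : (x / X) ^ (3 / 4 : ℝ) ≤ 1 + 3 / 4 * (x / X - 1) := by
    have := rpow_one_add_le_one_add_mul_self (s := x / X - 1) (by linarith)
      (p := (3 / 4 : ℝ)) (by norm_num) (by norm_num)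
    rwa [show (1 : ℝ) + (x / X - 1) = x / X by ring] at this
  have hp : 0 < (x / X) ^ (3 / 4 : ℝ) := Real.rpow_pos_of_pos hy _
  have h2 : 1 - 3 / 4 * (x / X - 1) ≤ (x / X) ^ (-(3 / 4) : ℝ) := by
    rw [Real.rpow_neg hy.le, ← one_div, le_div_iff₀ hp]
    rcases le_or_gt (1 - 3 / 4 * (x / X - 1)) 0 with h | h
    · have : (1 - 3 / 4 * (x / X - 1)) * (x / X) ^ (3 / 4 : ℝ) ≤ 0 :=
        mul_nonpos_of_nonpos_of_nonneg h hp.le
      linarith
    · calc (1 - 3 / 4 * (x / X - 1)) * (x / X) ^ (3 / 4 : ℝ)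
          ≤ (1 - 3 / 4 * (x / X - 1)) * (1 + 3 / 4 * (x / X - 1)) :=
            mul_le_mul_of_nonneg_left h1 h.le
        _ ≤ 1 := by nlinarith [sq_nonneg (x / X - 1)]
  have h3 : x ^ (-(3 / 4) : ℝ) = X ^ (-(3 / 4) : ℝ) * (x / X) ^ (-(3 / 4) : ℝ) := by
    rw [← Real.mul_rpow hX.le hy.le, mul_div_cancel₀ _ hX.ne']
  have h4 : X ^ (-(7 / 4) : ℝ) = X ^ (-(3 / 4) : ℝ) / X := by
    rw [show (-(7 / 4) : ℝ) = -(3 / 4) - 1 by norm_num, Real.rpow_sub hX, Real.rpow_one]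
  have hq : 0 < X ^ (-(3 / 4) : ℝ) := Real.rpow_pos_of_pos hX _
  rw [h3, h4]
  calc X ^ (-(3 / 4) : ℝ) - 3 / 4 * (X ^ (-(3 / 4) : ℝ) / X) * (x - X)
      = X ^ (-(3 / 4) : ℝ) * (1 - 3 / 4 * (x / X - 1)) := by field_simp
    _ ≤ _ := mul_le_mul_of_nonneg_left h2 hq.le

private theorem J6_cont_pow {S : Set ℝ} (hS : ∀ σ ∈ S, 0 < σ) (p : ℝ) :
    ContinuousOn (fun σ : ℝ => σ ^ p) S :=
  fun σ hσ => (Real.continuousAt_rpow_const σ p (Or.inl (hS σ hσ).ne')).continuousWithinAt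

private theorem J6_cont_X {S : Set ℝ} (hS : ∀ σ ∈ S, 0 < σ) (p : ℝ) :
    ContinuousOn (fun σ : ℝ => Xb σ ^ p) S :=
  fun σ hσ => ((J4_der σ).continuousAt.rpow_const
    (Or.inl (J4_pos (hS σ hσ).le).ne')).continuousWithinAt

private theorem J6_cont_D {S : Set ℝ} (hS : ∀ σ ∈ S, 0 < σ) : ContinuousOn Db S := by
  unfold Db
  exact continuousOn_const.mul (J6_cont_X hS _)

private theorem J6_cont_T {S : Set ℝ} : ContinuousOn Tb S := by
  have : Tb = fun σ => 2881 / 10000 + 5 / 2 * σ := funext J4_Tb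
  rw [this]
  fun_prop

private theorem J6_cont_B {S : Set ℝ} (hS : ∀ σ ∈ S, 0 < σ) :
    ContinuousOn (fun σ => σ ^ (-(3 / 2) : ℝ) - Xb σ ^ (-(3 / 4) : ℝ)) S :=
  (J6_cont_pow hS _).sub (J6_cont_X hS _)

private theorem J6_cont_g1 (A : ℂ) {S : Set ℝ} (hS : ∀ σ ∈ S, 0 < σ) :
    ContinuousOn (g1 A) S := by
  unfold g1
  refine (continuousOn_const.mul (J6_cont_T.add continuousOn_const)).mul ?_
  refine (J6_cont_B hS).add ((J6_cont_D hS).mul ?_)
  fun_prop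

private theorem J6_pos {σ : ℝ} (h : σ ∈ uIcc s0 se) : 0 < σ := by
  rw [uIcc_of_le J4_le] at h
  have h1 := h.1
  unfold s0 at h1
  linarith

theorem g1_integral (A : ℂ) :
    ∫ σ in s0..se, g1 A σ = Phi0 + Phi1 * (A.im - bbar) - E2 * (A.im - bbar) ^ 2 +
      (A.re ^ 2 - (A.im - bbar) ^ 2) * (E1 + E0 * (A.im - bbar)) := by
  have hS : ∀ σ ∈ uIcc s0 se, 0 < σ := fun σ h => J6_pos h
  have i1 : IntervalIntegrable (fun σ => Tb σ * (σ ^ (-(3 / 2) : ℝ) - Xb σ ^ (-(3 / 4) : ℝ)))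
      volume s0 se := (J6_cont_T.mul (J6_cont_B hS)).intervalIntegrable
  have i2 : IntervalIntegrable (fun σ => (σ ^ (-(3 / 2) : ℝ) - Xb σ ^ (-(3 / 4) : ℝ)) +
      Tb σ * Db σ * (cbar - σ)) volume s0 se :=
    ((J6_cont_B hS).add ((J6_cont_T.mul (J6_cont_D hS)).mul (by fun_prop))).intervalIntegrable
  have i3 : IntervalIntegrable (fun σ => Db σ * (σ - cbar)) volume s0 se :=
    ((J6_cont_D hS).mul (by fun_prop)).intervalIntegrable
  have i4 : IntervalIntegrable (fun σ => Tb σ * Db σ) volume s0 se :=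
    (J6_cont_T.mul (J6_cont_D hS)).intervalIntegrable
  have i5 : IntervalIntegrable Db volume s0 se := (J6_cont_D hS).intervalIntegrable
  set d := A.im - bbar with hd
  set q := A.re ^ 2 - d ^ 2 with hq
  have e : ∫ σ in s0..se, g1 A σ = ∫ σ in s0..se,
      ((((2 / 3 * (Tb σ * (σ ^ (-(3 / 2) : ℝ) - Xb σ ^ (-(3 / 4) : ℝ))) +
        2 / 3 * d * ((σ ^ (-(3 / 2) : ℝ) - Xb σ ^ (-(3 / 4) : ℝ)) +
          Tb σ * Db σ * (cbar - σ))) - 2 / 3 * d ^ 2 * (Db σ * (σ - cbar))) +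
        1 / 6 * q * (Tb σ * Db σ)) + 1 / 6 * q * d * Db σ) := by
    apply intervalIntegral.integral_congr
    intro σ _
    unfold g1
    rw [← hd, ← hq]
    ring
  rw [e, intervalIntegral.integral_add
      ((((i1.const_mul _).add (i2.const_mul _)).sub (i3.const_mul _)).add (i4.const_mul _))
      (i5.const_mul _),
    intervalIntegral.integral_add
      (((i1.const_mul _).add (i2.const_mul _)).sub (i3.const_mul _)) (i4.const_mul _),
    intervalIntegral.integral_sub ((i1.const_mul _).add (i2.const_mul _)) (i3.const_mul _),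
    intervalIntegral.integral_add (i1.const_mul _) (i2.const_mul _)]
  simp only [intervalIntegral.integral_const_mul]
  unfold Phi0 Phi1 E0 E1 E2
  ring

private theorem J6_norm (A : ℂ) (hA : ‖A - Complex.I‖ ≤ 2 + 1 / 1000) :
    A.re ^ 2 + (A.im - bbar - 23 / 40) ^ 2 ≤ 4004001 / 1000000 := by
  have h1 : ‖A - Complex.I‖ ^ 2 = A.re ^ 2 + (A.im - 1) ^ 2 := by
    rw [← Complex.normSq_eq_norm_sq, Complex.normSq_apply]
    simp only [Complex.sub_re, Complex.sub_im, Complex.I_re, Complex.I_im]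
    ring
  have h2 : ‖A - Complex.I‖ ^ 2 ≤ (2 + 1 / 1000) ^ 2 :=
    pow_le_pow_left₀ (norm_nonneg _) hA 2
  rw [h1] at h2
  unfold bbar
  nlinarith [h2]

private theorem J6_Db {σ : ℝ} (h : 1127 / 1000 ≤ σ) : Db σ ≤ 435 / 10000 := by
  have h1 : (509 / 100 : ℝ) ≤ Xb σ := by rw [J4_Xb]; linarith
  have h2 : Xb σ ^ (-(7 / 4) : ℝ) ≤ (509 / 100 : ℝ) ^ (-(7 / 4) : ℝ) :=
    Real.rpow_le_rpow_of_nonpos (by norm_num) h1 (by norm_num)
  have h3 : (509 / 100 : ℝ) ^ (-(7 / 4) : ℝ) ≤ 58 / 1000 := by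
    apply le_of_pow_le_pow_left₀ (n := 4) (by norm_num) (by norm_num)
    rw [← Real.rpow_natCast, ← Real.rpow_mul (by norm_num)]
    rw [show (-(7 / 4) * ((4 : ℕ) : ℝ) : ℝ) = -((7 : ℕ) : ℝ) by norm_num, Real.rpow_neg (by norm_num),
      Real.rpow_natCast]
    norm_num
  unfold Db
  linarith

private theorem J6_pow {σ : ℝ} (h : se ≤ σ) : σ ^ (-(7 / 2) : ℝ) ≤ 457 / 10000 := by
  have h0 : (4831 / 2000 : ℝ) ≤ σ := h
  have h2 : σ ^ (-(7 / 2) : ℝ) ≤ (4831 / 2000 : ℝ) ^ (-(7 / 2) : ℝ) :=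
    Real.rpow_le_rpow_of_nonpos (by norm_num) h0 (by norm_num)
  have h3 : (4831 / 2000 : ℝ) ^ (-(7 / 2) : ℝ) ≤ 457 / 10000 := by
    apply le_of_pow_le_pow_left₀ (n := 2) (by norm_num) (by norm_num)
    rw [← Real.rpow_natCast, ← Real.rpow_mul (by norm_num)]
    rw [show (-(7 / 2) * ((2 : ℕ) : ℝ) : ℝ) = -((7 : ℕ) : ℝ) by norm_num, Real.rpow_neg (by norm_num),
      Real.rpow_natCast]
    norm_num
  exact h2.trans h3

private theorem J6_Tm {σ : ℝ} : Tb σ = 2881 / 10000 + 5 / 2 * σ := J4_Tb σ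

private theorem J6_ptpos (A : ℂ) (σ : ℝ) (hd0 : 0 ≤ A.im - bbar)
    (hd1 : A.im - bbar ≤ 2576 / 1000) (h1 : se - (A.im - bbar) / 2 ≤ σ) (h2 : σ ≤ se) :
    -g1 A σ ≤ 29 / 1000 * (6327 / 1000 + (A.im - bbar)) *
      ((σ - (se - (A.im - bbar) / 2)) *
        (2 * RR + (σ - (se - (A.im - bbar) / 2)))) := by
  set d := A.im - bbar with hd
  have hse : se = 4831 / 2000 := rfl
  have hσ : 1127 / 1000 ≤ σ := by rw [hse] at h1; linarith
  have hσ0 : 0 < σ := by linarith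
  have hX : 0 < Xb σ := J4_pos hσ0.le
  have hD0 : 0 ≤ Db σ := by unfold Db; positivity
  have hD1 := J6_Db hσ
  have ht := J6_tangent (σ ^ 2) (Xb σ) (by positivity) hX
  have hp : (σ ^ 2) ^ (-(3 / 4) : ℝ) = σ ^ (-(3 / 2) : ℝ) := by
    rw [← Real.rpow_natCast, ← Real.rpow_mul hσ0.le]
    norm_num
  rw [hp] at ht
  have hT0 : 0 ≤ Tb σ + d := by rw [J4_Tb]; linarith
  have hT1 : Tb σ + d ≤ 6327 / 1000 + d := by
    rw [J4_Tb]; rw [hse] at h2; linarith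
  have he0 : 0 ≤ σ - (se - d / 2) := by linarith
  have hR : RR = 266 / 125 := rfl
  have hRe : 0 ≤ (σ - (se - d / 2)) * (2 * RR + (σ - (se - d / 2))) := by
    apply mul_nonneg he0; rw [hR]; linarith
  have key : σ ^ 2 - (Xb σ + (cbar - σ) * d + (A.re ^ 2 - d ^ 2) / 4) ≤
      (σ - (se - d / 2)) * (2 * RR + (σ - (se - d / 2))) := by
    rw [J4_Xb, hse, hR]
    unfold cbar
    nlinarith [sq_nonneg A.re]
  have hg : -g1 A σ ≤ 2 / 3 * (Tb σ + d) *
      (Db σ * (σ ^ 2 - (Xb σ + (cbar - σ) * d + (A.re ^ 2 - d ^ 2) / 4))) := by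
    unfold g1
    rw [← hd]
    have hc : 0 ≤ 2 / 3 * (Tb σ + d) := by positivity
    have : -(σ ^ (-(3 / 2) : ℝ) - Xb σ ^ (-(3 / 4) : ℝ) +
        Db σ * ((cbar - σ) * d + (A.re ^ 2 - d ^ 2) / 4)) ≤
        Db σ * (σ ^ 2 - (Xb σ + (cbar - σ) * d + (A.re ^ 2 - d ^ 2) / 4)) := by
      have : Db σ = 3 / 4 * Xb σ ^ (-(7 / 4) : ℝ) := rfl
      rw [← this] at ht
      linarith
    calc _ = 2 / 3 * (Tb σ + d) * -(σ ^ (-(3 / 2) : ℝ) - Xb σ ^ (-(3 / 4) : ℝ) +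
        Db σ * ((cbar - σ) * d + (A.re ^ 2 - d ^ 2) / 4)) := by ring
      _ ≤ _ := mul_le_mul_of_nonneg_left this hc
  refine hg.trans ?_
  calc 2 / 3 * (Tb σ + d) *
      (Db σ * (σ ^ 2 - (Xb σ + (cbar - σ) * d + (A.re ^ 2 - d ^ 2) / 4)))
      ≤ 2 / 3 * (Tb σ + d) * (Db σ * ((σ - (se - d / 2)) * (2 * RR + (σ - (se - d / 2))))) := by
        apply mul_le_mul_of_nonneg_left _ (by positivity)
        exact mul_le_mul_of_nonneg_left key hD0
    _ ≤ 2 / 3 * (6327 / 1000 + d) *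
        (435 / 10000 * ((σ - (se - d / 2)) * (2 * RR + (σ - (se - d / 2))))) := by
        apply mul_le_mul
        · linarith
        · exact mul_le_mul_of_nonneg_right hD1 hRe
        · exact mul_nonneg hD0 hRe
        · linarith
    _ = _ := by ring

private theorem J6_int_pos (a d : ℝ) (C : ℝ) :
    ∫ σ in (a - d / 2)..a, C * ((σ - (a - d / 2)) * (2 * RR + (σ - (a - d / 2)))) =
      C * (RR * d ^ 2 / 4 + d ^ 3 / 24) := by
  have h1 : ∀ σ ∈ uIcc (a - d / 2) a,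
      HasDerivAt (fun σ => C * (RR * (σ - (a - d / 2)) ^ 2 + (σ - (a - d / 2)) ^ 3 / 3))
        (C * ((σ - (a - d / 2)) * (2 * RR + (σ - (a - d / 2))))) σ := by
    intro σ _
    have h0 : HasDerivAt (fun σ => σ - (a - d / 2)) 1 σ := (hasDerivAt_id σ).sub_const _
    have h2 := ((((h0.pow 2).const_mul RR).add ((h0.pow 3).div_const 3)).const_mul C)
    refine h2.congr_deriv ?_
    simp only [Nat.cast_ofNat, Nat.reduceSub, pow_one]
    ring
  rw [intervalIntegral.integral_eq_sub_of_hasDerivAt h1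
    (Continuous.intervalIntegrable (by fun_prop) _ _)]
  ring

theorem main_pos (A : ℂ) (hA : ‖A - Complex.I‖ ≤ 2 + 1 / 1000) (hδ : bbar ≤ A.im) :
    ∫ σ in s0..((1 - A.im) / 2 + RR), g1 A σ ≤
      Phi0 + Phi1 * (A.im - bbar) + 13 / 200 * (A.re ^ 2 + (A.im - bbar) ^ 2) := by
  have hn := J6_norm A hA
  have hG := g1_integral A
  have hd0 : 0 ≤ A.im - bbar := by linarith
  have hb : (1 - A.im) / 2 + RR = se - (A.im - bbar) / 2 := by
    unfold se RR bbar; ring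
  have hpt := J6_ptpos A
  rw [hb]
  set d := A.im - bbar with hd
  have hd1 : d ≤ 2576 / 1000 := by nlinarith [sq_nonneg A.re]
  have hse : se = 4831 / 2000 := rfl
  have hbs : se - d / 2 ≤ se := by linarith
  have hS1 : ∀ σ ∈ uIcc (se - d / 2) se, 0 < σ := by
    intro σ hσ
    rw [uIcc_of_le hbs] at hσ
    have := hσ.1
    rw [hse] at this
    linarith
  have i1 : IntervalIntegrable (g1 A) volume s0 se :=
    (J6_cont_g1 A fun σ h => J6_pos h).intervalIntegrable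
  have i2 : IntervalIntegrable (g1 A) volume (se - d / 2) se :=
    (J6_cont_g1 A hS1).intervalIntegrable
  have i3 : IntervalIntegrable (g1 A) volume s0 (se - d / 2) := i1.trans i2.symm
  have hsplit : (∫ σ in s0..(se - d / 2), g1 A σ) + ∫ σ in (se - d / 2)..se, g1 A σ =
      ∫ σ in s0..se, g1 A σ := intervalIntegral.integral_add_adjacent_intervals i3 i2
  have htail : -(∫ σ in (se - d / 2)..se, g1 A σ) ≤
      29 / 1000 * (6327 / 1000 + d) * (RR * d ^ 2 / 4 + d ^ 3 / 24) := by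
    rw [← intervalIntegral.integral_neg, ← J6_int_pos se d]
    apply intervalIntegral.integral_mono_on hbs i2.neg
    · exact Continuous.intervalIntegrable (by fun_prop) _ _
    · intro σ hσ
      exact hpt σ hd0 hd1 hσ.1 hσ.2
  have hE0 := E0_ub
  have hE0' := E0_lb
  have hE1 := E1_ub
  have hE1' := E1_lb
  have hE2 := E2_lb
  have hR : RR = 266 / 125 := rfl
  rw [hR] at htail
  have ha : 0 ≤ A.re ^ 2 := sq_nonneg _
  set a2 := A.re ^ 2 with ha2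
  have hd2 : 0 ≤ d ^ 2 := sq_nonneg _
  -- the two coefficients
  have c1 : a2 * (E1 + E0 * d - 65 / 1000) ≤ a2 * (153 / 10000 * d - 115 / 10000) := by
    apply mul_le_mul_of_nonneg_left _ ha
    have : E0 * d ≤ 153 / 10000 * d := mul_le_mul_of_nonneg_right hE0 hd0
    linarith
  have c2 : d ^ 2 * (29 / 1000 * (6327 / 1000 + d) * (532 / 1000 + d / 24) - E1 - E0 * d - E2 -
      65 / 1000) ≤ d ^ 2 * (-(46 / 1000)) := by
    apply mul_le_mul_of_nonneg_left _ hd2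
    have : 148 / 10000 * d ≤ E0 * d := mul_le_mul_of_nonneg_right hE0' hd0
    nlinarith
  have c3 : a2 * (153 / 10000 * d - 115 / 10000) ≤ d ^ 2 * (46 / 1000) := by
    rcases le_or_gt (153 / 10000 * d - 115 / 10000) 0 with h | h
    · have := mul_nonpos_of_nonneg_of_nonpos ha h
      linarith
    · have hd3 : 751 / 1000 ≤ d := by linarith
      have h4 : a2 ≤ 398 / 100 := by nlinarith
      calc a2 * (153 / 10000 * d - 115 / 10000)
          ≤ 398 / 100 * (153 / 10000 * d - 115 / 10000) :=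
            mul_le_mul_of_nonneg_right h4 h.le
        _ ≤ d ^ 2 * (46 / 1000) := by nlinarith [sq_nonneg (d - 66 / 100)]
  have hfin : (∫ σ in s0..(se - d / 2), g1 A σ) ≤ Phi0 + Phi1 * d - E2 * d ^ 2 +
      (a2 - d ^ 2) * (E1 + E0 * d) +
      29 / 1000 * (6327 / 1000 + d) * (266 / 125 * d ^ 2 / 4 + d ^ 3 / 24) := by linarith
  refine hfin.trans ?_
  nlinarith [c1, c2, c3]

private theorem J6_ptneg (A : ℂ) (σ d : ℝ) (hd : A.im - bbar = -d) (hd0 : 0 ≤ d)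
    (hd1 : d ≤ 1426 / 1000) (h1 : se ≤ σ) (h2 : σ ≤ se + d / 2) :
    g2 A σ ≤ 1529 / 10000 * (2 * RR * ((se + d / 2) - σ) + A.re ^ 2 / 4) := by
  have hse : se = 4831 / 2000 := rfl
  have hR : RR = 266 / 125 := rfl
  have hp := J6_pow h1
  have hσ0 : 0 < σ := by rw [hse] at h1; linarith
  have hp0 : 0 ≤ σ ^ (-(7 / 2) : ℝ) := Real.rpow_nonneg hσ0.le _
  have hT : A.im - kap + 5 / 2 * σ = Tb σ - d := by unfold Tb; linarith
  have hT0 : 0 ≤ Tb σ - d := by rw [J4_Tb]; rw [hse] at h1; linarith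
  have hT1 : Tb σ - d ≤ 669 / 100 := by rw [J4_Tb]; rw [hse] at h2; linarith
  have hc : σ - (1 - A.im) / 2 = RR - ((se + d / 2) - σ) := by
    have : A.im = bbar - d := by linarith
    rw [this]
    unfold bbar se RR
    ring
  have he0 : 0 ≤ (se + d / 2) - σ := by linarith
  have he1 : (se + d / 2) - σ ≤ d / 2 := by linarith
  unfold g2
  rw [hT, hc]
  set e := (se + d / 2) - σ with he
  have hq0 : 0 ≤ RR ^ 2 - (RR - e) ^ 2 + A.re ^ 2 / 4 := by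
    have : 0 ≤ e * (2 * RR - e) := by
      apply mul_nonneg he0; rw [hR]; linarith
    nlinarith [sq_nonneg A.re]
  have hq1 : RR ^ 2 - (RR - e) ^ 2 + A.re ^ 2 / 4 ≤ 2 * RR * e + A.re ^ 2 / 4 := by
    nlinarith [sq_nonneg e]
  have h3 : 1 / 2 * (Tb σ - d) * σ ^ (-(7 / 2) : ℝ) ≤ 1 / 2 * (669 / 100) * (457 / 10000) := by
    apply mul_le_mul _ hp hp0 (by norm_num)
    linarith
  calc 1 / 2 * (Tb σ - d) * σ ^ (-(7 / 2) : ℝ) * (RR ^ 2 - (RR - e) ^ 2 + A.re ^ 2 / 4)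
      ≤ 1 / 2 * (669 / 100) * (457 / 10000) * (2 * RR * e + A.re ^ 2 / 4) := by
        apply mul_le_mul h3 hq1 hq0 (by norm_num)
    _ ≤ _ := by
        apply mul_le_mul_of_nonneg_right (by norm_num)
        exact hq0.trans hq1

private theorem J6_int_neg (a d C q : ℝ) :
    ∫ σ in a..(a + d / 2), C * (2 * RR * ((a + d / 2) - σ) + q / 4) =
      C * (RR * d ^ 2 / 4 + q * d / 8) := by
  have h1 : ∀ σ ∈ uIcc a (a + d / 2),
      HasDerivAt (fun σ => C * (-(RR * ((a + d / 2) - σ) ^ 2) + q / 4 * σ))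
        (C * (2 * RR * ((a + d / 2) - σ) + q / 4)) σ := by
    intro σ _
    have h0 : HasDerivAt (fun σ => (a + d / 2) - σ) (-1) σ := by
      simpa using (hasDerivAt_id σ).const_sub (a + d / 2)
    have h3 : HasDerivAt (fun σ : ℝ => q / 4 * σ) (q / 4 * 1) σ :=
      (hasDerivAt_id σ).const_mul _
    have h2 := ((((h0.pow 2).const_mul RR).neg).add h3).const_mul C
    refine h2.congr_deriv ?_
    simp only [Nat.cast_ofNat, Nat.reduceSub, pow_one]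
    ring
  rw [intervalIntegral.integral_eq_sub_of_hasDerivAt h1
    (Continuous.intervalIntegrable (by fun_prop) _ _)]
  ring

theorem main_neg (A : ℂ) (hA : ‖A - Complex.I‖ ≤ 2 + 1 / 1000) (hδ : A.im < bbar) :
    (∫ σ in s0..se, g1 A σ) + ∫ σ in se..((1 - A.im) / 2 + RR), g2 A σ ≤
      Phi0 + Phi1 * (A.im - bbar) + 13 / 200 * (A.re ^ 2 + (A.im - bbar) ^ 2) := by
  have hn := J6_norm A hA
  have hG := g1_integral A
  obtain ⟨d, hd⟩ : ∃ d, A.im - bbar = -d := ⟨-(A.im - bbar), by ring⟩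
  have hd0 : 0 ≤ d := by linarith
  have hb : (1 - A.im) / 2 + RR = se + d / 2 := by
    have : A.im = bbar - d := by linarith
    rw [this]
    unfold se RR bbar
    ring
  have hpt := J6_ptneg A
  rw [hb]
  rw [hd] at hn hG ⊢
  have hd1 : d ≤ 1426 / 1000 := by nlinarith [sq_nonneg A.re]
  have hse : se = 4831 / 2000 := rfl
  have hbs : se ≤ se + d / 2 := by linarith
  have hS1 : ∀ σ ∈ uIcc se (se + d / 2), 0 < σ := by
    intro σ hσ
    rw [uIcc_of_le hbs] at hσ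
    have := hσ.1
    rw [hse] at this
    linarith
  have i2 : IntervalIntegrable (g2 A) volume se (se + d / 2) := by
    apply ContinuousOn.intervalIntegrable
    unfold g2
    refine ContinuousOn.mul (ContinuousOn.mul (by fun_prop) (J6_cont_pow hS1 _)) (by fun_prop)
  have htail : (∫ σ in se..(se + d / 2), g2 A σ) ≤
      1529 / 10000 * (RR * d ^ 2 / 4 + A.re ^ 2 * d / 8) := by
    rw [← J6_int_neg se d]
    apply intervalIntegral.integral_mono_on hbs i2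
    · exact Continuous.intervalIntegrable (by fun_prop) _ _
    · intro σ hσ
      exact hpt σ d hd hd0 hd1 hσ.1 hσ.2
  have hE0 := E0_ub
  have hE0' := E0_lb
  have hE1 := E1_ub
  have hE1' := E1_lb
  have hE2 := E2_lb
  have hR : RR = 266 / 125 := rfl
  rw [hR] at htail
  have ha : 0 ≤ A.re ^ 2 := sq_nonneg _
  set a2 := A.re ^ 2 with ha2
  have hd2 : 0 ≤ d ^ 2 := sq_nonneg _
  have c1 : a2 * (E1 - E0 * d + 192 / 10000 * d - 65 / 1000) ≤ 0 := by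
    apply mul_nonpos_of_nonneg_of_nonpos ha
    have : 148 / 10000 * d ≤ E0 * d := mul_le_mul_of_nonneg_right hE0' hd0
    linarith
  have c2 : d ^ 2 * (814 / 10000 - E2 - E1 + E0 * d - 65 / 1000) ≤ 0 := by
    apply mul_nonpos_of_nonneg_of_nonpos hd2
    have : E0 * d ≤ 153 / 10000 * d := mul_le_mul_of_nonneg_right hE0 hd0
    linarith
  have c3 : 0 ≤ a2 * d := mul_nonneg ha hd0
  rw [hG]
  have e1 : (-d) ^ 2 = d ^ 2 := by ring
  rw [e1]
  nlinarith [c1, c2, c3, htail]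

end H62.CJ
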