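import Pool.Agent.H62.CJ.J2
import Pool.Agent.H62.CJ.J3
import Pool.Agent.H62.CJ.J5
import Pool.Agent.H62.CJ.J6

/-!
# CJ-J7: the majorant

`‖A - i‖ <= 2.001` implies `int_{closedBall ((1+iA)/2) RR} KA A <= cQ0 + cQ1 Im A + cQ2 |A|^2`.

PROOF.  `slice` and `Yf_ok` give the bound `int⁻_{Ioc s0 b} ofReal (chb A σ)`, `b = (1 - Im A)/2 + RR`; here
`b <= 3.13` (`Im A >= -1.0015`) and `b >= 1.12 > s0`.  `chb >= 0` on the range (`chb_nonneg`).
Case `bbar <= Im A`: then `b <= se` (`se = cbar + RR`, `(1 - Im A)/2 <= cbar`), `chb_le1` on the whole range, so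
the lintegral is at most `int⁻ ofReal (g1 + gx) = ofReal (int_{s0}^b (g1 + gx))` (the function `g1 + gx` is
`>= chb >= 0`, continuous on `[s0, b]`; `ofReal_integral_eq_lintegral_ofReal`).
Case `Im A < bbar`: `se < b`; split `Ioc s0 b = Ioc s0 se ∪ Ioc se b` (`lintegral_union`), use `chb_le1`, `chb_le2`.
Excess: `int_{s0}^b gx = (α^2+δ^2) int_{s0}^b σ^(-3/2)/(2 Tb) <= (α^2+δ^2) KE` since the integrand is
nonnegative and `b <= 3.13`.
With `main_pos`, `main_neg` the total is at most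
`Phi0 + Phi1 (Im A - bbar) + (KE + 13/200)(α^2 + (Im A - bbar)^2)`, which equals
`cQ0 + cQ1 Im A + cQ2 |A|^2` (`|A|^2 = α^2 + β^2`, `ring`).

`Q_nonneg`: `Phi0 + Phi1 δ + cQ2 (α^2 + δ^2) >= Phi0 - Phi1^2/(4 cQ2) >= 2 - 1.44/(4 * 0.5) > 0`
(`Phi0_ge`, `Phi1_nonneg`, `Phi1_le`, `KE_ge`).
-/

set_option autoImplicit false

open Set Metric MeasureTheory

namespace H62.CJ

theorem J7_Tb_pos (σ : ℝ) (hσ : 0 ≤ σ) : 0 < Tb σ := by
  unfold Tb bbar kap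
  linarith

theorem J7_Xb_pos (σ : ℝ) (hσ : 0 ≤ σ) : 0 < Xb σ := by
  unfold Xb RR cbar
  nlinarith

theorem J7_cont_Tb (s : Set ℝ) : ContinuousOn Tb s := by
  unfold Tb
  fun_prop

theorem J7_cont_Xb (s : Set ℝ) : ContinuousOn Xb s := by
  unfold Xb
  fun_prop

theorem J7_cont_pow (p : ℝ) (a b : ℝ) (ha : 0 < a) : ContinuousOn (fun σ : ℝ => σ ^ p) (Icc a b) :=
  continuousOn_id.rpow_const fun σ hσ => Or.inl (ha.trans_le hσ.1).ne'

theorem J7_cont_Xpow (p : ℝ) (a b : ℝ) (ha : 0 < a) :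
    ContinuousOn (fun σ : ℝ => Xb σ ^ p) (Icc a b) :=
  (J7_cont_Xb _).rpow_const fun σ hσ => Or.inl (J7_Xb_pos σ (ha.le.trans hσ.1)).ne'

theorem J7_cont_g1 (A : ℂ) (a b : ℝ) (ha : 0 < a) : ContinuousOn (g1 A) (Icc a b) := by
  have h1 := J7_cont_Tb (Icc a b)
  have h2 := J7_cont_pow (-(3 / 2)) a b ha
  have h3 := J7_cont_Xpow (-(3 / 4)) a b ha
  have h4 := J7_cont_Xpow (-(7 / 4)) a b ha
  have h5 : ContinuousOn (fun σ : ℝ => (cbar - σ) * (A.im - bbar) + (A.re ^ 2 - (A.im - bbar) ^ 2) / 4)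
      (Icc a b) := by fun_prop
  have h6 : ContinuousOn Db (Icc a b) := by
    unfold Db
    exact continuousOn_const.mul h4
  unfold g1
  exact (continuousOn_const.mul (h1.add continuousOn_const)).mul ((h2.sub h3).add (h6.mul h5))

theorem J7_cont_g2 (A : ℂ) (a b : ℝ) (ha : 0 < a) : ContinuousOn (g2 A) (Icc a b) := by
  have h2 := J7_cont_pow (-(7 / 2)) a b ha
  have h3 : ContinuousOn (fun σ : ℝ => 1 / 2 * (A.im - kap + 5 / 2 * σ)) (Icc a b) := by fun_prop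
  have h4 : ContinuousOn (fun σ : ℝ => (RR ^ 2 - (σ - (1 - A.im) / 2) ^ 2 + A.re ^ 2 / 4)) (Icc a b) := by
    fun_prop
  unfold g2
  exact (h3.mul h2).mul h4

theorem J7_cont_q (a b : ℝ) (ha : 0 < a) :
    ContinuousOn (fun σ : ℝ => σ ^ (-(3 / 2) : ℝ) / Tb σ) (Icc a b) :=
  (J7_cont_pow (-(3 / 2)) a b ha).div (J7_cont_Tb _) fun σ hσ => (J7_Tb_pos σ (ha.le.trans hσ.1)).ne'

theorem J7_gx (A : ℂ) (σ : ℝ) :
    gx A σ = 1 / 2 * (A.re ^ 2 + (A.im - bbar) ^ 2) * (σ ^ (-(3 / 2) : ℝ) / Tb σ) := by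
  unfold gx
  rw [div_eq_mul_inv, div_eq_mul_inv, mul_inv]
  ring

theorem J7_cont_gx (A : ℂ) (a b : ℝ) (ha : 0 < a) : ContinuousOn (gx A) (Icc a b) := by
  have : gx A = fun σ => 1 / 2 * (A.re ^ 2 + (A.im - bbar) ^ 2) * (σ ^ (-(3 / 2) : ℝ) / Tb σ) := by
    funext σ; exact J7_gx A σ
  rw [this]
  exact continuousOn_const.mul (J7_cont_q a b ha)

theorem J7_int (f : ℝ → ℝ) (a b : ℝ) (hab : a ≤ b) (hf : ContinuousOn f (Icc a b)) :
    IntervalIntegrable f volume a b := by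
  apply ContinuousOn.intervalIntegrable
  rwa [uIcc_of_le hab]

theorem J7_lint (c f : ℝ → ℝ) (a b : ℝ) (hab : a ≤ b) (hf : ContinuousOn f (Icc a b))
    (hc : ∀ σ, a < σ → σ ≤ b → 0 ≤ c σ) (hcf : ∀ σ, a < σ → σ ≤ b → c σ ≤ f σ) :
    ∫⁻ σ in Ioc a b, ENNReal.ofReal (c σ) ≤ ENNReal.ofReal (∫ σ in a..b, f σ) := by
  have h1 : ∫⁻ σ in Ioc a b, ENNReal.ofReal (c σ) ≤ ∫⁻ σ in Ioc a b, ENNReal.ofReal (f σ) := by
    apply setLIntegral_mono' measurableSet_Ioc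
    intro σ hσ
    exact ENNReal.ofReal_le_ofReal (hcf σ hσ.1 hσ.2)
  refine h1.trans (le_of_eq ?_)
  rw [intervalIntegral.integral_of_le hab, ofReal_integral_eq_lintegral_ofReal]
  · exact (hf.integrableOn_Icc).mono_set Ioc_subset_Icc_self
  · rw [Filter.EventuallyLE, ae_restrict_iff' measurableSet_Ioc]
    exact Filter.Eventually.of_forall fun σ hσ => (hc σ hσ.1 hσ.2).trans (hcf σ hσ.1 hσ.2)

theorem J7_gx_int (A : ℂ) (b : ℝ) (h1 : s0 ≤ b) (h2 : b ≤ 313 / 100) :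
    ∫ σ in s0..b, gx A σ ≤ (A.re ^ 2 + (A.im - bbar) ^ 2) * KE := by
  have hs0 : (0 : ℝ) < s0 := by unfold s0; norm_num
  have e1 : ∫ σ in s0..b, gx A σ =
      1 / 2 * (A.re ^ 2 + (A.im - bbar) ^ 2) * ∫ σ in s0..b, σ ^ (-(3 / 2) : ℝ) / Tb σ := by
    rw [← intervalIntegral.integral_const_mul]
    apply intervalIntegral.integral_congr
    intro σ _
    exact J7_gx A σ
  have e2 : ∫ σ in s0..b, σ ^ (-(3 / 2) : ℝ) / Tb σ ≤
      ∫ σ in s0..(313 / 100), σ ^ (-(3 / 2) : ℝ) / Tb σ := by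
    have i1 := J7_int _ s0 b h1 (J7_cont_q s0 b hs0)
    have i2 : IntervalIntegrable (fun σ : ℝ => σ ^ (-(3 / 2) : ℝ) / Tb σ) volume b (313 / 100) :=
      J7_int _ b _ h2 ((J7_cont_q s0 (313 / 100) hs0).mono (Icc_subset_Icc_left h1))
    rw [← intervalIntegral.integral_add_adjacent_intervals i1 i2]
    have : 0 ≤ ∫ σ in b..(313 / 100), σ ^ (-(3 / 2) : ℝ) / Tb σ := by
      apply intervalIntegral.integral_nonneg h2
      intro σ hσ
      have hp : 0 ≤ σ := hs0.le.trans (h1.trans hσ.1)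
      exact div_nonneg (Real.rpow_nonneg hp _) (J7_Tb_pos σ hp).le
    linarith
  rw [e1]
  unfold KE
  have : 0 ≤ A.re ^ 2 + (A.im - bbar) ^ 2 := by positivity
  nlinarith

theorem J7_Q (A : ℂ) : cQ0 + cQ1 * A.im + cQ2 * ‖A‖ ^ 2 =
    Phi0 + Phi1 * (A.im - bbar) + cQ2 * (A.re ^ 2 + (A.im - bbar) ^ 2) := by
  rw [← Complex.normSq_eq_norm_sq, Complex.normSq_apply]
  unfold cQ0 cQ1
  ring

theorem Q_nonneg (A : ℂ) : 0 ≤ cQ0 + cQ1 * A.im + cQ2 * ‖A‖ ^ 2 := by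
  rw [J7_Q]
  have h1 := Phi0_ge
  have h2 := Phi1_nonneg
  have h3 := Phi1_le
  have h4 := KE_ge
  have h5 : 1 / 2 ≤ cQ2 := by unfold cQ2; linarith
  have h6 : 0 ≤ A.re ^ 2 + (A.im - bbar) ^ 2 := by positivity
  have h7 : 1 / 2 * (A.im - bbar) ^ 2 ≤ cQ2 * (A.re ^ 2 + (A.im - bbar) ^ 2) := by
    have := sq_nonneg A.re
    nlinarith
  have h8 : -(12 / 10) * |A.im - bbar| ≤ Phi1 * (A.im - bbar) := by
    have a1 := neg_abs_le (A.im - bbar)
    have a2 := abs_nonneg (A.im - bbar)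
    nlinarith
  have h9 : (A.im - bbar) ^ 2 = |A.im - bbar| ^ 2 := (sq_abs _).symm
  rw [h9] at h7
  nlinarith [sq_nonneg (|A.im - bbar| - 12 / 10)]

theorem psi_le (A : ℂ) (hA : ‖A - Complex.I‖ ≤ 2 + 1 / 1000) :
    ∫⁻ s in closedBall ((1 + Complex.I * A) / 2) RR, ENNReal.ofReal (KA A s) ≤
      ENNReal.ofReal (cQ0 + cQ1 * A.im + cQ2 * ‖A‖ ^ 2) := by
  have hs0 : (0 : ℝ) < s0 := by unfold s0; norm_num
  have him : |A.im - 1| ≤ 2 + 1 / 1000 := by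
    have h1 : |(A - Complex.I).im| ≤ ‖A - Complex.I‖ := Complex.abs_im_le_norm _
    have h3 : (A - Complex.I).im = A.im - 1 := by simp
    rw [h3] at h1
    exact h1.trans hA
  rw [abs_le] at him
  obtain ⟨hb1, hb2⟩ := him
  have hR : RR = 266 / 125 := rfl
  have hs : s0 = 1369 / 5000 := rfl
  have hse : se = 4831 / 2000 := rfl
  have hbb : bbar = 17 / 40 := rfl
  set b : ℝ := (1 - A.im) / 2 + RR with hb
  have hb3 : b ≤ 313 / 100 := by rw [hb, hR]; linarith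
  have hb4 : s0 ≤ b := by rw [hb, hR, hs]; linarith
  have hY : ∀ σ : ℝ, s0 < σ → σ ≤ (1 - A.im) / 2 + RR →
      0 ≤ Yf A σ ∧ (0 ≤ A.im - kap + 5 / 2 * σ → Yf A σ ≤ Xm A σ ^ (-(3 / 4) : ℝ)) :=
    fun σ h1 h2 => Yf_ok A hA σ h1 h2
  refine (slice A hA hY).trans ?_
  rw [← hb, J7_Q]
  have hc : ∀ σ, s0 < σ → σ ≤ b → 0 ≤ chb A σ := fun σ h1 h2 => chb_nonneg A hA hY σ h1 h2
  have hgx := J7_gx_int A b hb4 hb3
  by_cases hβ : bbar ≤ A.im
  · have hbse : b ≤ se := by rw [hb, hR, hse]; rw [hbb] at hβ; linarith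
    refine (J7_lint (chb A) (fun σ => g1 A σ + gx A σ) s0 b hb4
      ((J7_cont_g1 A s0 b hs0).add (J7_cont_gx A s0 b hs0)) hc
      (fun σ h1 h2 => chb_le1 A hA σ h1 h2 (h2.trans hbse))).trans ?_
    apply ENNReal.ofReal_le_ofReal
    rw [intervalIntegral.integral_add (J7_int _ _ _ hb4 (J7_cont_g1 A s0 b hs0))
      (J7_int _ _ _ hb4 (J7_cont_gx A s0 b hs0))]
    have hm := main_pos A hA hβ
    rw [← hb] at hm
    unfold cQ2
    linarith
  · push Not at hβ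
    have hbse : se ≤ b := by rw [hb, hR, hse]; rw [hbb] at hβ; linarith
    have hs0se : s0 ≤ se := by rw [hs, hse]; norm_num
    have hse0 : 0 < se := by rw [hse]; norm_num
    have hun : Ioc s0 b = Ioc s0 se ∪ Ioc se b := (Ioc_union_Ioc_eq_Ioc hs0se hbse).symm
    rw [hun]
    refine (lintegral_union_le _ _ _).trans ?_
    have l1 := J7_lint (chb A) (fun σ => g1 A σ + gx A σ) s0 se hs0se
      ((J7_cont_g1 A s0 se hs0).add (J7_cont_gx A s0 se hs0)) (fun σ h1 h2 => hc σ h1 (h2.trans hbse))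
      (fun σ h1 h2 => chb_le1 A hA σ h1 (h2.trans hbse) h2)
    have l2 := J7_lint (chb A) (fun σ => g2 A σ + gx A σ) se b hbse
      ((J7_cont_g2 A se b hse0).add (J7_cont_gx A se b hse0)) (fun σ h1 h2 => hc σ (hs0se.trans_lt h1) h2)
      (fun σ h1 h2 => chb_le2 A hA σ h1 h2)
    refine (add_le_add l1 l2).trans ?_
    have n1 : 0 ≤ ∫ σ in s0..se, (g1 A σ + gx A σ) := by
      rw [intervalIntegral.integral_of_le hs0se]
      apply setIntegral_nonneg measurableSet_Ioc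
      intro σ hσ
      exact (hc σ hσ.1 (hσ.2.trans hbse)).trans (chb_le1 A hA σ hσ.1 (hσ.2.trans hbse) hσ.2)
    have n2 : 0 ≤ ∫ σ in se..b, (g2 A σ + gx A σ) := by
      rw [intervalIntegral.integral_of_le hbse]
      apply setIntegral_nonneg measurableSet_Ioc
      intro σ hσ
      exact (hc σ (hs0se.trans_lt hσ.1) hσ.2).trans (chb_le2 A hA σ hσ.1 hσ.2)
    rw [← ENNReal.ofReal_add n1 n2]
    apply ENNReal.ofReal_le_ofReal
    rw [intervalIntegral.integral_add (J7_int _ _ _ hs0se (J7_cont_g1 A s0 se hs0))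
      (J7_int _ _ _ hs0se (J7_cont_gx A s0 se hs0)),
      intervalIntegral.integral_add (J7_int _ _ _ hbse (J7_cont_g2 A se b hse0))
      (J7_int _ _ _ hbse (J7_cont_gx A se b hse0))]
    have hadj := intervalIntegral.integral_add_adjacent_intervals
      (J7_int _ _ _ hs0se (J7_cont_gx A s0 se hs0)) (J7_int _ _ _ hbse (J7_cont_gx A se b hse0))
    have hm := main_neg A hA hβ
    rw [← hb] at hm
    unfold cQ2
    linarith

end H62.CJ
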