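import Pool.Agent.H62.CJ.Def

/-!
# Constants of the majorant (project CJ)
-/

set_option autoImplicit false

open Set Metric MeasureTheory

namespace H62.CJ

/-- the radius `R = 2.128` -/
noncomputable def RR : ℝ := 266 / 125
/-- the reference value of `Im A` -/
noncomputable def bbar : ℝ := 17 / 40
/-- `(1 - bbar)/2` -/
noncomputable def cbar : ℝ := 23 / 80
/-- `2 kap` -/
noncomputable def s0 : ℝ := 1369 / 5000
/-- `cbar + RR` -/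
noncomputable def se : ℝ := 4831 / 2000
/-- `T` at the reference value -/
noncomputable def Tb (σ : ℝ) : ℝ := bbar - kap + 5 / 2 * σ
/-- `X` at the reference value -/
noncomputable def Xb (σ : ℝ) : ℝ := RR ^ 2 - cbar ^ 2 + 2 * cbar * σ
/-- minus the derivative of `X^(-3/4)` at `Xb` -/
noncomputable def Db (σ : ℝ) : ℝ := 3 / 4 * Xb σ ^ (-(7 / 4) : ℝ)

noncomputable def Phi0 : ℝ :=
  2 / 3 * ∫ σ in s0..se, Tb σ * (σ ^ (-(3 / 2) : ℝ) - Xb σ ^ (-(3 / 4) : ℝ))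
noncomputable def Phi1 : ℝ :=
  2 / 3 * ∫ σ in s0..se, ((σ ^ (-(3 / 2) : ℝ) - Xb σ ^ (-(3 / 4) : ℝ)) +
    Tb σ * Db σ * (cbar - σ))
noncomputable def KE : ℝ := 1 / 2 * ∫ σ in s0..(313 / 100), σ ^ (-(3 / 2) : ℝ) / Tb σ
noncomputable def E0 : ℝ := 1 / 6 * ∫ σ in s0..se, Db σ
noncomputable def E1 : ℝ := 1 / 6 * ∫ σ in s0..se, Tb σ * Db σ
noncomputable def E2 : ℝ := 2 / 3 * ∫ σ in s0..se, Db σ * (σ - cbar)

/-- `X` for general `A` -/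
noncomputable def Xm (A : ℂ) (σ : ℝ) : ℝ :=
  RR ^ 2 - ((1 - A.im) / 2) ^ 2 + (1 - A.im) * σ + A.re ^ 2 / 4
/-- the tangent value -/
noncomputable def Lf (A : ℂ) (σ : ℝ) : ℝ := Xb σ ^ (-(3 / 4) : ℝ) - Db σ * (Xm A σ - Xb σ)
/-- the function used in the chord lemma -/
noncomputable def Yf (A : ℂ) (σ : ℝ) : ℝ :=
  if σ ≤ se then max (Lf A σ) 0 else Xm A σ ^ (-(3 / 4) : ℝ)
/-- right side of the chord lemma -/
noncomputable def chb (A : ℂ) (σ : ℝ) : ℝ :=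
  2 / 3 * (A.im - kap + 5 / 2 * σ) * (σ ^ (-(3 / 2) : ℝ) - Yf A σ) +
    σ ^ (-(3 / 2) : ℝ) * (Real.sqrt (A.re ^ 2 + (A.im - kap + 5 / 2 * σ) ^ 2) -
      (A.im - kap + 5 / 2 * σ))
/-- main density for `σ <= se` -/
noncomputable def g1 (A : ℂ) (σ : ℝ) : ℝ :=
  2 / 3 * (Tb σ + (A.im - bbar)) * (σ ^ (-(3 / 2) : ℝ) - Xb σ ^ (-(3 / 4) : ℝ) +
    Db σ * ((cbar - σ) * (A.im - bbar) + (A.re ^ 2 - (A.im - bbar) ^ 2) / 4))
/-- main density for `σ > se` -/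
noncomputable def g2 (A : ℂ) (σ : ℝ) : ℝ :=
  1 / 2 * (A.im - kap + 5 / 2 * σ) * σ ^ (-(7 / 2) : ℝ) *
    (RR ^ 2 - (σ - (1 - A.im) / 2) ^ 2 + A.re ^ 2 / 4)
/-- excess density -/
noncomputable def gx (A : ℂ) (σ : ℝ) : ℝ :=
  σ ^ (-(3 / 2) : ℝ) / (2 * Tb σ) * (A.re ^ 2 + (A.im - bbar) ^ 2)

noncomputable def cQ2 : ℝ := KE + 13 / 200
noncomputable def cQ1 : ℝ := Phi1 - 2 * cQ2 * bbar
noncomputable def cQ0 : ℝ := Phi0 - Phi1 * bbar + cQ2 * bbar ^ 2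

/-- the exponent `nu = kap + 1/2` -/
noncomputable def nu : ℝ := 6369 / 10000
noncomputable def m0 : ℝ := Real.sqrt (317 / 100)
noncomputable def m1 : ℝ := 1 / (2 * Real.sqrt (317 / 100))
noncomputable def n2 : ℝ := -(3 / 100)
noncomputable def n1 : ℝ := m1 + 6 / 100 * bbar
noncomputable def n0 : ℝ := m0 - m1 * bbar - 3 / 100 * bbar ^ 2

end H62.CJ
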