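import Pool.Agent.H62.CJ.A9
import Pool.Agent.H62.CJ.L2

/-!
# CJ-L4: numerical bounds for eps0, exclusion and lower bound in the half plane

`eps0 = sqrt (- log (15/16))`.  `1/4 <= eps0 <= 0.25405`:
`- log (15/16) = log (16/15)`; `log (16/15) = 2 artanh (1/31) = 2 (t + t^3/3 + ...)`, `t = 1/31`, so it is
between `0.0645` and `0.0645414 = 0.25405^2` (`Real.log_le_sub_one_of_pos`, or bounds for
`exp 0.0645414` by its Taylor polynomial; `Real.exp_bound'`, or `Real.abs_log_sub_add_sum_range_le`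
applied with `x = 1/16`: `|sum_{i<n} x^{i+1}/(i+1) + log (1-x)| <= x^{n+1}/(1-x)`).  Also `0.25^2 = 0.0625`.

`excl`: `0 < y <= 1/2`, `0 < Im ζ < (3/5) y` imply `F ζ ≠ F (pt x y)` and
`|s - (1 + i A)/2| <= (4 + eps0)/2 + 4 y`, `s = ss F (F ζ) (pt x y)`.
PROOF.  Let `b = F (pt x y)`, `V = VV F (pt x y)`, `g` from `exists_g`.  If `F ζ = F z'` with `z'.im > 0` then
`ζ.im = z'.im` (class property `inj`: the difference is real).  Hence `F ζ ≠ b`.
Let `W = (F ζ - b)/((2 - y) V) ≠ 0`.  For `|σ| < 1/4`: `g σ ≠ W`, otherwise `F (mob σ) = F ζ`, but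
`Im (mob σ) >= (1 - 1/4)/(1 + 1/4) y = (3/5) y > Im ζ` (`mob_im_ge`).  `exclusion` with `ρ = 1/4`:
`|1/W + g''(0)/2| <= 4 + eps0` (`1 - (1/4)^2 = 15/16`).  Here `1/W = (2 - y) s`, so
`|(2 - y) s - (1 - y) - i (1 - y/2) A| <= 4 + eps0`.  Divide by `2 - y`:
`s - (1 + i A)/2 = [(2-y) s - (1-y) - i (1-y/2) A]/(2-y) - y/(2(2-y))`, so the norm is at most
`(4 + eps0)/(2-y) + y/(2(2-y)) <= (4+eps0)/2 (1+y) + y/2 <= (4+eps0)/2 + 4 y`
(`1/(2-y) <= (1+y)/2` on `[0,1]`, `eps0 <= 1`).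

`lower`: `0 < v <= 1/1000`, base `ζ1 = pt x v`, `β1 = Im AA F ζ1`, `y = (5/3) v`:
`|F (pt x y) - F ζ1| (3 - eps0 + β1 - 10 v) <= 2 |VV F ζ1|`.
PROOF.  `g` from `exists_g` at `(x, v)`, `σ = - ρ'`, `ρ' = (y - v)/(y + v - y v)` (`mob_pt`), so
`F (pt x y) - F ζ1 = (2 - v) V1 g σ`, and `1/ρ' = (y + v - y v)/(y - v) = 4 - (5/2) v` (with `y = 5v/3`:
`(8/3 v - 5/3 v^2)/(2/3 v)`).  `two_point`: `|1/g σ + 1/ρ' - (1 - v) - i (1 - v/2) A1| <= ε(ρ')`,
`ε(ρ') = sqrt (- log (1 - ρ'^2))`.  Hence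
`|1/g σ| >= Re (1/ρ' - (1 - v) - i (1 - v/2) A1) - ε(ρ') = 4 - (5/2) v - 1 + v + (1 - v/2) β1 - ε(ρ')`
(since `Re (- i A1) = β1`) `>= 3 + β1 - (3/2) v - (v/2) |β1| - ε(ρ')` and `|β1| <= 4` — to avoid
importing the bound for `A`, use `AA` bound from `L3` is NOT needed if one keeps
`|β1| <= 4` as hypothesis `hb`.
`ε(ρ')`: `ρ'^2 = 1/(4 - 5v/2)^2 <= (1/16)(1 + 2 v)` for `v <= 1/1000`, so
`- log (1 - ρ'^2) <= - log (15/16 - v/8) = - log (15/16) - log (1 - 2v/15) <= eps0^2 + v/7`, and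
`ε(ρ') <= sqrt (eps0^2 + v/7) <= eps0 + v/(14 eps0) <= eps0 + v`.
Total: `|1/g σ| >= 3 - eps0 + β1 - 10 v`.  Multiply with `|F (pt x y) - F ζ1| = (2 - v)|V1||g σ|`
(`g σ ≠ 0` by injectivity): `|F (pt x y) - F ζ1| |1/g σ| = (2 - v)|V1| <= 2 |V1|`.
-/

set_option autoImplicit false

open Set Metric MeasureTheory

namespace H62.CJ

theorem eps0_lb : 1 / 4 ≤ eps0 := by
  unfold eps0
  apply Real.le_sqrt_of_sq_le
  have h := Real.log_le_sub_one_of_pos (show (0 : ℝ) < 15 / 16 by norm_num)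
  norm_num at h ⊢
  linarith

theorem eps0_ub : eps0 ≤ 25405 / 100000 := by
  unfold eps0
  rw [Real.sqrt_le_left (by norm_num)]
  have h := Real.abs_log_sub_add_sum_range_le (x := 1 / 16) (by norm_num [abs_of_pos]) 4
  rw [abs_of_pos (show (0 : ℝ) < 1 / 16 by norm_num)] at h
  simp only [Finset.sum_range_succ, Finset.sum_range_zero] at h
  have h2 := (abs_le.1 h).1
  norm_num at h2 ⊢
  linarith

theorem l4_eps_sq : eps0 ^ 2 = -Real.log (15 / 16) := by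
  unfold eps0
  apply Real.sq_sqrt
  have h := Real.log_le_sub_one_of_pos (show (0 : ℝ) < 15 / 16 by norm_num)
  norm_num at h ⊢
  linarith

theorem excl (F : ℂ → ℂ) (M : ℝ) (hF : Cls F M) (x y : ℝ) (hy : 0 < y) (hy1 : y ≤ 1 / 2) (ζ : ℂ)
    (h0 : 0 < ζ.im) (h1 : ζ.im < 3 / 5 * y) :
    F ζ ≠ F (pt x y) ∧
      ‖ss F (F ζ) (pt x y) - (1 + Complex.I * AA F (pt x y)) / 2‖ ≤ (4 + eps0) / 2 + 4 * y := by
  have hy2 : y < 1 := by linarith
  have him : ∀ z' : ℂ, 0 < z'.im → F ζ = F z' → ζ.im = z'.im := by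
    intro z' hz' he
    obtain ⟨k, hk⟩ := hF.inj ζ z' h0 hz' he
    have h2 := congrArg Complex.im hk
    rw [Complex.sub_im, Complex.ofReal_im] at h2
    linarith
  have hne : F ζ ≠ F (pt x y) := by
    intro he
    have h2 := him (pt x y) (by simpa using hy) he
    rw [pt_im] at h2
    linarith
  refine ⟨hne, ?_⟩
  obtain ⟨g, hg, hgF, hg2⟩ := exists_g F M hF x y hy hy2
  have hV : VV F (pt x y) ≠ 0 := by
    unfold VV
    have h2 := deriv_ne F M hF (pt x y) (by simpa using hy)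
    have h3 : ((pt x y).im : ℂ) ≠ 0 := by
      rw [pt_im]
      exact_mod_cast hy.ne'
    exact mul_ne_zero (mul_ne_zero (neg_ne_zero.2 Complex.I_ne_zero) h3) h2
  have h2y : ((2 - y : ℝ) : ℂ) ≠ 0 := by
    have : (2 - y : ℝ) ≠ 0 := by linarith
    exact_mod_cast this
  have hd : F ζ - F (pt x y) ≠ 0 := sub_ne_zero.2 hne
  have hex := exclusion g hg (1 / 4) (by norm_num) (by norm_num)
    ((F ζ - F (pt x y)) / (((2 - y : ℝ) : ℂ) * VV F (pt x y)))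
    (div_ne_zero hd (mul_ne_zero h2y hV)) (by
      intro σ hσ he
      have hσ1 : ‖σ‖ < 1 / 4 := mem_ball_zero_iff.1 hσ
      have h3 := hgF σ (mem_ball_zero_iff.2 (by linarith))
      rw [he, mul_div_cancel₀ _ (mul_ne_zero h2y hV)] at h3
      have h4 : F ζ = F (mob x y σ) := by
        have := sub_left_inj.1 h3
        exact this.symm
      have h5 := mob_im_ge x y hy hy2 (1 / 4) (by norm_num) (by norm_num) σ hσ1
      have h6 := him _ (mob_im_pos x y hy hy2 σ (by linarith)) h4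
      norm_num at h5
      linarith)
  have he0 : Real.sqrt (-Real.log (1 - (1 / 4) ^ 2)) = eps0 := by
    unfold eps0
    norm_num
  rw [he0] at hex
  have h7 : ((F ζ - F (pt x y)) / (((2 - y : ℝ) : ℂ) * VV F (pt x y)))⁻¹ +
      deriv (deriv g) 0 / 2 =
      ((2 - y : ℝ) : ℂ) * (ss F (F ζ) (pt x y) - (1 + Complex.I * AA F (pt x y)) / 2) +
        ((y / 2 : ℝ) : ℂ) := by
    have h8 : deriv (deriv g) 0 / 2 = -(((1 - y : ℝ) : ℂ) +
        Complex.I * ((1 - y / 2 : ℝ) : ℂ) * AA F (pt x y)) := by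
      rw [← hg2, neg_neg]
    have h9 : ((F ζ - F (pt x y)) / (((2 - y : ℝ) : ℂ) * VV F (pt x y)))⁻¹ =
        ((2 - y : ℝ) : ℂ) * ss F (F ζ) (pt x y) := by
      rw [inv_div, ss, mul_div_assoc]
    rw [h8, h9]
    push_cast
    ring
  rw [h7] at hex
  have h10 : ‖((2 - y : ℝ) : ℂ) * (ss F (F ζ) (pt x y) -
      (1 + Complex.I * AA F (pt x y)) / 2)‖ ≤ 1 / (1 / 4) + eps0 + y / 2 := by
    have h11 := norm_sub_le (((2 - y : ℝ) : ℂ) * (ss F (F ζ) (pt x y) -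
      (1 + Complex.I * AA F (pt x y)) / 2) + ((y / 2 : ℝ) : ℂ)) ((y / 2 : ℝ) : ℂ)
    rw [add_sub_cancel_right, Complex.norm_real, Real.norm_of_nonneg (by linarith)] at h11
    linarith
  rw [norm_mul, Complex.norm_real, Real.norm_of_nonneg (by linarith)] at h10
  have h12 := eps0_ub
  have h13 : 0 ≤ ‖ss F (F ζ) (pt x y) - (1 + Complex.I * AA F (pt x y)) / 2‖ := norm_nonneg _
  by_contra hcon
  push Not at hcon
  nlinarith [mul_lt_mul_of_pos_left hcon (show (0 : ℝ) < 2 - y by linarith), mul_pos hy hy,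
    mul_nonneg hy.le (show (0 : ℝ) ≤ 1 / 2 - y by linarith)]

theorem l4_eps (v : ℝ) (hv : 0 < v) (hv1 : v ≤ 1 / 1000) :
    Real.sqrt (-Real.log (1 - (2 / (8 - 5 * v)) ^ 2)) ≤ eps0 + v := by
  have he := eps0_lb
  rw [Real.sqrt_le_left (by linarith)]
  have hD : (0 : ℝ) < 8 - 5 * v := by linarith
  have h1 : (15 / 16 : ℝ) ≤ (1 + v / 2) * (1 - (2 / (8 - 5 * v)) ^ 2) := by
    rw [div_pow, one_sub_div (by positivity), mul_div_assoc', le_div_iff₀ (by positivity)]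
    nlinarith [mul_pos hv hv, mul_pos (mul_pos hv hv) hv,
      mul_nonneg hv.le (show (0 : ℝ) ≤ 1 / 1000 - v by linarith)]
  have h2 : (0 : ℝ) < 1 - (2 / (8 - 5 * v)) ^ 2 := by
    by_contra h
    push Not at h
    nlinarith [mul_nonneg (show (0 : ℝ) ≤ 1 + v / 2 by linarith) (neg_nonneg.2 h)]
  have h3 : Real.log (15 / 16) ≤ v / 2 + Real.log (1 - (2 / (8 - 5 * v)) ^ 2) := by
    have h4 := Real.log_le_log (show (0 : ℝ) < 15 / 16 by norm_num) h1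
    rw [Real.log_mul (by positivity) h2.ne'] at h4
    have h5 := Real.log_le_sub_one_of_pos (show (0 : ℝ) < 1 + v / 2 by positivity)
    linarith
  have h6 := l4_eps_sq
  nlinarith [mul_le_mul_of_nonneg_right he hv.le, mul_pos hv hv]

theorem lower (F : ℂ → ℂ) (M : ℝ) (hF : Cls F M) (x v : ℝ) (hv : 0 < v) (hv1 : v ≤ 1 / 1000)
    (hb : |(AA F (pt x v)).im| ≤ 4) :
    F (pt x (5 / 3 * v)) ≠ F (pt x v) ∧
    ‖F (pt x (5 / 3 * v)) - F (pt x v)‖ * (3 - eps0 + (AA F (pt x v)).im - 10 * v) ≤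
      2 * ‖VV F (pt x v)‖ := by
  have hv2 : v < 1 := by linarith
  have hD : (0 : ℝ) < 8 - 5 * v := by linarith
  obtain ⟨g, hg, hgF, hg2⟩ := exists_g F M hF x v hv hv2
  have hV : VV F (pt x v) ≠ 0 := by
    unfold VV
    have h2 := deriv_ne F M hF (pt x v) (by simpa using hv)
    have h3 : ((pt x v).im : ℂ) ≠ 0 := by
      rw [pt_im]
      exact_mod_cast hv.ne'
    exact mul_ne_zero (mul_ne_zero (neg_ne_zero.2 Complex.I_ne_zero) h3) h2
  have h2v : ((2 - v : ℝ) : ℂ) ≠ 0 := by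
    have : (2 - v : ℝ) ≠ 0 := by linarith
    exact_mod_cast this
  obtain ⟨hr0, hr1, hmob⟩ := mob_pt x (5 / 3 * v) v hv (by linarith) (by linarith)
  have hr : (5 / 3 * v - v) / (5 / 3 * v + v - 5 / 3 * v * v) = 2 / (8 - 5 * v) := by
    rw [div_eq_div_iff]
    · ring
    · nlinarith
    · exact hD.ne'
  rw [hr] at hr0 hr1 hmob
  have hnorm : ‖(-((2 / (8 - 5 * v) : ℝ) : ℂ))‖ = 2 / (8 - 5 * v) := by
    rw [norm_neg, Complex.norm_real, Real.norm_of_nonneg hr0.le]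
  have hσ : (-((2 / (8 - 5 * v) : ℝ) : ℂ)) ∈ ball (0 : ℂ) 1 := by
    rw [mem_ball_zero_iff, hnorm]
    exact hr1
  have hσ0 : (-((2 / (8 - 5 * v) : ℝ) : ℂ)) ≠ 0 := by
    rw [neg_ne_zero]
    exact_mod_cast hr0.ne'
  have hF1 := hgF _ hσ
  rw [hmob] at hF1
  have htp := two_point g hg _ hσ hσ0
  rw [hnorm] at htp
  generalize hG : g (-((2 / (8 - 5 * v) : ℝ) : ℂ)) = G at hF1 htp
  have hG0 : G ≠ 0 := by
    intro h
    apply hσ0
    apply hg.inj hσ (mem_ball_self one_pos)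
    rw [hG, h, hg.zero]
  refine ⟨?_, ?_⟩
  · intro he
    rw [he, sub_self] at hF1
    exact (mul_ne_zero (mul_ne_zero h2v hV) hG0) hF1.symm
  have h8 : deriv (deriv g) 0 / 2 = -(((1 - v : ℝ) : ℂ) +
      Complex.I * ((1 - v / 2 : ℝ) : ℂ) * AA F (pt x v)) := by
    rw [← hg2, neg_neg]
  have hre : (G⁻¹ - (-((2 / (8 - 5 * v) : ℝ) : ℂ))⁻¹ + deriv (deriv g) 0 / 2).re =
      (G⁻¹).re + (8 - 5 * v) / 2 - (1 - v) + (1 - v / 2) * (AA F (pt x v)).im := by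
    have h9 : (-((2 / (8 - 5 * v) : ℝ) : ℂ))⁻¹ = ((-((8 - 5 * v) / 2) : ℝ) : ℂ) := by
      rw [inv_neg, ← Complex.ofReal_inv, inv_div]
      push_cast
      ring
    rw [h8, h9]
    simp only [Complex.add_re, Complex.sub_re, Complex.neg_re, Complex.mul_re, Complex.mul_im,
      Complex.I_re, Complex.I_im, Complex.ofReal_re, Complex.ofReal_im]
    ring
  have h10 := (Complex.re_le_norm _).trans htp
  rw [hre] at h10
  have h11 := l4_eps v hv hv1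
  have h12 : -(G⁻¹).re ≤ ‖G⁻¹‖ := by
    have := (Complex.abs_re_le_norm G⁻¹)
    exact (neg_le_abs _).trans this
  have h13 := abs_le.1 hb
  have h14 : 3 - eps0 + (AA F (pt x v)).im - 10 * v ≤ ‖G⁻¹‖ := by
    nlinarith [mul_le_mul_of_nonneg_left h13.2 hv.le, mul_le_mul_of_nonneg_left h13.1 hv.le]
  rw [hF1, norm_mul, norm_mul, Complex.norm_real, Real.norm_of_nonneg (by linarith)]
  have h15 : ‖G‖ * ‖G⁻¹‖ = 1 := by
    rw [← norm_mul, mul_inv_cancel₀ hG0, norm_one]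
  calc (2 - v) * ‖VV F (pt x v)‖ * ‖G‖ * (3 - eps0 + (AA F (pt x v)).im - 10 * v)
      ≤ (2 - v) * ‖VV F (pt x v)‖ * ‖G‖ * ‖G⁻¹‖ := by
        apply mul_le_mul_of_nonneg_left h14
        have : (0 : ℝ) ≤ 2 - v := by linarith
        positivity
    _ = (2 - v) * ‖VV F (pt x v)‖ := by rw [mul_assoc, h15, mul_one]
    _ ≤ 2 * ‖VV F (pt x v)‖ := by
        apply mul_le_mul_of_nonneg_right _ (norm_nonneg _)
        linarith

end H62.CJ
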