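import Pool.Agent.H62.CJ.L3
import Pool.Agent.H62.CJ.L4
import Pool.Agent.H62.CJ.M0

/-!
# CJ-K1: uniform bound for the boundary term at height y0

PROOF.  (1) Horizontal Harnack: for `0 < y <= 1/2` and all `x, x'`:
`‖F' (pt x y)‖ <= exp (4 |x - x'|/y) ‖F' (pt x' y)‖`.  The function `t ↦ log ‖F' (pt t y)‖` has derivative
`Re (F''/F') = Re AA/y`, of absolute value `<= 4/y` (`AA_le`; derivative of the norm as in `T2`:
`norm_rpow_hasDerivAt` with exponent `1` gives `(‖F'‖)' = ‖F'‖ Re (F''/F')`; then `exp (∓ 4t/y) ‖F'‖` is monotone).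
(2) `b x = F (pt x y0)`, `m0 = ‖F' (pt 0 y0)‖ > 0` (`deriv_ne`), `Λ = exp (8 pi/y0)`.  For `0 <= x <= 2 pi`:
`m0/Λ <= ‖F' (pt x y0)‖ <= Λ m0`, hence `‖b x - b 0‖ <= 2 pi Λ m0` (mean value inequality).
(3) for `ζ ∈ strip a (3/5 y0)`, `x = Re ζ`, `w = F ζ`: by `excl` (with `y = y0`) `w ≠ b x` and
`‖ss F w (pt x y0)‖ <= (4+eps0)/2 + 4 y0 + ‖(1 + i A)/2‖ <= 2.2 + 2.5 <= 5` (`eps0_ub`, `AA_le`), and
`‖ss‖ = y0 ‖F' (pt x y0)‖/‖w - b x‖`; so `‖w - b x‖ >= y0 ‖F' (pt x y0)‖/5 >= y0 m0/(5 Λ)`.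
Hence `‖w - b 0‖ <= ‖w - b x‖ + 2 pi Λ m0 <= C1 ‖w - b x‖`, `C1 = 1 + 10 pi Λ^2/y0`, and, when `w ≠ b 0`,
`‖w - b x‖^(-1/2) <= C1^(1/2) ‖w - b 0‖^(-1/2)` (`w ≠ b 0` always, by the class property `inj`, since
`Im ζ < y0`).
(4) area formula for `F` on the strip (injective there, derivative multiplication by `F' ζ`, determinant
`‖F' ζ‖^2`; model `det_restrict` in `Pool/Agent/H38/Nev/Plane.lean`):
`int⁻_strip ofReal (‖F' ζ‖^2) ofReal (‖F ζ - b 0‖^(-1/2)) = int⁻_{F '' strip} ofReal (‖w - b 0‖^(-1/2)) dw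
 <= int⁻_{closedBall (b 0) (2 M)} ofReal (‖w - b 0‖^(-1/2)) dw = int⁻_{closedBall 0 (2M)} ofReal (‖u‖^(-1/2)) du =: C2`
(`‖F ζ‖ <= M` on the strip and `‖b 0‖ <= M`; translation invariance), and `C2 < ∞`
(polar coordinates; or `‖u‖^(-1/2)` is locally integrable in dimension 2, for instance
`MeasureTheory.integrable_of_...` / `integrableOn_norm_rpow...`).
`C = y0^kap C1^(1/2) C2.toReal`.
-/

set_option autoImplicit false

open Set Metric MeasureTheory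

namespace H62.CJ

theorem k1_isOpen : IsOpen HP := isOpen_lt continuous_const Complex.continuous_im

theorem k1_pt_hasDerivAt (y t : ℝ) : HasDerivAt (fun t : ℝ => pt t y) 1 t := by
  have h : (fun t : ℝ => pt t y) = fun t : ℝ => (t : ℂ) + (y : ℂ) * Complex.I := by
    funext t
    exact pt_eq t y
  rw [h]
  exact (Complex.ofRealCLM.hasDerivAt (x := t)).add_const _

theorem k1_F_hasDerivAt (F : ℂ → ℂ) (M : ℝ) (hF : Cls F M) (y t : ℝ) (hy : 0 < y) :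
    HasDerivAt (fun t : ℝ => F (pt t y)) (deriv F (pt t y)) t := by
  have h1 : HasDerivAt F (deriv F (pt t y)) (pt t y) :=
    (hF.diff.differentiableAt (k1_isOpen.mem_nhds (show (0:ℝ) < (pt t y).im by simpa using hy))).hasDerivAt
  have h2 := h1.comp t (k1_pt_hasDerivAt y t)
  rw [mul_one] at h2
  exact h2

theorem k1_dF_hasDerivAt (F : ℂ → ℂ) (M : ℝ) (hF : Cls F M) (y t : ℝ) (hy : 0 < y) :
    HasDerivAt (fun t : ℝ => deriv F (pt t y)) (deriv (deriv F) (pt t y)) t := by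
  have h0 : DifferentiableOn ℂ (deriv F) HP := hF.diff.deriv k1_isOpen
  have h1 : HasDerivAt (deriv F) (deriv (deriv F) (pt t y)) (pt t y) :=
    (h0.differentiableAt (k1_isOpen.mem_nhds (show (0:ℝ) < (pt t y).im by simpa using hy))).hasDerivAt
  have h2 := h1.comp t (k1_pt_hasDerivAt y t)
  rw [mul_one] at h2
  exact h2

theorem k1_bound (F : ℂ → ℂ) (M : ℝ) (hF : Cls F M) (y t : ℝ) (hy : 0 < y) (hy1 : y ≤ 1 / 2) :
    ‖deriv (deriv F) (pt t y)‖ ≤ (4 / y) * ‖deriv F (pt t y)‖ := by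
  have h := AA_le F M hF t y hy hy1
  have hd : deriv F (pt t y) ≠ 0 := deriv_ne F M hF (pt t y) (by simpa using hy)
  have hd' : 0 < ‖deriv F (pt t y)‖ := norm_pos_iff.2 hd
  unfold AA at h
  rw [norm_div, norm_mul, pt_im, Complex.norm_real, Real.norm_of_nonneg hy.le,
    div_le_iff₀ hd'] at h
  rw [div_mul_eq_mul_div, le_div_iff₀ hy]
  linarith

theorem k1_harnack (F : ℂ → ℂ) (M : ℝ) (hF : Cls F M) (y a b : ℝ) (hy : 0 < y) (hy1 : y ≤ 1 / 2)
    (hab : a ≤ b) :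
    ‖deriv F (pt b y)‖ ≤ ‖deriv F (pt a y)‖ * Real.exp (4 / y * (b - a)) ∧
    ‖deriv F (pt a y)‖ ≤ ‖deriv F (pt b y)‖ * Real.exp (4 / y * (b - a)) := by
  constructor
  · have h := norm_le_gronwallBound_of_norm_deriv_right_le (f := fun t : ℝ => deriv F (pt t y))
      (f' := fun t : ℝ => deriv (deriv F) (pt t y)) (δ := ‖deriv F (pt a y)‖) (K := 4 / y) (ε := 0)
      (a := a) (b := b)
      (fun t _ => (k1_dF_hasDerivAt F M hF y t hy).continuousAt.continuousWithinAt)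
      (fun t _ => (k1_dF_hasDerivAt F M hF y t hy).hasDerivWithinAt) le_rfl
      (fun t _ => by rw [add_zero]; exact k1_bound F M hF y t hy hy1) b ⟨hab, le_rfl⟩
    rw [gronwallBound_ε0] at h
    exact h
  · have hder : ∀ t : ℝ, HasDerivAt (fun t : ℝ => deriv F (pt (-t) y))
        (-deriv (deriv F) (pt (-t) y)) t := by
      intro t
      have h1 := k1_dF_hasDerivAt F M hF y (-t) hy
      have h2 := h1.scomp t (hasDerivAt_neg t)
      rw [neg_one_smul] at h2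
      exact h2
    have h := norm_le_gronwallBound_of_norm_deriv_right_le (f := fun t : ℝ => deriv F (pt (-t) y))
      (f' := fun t : ℝ => -deriv (deriv F) (pt (-t) y)) (δ := ‖deriv F (pt b y)‖) (K := 4 / y)
      (ε := 0) (a := -b) (b := -a)
      (fun t _ => (hder t).continuousAt.continuousWithinAt)
      (fun t _ => (hder t).hasDerivWithinAt) (by rw [neg_neg])
      (fun t _ => by rw [add_zero, norm_neg]; exact k1_bound F M hF y (-t) hy hy1) (-a)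
      ⟨by linarith, le_rfl⟩
    rw [gronwallBound_ε0, neg_neg] at h
    rw [show b - a = -a - -b by ring]
    exact h

theorem k1_ball (R : ℝ) : ∫⁻ u in closedBall (0 : ℂ) R,
    ENNReal.ofReal (‖u‖ ^ (-(1 / 2) : ℝ)) < ⊤ := by
  rw [← lintegral_indicator measurableSet_closedBall, ← Complex.lintegral_comp_polarCoord_symm]
  have hb : ∀ p ∈ polarCoord.target, ENNReal.ofReal p.1 *
      (closedBall (0 : ℂ) R).indicator (fun u => ENNReal.ofReal (‖u‖ ^ (-(1 / 2) : ℝ)))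
        (Complex.polarCoord.symm p) ≤
      (Ioc 0 R ×ˢ Ioo (-Real.pi) Real.pi).indicator
        (fun _ => ENNReal.ofReal (Real.sqrt R)) p := by
    intro p hp
    rw [polarCoord_target] at hp
    have hp1 : 0 < p.1 := hp.1
    have hn : ‖Complex.polarCoord.symm p‖ = p.1 := by
      rw [Complex.norm_polarCoord_symm, abs_of_pos hp1]
    by_cases hR : p.1 ≤ R
    · rw [indicator_of_mem (show Complex.polarCoord.symm p ∈ closedBall (0 : ℂ) R by
        rw [mem_closedBall_zero_iff, hn]; exact hR),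
        indicator_of_mem (show p ∈ Ioc 0 R ×ˢ Ioo (-Real.pi) Real.pi from ⟨⟨hp1, hR⟩, hp.2⟩),
        hn, ← ENNReal.ofReal_mul hp1.le]
      apply ENNReal.ofReal_le_ofReal
      have : p.1 * p.1 ^ (-(1 / 2) : ℝ) = Real.sqrt p.1 := by
        rw [Real.sqrt_eq_rpow]
        nth_rewrite 1 [← Real.rpow_one p.1]
        rw [← Real.rpow_add hp1]
        norm_num
      rw [this]
      exact Real.sqrt_le_sqrt hR
    · rw [indicator_of_notMem (show Complex.polarCoord.symm p ∉ closedBall (0 : ℂ) R by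
        rw [mem_closedBall_zero_iff, hn]; exact hR), mul_zero]
      exact zero_le
  calc _ ≤ ∫⁻ p in polarCoord.target, (Ioc 0 R ×ˢ Ioo (-Real.pi) Real.pi).indicator
        (fun _ => ENNReal.ofReal (Real.sqrt R)) p :=
        setLIntegral_mono' (by rw [polarCoord_target]; exact measurableSet_Ioi.prod measurableSet_Ioo) hb
    _ ≤ ∫⁻ p, (Ioc 0 R ×ˢ Ioo (-Real.pi) Real.pi).indicator
        (fun _ => ENNReal.ofReal (Real.sqrt R)) p := setLIntegral_le_lintegral _ _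
    _ = ENNReal.ofReal (Real.sqrt R) * volume (Ioc 0 R ×ˢ Ioo (-Real.pi) Real.pi) := by
        rw [lintegral_indicator_const (measurableSet_Ioc.prod measurableSet_Ioo)]
    _ < ⊤ := by
        rw [Measure.volume_eq_prod, Measure.prod_prod, Real.volume_Ioc, Real.volume_Ioo]
        exact ENNReal.mul_lt_top ENNReal.ofReal_lt_top
          (ENNReal.mul_lt_top ENNReal.ofReal_lt_top ENNReal.ofReal_lt_top)

private theorem k1_det (c : ℂ) :
    ((ContinuousLinearMap.toSpanSingleton ℂ c).restrictScalars ℝ : ℂ →L[ℝ] ℂ).det = ‖c‖ ^ 2 := by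
  have h1 : (((ContinuousLinearMap.toSpanSingleton ℂ c).restrictScalars ℝ : ℂ →L[ℝ] ℂ) :
      ℂ →ₗ[ℝ] ℂ) = Algebra.lmul ℝ ℂ c := by
    ext x
    simp [mul_comm]
  rw [ContinuousLinearMap.det, h1, ← Algebra.norm_apply, Algebra.norm_complex_apply,
    Complex.normSq_eq_norm_sq]

theorem k1_area (F : ℂ → ℂ) (M : ℝ) (hF : Cls F M) (a b : ℝ) (ha : 0 < a) (hb : b ≤ 2)
    (c : ℂ) (hc : ‖c‖ ≤ M) :
    ∫⁻ ζ in strip a b, ENNReal.ofReal (‖deriv F ζ‖ ^ 2) *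
      ENNReal.ofReal (‖F ζ - c‖ ^ (-(1 / 2) : ℝ)) ≤
      ∫⁻ u in closedBall (0 : ℂ) (2 * M), ENNReal.ofReal (‖u‖ ^ (-(1 / 2) : ℝ)) := by
  have hder : ∀ ζ ∈ strip a b, HasFDerivWithinAt F
      ((ContinuousLinearMap.toSpanSingleton ℂ (deriv F ζ)).restrictScalars ℝ) (strip a b) ζ := by
    intro ζ hζ
    have h0 : ζ ∈ HP := lt_trans ha hζ.2.2.1
    have h1 := (hF.diff.differentiableAt (k1_isOpen.mem_nhds h0)).hasDerivAt.hasFDerivAt
    exact (h1.restrictScalars ℝ).hasFDerivWithinAt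
  have hinj : InjOn F (strip a b) := by
    intro z hz w hw he
    obtain ⟨k, hk⟩ := hF.inj z w (lt_trans ha hz.2.2.1) (lt_trans ha hw.2.2.1) he
    have h1 := congrArg Complex.re hk
    rw [Complex.sub_re, Complex.ofReal_re] at h1
    have h2 : -(2 * Real.pi) < (k : ℝ) * (2 * Real.pi) := by
      rw [← h1]
      linarith [hz.1, hw.2.1]
    have h3 : (k : ℝ) * (2 * Real.pi) < 2 * Real.pi := by
      rw [← h1]
      linarith [hz.2.1, hw.1]
    have hpi : 0 < 2 * Real.pi := by positivity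
    have h4 : (-1 : ℝ) < (k : ℝ) := by
      by_contra hcon
      push Not at hcon
      nlinarith
    have h5 : (k : ℝ) < 1 := by
      by_contra hcon
      push Not at hcon
      nlinarith
    have h6 : k = 0 := by
      have h7 : (-1 : ℤ) < k := by exact_mod_cast h4
      have h8 : k < (1 : ℤ) := by exact_mod_cast h5
      omega
    rw [h6] at hk
    simp only [Int.cast_zero, zero_mul, Complex.ofReal_zero] at hk
    exact sub_eq_zero.1 hk
  have hcv := lintegral_image_eq_lintegral_abs_det_fderiv_mul volume (measurableSet_strip a b)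
    hder hinj (fun w => ENNReal.ofReal (‖w - c‖ ^ (-(1 / 2) : ℝ)))
  have hsub : F '' strip a b ⊆ closedBall c (2 * M) := by
    rintro _ ⟨ζ, hζ, rfl⟩
    rw [mem_closedBall, dist_eq_norm]
    have h1 := hF.bdd ζ (lt_trans ha hζ.2.2.1) (hζ.2.2.2.le.trans hb)
    have h2 := norm_sub_le (F ζ) c
    linarith
  calc ∫⁻ ζ in strip a b, ENNReal.ofReal (‖deriv F ζ‖ ^ 2) *
        ENNReal.ofReal (‖F ζ - c‖ ^ (-(1 / 2) : ℝ))
      = ∫⁻ ζ in strip a b, ENNReal.ofReal |((ContinuousLinearMap.toSpanSingleton ℂ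
            (deriv F ζ)).restrictScalars ℝ : ℂ →L[ℝ] ℂ).det| *
          ENNReal.ofReal (‖F ζ - c‖ ^ (-(1 / 2) : ℝ)) := by
        apply lintegral_congr
        intro ζ
        rw [k1_det, abs_of_nonneg (by positivity)]
    _ = ∫⁻ w in F '' strip a b, ENNReal.ofReal (‖w - c‖ ^ (-(1 / 2) : ℝ)) := hcv.symm
    _ ≤ ∫⁻ w in closedBall c (2 * M), ENNReal.ofReal (‖w - c‖ ^ (-(1 / 2) : ℝ)) :=
        lintegral_mono_set hsub
    _ = ∫⁻ u in closedBall (0 : ℂ) (2 * M), ENNReal.ofReal (‖u‖ ^ (-(1 / 2) : ℝ)) := by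
        rw [← lintegral_indicator measurableSet_closedBall,
          ← lintegral_indicator measurableSet_closedBall,
          ← lintegral_sub_right_eq_self ((closedBall (0 : ℂ) (2 * M)).indicator
            (fun u => ENNReal.ofReal (‖u‖ ^ (-(1 / 2) : ℝ)))) c]
        apply lintegral_congr
        intro w
        by_cases hw : w ∈ closedBall c (2 * M)
        · rw [indicator_of_mem hw, indicator_of_mem]
          rw [mem_closedBall, dist_eq_norm] at hw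
          rw [mem_closedBall_zero_iff]
          exact hw
        · rw [indicator_of_notMem hw, indicator_of_notMem]
          rw [mem_closedBall, dist_eq_norm] at hw
          rw [mem_closedBall_zero_iff]
          exact hw

theorem J_bound (M : ℝ) : ∃ C : ℝ, 0 ≤ C ∧ ∀ F : ℂ → ℂ, Cls F M → ∀ a : ℝ, 0 < a →
    ∫⁻ ζ in strip a (3 / 5 * y0), ENNReal.ofReal (‖deriv F ζ‖ ^ 2 *
      (y0 ^ kap * ‖F ζ - F (pt ζ.re y0)‖ ^ (-(1 / 2) : ℝ))) ≤ ENNReal.ofReal C := by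
  have hy0 : (0 : ℝ) < y0 := by unfold y0; norm_num
  have hy1 : y0 ≤ 1 / 2 := by unfold y0; norm_num
  have hy2 : y0 ≤ 1 / 1000 := by unfold y0; norm_num
  have hpi := Real.pi_pos
  set Λ : ℝ := Real.exp (4 / y0 * (2 * Real.pi)) with hΛ
  have hΛ1 : 1 ≤ Λ := by
    rw [hΛ]
    exact Real.one_le_exp (by positivity)
  have hΛ0 : 0 < Λ := by linarith
  set C1 : ℝ := 1 + 10 * Real.pi * Λ ^ 2 / y0 with hC1
  have hC10 : 0 < C1 := by rw [hC1]; positivity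
  set C2 := ∫⁻ u in closedBall (0 : ℂ) (2 * M), ENNReal.ofReal (‖u‖ ^ (-(1 / 2) : ℝ)) with hC2
  have hC2t : C2 < ⊤ := k1_ball (2 * M)
  set K : ℝ := y0 ^ kap * C1 ^ (1 / 2 : ℝ) with hK
  have hK0 : 0 ≤ K := by rw [hK]; positivity
  refine ⟨K * C2.toReal, by positivity, ?_⟩
  intro F hF a ha
  set m0 : ℝ := ‖deriv F (pt 0 y0)‖ with hm0
  have hm0p : 0 < m0 := norm_pos_iff.2 (deriv_ne F M hF (pt 0 y0) (by simpa using hy0))
  have hexp : ∀ x : ℝ, 0 ≤ x → x ≤ 2 * Real.pi → Real.exp (4 / y0 * (x - 0)) ≤ Λ := by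
    intro x hx0 hx1
    rw [hΛ]
    apply Real.exp_le_exp.2
    rw [sub_zero]
    exact mul_le_mul_of_nonneg_left hx1 (by positivity)
  have hup : ∀ x : ℝ, 0 ≤ x → x ≤ 2 * Real.pi → ‖deriv F (pt x y0)‖ ≤ Λ * m0 := by
    intro x hx0 hx1
    have h := (k1_harnack F M hF y0 0 x hy0 hy1 hx0).1
    have h2 := mul_le_mul_of_nonneg_left (hexp x hx0 hx1) hm0p.le
    rw [← hm0] at h
    linarith
  have hlo : ∀ x : ℝ, 0 ≤ x → x ≤ 2 * Real.pi → m0 ≤ ‖deriv F (pt x y0)‖ * Λ := by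
    intro x hx0 hx1
    have h := (k1_harnack F M hF y0 0 x hy0 hy1 hx0).2
    have h2 := mul_le_mul_of_nonneg_left (hexp x hx0 hx1) (norm_nonneg (deriv F (pt x y0)))
    rw [← hm0] at h
    linarith
  have hmv : ∀ x : ℝ, 0 ≤ x → x ≤ 2 * Real.pi →
      ‖F (pt x y0) - F (pt 0 y0)‖ ≤ 2 * Real.pi * Λ * m0 := by
    intro x hx0 hx1
    have h := norm_image_sub_le_of_norm_deriv_le_segment' (f := fun t : ℝ => F (pt t y0))
      (f' := fun t : ℝ => deriv F (pt t y0)) (C := Λ * m0) (a := 0) (b := 2 * Real.pi)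
      (fun t _ => (k1_F_hasDerivAt F M hF y0 t hy0).hasDerivWithinAt)
      (fun t ht => hup t ht.1 ht.2.le) x ⟨hx0, hx1⟩
    refine h.trans ?_
    have h3 : Λ * m0 * (x - 0) ≤ Λ * m0 * (2 * Real.pi) :=
      mul_le_mul_of_nonneg_left (by linarith) (by positivity)
    linarith
  have hb0 : ‖F (pt 0 y0)‖ ≤ M :=
    hF.bdd _ (by simpa using hy0) (by simp only [pt_im]; linarith)
  have hpt : ∀ ζ ∈ strip a (3 / 5 * y0), ‖F ζ - F (pt ζ.re y0)‖ ^ (-(1 / 2) : ℝ) ≤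
      C1 ^ (1 / 2 : ℝ) * ‖F ζ - F (pt 0 y0)‖ ^ (-(1 / 2) : ℝ) := by
    intro ζ hζ
    have hζ0 : 0 < ζ.im := lt_trans ha hζ.2.2.1
    obtain ⟨hne, hs⟩ := excl F M hF ζ.re y0 hy0 hy1 ζ hζ0 hζ.2.2.2
    have hA := AA_le F M hF ζ.re y0 hy0 hy1
    have he := eps0_ub
    have hw0 : 0 < ‖F ζ - F (pt ζ.re y0)‖ := norm_pos_iff.2 (sub_ne_zero.2 hne)
    have hss : ‖ss F (F ζ) (pt ζ.re y0)‖ ≤ 5 := by
      have h1 : ‖(1 + Complex.I * AA F (pt ζ.re y0)) / 2‖ ≤ 5 / 2 := by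
        rw [norm_div, show ‖(2 : ℂ)‖ = 2 by norm_num]
        have h2 : ‖1 + Complex.I * AA F (pt ζ.re y0)‖ ≤ 1 + 4 := by
          refine (norm_add_le _ _).trans ?_
          rw [norm_one, norm_mul, Complex.norm_I, one_mul]
          linarith
        linarith
      have h3 := norm_sub_norm_le (ss F (F ζ) (pt ζ.re y0)) ((1 + Complex.I * AA F (pt ζ.re y0)) / 2)
      linarith
    have hsn : ‖ss F (F ζ) (pt ζ.re y0)‖ =
        y0 * ‖deriv F (pt ζ.re y0)‖ / ‖F ζ - F (pt ζ.re y0)‖ := by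
      unfold ss VV
      rw [norm_div, norm_mul, norm_mul, norm_neg, Complex.norm_I, one_mul, pt_im,
        Complex.norm_real, Real.norm_of_nonneg hy0.le]
    rw [hsn, div_le_iff₀ hw0] at hss
    have hx0 := hζ.1.le
    have hx1 := hζ.2.1.le
    have h5 := hlo ζ.re hx0 hx1
    have h6 := hmv ζ.re hx0 hx1
    have h7 : y0 * m0 ≤ 5 * Λ * ‖F ζ - F (pt ζ.re y0)‖ := by
      calc y0 * m0 ≤ y0 * (‖deriv F (pt ζ.re y0)‖ * Λ) := mul_le_mul_of_nonneg_left h5 hy0.le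
        _ = (y0 * ‖deriv F (pt ζ.re y0)‖) * Λ := by ring
        _ ≤ (5 * ‖F ζ - F (pt ζ.re y0)‖) * Λ := mul_le_mul_of_nonneg_right hss hΛ0.le
        _ = 5 * Λ * ‖F ζ - F (pt ζ.re y0)‖ := by ring
    have h8 : ‖F ζ - F (pt 0 y0)‖ ≤ C1 * ‖F ζ - F (pt ζ.re y0)‖ := by
      have h9 : ‖F ζ - F (pt 0 y0)‖ ≤ ‖F ζ - F (pt ζ.re y0)‖ + ‖F (pt ζ.re y0) - F (pt 0 y0)‖ := by
        have := norm_add_le (F ζ - F (pt ζ.re y0)) (F (pt ζ.re y0) - F (pt 0 y0))
        rwa [sub_add_sub_cancel] at this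
      have h10 : 2 * Real.pi * Λ * m0 ≤ 10 * Real.pi * Λ ^ 2 / y0 * ‖F ζ - F (pt ζ.re y0)‖ := by
        rw [div_mul_eq_mul_div, le_div_iff₀ hy0]
        have h11 := mul_le_mul_of_nonneg_left h7 (show 0 ≤ 2 * Real.pi * Λ by positivity)
        linarith
      rw [hC1, add_mul, one_mul]
      linarith
    have hne0 : F ζ ≠ F (pt 0 y0) := by
      intro he0
      obtain ⟨k, hk⟩ := hF.inj ζ (pt 0 y0) hζ0 (by simpa using hy0) he0
      have h12 := congrArg Complex.im hk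
      rw [Complex.sub_im, Complex.ofReal_im, pt_im] at h12
      have h13 := hζ.2.2.2
      linarith
    have hw1 : 0 < ‖F ζ - F (pt 0 y0)‖ := norm_pos_iff.2 (sub_ne_zero.2 hne0)
    have h14 : (C1 * ‖F ζ - F (pt ζ.re y0)‖) ^ (-(1 / 2) : ℝ) ≤
        ‖F ζ - F (pt 0 y0)‖ ^ (-(1 / 2) : ℝ) :=
      Real.rpow_le_rpow_of_nonpos hw1 h8 (by norm_num)
    rw [Real.mul_rpow hC10.le hw0.le] at h14
    have h15 : C1 ^ (1 / 2 : ℝ) * C1 ^ (-(1 / 2) : ℝ) = 1 := by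
      rw [← Real.rpow_add hC10]
      norm_num
    calc ‖F ζ - F (pt ζ.re y0)‖ ^ (-(1 / 2) : ℝ)
        = C1 ^ (1 / 2 : ℝ) * (C1 ^ (-(1 / 2) : ℝ) * ‖F ζ - F (pt ζ.re y0)‖ ^ (-(1 / 2) : ℝ)) := by
          rw [← mul_assoc, h15, one_mul]
      _ ≤ C1 ^ (1 / 2 : ℝ) * ‖F ζ - F (pt 0 y0)‖ ^ (-(1 / 2) : ℝ) :=
          mul_le_mul_of_nonneg_left h14 (by positivity)
  calc ∫⁻ ζ in strip a (3 / 5 * y0), ENNReal.ofReal (‖deriv F ζ‖ ^ 2 *
        (y0 ^ kap * ‖F ζ - F (pt ζ.re y0)‖ ^ (-(1 / 2) : ℝ)))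
      ≤ ∫⁻ ζ in strip a (3 / 5 * y0), ENNReal.ofReal K * (ENNReal.ofReal (‖deriv F ζ‖ ^ 2) *
          ENNReal.ofReal (‖F ζ - F (pt 0 y0)‖ ^ (-(1 / 2) : ℝ))) := by
        apply setLIntegral_mono' (measurableSet_strip _ _)
        intro ζ hζ
        rw [← ENNReal.ofReal_mul (by positivity), ← ENNReal.ofReal_mul hK0]
        apply ENNReal.ofReal_le_ofReal
        have h1 := hpt ζ hζ
        have h2 : y0 ^ kap * ‖F ζ - F (pt ζ.re y0)‖ ^ (-(1 / 2) : ℝ) ≤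
            K * ‖F ζ - F (pt 0 y0)‖ ^ (-(1 / 2) : ℝ) := by
          rw [hK, mul_assoc]
          exact mul_le_mul_of_nonneg_left h1 (by positivity)
        calc ‖deriv F ζ‖ ^ 2 * (y0 ^ kap * ‖F ζ - F (pt ζ.re y0)‖ ^ (-(1 / 2) : ℝ))
            ≤ ‖deriv F ζ‖ ^ 2 * (K * ‖F ζ - F (pt 0 y0)‖ ^ (-(1 / 2) : ℝ)) :=
              mul_le_mul_of_nonneg_left h2 (by positivity)
          _ = K * (‖deriv F ζ‖ ^ 2 * ‖F ζ - F (pt 0 y0)‖ ^ (-(1 / 2) : ℝ)) := by ring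
    _ = ENNReal.ofReal K * ∫⁻ ζ in strip a (3 / 5 * y0), (ENNReal.ofReal (‖deriv F ζ‖ ^ 2) *
          ENNReal.ofReal (‖F ζ - F (pt 0 y0)‖ ^ (-(1 / 2) : ℝ))) :=
        lintegral_const_mul' _ _ ENNReal.ofReal_ne_top
    _ ≤ ENNReal.ofReal K * C2 := by
        gcongr
        exact k1_area F M hF a (3 / 5 * y0) ha (by linarith) _ hb0
    _ = ENNReal.ofReal (K * C2.toReal) := by
        rw [ENNReal.ofReal_mul hK0, ENNReal.ofReal_toReal hC2t.ne]

end H62.CJ
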