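import Pool.Agent.H62.CJ.T2

/-!
# CJ-Y1: the vertical derivative

`F` in the class, `ζ` with `v = Im ζ > 0`, `x = Re ζ`, `v < u <= Y`.  With
`N y = y^kap |F ζ - F (pt x y)|^(-1/2)`:
`N u <= N Y + int_u^Y y^(kap - 1) max (GG F (F ζ) (pt x y), 0) dy`.

PROOF.  For `y > v`: `F ζ ≠ F (pt x y)` (class property `inj`: the difference of two points with the same
value is real).  Derivative of `N` at `y > v`: `b y = F (pt x y)`, `b' = i F' (pt x y)` (chain rule, `pt x y = x + i y`),
`d/dy |F ζ - b|^(-1/2) = (-1/2) |..|^(-1/2) Re (- b'/(F ζ - b)) = (1/2)|..|^(-1/2) Re (i F'/(F ζ - b))`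
and `ss = - i y F'/(F ζ - b)`, so it is `- (1/(2y)) |..|^(-1/2) Re ss`
(use `norm_rpow_hasDerivAt` of `T2`).  So
`N' y = kap y^(kap-1) |..|^(-1/2) - y^kap (1/(2y)) |..|^(-1/2) Re ss = - y^(kap-1) GG F (F ζ) (pt x y)`.
`y ↦ y^(kap-1) GG` is continuous on `[u, Y]`, so
`N u = N Y + int_u^Y y^(kap-1) GG dy` (`intervalIntegral.integral_eq_sub_of_hasDerivAt`), and
`ofReal (int f) <= int⁻ ofReal f` for integrable `f` (positive part; `integral_eq_lintegral_pos_part_sub...`,
or `int f <= int max f 0` and `ofReal_integral_eq_lintegral_ofReal`).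
-/

set_option autoImplicit false

open Set Metric MeasureTheory

namespace H62.CJ

private theorem ofReal_integral_le {μ : Measure ℝ} (f : ℝ → ℝ) (hf : Integrable f μ) :
    ENNReal.ofReal (∫ x, f x ∂μ) ≤ ∫⁻ x, ENNReal.ofReal (f x) ∂μ := by
  rw [integral_eq_lintegral_pos_part_sub_lintegral_neg_part hf]
  refine (ENNReal.ofReal_le_ofReal (sub_le_self _ ENNReal.toReal_nonneg)).trans ?_
  exact ENNReal.ofReal_toReal_le

private theorem isOpen_HP : IsOpen HP := isOpen_lt continuous_const Complex.continuous_im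

theorem vertical (F : ℂ → ℂ) (M : ℝ) (hF : Cls F M) (ζ : ℂ) (u Y : ℝ) (h0 : 0 < ζ.im)
    (h1 : ζ.im < u) (h2 : u ≤ Y) :
    ENNReal.ofReal (u ^ kap * ‖F ζ - F (pt ζ.re u)‖ ^ (-(1 / 2) : ℝ)) ≤
      ENNReal.ofReal (Y ^ kap * ‖F ζ - F (pt ζ.re Y)‖ ^ (-(1 / 2) : ℝ)) +
      ∫⁻ y in Ioo u Y, ENNReal.ofReal (y ^ (kap - 1) * GG F (F ζ) (pt ζ.re y)) := by
  have hne : ∀ y : ℝ, ζ.im < y → F ζ - F (pt ζ.re y) ≠ 0 := by
    intro y hy h
    obtain ⟨k, hk⟩ := hF.inj ζ (pt ζ.re y) h0 (by simp only [pt_im]; linarith) (sub_eq_zero.1 h)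
    have h3 := congrArg Complex.im hk
    rw [Complex.ofReal_im, Complex.sub_im, pt_im] at h3
    linarith
  have hpt : ∀ y : ℝ, HasDerivAt (fun t : ℝ => pt ζ.re t) Complex.I y := by
    intro y
    have h3 : (fun t : ℝ => pt ζ.re t) = fun t : ℝ => (ζ.re : ℂ) + (t : ℂ) * Complex.I := by
      funext t
      exact pt_eq _ _
    rw [h3]
    have h4 : HasDerivAt (fun t : ℝ => (t : ℂ)) 1 y := Complex.ofRealCLM.hasDerivAt
    simpa using (h4.mul_const Complex.I).const_add (ζ.re : ℂ)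
  have hFd : ∀ y : ℝ, 0 < y → HasDerivAt (fun t : ℝ => F (pt ζ.re t))
      (deriv F (pt ζ.re y) * Complex.I) y := by
    intro y hy
    have h3 : DifferentiableAt ℂ F (pt ζ.re y) :=
      hF.diff.differentiableAt (isOpen_HP.mem_nhds (by simpa [HP] using hy))
    exact h3.hasDerivAt.comp y (hpt y)
  set N : ℝ → ℝ := fun y => y ^ kap * ‖F ζ - F (pt ζ.re y)‖ ^ (-(1 / 2) : ℝ) with hN
  have hNd : ∀ y : ℝ, ζ.im < y →
      HasDerivAt N (-(y ^ (kap - 1) * GG F (F ζ) (pt ζ.re y))) y := by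
    intro y hy
    have hy0 : 0 < y := h0.trans hy
    have h3 : HasDerivAt (fun t : ℝ => F ζ - F (pt ζ.re t)) (-(deriv F (pt ζ.re y) * Complex.I)) y :=
      (hFd y hy0).const_sub (F ζ)
    have h4 := norm_rpow_hasDerivAt _ _ y (-(1 / 2) : ℝ) h3 (hne y hy)
    have h5 : HasDerivAt (fun t : ℝ => t ^ kap) (kap * y ^ (kap - 1)) y :=
      Real.hasDerivAt_rpow_const (Or.inl hy0.ne')
    have h6 := h5.mul h4
    have h7 : y ^ kap = y ^ (kap - 1) * y := by
      rw [Real.rpow_sub_one hy0.ne']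
      field_simp
    have h8 : (ss F (F ζ) (pt ζ.re y)).re =
        y * (-(deriv F (pt ζ.re y) * Complex.I) / (F ζ - F (pt ζ.re y))).re := by
      have h9 : ss F (F ζ) (pt ζ.re y) =
          (y : ℂ) * (-(deriv F (pt ζ.re y) * Complex.I) / (F ζ - F (pt ζ.re y))) := by
        simp only [ss, VV, pt_im]
        ring
      rw [h9, Complex.re_ofReal_mul]
    refine h6.congr_deriv ?_
    simp only [GG]
    rw [h8, h7]
    ring
  -- continuity
  have hcont : ContinuousOn (fun y : ℝ => y ^ (kap - 1) * GG F (F ζ) (pt ζ.re y)) (Icc u Y) := by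
    have hc1 : Continuous (fun y : ℝ => pt ζ.re y) :=
      continuous_iff_continuousAt.2 fun y => (hpt y).continuousAt
    have hmaps : MapsTo (fun y : ℝ => pt ζ.re y) (Icc u Y) HP := by
      intro y hy
      have := hy.1
      simp only [HP, mem_ofPred_eq, pt_im]
      linarith
    have hcF : ContinuousOn (fun y : ℝ => F (pt ζ.re y)) (Icc u Y) :=
      hF.diff.continuousOn.comp hc1.continuousOn hmaps
    have hcF' : ContinuousOn (fun y : ℝ => deriv F (pt ζ.re y)) (Icc u Y) :=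
      (hF.diff.deriv isOpen_HP).continuousOn.comp hc1.continuousOn hmaps
    have hcu : ContinuousOn (fun y : ℝ => F ζ - F (pt ζ.re y)) (Icc u Y) :=
      continuousOn_const.sub hcF
    have hne' : ∀ y ∈ Icc u Y, F ζ - F (pt ζ.re y) ≠ 0 := fun y hy => hne y (by linarith [hy.1])
    have hc2 : ContinuousOn (fun y : ℝ => ss F (F ζ) (pt ζ.re y)) (Icc u Y) := by
      simp only [ss, VV, pt_im]
      refine ContinuousOn.div ?_ hcu hne'
      exact (continuousOn_const.mul (Complex.continuous_ofReal.continuousOn)).mul hcF'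
    have hc3 : ContinuousOn (fun y : ℝ => ‖F ζ - F (pt ζ.re y)‖ ^ (-(1 / 2) : ℝ)) (Icc u Y) := by
      refine hcu.norm.rpow_const ?_
      intro y hy
      exact Or.inl (norm_ne_zero_iff.2 (hne' y hy))
    have hc4 : ContinuousOn (fun y : ℝ => y ^ (kap - 1)) (Icc u Y) := by
      refine continuousOn_id.rpow_const ?_
      intro y hy
      have := hy.1
      exact Or.inl (by simp only [id]; linarith)
    refine hc4.mul ?_
    simp only [GG]
    exact hc3.mul ((continuousOn_const.mul (Complex.continuous_re.comp_continuousOn hc2)).sub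
      continuousOn_const)
  have hint : IntervalIntegrable (fun y : ℝ => y ^ (kap - 1) * GG F (F ζ) (pt ζ.re y))
      volume u Y := by
    refine ContinuousOn.intervalIntegrable ?_
    rwa [uIcc_of_le h2]
  have hFTC : ∫ y in u..Y, -(y ^ (kap - 1) * GG F (F ζ) (pt ζ.re y)) = N Y - N u := by
    refine intervalIntegral.integral_eq_sub_of_hasDerivAt ?_ hint.neg
    intro y hy
    rw [uIcc_of_le h2] at hy
    exact hNd y (by linarith [hy.1])
  rw [intervalIntegral.integral_neg] at hFTC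
  have hNu : N u = N Y + ∫ y in u..Y, y ^ (kap - 1) * GG F (F ζ) (pt ζ.re y) := by linarith
  have hfin : ENNReal.ofReal (N u) ≤ ENNReal.ofReal (N Y) +
      ∫⁻ y in Ioo u Y, ENNReal.ofReal (y ^ (kap - 1) * GG F (F ζ) (pt ζ.re y)) := by
    rw [hNu]
    refine ENNReal.ofReal_add_le.trans ?_
    gcongr
    rw [intervalIntegral.integral_of_le h2, integral_Ioc_eq_integral_Ioo]
    refine ofReal_integral_le _ ?_
    rw [intervalIntegrable_iff_integrableOn_Ioo_of_le h2] at hint
    exact hint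
  exact hfin

end H62.CJ
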