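import Pool.Agent.H62.CJ.M0
import Pool.Agent.H62.CJ.Y1

/-!
# CJ-M1: the master inequality

PROOF.  For `ζ ∈ strip (3/5 T) (3/5 y0)` apply `vertical` with `u = (5/3) Im ζ`, `Y = y0`
(`Im ζ < u`, `u < y0`), multiply with `ofReal (‖deriv F ζ‖^2)` and integrate over the strip
(`lintegral_mono`, `lintegral_add_left`, constants `ofReal (a * b) = ofReal a * ofReal b` for `a >= 0`).
The last term is
`int⁻_{ζ ∈ strip (3/5 T) (3/5 y0)} int⁻_{y ∈ ((5/3) Im ζ, y0)} ofReal (‖F' ζ‖^2) ofReal (y^(kap-1) GG..)`.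
Write the inner integral with the indicator of `y ∈ Ioo T y0` and of `(5/3) Im ζ < y`
(`Im ζ > 3/5 T` gives `(5/3) Im ζ > T`), swap by Tonelli (`lintegral_lintegral_swap`, joint
measurability from `M0`: `(ζ, y) ↦ GG F (F ζ) (pt ζ.re y)` is measurable), and note that for
`T < y < y0`: `{ζ ∈ strip (3/5 T) (3/5 y0) : (5/3) Im ζ < y} = strip (3/5 T) (3/5 y)`.
Finally `ofReal (y^(kap-1) GG) = ofReal (y^(kap-1)) * ofReal GG`.
-/

set_option autoImplicit false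

open Set Metric MeasureTheory

namespace H62.CJ

private theorem measurable_GG2 (F : ℂ → ℂ) (hF : Measurable F) :
    Measurable (fun p : ℂ × ℝ => GG F (F p.1) (pt p.1.re p.2)) := by
  have h1 : Measurable (fun p : ℂ × ℝ => (F p.1, pt p.1.re p.2)) :=
    (hF.comp measurable_fst).prodMk
      (measurable_pt.comp ((Complex.measurable_re.comp measurable_fst).prodMk measurable_snd))
  exact (measurable_GG F hF).comp h1

theorem master (F : ℂ → ℂ) (M : ℝ) (hF : Cls F M) (T : ℝ) (hT : 0 < T) (hT1 : T < y0) :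
    ∫⁻ ζ in strip (3 / 5 * T) (3 / 5 * y0), ENNReal.ofReal (‖deriv F ζ‖ ^ 2 *
        ((5 / 3 * ζ.im) ^ kap * ‖F ζ - F (pt ζ.re (5 / 3 * ζ.im))‖ ^ (-(1 / 2) : ℝ))) ≤
      (∫⁻ ζ in strip (3 / 5 * T) (3 / 5 * y0), ENNReal.ofReal (‖deriv F ζ‖ ^ 2 *
        (y0 ^ kap * ‖F ζ - F (pt ζ.re y0)‖ ^ (-(1 / 2) : ℝ)))) +
      ∫⁻ y in Ioo T y0, ENNReal.ofReal (y ^ (kap - 1)) *
        ∫⁻ ζ in strip (3 / 5 * T) (3 / 5 * y),
          ENNReal.ofReal (‖deriv F ζ‖ ^ 2 * GG F (F ζ) (pt ζ.re y)) := by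
  set S : Set ℂ := strip (3 / 5 * T) (3 / 5 * y0) with hS
  have hSm : MeasurableSet S := measurableSet_strip _ _
  have hdm : Measurable (deriv F) := measurable_deriv F
  -- the kernel
  set G : ℂ → ℝ → ENNReal := fun ζ y => ENNReal.ofReal (‖deriv F ζ‖ ^ 2) *
    ENNReal.ofReal (y ^ (kap - 1) * GG F (F ζ) (pt ζ.re y)) with hG
  have hGm : Measurable (fun p : ℂ × ℝ => G p.1 p.2) := by
    have h1 : Measurable (fun p : ℂ × ℝ => ‖deriv F p.1‖ ^ 2) :=
      ((hdm.comp measurable_fst).norm).pow_const 2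
    have h2 : Measurable (fun p : ℂ × ℝ => p.2 ^ (kap - 1)) := measurable_snd.pow_const _
    exact h1.ennreal_ofReal.mul (h2.mul (measurable_GG2 F hF.meas)).ennreal_ofReal
  set G2 : ℂ → ℝ → ENNReal := fun ζ y => if 5 / 3 * ζ.im < y then G ζ y else 0 with hG2
  have hG2m : Measurable (fun p : ℂ × ℝ => G2 p.1 p.2) := by
    refine Measurable.ite ?_ hGm measurable_const
    exact measurableSet_lt ((Complex.measurable_im.comp measurable_fst).const_mul _) measurable_snd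
  have hA : Measurable (fun ζ : ℂ => ENNReal.ofReal (‖deriv F ζ‖ ^ 2 *
        (y0 ^ kap * ‖F ζ - F (pt ζ.re y0)‖ ^ (-(1 / 2) : ℝ)))) := by
    have h1 : Measurable (fun ζ : ℂ => pt ζ.re y0) :=
      measurable_pt.comp (Complex.measurable_re.prodMk measurable_const)
    have h2 : Measurable (fun ζ : ℂ => ‖F ζ - F (pt ζ.re y0)‖) :=
      (hF.meas.sub (hF.meas.comp h1)).norm
    exact ((hdm.norm.pow_const 2).mul ((h2.pow_const _).const_mul _)).ennreal_ofReal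
  -- pointwise bound
  have hpoint : ∀ ζ ∈ S, ENNReal.ofReal (‖deriv F ζ‖ ^ 2 *
        ((5 / 3 * ζ.im) ^ kap * ‖F ζ - F (pt ζ.re (5 / 3 * ζ.im))‖ ^ (-(1 / 2) : ℝ))) ≤
      ENNReal.ofReal (‖deriv F ζ‖ ^ 2 *
        (y0 ^ kap * ‖F ζ - F (pt ζ.re y0)‖ ^ (-(1 / 2) : ℝ))) +
      ∫⁻ y in Ioo T y0, G2 ζ y := by
    intro ζ hζ
    obtain ⟨hζ1, hζ2, hζ3, hζ4⟩ := hζ
    have h3 : 0 < ζ.im := by linarith
    have h4 := vertical F M hF ζ (5 / 3 * ζ.im) y0 h3 (by linarith) (by linarith)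
    have h5 : (0 : ℝ) ≤ ‖deriv F ζ‖ ^ 2 := by positivity
    rw [ENNReal.ofReal_mul h5, ENNReal.ofReal_mul h5]
    refine (mul_le_mul_right h4 _).trans ?_
    rw [mul_add]
    gcongr
    have h6 : ∫⁻ y in Ioo T y0, G2 ζ y = ∫⁻ y in Ioo (5 / 3 * ζ.im) y0, G ζ y := by
      have h7 : ∀ y, G2 ζ y = (Ioi (5 / 3 * ζ.im)).indicator (G ζ) y := by
        intro y
        simp only [hG2, indicator, mem_Ioi]
      simp_rw [h7]
      rw [setLIntegral_indicator measurableSet_Ioi]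
      have h8 : Ioi (5 / 3 * ζ.im) ∩ Ioo T y0 = Ioo (5 / 3 * ζ.im) y0 := by
        ext y
        simp only [mem_inter_iff, mem_Ioi, mem_Ioo]
        constructor
        · rintro ⟨a, b, c⟩
          exact ⟨a, c⟩
        · rintro ⟨a, b⟩
          exact ⟨a, by linarith, b⟩
      rw [h8]
    rw [h6]
    simp only [hG]
    rw [lintegral_const_mul']
    exact ENNReal.ofReal_ne_top
  calc ∫⁻ ζ in S, ENNReal.ofReal (‖deriv F ζ‖ ^ 2 *
        ((5 / 3 * ζ.im) ^ kap * ‖F ζ - F (pt ζ.re (5 / 3 * ζ.im))‖ ^ (-(1 / 2) : ℝ)))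
      ≤ ∫⁻ ζ in S, (ENNReal.ofReal (‖deriv F ζ‖ ^ 2 *
        (y0 ^ kap * ‖F ζ - F (pt ζ.re y0)‖ ^ (-(1 / 2) : ℝ))) +
      ∫⁻ y in Ioo T y0, G2 ζ y) := setLIntegral_mono' hSm hpoint
    _ = (∫⁻ ζ in S, ENNReal.ofReal (‖deriv F ζ‖ ^ 2 *
        (y0 ^ kap * ‖F ζ - F (pt ζ.re y0)‖ ^ (-(1 / 2) : ℝ)))) +
        ∫⁻ ζ in S, ∫⁻ y in Ioo T y0, G2 ζ y := lintegral_add_left hA _
    _ = (∫⁻ ζ in S, ENNReal.ofReal (‖deriv F ζ‖ ^ 2 *
        (y0 ^ kap * ‖F ζ - F (pt ζ.re y0)‖ ^ (-(1 / 2) : ℝ)))) +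
        ∫⁻ y in Ioo T y0, ∫⁻ ζ in S, G2 ζ y := by
        congr 1
        exact lintegral_lintegral_swap hG2m.aemeasurable
    _ = _ := by
        congr 1
        refine setLIntegral_congr_fun measurableSet_Ioo ?_
        intro y hy
        obtain ⟨hy1, hy2⟩ := hy
        have hyp : 0 < y := hT.trans hy1
        have h7 : ∀ ζ, G2 ζ y = ({ζ : ℂ | 5 / 3 * ζ.im < y}).indicator (fun ζ => G ζ y) ζ := by
          intro ζ
          simp only [hG2, indicator, mem_ofPred_eq]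
        simp_rw [h7]
        have hm : MeasurableSet {ζ : ℂ | 5 / 3 * ζ.im < y} :=
          measurableSet_lt (Complex.measurable_im.const_mul _) measurable_const
        rw [setLIntegral_indicator hm]
        have h8 : {ζ : ℂ | 5 / 3 * ζ.im < y} ∩ S = strip (3 / 5 * T) (3 / 5 * y) := by
          ext ζ
          simp only [mem_inter_iff, mem_ofPred_eq, hS, strip]
          constructor
          · rintro ⟨a, b, c, d, e⟩
            exact ⟨b, c, d, by linarith⟩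
          · rintro ⟨a, b, c, d⟩
            exact ⟨by linarith, a, b, c, by linarith⟩
        rw [h8]
        simp only [hG]
        rw [← lintegral_const_mul' _ _ ENNReal.ofReal_ne_top]
        refine lintegral_congr fun ζ => ?_
        have h5 : (0 : ℝ) ≤ ‖deriv F ζ‖ ^ 2 := by positivity
        have h9 : (0 : ℝ) ≤ y ^ (kap - 1) := Real.rpow_nonneg hyp.le _
        rw [ENNReal.ofReal_mul h5, ENNReal.ofReal_mul h9]
        ring

end H62.CJ
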