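import Pool.Agent.H62.CJ.J5

/-!
# CJ-N1: the final numerical inequality

With `p = 3/2`, `nu = 0.6369`: cost coefficient
`(1/2)(cQ0 + cQ1 (nu/p) + cQ2 nu(nu+1)/p^2)`, consumption coefficient
`2^(-1/2) (5/3)^kap (n0 + n1 (nu/p) + n2 nu(nu+1)/p^2)`.  Claim: cost + 1/1000 <= consumption.

PROOF.  `nu/p = 0.4246`, `nu (nu+1)/p^2 = 0.463355...`.  Put `ε = nu/p - bbar = -0.0004` and
`vr = nu(nu+1)/p^2 - 2 bbar nu/p + bbar^2 = 0.28306683`.
By definition of `cQ0, cQ1, cQ2`: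
cost `= (1/2)(Phi0 + Phi1 ε + cQ2 vr) <= (1/2)(2.4435 + 0 + (0.7262+0.065) * 0.283067) <= 1.33374`
(`Phi1 >= 0`, `ε <= 0`).
Consumption: `n0 + n1 nu/p + n2 nu(nu+1)/p^2 = m0 + m1 ε - 0.03 vr`, `m0 = sqrt 3.17 >= 1.78044`,
`m1 = 1/(2 sqrt 3.17) <= 0.281`; so it is `>= 1.78044 - 0.00012 - 0.0084921 = 1.7718279`.
`2^(-1/2) >= 0.70710`, `(5/3)^0.1369 >= 1.0724`: `0.1369 log (5/3)`, `log (5/3) >= 0.5108` and
`exp x >= 1 + x + x^2/2 + x^3/6`, `x >= 0.06992`: `>= 1.07242`.  (`log (5/3) >= 0.5108`: `5/3 >= exp 0.5108`,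
by the Taylor bound `Real.exp_bound'`; or `log (5/3) = 2 artanh (1/4) >= 2 (1/4 + 1/192 + 1/5120)`,
i.e. `log (5/3) >= 0.5108072`; or prove `(5/3)^1369 >= (1.0724)^10000`-type inequality with `norm_num`
in the form `(5/3)^0.1369 >= 1.0724`, raising to the power `10000` — numbers of moderate size.)
Product: `>= 0.70710 * 1.0724 * 1.7718279 >= 1.3435`.  `1.33374 + 0.001 <= 1.3435`.
-/

set_option autoImplicit false

open Set Metric MeasureTheory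

namespace H62.CJ

theorem n1_two_rpow : (7071 / 10000 : ℝ) ≤ (2 : ℝ) ^ (-(1 / 2) : ℝ) := by
  have h : (2 : ℝ) ^ (-(1 / 2) : ℝ) = (Real.sqrt 2)⁻¹ := by
    rw [Real.rpow_neg (by norm_num), Real.sqrt_eq_rpow]
  rw [h]
  have h2 : Real.sqrt 2 ≤ 10000 / 7071 := by
    rw [Real.sqrt_le_left (by norm_num)]
    norm_num
  have h3 : 0 < Real.sqrt 2 := Real.sqrt_pos.mpr (by norm_num)
  rw [show (7071 / 10000 : ℝ) = (10000 / 7071)⁻¹ by norm_num]
  exact inv_anti₀ h3 h2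

theorem n1_log : (5108 / 10000 : ℝ) ≤ Real.log (5 / 3) := by
  rw [Real.le_log_iff_exp_le (by norm_num)]
  have h := Real.exp_bound' (x := 5108 / 10000) (by norm_num) (by norm_num) (n := 8) (by norm_num)
  refine h.trans ?_
  norm_num [Finset.sum_range_succ, Nat.factorial]

theorem n1_rpow : (10724 / 10000 : ℝ) ≤ (5 / 3 : ℝ) ^ kap := by
  rw [Real.rpow_def_of_pos (by norm_num)]
  have h1 := n1_log
  have h2 : (6992 / 100000 : ℝ) ≤ Real.log (5 / 3) * kap := by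
    unfold kap
    linarith
  have h3 : Real.exp (6992 / 100000 : ℝ) ≤ Real.exp (Real.log (5 / 3) * kap) :=
    Real.exp_le_exp.mpr h2
  refine le_trans ?_ h3
  have h4 := Real.sum_le_exp_of_nonneg (x := (6992 / 100000 : ℝ)) (by norm_num) 4
  refine le_trans ?_ h4
  norm_num [Finset.sum_range_succ, Nat.factorial]

theorem num_ineq :
    1 / 2 * (cQ0 + cQ1 * (nu / (3 / 2)) + cQ2 * (nu * (nu + 1) / (3 / 2) ^ 2)) + 1 / 1000 ≤
      (2 : ℝ) ^ (-(1 / 2) : ℝ) * (5 / 3 : ℝ) ^ kap *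
        (n0 + n1 * (nu / (3 / 2)) + n2 * (nu * (nu + 1) / (3 / 2) ^ 2)) := by
  have hs1 : (178044 / 100000 : ℝ) ≤ Real.sqrt (317 / 100) := by
    apply Real.le_sqrt_of_sq_le
    norm_num
  have hs0 : 0 < Real.sqrt (317 / 100) := by linarith
  have hm1 : m1 ≤ 281 / 1000 := by
    unfold m1
    rw [div_le_iff₀ (by positivity)]
    linarith
  have hP0 := Phi0_le
  have hP1 := Phi1_nonneg
  have hK := KE_le
  have hcost : 1 / 2 * (cQ0 + cQ1 * (nu / (3 / 2)) + cQ2 * (nu * (nu + 1) / (3 / 2) ^ 2))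
      ≤ 133375 / 100000 := by
    unfold cQ0 cQ1 cQ2 nu bbar
    linarith
  have hcons : (177182 / 100000 : ℝ) ≤
      n0 + n1 * (nu / (3 / 2)) + n2 * (nu * (nu + 1) / (3 / 2) ^ 2) := by
    have hm0 : (178044 / 100000 : ℝ) ≤ m0 := hs1
    unfold n0 n1 n2 nu bbar
    linarith
  have hA := n1_two_rpow
  have hB := n1_rpow
  have hAB : (7071 / 10000 : ℝ) * (10724 / 10000) ≤ (2 : ℝ) ^ (-(1 / 2) : ℝ) * (5 / 3 : ℝ) ^ kap :=
    mul_le_mul hA hB (by norm_num) (by linarith)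
  have hABC : (7071 / 10000 : ℝ) * (10724 / 10000) * (177182 / 100000) ≤
      (2 : ℝ) ^ (-(1 / 2) : ℝ) * (5 / 3 : ℝ) ^ kap *
        (n0 + n1 * (nu / (3 / 2)) + n2 * (nu * (nu + 1) / (3 / 2) ^ 2)) :=
    mul_le_mul hAB hcons (by norm_num) (by linarith)
  linarith

end H62.CJ
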