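import Pool.Agent.H62.CJ.T2

/-!
# CJ-P1: derivatives of the integral means (exact moment identities)

`F` in the class.  `L = F''/F'` is holomorphic on the upper half plane (`F' ≠ 0`: `deriv_ne`), periodic, and
`AA F (pt x y) = y L (pt x y)`.  Put `u x y = ‖F' (pt x y)‖^p`.
* `∂_x u = p u Re L`, `∂_y u = - p u Im L`: by `norm_rpow_hasDerivAt` (in `T2`) for the curve `F' (pt x y)`,
  whose `x` derivative is `F''` and whose `y` derivative is `i F''`; `Re (i L) = - Im L`.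

`PP_hasDerivAt`: `PP' = int ∂_y u = - p int u Im L = - (p/y) B1`.  Differentiation under the integral sign
(`intervalIntegral.hasDerivAt_integral_of_dominated_loc_of_deriv_le`), the bound for the `y` derivative on
`[0, 2 pi] × [y/2, 2y]` by compactness (continuous function of two variables).

`B1_hasDerivAt`: `B1/y = int u Im L dx`.  `∂_y (u Im L) = - p u (Im L)^2 + u Re L'`
(`∂_y L = i L'`, `Im (i L') = Re L'`), `∂_x (u Re L) = p u (Re L)^2 + u Re L'`, so
`∂_y (u Im L) = - p u |L|^2 + ∂_x (u Re L)`.  Integrate over `x ∈ [0, 2 pi]`: the last term gives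
`u Re L` at `2 pi` minus at `0`, which is `0` by periodicity.  So
`(B1/y)' = - p int u |L|^2 = - (p/y^2) B2`.

Continuity of `PP, B1, B2` on `(0, ∞)`: `PP` and `B1/y` are differentiable; for `B2`:
`intervalIntegral.continuousOn...` (`intervalIntegral.continuous_parametric...` on compact subsets).
-/

set_option autoImplicit false

open Set Metric MeasureTheory Filter Topology

namespace H62.CJ

/-- differentiation under the integral sign, continuous version -/
theorem P1_param (G G' : ℝ → ℝ → ℝ) (a b y : ℝ) (hy : 0 < y)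
    (hG : ∀ r : ℝ, 0 < r → Continuous (fun x => G x r))
    (hG' : ContinuousOn (fun q : ℝ × ℝ => G' q.1 q.2) (univ ×ˢ Ioi 0))
    (hd : ∀ x r : ℝ, 0 < r → HasDerivAt (fun r => G x r) (G' x r) r) :
    HasDerivAt (fun r => ∫ x in a..b, G x r) (∫ x in a..b, G' x y) y := by
  have hK : IsCompact (uIcc a b ×ˢ Icc (y / 2) (2 * y)) := isCompact_uIcc.prod isCompact_Icc
  have hKs : (uIcc a b ×ˢ Icc (y / 2) (2 * y)) ⊆ (univ : Set ℝ) ×ˢ Ioi (0 : ℝ) := by
    rintro ⟨x, r⟩ ⟨_, h2, _⟩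
    refine ⟨mem_univ _, ?_⟩
    simp only [mem_Ioi]
    simp only at h2
    linarith
  obtain ⟨C, hC⟩ := hK.exists_bound_of_continuousOn (hG'.mono hKs)
  have hs : Icc (y / 2) (2 * y) ∈ 𝓝 y := Icc_mem_nhds (by linarith) (by linarith)
  have hcont : Continuous (fun x => G' x y) := by
    have h1 : Continuous (fun x : ℝ => ((x, y) : ℝ × ℝ)) := by fun_prop
    have h2 := hG'.comp_continuous h1 (fun x => ⟨mem_univ _, hy⟩)
    exact h2
  refine (intervalIntegral.hasDerivAt_integral_of_dominated_loc_of_deriv_le (μ := volume)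
    (F := fun r x => G x r) (F' := fun r x => G' x r) (bound := fun _ => C) hs ?_ ?_ ?_ ?_ ?_ ?_).2
  · filter_upwards [Ioi_mem_nhds hy] with r hr
    exact (hG r hr).aestronglyMeasurable
  · exact (hG y hy).intervalIntegrable _ _
  · exact hcont.aestronglyMeasurable
  · refine Eventually.of_forall ?_
    intro t ht r hr
    exact hC (t, r) ⟨uIoc_subset_uIcc ht, hr⟩
  · exact intervalIntegrable_const
  · refine Eventually.of_forall ?_
    intro t ht r hr
    exact hd t r (by have := hr.1; linarith)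

/-- continuity of a parametric integral on the half line -/
theorem P1_cont (G : ℝ → ℝ → ℝ) (a b : ℝ)
    (hG : ContinuousOn (fun q : ℝ × ℝ => G q.1 q.2) (univ ×ˢ Ioi 0)) :
    ContinuousOn (fun r => ∫ x in a..b, G x r) (Ioi 0) := by
  intro y hy
  have hy0 : (0 : ℝ) < y := hy
  have h1 : Continuous (Function.uncurry (fun (r x : ℝ) => G x (max r (y / 2)))) := by
    have h2 : Continuous (fun q : ℝ × ℝ => ((q.2, max q.1 (y / 2)) : ℝ × ℝ)) := by fun_prop
    have h3 := hG.comp_continuous h2 (fun q => ⟨mem_univ _, by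
      simp only [mem_Ioi]
      exact lt_max_of_lt_right (by linarith)⟩)
    exact h3
  have h4 := intervalIntegral.continuous_parametric_intervalIntegral_of_continuous'
    (μ := volume) h1 a b
  refine ContinuousAt.continuousWithinAt ?_
  refine (h4.continuousAt (x := y)).congr ?_
  filter_upwards [Ioi_mem_nhds (show y / 2 < y by linarith)] with r hr
  have h5 : max r (y / 2) = r := max_eq_left (le_of_lt hr)
  simp only [h5]

theorem P1_HP_open : IsOpen HP := isOpen_lt continuous_const Complex.continuous_im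

theorem P1_pt_cont : Continuous (fun q : ℝ × ℝ => pt q.1 q.2) := by
  have h : (fun q : ℝ × ℝ => pt q.1 q.2) =
      (fun q : ℝ × ℝ => (q.1 : ℂ) + (q.2 : ℂ) * Complex.I) := by
    funext q
    exact pt_eq _ _
  rw [h]
  fun_prop

theorem P1_ptx (x y : ℝ) : HasDerivAt (fun t : ℝ => pt t y) 1 x := by
  have h : (fun t : ℝ => pt t y) = (fun t : ℝ => (t : ℂ) + (y : ℂ) * Complex.I) := by
    funext q
    exact pt_eq _ _
  rw [h]
  exact (Complex.ofRealCLM.hasDerivAt (x := x)).add_const _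

theorem P1_pty (x y : ℝ) : HasDerivAt (fun r : ℝ => pt x r) Complex.I y := by
  have h : (fun r : ℝ => pt x r) = (fun r : ℝ => (x : ℂ) + (r : ℂ) * Complex.I) := by
    funext q
    exact pt_eq _ _
  rw [h]
  have h1 := ((Complex.ofRealCLM.hasDerivAt (x := y)).mul_const Complex.I).const_add (x : ℂ)
  simpa using h1

theorem P1_compx (g : ℂ → ℂ) (g' : ℂ) (x y : ℝ) (hg : HasDerivAt g g' (pt x y)) :
    HasDerivAt (fun t : ℝ => g (pt t y)) g' x := by
  have h := hg.comp_of_eq x (P1_ptx x y) rfl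
  simpa [Function.comp_def] using h

theorem P1_compy (g : ℂ → ℂ) (g' : ℂ) (x y : ℝ) (hg : HasDerivAt g g' (pt x y)) :
    HasDerivAt (fun r : ℝ => g (pt x r)) (g' * Complex.I) y := by
  have h := hg.comp_of_eq y (P1_pty x y) rfl
  simpa [Function.comp_def] using h

theorem P1_cont2 (g : ℂ → ℂ) (hg : DifferentiableOn ℂ g HP) :
    ContinuousOn (fun q : ℝ × ℝ => g (pt q.1 q.2)) (univ ×ˢ Ioi 0) := by
  refine hg.continuousOn.comp P1_pt_cont.continuousOn ?_
  rintro ⟨x, y⟩ ⟨_, hy⟩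
  exact hy

/-- the logarithmic derivative of `F'` -/
noncomputable def P1L (F : ℂ → ℂ) (z : ℂ) : ℂ := deriv (deriv F) z / deriv F z

theorem P1_d1 (F : ℂ → ℂ) (M : ℝ) (hF : Cls F M) : DifferentiableOn ℂ (deriv F) HP :=
  hF.diff.deriv P1_HP_open

theorem P1_d2 (F : ℂ → ℂ) (M : ℝ) (hF : Cls F M) : DifferentiableOn ℂ (deriv (deriv F)) HP :=
  (P1_d1 F M hF).deriv P1_HP_open

theorem P1_dL (F : ℂ → ℂ) (M : ℝ) (hF : Cls F M) : DifferentiableOn ℂ (P1L F) HP :=
  (P1_d2 F M hF).div (P1_d1 F M hF) (fun z hz => deriv_ne F M hF z hz)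

theorem P1_h1 (F : ℂ → ℂ) (M : ℝ) (hF : Cls F M) (z : ℂ) (hz : 0 < z.im) :
    HasDerivAt (deriv F) (deriv (deriv F) z) z :=
  ((P1_d1 F M hF).differentiableAt (P1_HP_open.mem_nhds hz)).hasDerivAt

theorem P1_hL (F : ℂ → ℂ) (M : ℝ) (hF : Cls F M) (z : ℂ) (hz : 0 < z.im) :
    HasDerivAt (P1L F) (deriv (P1L F) z) z :=
  ((P1_dL F M hF).differentiableAt (P1_HP_open.mem_nhds hz)).hasDerivAt

theorem P1_cL' (F : ℂ → ℂ) (M : ℝ) (hF : Cls F M) : DifferentiableOn ℂ (deriv (P1L F)) HP :=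
  (P1_dL F M hF).deriv P1_HP_open

theorem P1_AA (F : ℂ → ℂ) (x y : ℝ) : AA F (pt x y) = (y : ℂ) * P1L F (pt x y) := by
  unfold AA P1L
  rw [pt_im]
  ring

theorem P1_Lper (F : ℂ → ℂ) (M : ℝ) (hF : Cls F M) (x y : ℝ) (hy : 0 < y) :
    P1L F (pt (x + 2 * Real.pi) y) = P1L F (pt x y) := by
  have e : ∀ t : ℝ, pt (t + 2 * Real.pi) y = pt t y + ((2 * Real.pi : ℝ) : ℂ) := by
    intro t
    rw [pt_eq, pt_eq]
    push_cast
    ring
  have h1 : ∀ t : ℝ, deriv F (pt (t + 2 * Real.pi) y) = deriv F (pt t y) := by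
    intro t
    rw [e t]
    exact deriv_per F M hF (pt t y) hy
  have h2 : deriv (deriv F) (pt (x + 2 * Real.pi) y) = deriv (deriv F) (pt x y) := by
    have ha : HasDerivAt (fun t : ℝ => deriv F (pt t y)) (deriv (deriv F) (pt x y)) x :=
      P1_compx _ _ _ _ (P1_h1 F M hF _ hy)
    have hb : HasDerivAt (fun t : ℝ => deriv F (pt t y))
        (deriv (deriv F) (pt (x + 2 * Real.pi) y)) (x + 2 * Real.pi) :=
      P1_compx _ _ _ _ (P1_h1 F M hF _ hy)
    have hc := hb.comp_add_const x (2 * Real.pi)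
    have hd : (fun t : ℝ => deriv F (pt (t + 2 * Real.pi) y)) =
        (fun t : ℝ => deriv F (pt t y)) := by
      funext t
      exact h1 t
    rw [hd] at hc
    exact hc.unique ha
  unfold P1L
  rw [h2, h1]

theorem P1_uy (F : ℂ → ℂ) (M : ℝ) (hF : Cls F M) (p x y : ℝ) (hy : 0 < y) :
    HasDerivAt (fun r : ℝ => ‖deriv F (pt x r)‖ ^ p)
      (-(p * ‖deriv F (pt x y)‖ ^ p * (P1L F (pt x y)).im)) y := by
  have h := norm_rpow_hasDerivAt (fun r : ℝ => deriv F (pt x r)) _ y p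
    (P1_compy _ _ _ _ (P1_h1 F M hF _ hy)) (deriv_ne F M hF _ hy)
  have e : (deriv (deriv F) (pt x y) * Complex.I / deriv F (pt x y)).re
      = -(P1L F (pt x y)).im := by
    have : deriv (deriv F) (pt x y) * Complex.I / deriv F (pt x y)
        = P1L F (pt x y) * Complex.I := by
      unfold P1L
      ring
    rw [this]
    simp
  rw [e] at h
  refine h.congr_deriv ?_
  ring

theorem P1_ux (F : ℂ → ℂ) (M : ℝ) (hF : Cls F M) (p x y : ℝ) (hy : 0 < y) :
    HasDerivAt (fun t : ℝ => ‖deriv F (pt t y)‖ ^ p)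
      (p * ‖deriv F (pt x y)‖ ^ p * (P1L F (pt x y)).re) x := by
  have h := norm_rpow_hasDerivAt (fun t : ℝ => deriv F (pt t y)) _ x p
    (P1_compx _ _ _ _ (P1_h1 F M hF _ hy)) (deriv_ne F M hF _ hy)
  exact h

theorem P1_ucont (F : ℂ → ℂ) (M : ℝ) (hF : Cls F M) (p : ℝ) :
    ContinuousOn (fun q : ℝ × ℝ => ‖deriv F (pt q.1 q.2)‖ ^ p) (univ ×ˢ Ioi 0) := by
  refine (P1_cont2 _ (P1_d1 F M hF)).norm.rpow_const ?_
  rintro ⟨x, y⟩ ⟨_, hy⟩
  left
  exact norm_ne_zero_iff.mpr (deriv_ne F M hF _ hy)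

theorem P1_Lim (F : ℂ → ℂ) (M : ℝ) (hF : Cls F M) :
    ContinuousOn (fun q : ℝ × ℝ => (P1L F (pt q.1 q.2)).im) (univ ×ˢ Ioi 0) :=
  Complex.continuous_im.comp_continuousOn (P1_cont2 _ (P1_dL F M hF))

theorem P1_Lre (F : ℂ → ℂ) (M : ℝ) (hF : Cls F M) :
    ContinuousOn (fun q : ℝ × ℝ => (P1L F (pt q.1 q.2)).re) (univ ×ˢ Ioi 0) :=
  Complex.continuous_re.comp_continuousOn (P1_cont2 _ (P1_dL F M hF))

theorem P1_slice (G : ℝ → ℝ → ℝ)
    (hG : ContinuousOn (fun q : ℝ × ℝ => G q.1 q.2) (univ ×ˢ Ioi 0)) (r : ℝ) (hr : 0 < r) :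
    Continuous (fun x => G x r) := by
  have h1 : Continuous (fun x : ℝ => ((x, r) : ℝ × ℝ)) := by fun_prop
  exact hG.comp_continuous h1 (fun x => ⟨mem_univ _, hr⟩)

theorem PP_hasDerivAt (F : ℂ → ℂ) (M : ℝ) (hF : Cls F M) (p y : ℝ) (hy : 0 < y) :
    HasDerivAt (PP F p) (-(p / y) * B1 F p y) y := by
  have h := P1_param (fun x r => ‖deriv F (pt x r)‖ ^ p)
    (fun x r => -(p * ‖deriv F (pt x r)‖ ^ p * (P1L F (pt x r)).im)) 0 (2 * Real.pi) y hy
    (fun r hr => P1_slice (fun x r => ‖deriv F (pt x r)‖ ^ p) (P1_ucont F M hF p) r hr)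
    (((continuousOn_const.mul (P1_ucont F M hF p)).mul (P1_Lim F M hF)).neg)
    (fun x r hr => P1_uy F M hF p x r hr)
  have e : (∫ x in (0 : ℝ)..(2 * Real.pi),
      -(p * ‖deriv F (pt x y)‖ ^ p * (P1L F (pt x y)).im)) = -(p / y) * B1 F p y := by
    unfold B1
    rw [← intervalIntegral.integral_const_mul]
    refine intervalIntegral.integral_congr ?_
    intro x _
    simp only
    rw [P1_AA, Complex.im_ofReal_mul]
    field_simp
  rw [e] at h
  exact h

theorem P1_vy (F : ℂ → ℂ) (M : ℝ) (hF : Cls F M) (p x y : ℝ) (hy : 0 < y) :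
    HasDerivAt (fun r : ℝ => ‖deriv F (pt x r)‖ ^ p * (P1L F (pt x r)).im)
      (-(p * ‖deriv F (pt x y)‖ ^ p * (P1L F (pt x y)).im ^ 2) +
        ‖deriv F (pt x y)‖ ^ p * (deriv (P1L F) (pt x y)).re) y := by
  have h1 := P1_uy F M hF p x y hy
  have h2 := P1_compy _ _ _ _ (P1_hL F M hF (pt x y) hy)
  have h3 : HasDerivAt (fun r : ℝ => (P1L F (pt x r)).im)
      (deriv (P1L F) (pt x y) * Complex.I).im y := by
    have := Complex.imCLM.hasFDerivAt.comp_hasDerivAt y h2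
    simpa [Function.comp_def] using this
  have h4 := h1.mul h3
  refine h4.congr_deriv ?_
  simp
  ring

theorem P1_vx (F : ℂ → ℂ) (M : ℝ) (hF : Cls F M) (p x y : ℝ) (hy : 0 < y) :
    HasDerivAt (fun t : ℝ => ‖deriv F (pt t y)‖ ^ p * (P1L F (pt t y)).re)
      (p * ‖deriv F (pt x y)‖ ^ p * (P1L F (pt x y)).re ^ 2 +
        ‖deriv F (pt x y)‖ ^ p * (deriv (P1L F) (pt x y)).re) x := by
  have h1 := P1_ux F M hF p x y hy
  have h2 := P1_compx _ _ _ _ (P1_hL F M hF (pt x y) hy)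
  have h3 : HasDerivAt (fun t : ℝ => (P1L F (pt t y)).re)
      (deriv (P1L F) (pt x y)).re x := by
    have := Complex.reCLM.hasFDerivAt.comp_hasDerivAt x h2
    simpa [Function.comp_def] using this
  have h4 := h1.mul h3
  refine h4.congr_deriv ?_
  ring

theorem P1_L're (F : ℂ → ℂ) (M : ℝ) (hF : Cls F M) :
    ContinuousOn (fun q : ℝ × ℝ => (deriv (P1L F) (pt q.1 q.2)).re) (univ ×ˢ Ioi 0) :=
  Complex.continuous_re.comp_continuousOn (P1_cont2 _ (P1_cL' F M hF))

theorem P1_B1_eq (F : ℂ → ℂ) (p r : ℝ) (hr : r ≠ 0) :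
    B1 F p r / r = ∫ x in (0 : ℝ)..(2 * Real.pi),
      ‖deriv F (pt x r)‖ ^ p * (P1L F (pt x r)).im := by
  unfold B1
  rw [div_eq_inv_mul, ← intervalIntegral.integral_const_mul]
  refine intervalIntegral.integral_congr ?_
  intro x _
  simp only
  rw [P1_AA, Complex.im_ofReal_mul]
  field_simp

theorem B1_hasDerivAt (F : ℂ → ℂ) (M : ℝ) (hF : Cls F M) (p y : ℝ) (hy : 0 < y) :
    HasDerivAt (fun r => B1 F p r / r) (-(p / y ^ 2) * B2 F p y) y := by
  have hc1 : ContinuousOn (fun q : ℝ × ℝ =>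
      -(p * ‖deriv F (pt q.1 q.2)‖ ^ p * (P1L F (pt q.1 q.2)).im ^ 2) +
        ‖deriv F (pt q.1 q.2)‖ ^ p * (deriv (P1L F) (pt q.1 q.2)).re) (univ ×ˢ Ioi 0) :=
    (((continuousOn_const.mul (P1_ucont F M hF p)).mul ((P1_Lim F M hF).pow 2)).neg).add
      ((P1_ucont F M hF p).mul (P1_L're F M hF))
  have hc2 : ContinuousOn (fun q : ℝ × ℝ =>
      p * ‖deriv F (pt q.1 q.2)‖ ^ p * (P1L F (pt q.1 q.2)).re ^ 2 +
        ‖deriv F (pt q.1 q.2)‖ ^ p * (deriv (P1L F) (pt q.1 q.2)).re) (univ ×ˢ Ioi 0) :=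
    ((continuousOn_const.mul (P1_ucont F M hF p)).mul ((P1_Lre F M hF).pow 2)).add
      ((P1_ucont F M hF p).mul (P1_L're F M hF))
  have h := P1_param (fun x r => ‖deriv F (pt x r)‖ ^ p * (P1L F (pt x r)).im)
    (fun x r => -(p * ‖deriv F (pt x r)‖ ^ p * (P1L F (pt x r)).im ^ 2) +
        ‖deriv F (pt x r)‖ ^ p * (deriv (P1L F) (pt x r)).re) 0 (2 * Real.pi) y hy
    (fun r hr => P1_slice (fun x r => ‖deriv F (pt x r)‖ ^ p * (P1L F (pt x r)).im)
      ((P1_ucont F M hF p).mul (P1_Lim F M hF)) r hr)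
    hc1
    (fun x r hr => P1_vy F M hF p x r hr)
  have hx : (∫ x in (0 : ℝ)..(2 * Real.pi),
      (p * ‖deriv F (pt x y)‖ ^ p * (P1L F (pt x y)).re ^ 2 +
        ‖deriv F (pt x y)‖ ^ p * (deriv (P1L F) (pt x y)).re)) = 0 := by
    rw [intervalIntegral.integral_eq_sub_of_hasDerivAt
      (fun x _ => P1_vx F M hF p x y hy)
      ((P1_slice (fun x r => p * ‖deriv F (pt x r)‖ ^ p * (P1L F (pt x r)).re ^ 2 +
        ‖deriv F (pt x r)‖ ^ p * (deriv (P1L F) (pt x r)).re) hc2 y hy).intervalIntegrable _ _)]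
    have e1 := P1_Lper F M hF 0 y hy
    rw [zero_add] at e1
    have e2 : deriv F (pt (2 * Real.pi) y) = deriv F (pt 0 y) := by
      have := deriv_per F M hF (pt 0 y) hy
      rw [← this]
      have e3 : pt (2 * Real.pi) y = pt 0 y + ((2 * Real.pi : ℝ) : ℂ) := by
        rw [pt_eq, pt_eq]
        push_cast
        ring
      rw [e3]
    rw [e1, e2]
    ring
  have e : (∫ x in (0 : ℝ)..(2 * Real.pi),
      (-(p * ‖deriv F (pt x y)‖ ^ p * (P1L F (pt x y)).im ^ 2) +
        ‖deriv F (pt x y)‖ ^ p * (deriv (P1L F) (pt x y)).re)) = -(p / y ^ 2) * B2 F p y := by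
    have h5 : (∫ x in (0 : ℝ)..(2 * Real.pi),
      (-(p * ‖deriv F (pt x y)‖ ^ p * (P1L F (pt x y)).im ^ 2) +
        ‖deriv F (pt x y)‖ ^ p * (deriv (P1L F) (pt x y)).re)) -
        (∫ x in (0 : ℝ)..(2 * Real.pi),
      (p * ‖deriv F (pt x y)‖ ^ p * (P1L F (pt x y)).re ^ 2 +
        ‖deriv F (pt x y)‖ ^ p * (deriv (P1L F) (pt x y)).re)) = -(p / y ^ 2) * B2 F p y := by
      rw [← intervalIntegral.integral_sub
        ((P1_slice (fun x r => -(p * ‖deriv F (pt x r)‖ ^ p * (P1L F (pt x r)).im ^ 2) +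
          ‖deriv F (pt x r)‖ ^ p * (deriv (P1L F) (pt x r)).re) hc1 y hy).intervalIntegrable _ _)
        ((P1_slice (fun x r => p * ‖deriv F (pt x r)‖ ^ p * (P1L F (pt x r)).re ^ 2 +
          ‖deriv F (pt x r)‖ ^ p * (deriv (P1L F) (pt x r)).re) hc2 y hy).intervalIntegrable _ _)]
      unfold B2
      rw [← intervalIntegral.integral_const_mul]
      refine intervalIntegral.integral_congr ?_
      intro x _
      simp only
      rw [P1_AA, norm_mul, Complex.norm_real, Real.norm_eq_abs, mul_pow, sq_abs,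
        ← Complex.normSq_eq_norm_sq, Complex.normSq_apply]
      field_simp
      ring
    rw [hx, sub_zero] at h5
    exact h5
  rw [e] at h
  refine h.congr_of_eventuallyEq ?_
  filter_upwards [Ioi_mem_nhds hy] with r hr
  exact P1_B1_eq F p r (ne_of_gt hr)

theorem PP_continuousOn (F : ℂ → ℂ) (M : ℝ) (hF : Cls F M) (p : ℝ) :
    ContinuousOn (PP F p) (Ioi 0) := by
  intro y hy
  exact (PP_hasDerivAt F M hF p y hy).continuousAt.continuousWithinAt

theorem B1_continuousOn (F : ℂ → ℂ) (M : ℝ) (hF : Cls F M) (p : ℝ) :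
    ContinuousOn (B1 F p) (Ioi 0) := by
  have h1 : ContinuousOn (fun r => (B1 F p r / r) * r) (Ioi 0) := by
    refine ContinuousOn.mul ?_ continuousOn_id
    intro y hy
    exact (B1_hasDerivAt F M hF p y hy).continuousAt.continuousWithinAt
  refine h1.congr ?_
  intro r hr
  have hr0 : r ≠ 0 := ne_of_gt hr
  simp only
  field_simp

theorem B2_continuousOn (F : ℂ → ℂ) (M : ℝ) (hF : Cls F M) (p : ℝ) :
    ContinuousOn (B2 F p) (Ioi 0) := by
  have h1 := P1_cont (fun x r => ‖deriv F (pt x r)‖ ^ p * ‖AA F (pt x r)‖ ^ 2) 0 (2 * Real.pi)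
    (by
      refine (P1_ucont F M hF p).mul ?_
      have h2 : ContinuousOn (fun q : ℝ × ℝ => ‖(q.2 : ℂ) * P1L F (pt q.1 q.2)‖ ^ 2)
          (univ ×ˢ Ioi 0) := by
        refine ContinuousOn.pow (ContinuousOn.norm (ContinuousOn.mul ?_
          (P1_cont2 _ (P1_dL F M hF)))) 2
        exact (Complex.continuous_ofReal.comp continuous_snd).continuousOn
      refine h2.congr ?_
      rintro ⟨x, y⟩ _
      simp only
      rw [P1_AA])
  exact h1

end H62.CJ
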