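import Pool.Agent.H62.CJ.P1
import Pool.Agent.H62.CJ.L3

/-!
# CJ-P2: integration by parts, Cauchy and Harnack bounds

`parts1`: `B1 = - (y/p) PP'`, so `int_a^b y^(μ-1) B1 = - (1/p) int y^μ PP'
 = (1/p)(a^μ PP a - b^μ PP b) + (μ/p) int y^(μ-1) PP`.
`parts2`: `B2 = - (y^2/p)(B1/y)'`, so `int y^(μ-1) B2 = - (1/p) int y^(μ+1) (B1/y)'
 = (1/p)(a^μ B1 a - b^μ B1 b) + ((μ+1)/p) int y^(μ-1) B1`.
(`intervalIntegral.integral_mul_deriv_eq_deriv_mul` on `[a,b] ⊆ (0, ∞)`, continuity from `P1`.)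

`cauchy_bound`: `0 < y <= 1`: the ball of radius `r < y` about `pt x y` lies in `0 < Im <= 2`, where `|F| <= M`;
Cauchy estimate (`Complex.norm_deriv_le_of_forall_mem_sphere_norm_le`) and `r -> y`.
`PP_le`: monotonicity of the integral.  `PP_pos`: `F' ≠ 0`, continuous positive integrand.
`B1_le`: `|Im A| <= |A| <= 4` (`AA_le`).
`PP_harnack1`: `(y^(4p) PP)' = y^(4p-1)(4 p PP - p B1) >= 0` on `(0, 1/2]`.
`PP_harnack2`: `(y^(-4p) PP)' = y^(-4p-1)(- 4 p PP - p B1) <= 0`.
-/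

set_option autoImplicit false

open Set Metric MeasureTheory

namespace H62.CJ

/-- the derivative of `y ^ ν * u y` -/
theorem P2_deriv (u w : ℝ → ℝ) (p ν y : ℝ) (hy : 0 < y)
    (hd : HasDerivAt u (-(p / y) * w y) y) :
    HasDerivAt (fun r => r ^ ν * u r) (y ^ (ν - 1) * (ν * u y - p * w y)) y := by
  have h := (Real.hasDerivAt_rpow_const (p := ν) (Or.inl hy.ne')).mul hd
  refine h.congr_deriv ?_
  have e : y ^ ν = y ^ (ν - 1) * y := by
    rw [← Real.rpow_add_one hy.ne', sub_add_cancel]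
  rw [e]
  field_simp
  ring

theorem P2_parts (u w : ℝ → ℝ) (hu : ContinuousOn u (Ioi 0)) (hw : ContinuousOn w (Ioi 0))
    (p : ℝ) (hp : 0 < p) (hd : ∀ y, 0 < y → HasDerivAt u (-(p / y) * w y) y) (ν a b : ℝ)
    (ha : 0 < a) (hab : a ≤ b) :
    ∫ y in a..b, y ^ (ν - 1) * w y =
      1 / p * (a ^ ν * u a - b ^ ν * u b) + ν / p * ∫ y in a..b, y ^ (ν - 1) * u y := by
  have hs : ∀ y ∈ uIcc a b, 0 < y := by
    intro y hy
    rw [uIcc_of_le hab] at hy
    exact ha.trans_le hy.1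
  have hsub : uIcc a b ⊆ Ioi 0 := fun y hy => hs y hy
  have hr : ContinuousOn (fun y : ℝ => y ^ (ν - 1)) (uIcc a b) := by
    intro y hy
    exact (Real.continuousAt_rpow_const y (ν - 1) (Or.inl (hs y hy).ne')).continuousWithinAt
  have hi1 : IntervalIntegrable (fun y => y ^ (ν - 1) * u y) volume a b :=
    (hr.mul (hu.mono hsub)).intervalIntegrable
  have hi2 : IntervalIntegrable (fun y => y ^ (ν - 1) * w y) volume a b :=
    (hr.mul (hw.mono hsub)).intervalIntegrable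
  have h1 : ∀ y ∈ uIcc a b, HasDerivAt (fun r => r ^ ν * u r)
      (ν * (y ^ (ν - 1) * u y) - p * (y ^ (ν - 1) * w y)) y := by
    intro y hy
    refine (P2_deriv u w p ν y (hs y hy) (hd y (hs y hy))).congr_deriv ?_
    ring
  have h2 := intervalIntegral.integral_eq_sub_of_hasDerivAt h1
    ((hi1.const_mul ν).sub (hi2.const_mul p))
  rw [intervalIntegral.integral_sub (hi1.const_mul ν) (hi2.const_mul p),
    intervalIntegral.integral_const_mul, intervalIntegral.integral_const_mul] at h2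
  set I1 := ∫ y in a..b, y ^ (ν - 1) * u y
  set I2 := ∫ y in a..b, y ^ (ν - 1) * w y
  have h3 : p * I2 = a ^ ν * u a - b ^ ν * u b + ν * I1 := by linarith
  field_simp
  linarith

theorem parts1 (F : ℂ → ℂ) (M : ℝ) (hF : Cls F M) (p μ a b : ℝ) (hp : 0 < p) (ha : 0 < a)
    (hab : a ≤ b) :
    ∫ y in a..b, y ^ (μ - 1) * B1 F p y =
      1 / p * (a ^ μ * PP F p a - b ^ μ * PP F p b) +
        μ / p * ∫ y in a..b, y ^ (μ - 1) * PP F p y :=
  P2_parts (PP F p) (B1 F p) (PP_continuousOn F M hF p) (B1_continuousOn F M hF p) p hp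
    (fun y hy => PP_hasDerivAt F M hF p y hy) μ a b ha hab

theorem parts2 (F : ℂ → ℂ) (M : ℝ) (hF : Cls F M) (p μ a b : ℝ) (hp : 0 < p) (ha : 0 < a)
    (hab : a ≤ b) :
    ∫ y in a..b, y ^ (μ - 1) * B2 F p y =
      1 / p * (a ^ μ * B1 F p a - b ^ μ * B1 F p b) +
        (μ + 1) / p * ∫ y in a..b, y ^ (μ - 1) * B1 F p y := by
  have hid : ContinuousOn (fun y : ℝ => y) (Ioi 0) := continuousOn_id
  have h := P2_parts (fun r => B1 F p r / r) (fun r => B2 F p r / r)
    ((B1_continuousOn F M hF p).div hid fun y hy => (ne_of_gt hy))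
    ((B2_continuousOn F M hF p).div hid fun y hy => (ne_of_gt hy)) p hp
    (by
      intro y hy
      refine (B1_hasDerivAt F M hF p y hy).congr_deriv ?_
      field_simp) (μ + 1) a b ha hab
  have hs : ∀ y ∈ uIcc a b, 0 < y := by
    intro y hy
    rw [uIcc_of_le hab] at hy
    exact ha.trans_le hy.1
  have e : ∀ (f : ℝ → ℝ), ∫ y in a..b, y ^ (μ + 1 - 1) * (f y / y) =
      ∫ y in a..b, y ^ (μ - 1) * f y := by
    intro f
    refine intervalIntegral.integral_congr fun y hy => ?_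
    have hy0 := hs y hy
    have e1 : y ^ (μ + 1 - 1) = y ^ (μ - 1) * y := by
      rw [← Real.rpow_add_one hy0.ne']
      congr 1
      ring
    change y ^ (μ + 1 - 1) * (f y / y) = y ^ (μ - 1) * f y
    rw [e1]
    field_simp
  have e2 : ∀ y : ℝ, 0 < y → y ^ (μ + 1) * (B1 F p y / y) = y ^ μ * B1 F p y := by
    intro y hy0
    rw [Real.rpow_add_one hy0.ne']
    field_simp
  rw [e, e, e2 a ha, e2 b (ha.trans_le hab)] at h
  exact h

theorem P2_open : IsOpen HP := isOpen_lt continuous_const Complex.continuous_im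

theorem P2_cont (F : ℂ → ℂ) (M : ℝ) (hF : Cls F M) (y : ℝ) (hy : 0 < y) :
    Continuous fun x : ℝ => deriv F (pt x y) := by
  have h1 : ContinuousOn (deriv F) HP := (hF.diff.deriv P2_open).continuousOn
  have h2 : Continuous fun x : ℝ => pt x y := by
    simp only [pt_eq]
    fun_prop
  exact h1.comp_continuous h2 fun x => hy

theorem P2_ne (F : ℂ → ℂ) (M : ℝ) (hF : Cls F M) (x y : ℝ) (hy : 0 < y) :
    deriv F (pt x y) ≠ 0 := deriv_ne F M hF _ hy

theorem P2_int (F : ℂ → ℂ) (M : ℝ) (hF : Cls F M) (p y : ℝ) (hy : 0 < y) :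
    IntervalIntegrable (fun x : ℝ => ‖deriv F (pt x y)‖ ^ p) volume 0 (2 * Real.pi) := by
  refine Continuous.intervalIntegrable ?_ _ _
  exact (P2_cont F M hF y hy).norm.rpow_const fun x =>
    Or.inl (norm_ne_zero_iff.2 (P2_ne F M hF x y hy))

theorem cauchy_bound (F : ℂ → ℂ) (M : ℝ) (hF : Cls F M) (x y : ℝ) (hy : 0 < y) (hy1 : y ≤ 1) :
    ‖deriv F (pt x y)‖ ≤ M / y := by
  have hM : 0 ≤ M := (norm_nonneg _).trans (hF.bdd (pt x y) hy (by simp; linarith))
  have h1 : ∀ r : ℝ, 0 < r → r < y → ‖deriv F (pt x y)‖ * r ≤ M := by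
    intro r hr hry
    have him : ∀ z ∈ closedBall (pt x y) r, 0 < z.im ∧ z.im ≤ 2 := by
      intro z hz
      have h2 := (Complex.abs_im_le_norm (z - pt x y)).trans (mem_closedBall_iff_norm.1 hz)
      rw [Complex.sub_im, pt_im] at h2
      have h3 := abs_le.1 h2
      constructor <;> linarith [h3.1, h3.2]
    have hd : DiffContOnCl ℂ F (ball (pt x y) r) := by
      refine DifferentiableOn.diffContOnCl ?_
      refine hF.diff.mono fun z hz => ?_
      rw [closure_ball _ hr.ne'] at hz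
      exact (him z hz).1
    have h4 := Complex.norm_deriv_le_of_forall_mem_sphere_norm_le hr hd
      (C := M) fun z hz => hF.bdd z (him z (sphere_subset_closedBall hz)).1
        (him z (sphere_subset_closedBall hz)).2
    rwa [le_div_iff₀ hr] at h4
  rw [le_div_iff₀ hy]
  by_contra hc
  push Not at hc
  have hd0 : 0 < ‖deriv F (pt x y)‖ := by
    rcases (norm_nonneg (deriv F (pt x y))).eq_or_lt with h | h
    · rw [← h, zero_mul] at hc
      linarith
    · exact h
  have h5 : M / ‖deriv F (pt x y)‖ < y := by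
    rw [div_lt_iff₀ hd0]
    linarith
  have h6 : 0 ≤ M / ‖deriv F (pt x y)‖ := by positivity
  have h7 := h1 ((M / ‖deriv F (pt x y)‖ + y) / 2) (by linarith) (by linarith)
  have h8 : ‖deriv F (pt x y)‖ * ((M / ‖deriv F (pt x y)‖ + y) / 2) =
      (M + ‖deriv F (pt x y)‖ * y) / 2 := by
    field_simp
  rw [h8] at h7
  linarith

theorem PP_pos (F : ℂ → ℂ) (M : ℝ) (hF : Cls F M) (p y : ℝ) (hy : 0 < y) : 0 < PP F p y := by
  unfold PP
  refine intervalIntegral.intervalIntegral_pos_of_pos (P2_int F M hF p y hy) (fun x => ?_)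
    (by positivity)
  exact Real.rpow_pos_of_pos (norm_pos_iff.2 (P2_ne F M hF x y hy)) _

theorem PP_le (F : ℂ → ℂ) (M : ℝ) (hF : Cls F M) (p y : ℝ) (hp : 0 ≤ p) (hy : 0 < y)
    (hy1 : y ≤ 1) : PP F p y ≤ 2 * Real.pi * (M / y) ^ p := by
  unfold PP
  have h1 : ∫ x in (0 : ℝ)..(2 * Real.pi), ‖deriv F (pt x y)‖ ^ p ≤
      ∫ _x in (0 : ℝ)..(2 * Real.pi), (M / y) ^ p := by
    refine intervalIntegral.integral_mono_on (by positivity) (P2_int F M hF p y hy)
      intervalIntegrable_const fun x _ => ?_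
    exact Real.rpow_le_rpow (norm_nonneg _) (cauchy_bound F M hF x y hy hy1) hp
  refine h1.trans (le_of_eq ?_)
  rw [intervalIntegral.integral_const, sub_zero, smul_eq_mul]

theorem B1_le (F : ℂ → ℂ) (M : ℝ) (hF : Cls F M) (p y : ℝ) (hy : 0 < y) (hy1 : y ≤ 1 / 2) :
    |B1 F p y| ≤ 4 * PP F p y := by
  unfold B1 PP
  rw [← intervalIntegral.integral_const_mul, ← Real.norm_eq_abs]
  refine intervalIntegral.norm_integral_le_of_norm_le (by positivity) ?_
    ((P2_int F M hF p y hy).const_mul 4)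
  refine Filter.Eventually.of_forall fun x _ => ?_
  have h1 : 0 ≤ ‖deriv F (pt x y)‖ ^ p := Real.rpow_nonneg (norm_nonneg _) _
  rw [norm_mul, Real.norm_of_nonneg h1, mul_comm]
  refine mul_le_mul_of_nonneg_right ?_ h1
  exact (Complex.abs_im_le_norm _).trans (AA_le F M hF x y hy hy1)

theorem P2_fun (F : ℂ → ℂ) (M : ℝ) (hF : Cls F M) (p ν y : ℝ) (hy : 0 < y) :
    HasDerivAt (fun r => r ^ ν * PP F p r) (y ^ (ν - 1) * (ν * PP F p y - p * B1 F p y)) y :=
  P2_deriv (PP F p) (B1 F p) p ν y hy (PP_hasDerivAt F M hF p y hy)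

theorem PP_harnack1 (F : ℂ → ℂ) (M : ℝ) (hF : Cls F M) (p a b : ℝ) (hp : 0 ≤ p) (ha : 0 < a)
    (hab : a ≤ b) (hb : b ≤ 1 / 2) : PP F p a ≤ (b / a) ^ (4 * p) * PP F p b := by
  have hb0 : 0 < b := ha.trans_le hab
  have h1 : MonotoneOn (fun r => r ^ (4 * p) * PP F p r) (Icc a b) := by
    refine monotoneOn_of_deriv_nonneg (convex_Icc a b) ?_ ?_ ?_
    · intro y hy
      exact (P2_fun F M hF p (4 * p) y (ha.trans_le hy.1)).continuousAt.continuousWithinAt
    · intro y hy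
      rw [interior_Icc] at hy
      exact (P2_fun F M hF p (4 * p) y
        (ha.trans hy.1)).differentiableAt.differentiableWithinAt
    · intro y hy
      rw [interior_Icc] at hy
      have hy0 : 0 < y := ha.trans hy.1
      rw [(P2_fun F M hF p (4 * p) y hy0).deriv]
      refine mul_nonneg (Real.rpow_nonneg hy0.le _) ?_
      have h2 := (abs_le.1 (B1_le F M hF p y hy0 (hy.2.le.trans hb))).2
      nlinarith [mul_le_mul_of_nonneg_left h2 hp]
  have h3 := h1 (left_mem_Icc.2 hab) (right_mem_Icc.2 hab) hab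
  simp only at h3
  rw [Real.div_rpow hb0.le ha.le, div_mul_eq_mul_div, le_div_iff₀ (Real.rpow_pos_of_pos ha _)]
  linarith

theorem PP_harnack2 (F : ℂ → ℂ) (M : ℝ) (hF : Cls F M) (p a b : ℝ) (hp : 0 ≤ p) (ha : 0 < a)
    (hab : a ≤ b) (hb : b ≤ 1 / 2) : PP F p b ≤ (b / a) ^ (4 * p) * PP F p a := by
  have hb0 : 0 < b := ha.trans_le hab
  have h1 : AntitoneOn (fun r => r ^ (-(4 * p)) * PP F p r) (Icc a b) := by
    refine antitoneOn_of_deriv_nonpos (convex_Icc a b) ?_ ?_ ?_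
    · intro y hy
      exact (P2_fun F M hF p (-(4 * p)) y (ha.trans_le hy.1)).continuousAt.continuousWithinAt
    · intro y hy
      rw [interior_Icc] at hy
      exact (P2_fun F M hF p (-(4 * p)) y
        (ha.trans hy.1)).differentiableAt.differentiableWithinAt
    · intro y hy
      rw [interior_Icc] at hy
      have hy0 : 0 < y := ha.trans hy.1
      rw [(P2_fun F M hF p (-(4 * p)) y hy0).deriv]
      refine mul_nonpos_of_nonneg_of_nonpos (Real.rpow_nonneg hy0.le _) ?_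
      have h2 := (abs_le.1 (B1_le F M hF p y hy0 (hy.2.le.trans hb))).1
      nlinarith [mul_le_mul_of_nonneg_left h2 hp]
  have h3 := h1 (left_mem_Icc.2 hab) (right_mem_Icc.2 hab) hab
  simp only at h3
  rw [Real.rpow_neg hb0.le, Real.rpow_neg ha.le] at h3
  have hA := Real.rpow_pos_of_pos ha (4 * p)
  have hB := Real.rpow_pos_of_pos hb0 (4 * p)
  rw [Real.div_rpow hb0.le ha.le]
  have h4 : PP F p b = b ^ (4 * p) * ((b ^ (4 * p))⁻¹ * PP F p b) := by
    rw [← mul_assoc, mul_inv_cancel₀ hB.ne', one_mul]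
  rw [h4]
  calc b ^ (4 * p) * ((b ^ (4 * p))⁻¹ * PP F p b)
      ≤ b ^ (4 * p) * ((a ^ (4 * p))⁻¹ * PP F p a) := mul_le_mul_of_nonneg_left h3 hB.le
    _ = b ^ (4 * p) / a ^ (4 * p) * PP F p a := by
        rw [div_eq_mul_inv]
        ring

end H62.CJ
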