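import Pool.Agent.H62.CJ.JD
import Pool.Agent.H62.CJ.P1
import Pool.Agent.H62.CJ.L3
import Pool.Agent.H62.CJ.L4
import Pool.Agent.H62.CJ.M0

/-!
# CJ-S1: lower bound for the consumption

`sqrt_tangent`: for `δ >= -1.4252`: `sqrt (3.17 + δ) >= m0 + m1 δ - 0.03 δ^2`, `m0 = sqrt 3.17 = r`, `m1 = 1/(2r)`.
PROOF.  `s = sqrt (3.17 + δ)`, `δ = s^2 - r^2`.  `s - r - (s^2-r^2)/(2r) = - (s-r)^2/(2r)`, so the claim is
`(s-r)^2/(2r) <= 0.03 (s-r)^2 (s+r)^2`, which follows from `0.06 r (s+r)^2 >= 1`: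
`r >= 1.78`, `s >= sqrt 1.7448 >= 1.32`, `0.06 * 1.78 * 3.1^2 = 1.0263`.

`consumption`: for `0 < a < b <= (3/5) y0`.
PROOF.  Pointwise at `ζ = pt x v`, `a < v < b`: `β = Im A`, `A = AA F (pt x v)`, `|β| <= 4` (`AA_le`),
`δ = β - bbar >= -1 - 4 v - 0.425 >= -1.4252` (`AA_im`, `v <= 0.6e-5`).
`t = 3 - eps0 + β - 10 v >= 3.17 + δ > 0` since `3 - eps0 - 10 v + 0.425 >= 3.17` (`eps0_ub`).
`lower`: `F (pt x (5/3 v)) ≠ F (pt x v)` and `N = ‖F (pt x (5/3 v)) - F (pt x v)‖ <= 2 ‖V‖/t`, `‖V‖ = v ‖F' ζ‖`.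
So `N^(-1/2) >= (2 v ‖F'‖/t)^(-1/2) = 2^(-1/2) v^(-1/2) ‖F'‖^(-1/2) t^(1/2)` and
`t^(1/2) >= sqrt (3.17+δ) >= m0 + m1 δ - 0.03 δ^2 >= n0 + n1 β + n2 ‖A‖^2`
(`δ^2 <= ‖A - i bbar‖^2 = ‖A‖^2 - 2 bbar β + bbar^2`; `n0, n1, n2` are defined so that this is an identity
after replacing `δ^2`).  Hence the integrand is at least
`2^(-1/2) (5/3)^kap v^(kap - 1/2) ‖F'‖^(3/2) (n0 + n1 β + n2 ‖A‖^2)`
(`‖F'‖^2 ‖F'‖^(-1/2) = ‖F'‖^(3/2)`, `(5/3 v)^kap = (5/3)^kap v^kap`).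
By `lintegral_strip` the right side is `int⁻_v int⁻_x`, and `ofReal (int f) <= int⁻ ofReal f` for integrable
`f` twice (inner: continuous in `x` on `[0, 2 pi]`; outer: continuous in `v` on `[a, b]` by `P1`); the inner
integral is `2^(-1/2)(5/3)^kap v^(kap-1/2) (n0 PP + n1 B1 + n2 B2)`.
(Measurability of the integrand of the right side, needed for `lintegral_strip`: from `Measurable F` and
`measurable_deriv`.)
-/

set_option autoImplicit false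

open Set Metric MeasureTheory

namespace H62.CJ

theorem sqrt_tangent (δ : ℝ) (hδ : -(14252 / 10000) ≤ δ) :
    m0 + m1 * δ - 3 / 100 * δ ^ 2 ≤ Real.sqrt (317 / 100 + δ) := by
  unfold m0 m1
  have hr : (178 / 100 : ℝ) ≤ Real.sqrt (317 / 100) := by
    apply Real.le_sqrt_of_sq_le
    norm_num
  have hs : (132 / 100 : ℝ) ≤ Real.sqrt (317 / 100 + δ) := by
    apply Real.le_sqrt_of_sq_le
    norm_num
    linarith
  have hr2 : Real.sqrt (317 / 100) ^ 2 = 317 / 100 := Real.sq_sqrt (by norm_num)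
  have hs2 : Real.sqrt (317 / 100 + δ) ^ 2 = 317 / 100 + δ := Real.sq_sqrt (by linarith)
  set r := Real.sqrt (317 / 100) with hrd
  set s := Real.sqrt (317 / 100 + δ) with hsd
  have hδ2 : δ = s ^ 2 - r ^ 2 := by linarith
  have hr0 : 0 < r := by linarith
  have h1 : 1 ≤ 6 / 100 * r * (s + r) ^ 2 := by
    have h2 : (31 / 10 : ℝ) ≤ s + r := by linarith
    have h3 : (31 / 10 : ℝ) ^ 2 ≤ (s + r) ^ 2 := pow_le_pow_left₀ (by norm_num) h2 2
    nlinarith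
  have h4 : s - (r + 1 / (2 * r) * δ - 3 / 100 * δ ^ 2) =
      (s - r) ^ 2 * (6 / 100 * r * (s + r) ^ 2 - 1) / (2 * r) := by
    rw [hδ2]
    field_simp
    ring
  have h5 : 0 ≤ (s - r) ^ 2 * (6 / 100 * r * (s + r) ^ 2 - 1) / (2 * r) := by
    apply div_nonneg _ (by positivity)
    apply mul_nonneg (sq_nonneg _)
    linarith
  linarith

theorem s1_ofReal_integral_le {α : Type*} [MeasurableSpace α] (μ : Measure α) (f : α → ℝ) :
    ENNReal.ofReal (∫ x, f x ∂μ) ≤ ∫⁻ x, ENNReal.ofReal (f x) ∂μ := by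
  by_cases hf : Integrable f μ
  · rw [integral_eq_lintegral_pos_part_sub_lintegral_neg_part hf]
    apply ENNReal.ofReal_le_of_le_toReal
    linarith [(ENNReal.toReal_nonneg : 0 ≤ (∫⁻ a, ENNReal.ofReal (-f a) ∂μ).toReal)]
  · rw [integral_undef hf]
    simp

theorem s1_cont_dF (F : ℂ → ℂ) (M : ℝ) (hF : Cls F M) (v : ℝ) (hv : 0 < v) :
    Continuous (fun x : ℝ => deriv F (pt x v)) := by
  have hopen : IsOpen HP := isOpen_lt continuous_const Complex.continuous_im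
  have h1 : DifferentiableOn ℂ (deriv F) HP := hF.diff.deriv hopen
  have hp : Continuous (fun x : ℝ => pt x v) := by
    simp only [pt_eq]
    fun_prop
  exact h1.continuousOn.comp_continuous hp (fun x => hv)

theorem s1_cont_ddF (F : ℂ → ℂ) (M : ℝ) (hF : Cls F M) (v : ℝ) (hv : 0 < v) :
    Continuous (fun x : ℝ => deriv (deriv F) (pt x v)) := by
  have hopen : IsOpen HP := isOpen_lt continuous_const Complex.continuous_im
  have h1 : DifferentiableOn ℂ (deriv (deriv F)) HP := (hF.diff.deriv hopen).deriv hopen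
  have hp : Continuous (fun x : ℝ => pt x v) := by
    simp only [pt_eq]
    fun_prop
  exact h1.continuousOn.comp_continuous hp (fun x => hv)

theorem s1_cont_AA (F : ℂ → ℂ) (M : ℝ) (hF : Cls F M) (v : ℝ) (hv : 0 < v) :
    Continuous (fun x : ℝ => AA F (pt x v)) := by
  unfold AA
  simp only [pt_im]
  exact (continuous_const.mul (s1_cont_ddF F M hF v hv)).div (s1_cont_dF F M hF v hv)
    (fun x => deriv_ne F M hF _ hv)

theorem s1_cont_P (F : ℂ → ℂ) (M : ℝ) (hF : Cls F M) (v : ℝ) (hv : 0 < v) :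
    Continuous (fun x : ℝ => ‖deriv F (pt x v)‖ ^ (3 / 2 : ℝ)) :=
  (s1_cont_dF F M hF v hv).norm.rpow_const (fun x => Or.inr (by norm_num))

/-- the lower density -/
noncomputable def s1_f (F : ℂ → ℂ) (x v : ℝ) : ℝ :=
  (2 : ℝ) ^ (-(1 / 2) : ℝ) * (5 / 3 : ℝ) ^ kap * v ^ (kap - 1 / 2) *
    (‖deriv F (pt x v)‖ ^ (3 / 2 : ℝ) *
      (n0 + n1 * (AA F (pt x v)).im + n2 * ‖AA F (pt x v)‖ ^ 2))

theorem s1_inner (F : ℂ → ℂ) (M : ℝ) (hF : Cls F M) (v : ℝ) (hv : 0 < v) :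
    ∫ x in (0 : ℝ)..(2 * Real.pi), s1_f F x v =
      (2 : ℝ) ^ (-(1 / 2) : ℝ) * (5 / 3 : ℝ) ^ kap * (v ^ (kap - 1 / 2) *
        (n0 * PP F (3 / 2) v + n1 * B1 F (3 / 2) v + n2 * B2 F (3 / 2) v)) := by
  have hA := s1_cont_AA F M hF v hv
  have hP := s1_cont_P F M hF v hv
  have hA1 : Continuous (fun x : ℝ => (AA F (pt x v)).im) := Complex.continuous_im.comp hA
  have h1 : ∀ x : ℝ, s1_f F x v = (2 : ℝ) ^ (-(1 / 2) : ℝ) * (5 / 3 : ℝ) ^ kap * v ^ (kap - 1 / 2) *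
      (n0 * ‖deriv F (pt x v)‖ ^ (3 / 2 : ℝ) +
        n1 * (‖deriv F (pt x v)‖ ^ (3 / 2 : ℝ) * (AA F (pt x v)).im) +
        n2 * (‖deriv F (pt x v)‖ ^ (3 / 2 : ℝ) * ‖AA F (pt x v)‖ ^ 2)) := by
    intro x
    unfold s1_f
    ring
  simp only [h1]
  rw [intervalIntegral.integral_const_mul, intervalIntegral.integral_add,
    intervalIntegral.integral_add, intervalIntegral.integral_const_mul,
    intervalIntegral.integral_const_mul, intervalIntegral.integral_const_mul]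
  · unfold PP B1 B2
    ring
  · exact (hP.const_mul n0).intervalIntegrable _ _
  · exact ((hP.mul hA1).const_mul n1).intervalIntegrable _ _
  · exact ((hP.const_mul n0).add ((hP.mul hA1).const_mul n1)).intervalIntegrable _ _
  · exact ((hP.mul (hA.norm.pow 2)).const_mul n2).intervalIntegrable _ _

theorem s1_point (F : ℂ → ℂ) (M : ℝ) (hF : Cls F M) (x v : ℝ) (hv : 0 < v)
    (hb : v ≤ 3 / 5 * y0) :
    s1_f F x v ≤ ‖deriv F (pt x v)‖ ^ 2 *
        ((5 / 3 * v) ^ kap * ‖F (pt x v) - F (pt x (5 / 3 * v))‖ ^ (-(1 / 2) : ℝ)) := by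
  have hv1 : v ≤ 6 / 1000000 := by
    unfold y0 at hb
    linarith
  have hAle := AA_le F M hF x v hv (by linarith)
  have hAim := AA_im F M hF x v hv (by linarith)
  have hbe : |(AA F (pt x v)).im| ≤ 4 := (Complex.abs_im_le_norm _).trans hAle
  obtain ⟨hne, hlow⟩ := lower F M hF x v hv (by linarith) hbe
  have he := eps0_ub
  have hP : 0 < ‖deriv F (pt x v)‖ := norm_pos_iff.2 (deriv_ne F M hF _ hv)
  have hV : ‖VV F (pt x v)‖ = v * ‖deriv F (pt x v)‖ := by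
    unfold VV
    rw [norm_mul, norm_mul, norm_neg, Complex.norm_I, one_mul, pt_im, Complex.norm_real,
      Real.norm_of_nonneg hv.le]
  have hN : 0 < ‖F (pt x v) - F (pt x (5 / 3 * v))‖ :=
    norm_pos_iff.2 (sub_ne_zero.2 hne.symm)
  rw [norm_sub_rev, hV] at hlow
  have hsq : ((AA F (pt x v)).im - bbar) ^ 2 ≤
      ‖AA F (pt x v)‖ ^ 2 - 2 * bbar * (AA F (pt x v)).im + bbar ^ 2 := by
    rw [← Complex.normSq_eq_norm_sq, Complex.normSq_apply]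
    nlinarith [mul_self_nonneg (AA F (pt x v)).re]
  have htan := sqrt_tangent ((AA F (pt x v)).im - bbar) (by unfold bbar; linarith)
  have hS : n0 + n1 * (AA F (pt x v)).im + n2 * ‖AA F (pt x v)‖ ^ 2 ≤
      Real.sqrt (317 / 100 + ((AA F (pt x v)).im - bbar)) := by
    refine le_trans ?_ htan
    unfold n0 n1 n2
    nlinarith [hsq]
  have hT : 0 < 317 / 100 + ((AA F (pt x v)).im - bbar) := by
    unfold bbar
    linarith
  have hT2 : 317 / 100 + ((AA F (pt x v)).im - bbar) ≤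
      3 - eps0 + (AA F (pt x v)).im - 10 * v := by
    unfold bbar
    linarith
  unfold s1_f
  generalize hPd : ‖deriv F (pt x v)‖ = P at *
  generalize hNd : ‖F (pt x v) - F (pt x (5 / 3 * v))‖ = N at *
  generalize hTd : 317 / 100 + ((AA F (pt x v)).im - bbar) = T at *
  generalize hSd : n0 + n1 * (AA F (pt x v)).im + n2 * ‖AA F (pt x v)‖ ^ 2 = S at *
  have hNT : N ≤ 2 * v * P / T := by
    rw [le_div_iff₀ hT]
    nlinarith [mul_le_mul_of_nonneg_left hT2 hN.le]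
  have h1 : (2 * v * P / T) ^ (-(1 / 2) : ℝ) ≤ N ^ (-(1 / 2) : ℝ) :=
    Real.rpow_le_rpow_of_nonpos hN hNT (by norm_num)
  have h2 : (2 * v * P / T) ^ (-(1 / 2) : ℝ) =
      (2 : ℝ) ^ (-(1 / 2) : ℝ) * v ^ (-(1 / 2) : ℝ) * P ^ (-(1 / 2) : ℝ) * Real.sqrt T := by
    rw [Real.div_rpow (by positivity) hT.le, Real.mul_rpow (by positivity) hP.le,
      Real.mul_rpow (by norm_num) hv.le, Real.rpow_neg hT.le, Real.sqrt_eq_rpow, div_inv_eq_mul]
  have h3 : (5 / 3 * v) ^ kap = (5 / 3 : ℝ) ^ kap * v ^ kap :=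
    Real.mul_rpow (by norm_num) hv.le
  have h4 : v ^ (kap - 1 / 2) = v ^ kap * v ^ (-(1 / 2) : ℝ) := by
    rw [← Real.rpow_add hv]
    ring_nf
  have h5 : P ^ (3 / 2 : ℝ) = P ^ 2 * P ^ (-(1 / 2) : ℝ) := by
    rw [← Real.rpow_natCast P 2, ← Real.rpow_add hP]
    norm_num
  rw [h3, h4, h5]
  have h6 : P ^ 2 * ((5 / 3 : ℝ) ^ kap * v ^ kap * N ^ (-(1 / 2) : ℝ)) ≥
      P ^ 2 * ((5 / 3 : ℝ) ^ kap * v ^ kap *
        ((2 : ℝ) ^ (-(1 / 2) : ℝ) * v ^ (-(1 / 2) : ℝ) * P ^ (-(1 / 2) : ℝ) * Real.sqrt T)) := by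
    rw [← h2]
    gcongr
  refine le_trans ?_ h6
  have h7 : 0 ≤ (2 : ℝ) ^ (-(1 / 2) : ℝ) * (5 / 3 : ℝ) ^ kap * (v ^ kap * v ^ (-(1 / 2) : ℝ)) *
      (P ^ 2 * P ^ (-(1 / 2) : ℝ)) := by positivity
  calc (2 : ℝ) ^ (-(1 / 2) : ℝ) * (5 / 3 : ℝ) ^ kap * (v ^ kap * v ^ (-(1 / 2) : ℝ)) *
      (P ^ 2 * P ^ (-(1 / 2) : ℝ) * S)
      = (2 : ℝ) ^ (-(1 / 2) : ℝ) * (5 / 3 : ℝ) ^ kap * (v ^ kap * v ^ (-(1 / 2) : ℝ)) *
      (P ^ 2 * P ^ (-(1 / 2) : ℝ)) * S := by ring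
    _ ≤ (2 : ℝ) ^ (-(1 / 2) : ℝ) * (5 / 3 : ℝ) ^ kap * (v ^ kap * v ^ (-(1 / 2) : ℝ)) *
      (P ^ 2 * P ^ (-(1 / 2) : ℝ)) * Real.sqrt T := mul_le_mul_of_nonneg_left hS h7
    _ = _ := by ring

theorem consumption (F : ℂ → ℂ) (M : ℝ) (hF : Cls F M) (a b : ℝ) (ha : 0 < a) (hab : a < b)
    (hb : b ≤ 3 / 5 * y0) :
    ENNReal.ofReal ((2 : ℝ) ^ (-(1 / 2) : ℝ) * (5 / 3 : ℝ) ^ kap * ∫ v in a..b,
      v ^ (kap - 1 / 2) * (n0 * PP F (3 / 2) v + n1 * B1 F (3 / 2) v + n2 * B2 F (3 / 2) v)) ≤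
    ∫⁻ ζ in strip a b, ENNReal.ofReal (‖deriv F ζ‖ ^ 2 *
        ((5 / 3 * ζ.im) ^ kap * ‖F ζ - F (pt ζ.re (5 / 3 * ζ.im))‖ ^ (-(1 / 2) : ℝ))) := by
  have hmeas : Measurable (fun ζ : ℂ => ENNReal.ofReal (‖deriv F ζ‖ ^ 2 *
        ((5 / 3 * ζ.im) ^ kap * ‖F ζ - F (pt ζ.re (5 / 3 * ζ.im))‖ ^ (-(1 / 2) : ℝ)))) := by
    have h1 : Measurable (deriv F) := measurable_deriv F
    have h2 : Measurable (fun ζ : ℂ => F (pt ζ.re (5 / 3 * ζ.im))) := by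
      apply hF.meas.comp
      have := measurable_pt.comp
        (Complex.measurable_re.prodMk (Complex.measurable_im.const_mul (5 / 3)))
      exact this
    have h3 : Measurable (fun ζ : ℂ => ‖F ζ - F (pt ζ.re (5 / 3 * ζ.im))‖ ^ (-(1 / 2) : ℝ)) :=
      ((hF.meas.sub h2).norm).pow_const _
    have h4 : Measurable (fun ζ : ℂ => (5 / 3 * ζ.im) ^ kap) :=
      (Complex.measurable_im.const_mul _).pow_const _
    exact ((h1.norm.pow_const 2).mul (h4.mul h3)).ennreal_ofReal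
  rw [lintegral_strip _ hmeas, ← intervalIntegral.integral_const_mul,
    intervalIntegral.integral_of_le hab.le, integral_Ioc_eq_integral_Ioo]
  refine (s1_ofReal_integral_le _ _).trans ?_
  apply setLIntegral_mono' measurableSet_Ioo
  intro v hv
  have hv0 : 0 < v := ha.trans hv.1
  rw [← s1_inner F M hF v hv0, intervalIntegral.integral_of_le (by positivity),
    integral_Ioc_eq_integral_Ioo]
  refine (s1_ofReal_integral_le _ _).trans ?_
  apply lintegral_mono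
  intro x
  apply ENNReal.ofReal_le_ofReal
  exact s1_point F M hF x v hv0 (hv.2.le.trans hb)

end H62.CJ
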