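import Pool.Agent.H62.CJ.L2

/-!
# CJ-T2: the lateral derivative of G

`F` in the class, `y > 0`, `w` not a value of `F` on the horizontal line at height `y`.  Then
`t ↦ GG F w (pt t y)` has derivative `GX F w (pt t y)`, which is continuous in `t`; and it is
periodic.

PROOF.  Put `b t = F (pt t y)`, `V t = VV F (pt t y) = - i y F' (pt t y)`, `s t = V t/(w - b t)`.
`pt t y = t + i y`, so `b' = F' (pt t y)`, and `V' = - i y F''`.  With `A = y F''/F'` (and `F' ≠ 0`,
`deriv_ne`): `V' = A V / y`; and `b' = F' = i V / y`.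
`s' = V'/(w-b) + V b'/(w-b)^2 = A s / y + i s^2 / y`.
`|w - b|^(-1/2) = (normSq (w-b))^(-1/4)`: derivative
`(-1/2) |w-b|^(-1/2) Re (-b'/(w-b)) = (1/2)|w-b|^(-1/2) Re (b'/(w-b)) = (1/2)|w-b|^(-1/2) Re (i s/y)
 = - (1/(2y)) |w-b|^(-1/2) Im s`.
(Derivative of the norm: `HasDerivAt.norm_sq` or write `‖u‖ = sqrt (re^2 + im^2)`; a clean way: for a
curve `u t ≠ 0` in `ℂ`, `d/dt ‖u‖^p = p ‖u‖^p Re (u'/u)`; prove it once.)
So `d/dt [|w-b|^(-1/2) ((1/2) Re s - kap)]
 = |w-b|^(-1/2) [ - (1/(2y)) Im s ((1/2) Re s - kap) + (1/2) Re (A s + i s^2)/y ]` and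
`Re (i s^2) = - 2 Re s Im s`, which gives
`(1/(2y)) |w-b|^(-1/2) [ Re (A s) - Im s ((5/2) Re s - kap) ] = GX`.
Periodicity: `F (z + 2 pi) = F z` on the upper half plane, hence also for `deriv F` (the identity holds
near every point of the upper half plane).  Continuity: all ingredients are continuous on the upper
half plane (`F` is analytic there), `w - b ≠ 0`.
-/

set_option autoImplicit false

open Set Metric MeasureTheory

namespace H62.CJ

private theorem t2_open : IsOpen HP := isOpen_lt continuous_const Complex.continuous_im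

private theorem t2_nhds (z : ℂ) (hz : 0 < z.im) : HP ∈ nhds z := t2_open.mem_nhds hz

theorem deriv_per (F : ℂ → ℂ) (M : ℝ) (hF : Cls F M) (z : ℂ) (hz : 0 < z.im) :
    deriv F (z + ((2 * Real.pi : ℝ) : ℂ)) = deriv F z := by
  have h : (fun ζ => F (ζ + ((2 * Real.pi : ℝ) : ℂ))) =ᶠ[nhds z] F := by
    filter_upwards [t2_nhds z hz] with ζ hζ using hF.per ζ hζ
  have h2 := h.deriv_eq
  rw [deriv_comp_add_const] at h2
  exact h2

theorem norm_rpow_hasDerivAt (u : ℝ → ℂ) (u' : ℂ) (t p : ℝ) (hu : HasDerivAt u u' t)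
    (h0 : u t ≠ 0) :
    HasDerivAt (fun r => ‖u r‖ ^ p) (p * ‖u t‖ ^ p * (u' / u t).re) t := by
  have hpos : 0 < ‖u t‖ := norm_pos_iff.2 h0
  have h1 : HasDerivAt (fun r => ‖u r‖ ^ 2) (2 * inner ℝ (u t) u') t := hu.norm_sq
  have h2 : HasDerivAt (fun r => (‖u r‖ ^ 2) ^ (p / 2))
      (2 * inner ℝ (u t) u' * (p / 2) * (‖u t‖ ^ 2) ^ (p / 2 - 1)) t :=
    h1.rpow_const (Or.inl (by positivity))
  have h3 : (fun r => (‖u r‖ ^ 2) ^ (p / 2)) = fun r => ‖u r‖ ^ p := by
    funext r
    rw [← Real.rpow_natCast, ← Real.rpow_mul (norm_nonneg _)]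
    congr 1
    push_cast
    ring
  rw [h3] at h2
  refine h2.congr_deriv ?_
  have h4 : (‖u t‖ ^ 2) ^ (p / 2 - 1) = ‖u t‖ ^ p / ‖u t‖ ^ 2 := by
    rw [← Real.rpow_natCast, ← Real.rpow_mul (norm_nonneg _), ← Real.rpow_sub hpos]
    congr 1
    push_cast
    ring
  have h5 : (u' / u t).re = inner ℝ (u t) u' / ‖u t‖ ^ 2 := by
    rw [Complex.div_re, Complex.inner, ← Complex.normSq_eq_norm_sq]
    simp only [Complex.mul_re, Complex.conj_re, Complex.conj_im]
    ring
  rw [h4, h5]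
  ring

private theorem t2_pt (x y : ℝ) : HasDerivAt (fun t : ℝ => pt t y) 1 x := by
  have h : (fun t : ℝ => pt t y) = fun t : ℝ => (t : ℂ) + (y : ℂ) * Complex.I := by
    funext t
    exact pt_eq t y
  rw [h]
  exact (Complex.ofRealCLM.hasDerivAt (x := x)).add_const _

private theorem t2_F (F : ℂ → ℂ) (M : ℝ) (hF : Cls F M) (z : ℂ) (hz : 0 < z.im) :
    HasDerivAt F (deriv F z) z :=
  ((hF.diff z hz).differentiableAt (t2_nhds z hz)).hasDerivAt

private theorem t2_dF (F : ℂ → ℂ) (M : ℝ) (hF : Cls F M) (z : ℂ) (hz : 0 < z.im) :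
    HasDerivAt (deriv F) (deriv (deriv F) z) z :=
  (((hF.diff.deriv t2_open) z hz).differentiableAt (t2_nhds z hz)).hasDerivAt

private theorem t2_ddF (F : ℂ → ℂ) (M : ℝ) (hF : Cls F M) (z : ℂ) (hz : 0 < z.im) :
    ContinuousAt (deriv (deriv F)) z :=
  ((((hF.diff.deriv t2_open).deriv t2_open) z hz).differentiableAt (t2_nhds z hz)).continuousAt

private theorem t2_along (f : ℂ → ℂ) (f' : ℂ) (x y : ℝ) (h : HasDerivAt f f' (pt x y)) :
    HasDerivAt (fun t : ℝ => f (pt t y)) f' x := by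
  have h2 := HasDerivAt.scomp x h (t2_pt x y)
  rw [one_smul] at h2
  exact h2

theorem GG_hasDerivAt_x (F : ℂ → ℂ) (M : ℝ) (hF : Cls F M) (w : ℂ) (y : ℝ) (hy : 0 < y)
    (hw : ∀ t : ℝ, F (pt t y) ≠ w) (x : ℝ) :
    HasDerivAt (fun t => GG F w (pt t y)) (GX F w (pt x y)) x := by
  have hz : 0 < (pt x y).im := hy
  have hD : deriv F (pt x y) ≠ 0 := deriv_ne F M hF (pt x y) hz
  have hu0 : w - F (pt x y) ≠ 0 := sub_ne_zero.2 (fun h => hw x h.symm)
  have hb : HasDerivAt (fun t : ℝ => F (pt t y)) (deriv F (pt x y)) x :=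
    t2_along F _ x y (t2_F F M hF _ hz)
  have hdb : HasDerivAt (fun t : ℝ => deriv F (pt t y)) (deriv (deriv F) (pt x y)) x :=
    t2_along (deriv F) _ x y (t2_dF F M hF _ hz)
  have hu : HasDerivAt (fun t : ℝ => w - F (pt t y)) (-deriv F (pt x y)) x := hb.const_sub w
  have hV : HasDerivAt (fun t : ℝ => VV F (pt t y))
      (-Complex.I * (y : ℂ) * deriv (deriv F) (pt x y)) x := by
    have h := hdb.const_mul (-Complex.I * (y : ℂ))
    exact h
  have hs : HasDerivAt (fun t : ℝ => ss F w (pt t y))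
      ((-Complex.I * (y : ℂ) * deriv (deriv F) (pt x y) * (w - F (pt x y)) -
        VV F (pt x y) * (-deriv F (pt x y))) / (w - F (pt x y)) ^ 2) x :=
    hV.div hu hu0
  have hsre : HasDerivAt (fun t : ℝ => (ss F w (pt t y)).re)
      ((-Complex.I * (y : ℂ) * deriv (deriv F) (pt x y) * (w - F (pt x y)) -
        VV F (pt x y) * (-deriv F (pt x y))) / (w - F (pt x y)) ^ 2).re x := by
    have h := (Complex.reCLM.hasFDerivAt (x := ss F w (pt x y))).comp_hasDerivAt x hs
    exact h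
  have hn := norm_rpow_hasDerivAt (fun t : ℝ => w - F (pt t y)) (-deriv F (pt x y)) x (-(1 / 2)) hu hu0
  have hG := hn.mul ((hsre.const_mul (1 / 2)).sub_const kap)
  refine hG.congr_deriv ?_
  have hy0 : (y : ℂ) ≠ 0 := by exact_mod_cast hy.ne'
  set s := ss F w (pt x y) with hsdef
  set A := AA F (pt x y) with hAdef
  have e1 : -deriv F (pt x y) / (w - F (pt x y)) = -(Complex.I * s / y) := by
    rw [hsdef]
    unfold ss VV
    simp only [pt_im]
    field_simp
    linear_combination (-1 : ℂ) * Complex.I_sq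
  have e2 : (-Complex.I * (y : ℂ) * deriv (deriv F) (pt x y) * (w - F (pt x y)) -
        VV F (pt x y) * (-deriv F (pt x y))) / (w - F (pt x y)) ^ 2 =
      (A * s + Complex.I * s ^ 2) / y := by
    rw [hsdef, hAdef]
    unfold ss VV AA
    simp only [pt_im]
    field_simp
    linear_combination (-(deriv F (pt x y)) ^ 2) * Complex.I_sq
  have e3 : (-(Complex.I * s / (y : ℂ))).re = s.im / y := by
    rw [Complex.neg_re, Complex.div_ofReal_re]
    simp
    ring
  have e4 : ((A * s + Complex.I * s ^ 2) / (y : ℂ)).re =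
      ((A * s).re - 2 * s.re * s.im) / y := by
    rw [Complex.div_ofReal_re]
    simp only [Complex.add_re, Complex.mul_re, Complex.I_re, Complex.I_im, pow_two, Complex.mul_im]
    ring
  rw [e1, e2, e3, e4]
  unfold GX
  simp only [pt_im, ← hsdef, ← hAdef]
  field_simp
  ring

theorem GX_continuous (F : ℂ → ℂ) (M : ℝ) (hF : Cls F M) (w : ℂ) (y : ℝ) (hy : 0 < y)
    (hw : ∀ t : ℝ, F (pt t y) ≠ w) : Continuous (fun t => GX F w (pt t y)) := by
  rw [continuous_iff_continuousAt]
  intro x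
  have hz : 0 < (pt x y).im := hy
  have hD : deriv F (pt x y) ≠ 0 := deriv_ne F M hF (pt x y) hz
  have hu0 : w - F (pt x y) ≠ 0 := sub_ne_zero.2 (fun h => hw x h.symm)
  have hp : ContinuousAt (fun t : ℝ => pt t y) x := (t2_pt x y).continuousAt
  have hb : ContinuousAt (fun t : ℝ => F (pt t y)) x :=
    (t2_along F _ x y (t2_F F M hF _ hz)).continuousAt
  have hdb : ContinuousAt (fun t : ℝ => deriv F (pt t y)) x :=
    (t2_along (deriv F) _ x y (t2_dF F M hF _ hz)).continuousAt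
  have hddb : ContinuousAt (fun t : ℝ => deriv (deriv F) (pt t y)) x :=
    ContinuousAt.comp (f := fun t : ℝ => pt t y) (x := x) (t2_ddF F M hF _ hz) hp
  have hu : ContinuousAt (fun t : ℝ => w - F (pt t y)) x := continuousAt_const.sub hb
  have hV : ContinuousAt (fun t : ℝ => VV F (pt t y)) x := by
    unfold VV
    simp only [pt_im]
    exact continuousAt_const.mul hdb
  have hs : ContinuousAt (fun t : ℝ => ss F w (pt t y)) x := hV.div hu hu0
  have hA : ContinuousAt (fun t : ℝ => AA F (pt t y)) x := by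
    unfold AA
    simp only [pt_im]
    exact (continuousAt_const.mul hddb).div hdb hD
  have hn : ContinuousAt (fun t : ℝ => ‖w - F (pt t y)‖ ^ (-(1 / 2) : ℝ)) x :=
    hu.norm.rpow_const (Or.inl (norm_ne_zero_iff.2 hu0))
  have hre : ContinuousAt (fun t : ℝ => (ss F w (pt t y)).re) x :=
    Complex.continuous_re.continuousAt.comp hs
  have him : ContinuousAt (fun t : ℝ => (ss F w (pt t y)).im) x :=
    Complex.continuous_im.continuousAt.comp hs
  have hAs : ContinuousAt (fun t : ℝ => (AA F (pt t y) * ss F w (pt t y)).re) x :=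
    Complex.continuous_re.continuousAt.comp (hA.mul hs)
  unfold GX
  simp only [pt_im]
  exact (continuousAt_const.mul hn).mul (hAs.sub (him.mul ((continuousAt_const.mul hre).sub
    continuousAt_const)))

theorem GG_per (F : ℂ → ℂ) (M : ℝ) (hF : Cls F M) (w : ℂ) (y : ℝ) (hy : 0 < y) (x : ℝ) :
    GG F w (pt (x + 2 * Real.pi) y) = GG F w (pt x y) := by
  have hz : 0 < (pt x y).im := hy
  have hp : pt (x + 2 * Real.pi) y = pt x y + ((2 * Real.pi : ℝ) : ℂ) := by
    apply Complex.ext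
    · simp only [pt_re, Complex.add_re, Complex.ofReal_re]
    · simp only [pt_im, Complex.add_im, Complex.ofReal_im, add_zero]
  have h1 : F (pt (x + 2 * Real.pi) y) = F (pt x y) := by
    rw [hp]; exact hF.per _ hz
  have h2 : deriv F (pt (x + 2 * Real.pi) y) = deriv F (pt x y) := by
    rw [hp]; exact deriv_per F M hF _ hz
  unfold GG ss VV
  rw [h1, h2]
  simp only [pt_im]

end H62.CJ
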