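import Pool.Agent.H62.CJ.T1
import Pool.Agent.H62.CJ.T2

/-!
# CJ-T3: the lateral total variation bound for G

`F` in the class, `0 < y <= 1/4`, `w` is not a value of `F` on `Im z >= y`.

`exists_nonpos`: there is `x1` with `GG F w (pt x1 y) <= 0`.
PROOF.  `ss F w z = - i y F' z/(w - F z) = i y F' z/(F z - w)` for `z = pt x y`.  So
`int_0^{2 pi} ss F w (pt x y) dx = i y int F'/(F - w)`, of norm `<= 2 pi y` (class property `mean`).
If `GG > 0` for all `x ∈ [0, 2 pi]` then `(1/2) Re ss > kap`, i.e. `Re ss > 2 kap = 0.2738` there, so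
`int Re ss >= 2 pi * 0.2738 > 2 pi y` (`y <= 1/4`; the integrand is continuous), but
`int Re ss = Re int ss <= 2 pi y`: contradiction.

`GG_le_tv`: `GG F w (pt x y) <= (1/2) int_0^{2 pi} HH F w (pt t y) dt`.
PROOF.  `tv_lemma` with `G t = GG F w (pt t y)`, `G' t = GX F w (pt t y)` (`T2`), and
`0 < GG F w z ↔ kap < (1/2) Re (ss F w z)` for `w ≠ F z` since `‖w - F z‖^(-1/2) > 0`; so the integrands
agree with `HH`.
-/

set_option autoImplicit false

open Set Metric MeasureTheory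

namespace H62.CJ

theorem T3_GG_pos_iff (F : ℂ → ℂ) (w z : ℂ) (h : F z ≠ w) :
    0 < GG F w z ↔ kap < (1 / 2) * (ss F w z).re := by
  have h1 : 0 < ‖w - F z‖ := norm_pos_iff.2 (sub_ne_zero.2 (Ne.symm h))
  have h2 : 0 < ‖w - F z‖ ^ (-(1 / 2) : ℝ) := Real.rpow_pos_of_pos h1 _
  unfold GG
  constructor
  · intro h3
    have h4 := (mul_pos_iff_of_pos_left h2).1 h3
    linarith
  · intro h3
    exact mul_pos h2 (by linarith)

theorem T3_ss_eq (F : ℂ → ℂ) (w : ℂ) (x y : ℝ) :
    ss F w (pt x y) = (Complex.I * (y : ℂ)) * (deriv F (pt x y) / (F (pt x y) - w)) := by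
  unfold ss VV
  rw [pt_im, ← neg_sub (F (pt x y)) w, div_neg]
  ring

theorem T3_cont_pt (y : ℝ) : Continuous (fun t : ℝ => pt t y) := by
  have h : (fun t : ℝ => pt t y) = fun t : ℝ => (t : ℂ) + (y : ℂ) * Complex.I := by
    funext t
    exact pt_eq t y
  rw [h]
  exact Complex.continuous_ofReal.add continuous_const

theorem T3_isOpen_HP : IsOpen HP := isOpen_lt continuous_const Complex.continuous_im

theorem T3_cont_F (F : ℂ → ℂ) (M : ℝ) (hF : Cls F M) (y : ℝ) (hy : 0 < y) :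
    Continuous (fun t : ℝ => F (pt t y)) := by
  rw [continuous_iff_continuousAt]
  intro t
  have h1 : pt t y ∈ HP := hy
  have h2 : ContinuousAt F (pt t y) :=
    (hF.diff.differentiableAt (T3_isOpen_HP.mem_nhds h1)).continuousAt
  exact ContinuousAt.comp (f := fun t : ℝ => pt t y) h2 (T3_cont_pt y).continuousAt

theorem T3_cont_dF (F : ℂ → ℂ) (M : ℝ) (hF : Cls F M) (y : ℝ) (hy : 0 < y) :
    Continuous (fun t : ℝ => deriv F (pt t y)) := by
  rw [continuous_iff_continuousAt]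
  intro t
  have h1 : pt t y ∈ HP := hy
  have h3 : DifferentiableOn ℂ (deriv F) HP := hF.diff.deriv T3_isOpen_HP
  have h2 : ContinuousAt (deriv F) (pt t y) :=
    (h3.differentiableAt (T3_isOpen_HP.mem_nhds h1)).continuousAt
  exact ContinuousAt.comp (f := fun t : ℝ => pt t y) h2 (T3_cont_pt y).continuousAt

theorem exists_nonpos (F : ℂ → ℂ) (M : ℝ) (hF : Cls F M) (w : ℂ) (y : ℝ) (hy : 0 < y)
    (hy1 : y ≤ 1 / 4) (hw : ∀ z : ℂ, y ≤ z.im → F z ≠ w) : ∃ x1 : ℝ, GG F w (pt x1 y) ≤ 0 := by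
  by_contra hcon
  push Not at hcon
  have hpi : 0 < Real.pi := Real.pi_pos
  have hw' : ∀ t : ℝ, F (pt t y) ≠ w := fun t => hw (pt t y) le_rfl
  have hre : ∀ t : ℝ, 2 * kap < (ss F w (pt t y)).re := by
    intro t
    have h1 := (T3_GG_pos_iff F w (pt t y) (hw' t)).1 (hcon t)
    linarith
  have hcq : Continuous (fun t : ℝ => deriv F (pt t y) / (F (pt t y) - w)) :=
    (T3_cont_dF F M hF y hy).div ((T3_cont_F F M hF y hy).sub continuous_const)
      (fun t => sub_ne_zero.2 (hw' t))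
  have hcs : Continuous (fun t : ℝ => ss F w (pt t y)) := by
    have h1 : (fun t : ℝ => ss F w (pt t y)) =
        fun t : ℝ => (Complex.I * (y : ℂ)) * (deriv F (pt t y) / (F (pt t y) - w)) := by
      funext t
      exact T3_ss_eq F w t y
    rw [h1]
    exact continuous_const.mul hcq
  have hint : ∫ t in (0 : ℝ)..(2 * Real.pi), ss F w (pt t y) =
      (Complex.I * (y : ℂ)) * ∫ t in (0 : ℝ)..(2 * Real.pi),
        deriv F (pt t y) / (F (pt t y) - w) := by
    rw [← intervalIntegral.integral_const_mul]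
    congr 1
    funext t
    exact T3_ss_eq F w t y
  have hnorm : ‖∫ t in (0 : ℝ)..(2 * Real.pi), ss F w (pt t y)‖ ≤ y * (2 * Real.pi) := by
    rw [hint, norm_mul, norm_mul, Complex.norm_I, one_mul, Complex.norm_real, Real.norm_eq_abs,
      abs_of_pos hy]
    exact mul_le_mul_of_nonneg_left (hF.mean y hy w hw) hy.le
  have hreint : (∫ t in (0 : ℝ)..(2 * Real.pi), ss F w (pt t y)).re =
      ∫ t in (0 : ℝ)..(2 * Real.pi), (ss F w (pt t y)).re := by
    have h1 := Complex.reCLM.intervalIntegral_comp_comm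
      (hcs.intervalIntegrable (μ := volume) 0 (2 * Real.pi))
    simp only [Complex.reCLM_apply] at h1
    exact h1.symm
  have hlow : ∫ _t in (0 : ℝ)..(2 * Real.pi), (2 * kap) ≤
      ∫ t in (0 : ℝ)..(2 * Real.pi), (ss F w (pt t y)).re := by
    apply intervalIntegral.integral_mono_on (by positivity)
    · exact intervalIntegrable_const
    · exact (Complex.continuous_re.comp hcs).intervalIntegrable _ _
    · intro t _
      exact (hre t).le
  rw [intervalIntegral.integral_const, smul_eq_mul, sub_zero] at hlow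
  have h5 : (∫ t in (0 : ℝ)..(2 * Real.pi), ss F w (pt t y)).re ≤ y * (2 * Real.pi) :=
    (Complex.re_le_norm _).trans hnorm
  rw [hreint] at h5
  have h6 : 2 * Real.pi * (2 * kap) ≤ y * (2 * Real.pi) := hlow.trans h5
  have h7 : y * (2 * Real.pi) < 2 * Real.pi * (2 * kap) := by
    unfold kap
    nlinarith
  linarith

theorem GG_le_tv (F : ℂ → ℂ) (M : ℝ) (hF : Cls F M) (w : ℂ) (y : ℝ) (hy : 0 < y)
    (hy1 : y ≤ 1 / 4) (hw : ∀ z : ℂ, y ≤ z.im → F z ≠ w) (x : ℝ) :
    ENNReal.ofReal (GG F w (pt x y)) ≤ (1 / 2) *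
      ∫⁻ t in Ioo 0 (2 * Real.pi), ENNReal.ofReal (HH F w (pt t y)) := by
  obtain ⟨x1, hx1⟩ := exists_nonpos F M hF w y hy hy1 hw
  have hw' : ∀ t : ℝ, F (pt t y) ≠ w := fun t => hw (pt t y) le_rfl
  have h1 := tv_lemma (fun t => GG F w (pt t y)) (fun t => GX F w (pt t y))
    (GG_hasDerivAt_x F M hF w y hy hw') (GX_continuous F M hF w y hy hw')
    (GG_per F M hF w y hy) x1 hx1 x
  have h2 : ∀ t : ℝ, (if 0 < GG F w (pt t y) then |GX F w (pt t y)| else 0) =
      HH F w (pt t y) := by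
    intro t
    unfold HH
    exact if_congr (T3_GG_pos_iff F w (pt t y) (hw' t)) rfl rfl
  simp only [h2] at h1
  exact h1

end H62.CJ
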