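import Pool.Agent.H62.CJ.J7
import Pool.Agent.H62.CJ.C1
import Pool.Agent.H62.CJ.T3
import Pool.Agent.H62.CJ.P1
import Pool.Agent.H62.CJ.L3

/-!
# CJ-S2: upper bound for the cost

`0 < y <= y0`, `0 < a`:
`int_{strip a (3/5 y)} |F' ζ|^2 G^+(F ζ, pt (Re ζ) y) <= (1/2) y^(1/2) (cQ0 PP + cQ1 B1 + cQ2 B2)(y)`, `p = 3/2`.

PROOF.  For `ζ` in the strip, `w = F ζ` is not a value of `F` on `Im >= y` (class property `inj`: equal values
have equal imaginary parts, `Im ζ < (3/5) y < y`).  `GG_le_tv` with `x = Re ζ`: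
`ofReal (‖F'‖^2 GG) = ofReal (‖F' ζ‖^2) ofReal (GG) <= (1/2) int⁻_t ofReal (‖F' ζ‖^2) ofReal (HH F (F ζ) (pt t y))`.
Integrate over the strip, swap (Tonelli, `lintegral_lintegral_swap`, joint measurability from `measurable_HH`):
`<= (1/2) int⁻_{t ∈ (0, 2 pi)} int⁻_{ζ ∈ strip} ofReal (‖F' ζ‖^2 HH F (F ζ) (pt t y))`
`<= (1/2) int⁻_t ofReal (y^(1/2) ‖F' (pt t y)‖^(3/2)) * int⁻_{closedBall (..) ((4+eps0)/2 + 4y)} ofReal (KA A s)`
(`cost_change`; `HH >= 0`), and the ball is contained in the ball of radius `RR = 2.128`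
(`eps0_ub`, `y <= 1e-5`), so by `psi_le` (`‖A - i‖ <= 2 + 4 y <= 2.001`, `AA_near`) it is at most
`(1/2) int⁻_t ofReal (y^(1/2) ‖F'‖^(3/2) (cQ0 + cQ1 Im A + cQ2 ‖A‖^2))`.  The integrand is nonnegative
(`Q_nonneg`) and continuous in `t`, so this equals `(1/2) ofReal (int ...)`
(`ofReal_integral_eq_lintegral_ofReal`; `Ioo` and `Ioc` differ by a null set), and the integral is
`y^(1/2)(cQ0 PP + cQ1 B1 + cQ2 B2)`.
-/

set_option autoImplicit false

open Set Metric MeasureTheory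

namespace H62.CJ

private theorem s2_cont_pt (y : ℝ) : Continuous (fun t : ℝ => pt t y) := by
  have h : (fun t : ℝ => pt t y) = fun t : ℝ => (t : ℂ) + (y : ℂ) * Complex.I := by
    funext t
    exact pt_eq t y
  rw [h]
  exact Complex.continuous_ofReal.add continuous_const

private theorem s2_along (f : ℂ → ℂ) (hf : DifferentiableOn ℂ f HP) (y : ℝ) (hy : 0 < y) :
    Continuous (fun t : ℝ => f (pt t y)) := by
  rw [continuous_iff_continuousAt]
  intro t
  have hO : IsOpen HP := isOpen_lt continuous_const Complex.continuous_im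
  have h1 : pt t y ∈ HP := hy
  exact ContinuousAt.comp (f := fun t : ℝ => pt t y) (g := f)
    (hf.differentiableAt (hO.mem_nhds h1)).continuousAt (s2_cont_pt y).continuousAt

private theorem s2_cont_AA (F : ℂ → ℂ) (M : ℝ) (hF : Cls F M) (y : ℝ) (hy : 0 < y) :
    Continuous (fun t : ℝ => AA F (pt t y)) := by
  have hO : IsOpen HP := isOpen_lt continuous_const Complex.continuous_im
  have h1 := s2_along (deriv F) (hF.diff.deriv hO) y hy
  have h2 := s2_along (deriv (deriv F)) ((hF.diff.deriv hO).deriv hO) y hy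
  have h3 : ∀ t : ℝ, deriv F (pt t y) ≠ 0 := fun t => deriv_ne F M hF _ hy
  have h4 : Continuous (fun t : ℝ => (y : ℂ) * deriv (deriv F) (pt t y) / deriv F (pt t y)) := by
    fun_prop (disch := exact h3 _)
  exact h4

private theorem s2_cont_pow (F : ℂ → ℂ) (M : ℝ) (hF : Cls F M) (y p : ℝ) (hy : 0 < y) :
    Continuous (fun t : ℝ => ‖deriv F (pt t y)‖ ^ p) := by
  have hO : IsOpen HP := isOpen_lt continuous_const Complex.continuous_im
  have h1 := s2_along (deriv F) (hF.diff.deriv hO) y hy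
  exact h1.norm.rpow_const fun t => Or.inl (norm_ne_zero_iff.2 (deriv_ne F M hF _ hy))

private theorem s2_HH_nonneg (F : ℂ → ℂ) (w z : ℂ) : 0 ≤ HH F w z := by
  unfold HH
  split_ifs
  · exact abs_nonneg _
  · exact le_rfl

theorem cost (F : ℂ → ℂ) (M : ℝ) (hF : Cls F M) (y a : ℝ) (hy : 0 < y) (hy1 : y ≤ y0)
    (ha : 0 < a) :
    ∫⁻ ζ in strip a (3 / 5 * y), ENNReal.ofReal (‖deriv F ζ‖ ^ 2 * GG F (F ζ) (pt ζ.re y)) ≤
      ENNReal.ofReal (1 / 2 * y ^ (1 / 2 : ℝ) *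
        (cQ0 * PP F (3 / 2) y + cQ1 * B1 F (3 / 2) y + cQ2 * B2 F (3 / 2) y)) := by
  have hpi := Real.pi_pos
  have hy2 : y ≤ 1 / 100000 := by simpa [y0] using hy1
  have hFm : Measurable F := hF.meas
  have hdm : Measurable (deriv F) := measurable_deriv F
  -- the values in the strip are not values above
  have hnot : ∀ ζ ∈ strip a (3 / 5 * y), ∀ z : ℂ, y ≤ z.im → F z ≠ F ζ := by
    intro ζ hζ z hz he
    have hζ0 : 0 < ζ.im := ha.trans hζ.2.2.1
    obtain ⟨k, hk⟩ := hF.inj z ζ (hy.trans_le hz) hζ0 he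
    have him := congrArg Complex.im hk
    rw [Complex.sub_im, Complex.ofReal_im] at him
    have h2 := hζ.2.2.2
    linarith
  have hmeas : Measurable (fun p : ℂ × ℝ => ENNReal.ofReal (‖deriv F p.1‖ ^ 2) *
      ENNReal.ofReal (HH F (F p.1) (pt p.2 y))) := by
    have h1 : Measurable (fun p : ℂ × ℝ => (F p.1, pt p.2 y)) :=
      (hFm.comp measurable_fst).prodMk ((s2_cont_pt y).measurable.comp measurable_snd)
    have h2 := (measurable_HH F hFm).comp h1
    exact ((hdm.comp measurable_fst).norm.pow_const 2).ennreal_ofReal.mul h2.ennreal_ofReal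
  have step1 : ∫⁻ ζ in strip a (3 / 5 * y),
        ENNReal.ofReal (‖deriv F ζ‖ ^ 2 * GG F (F ζ) (pt ζ.re y)) ≤
      ∫⁻ ζ in strip a (3 / 5 * y), (1 / 2) * ∫⁻ t in Ioo 0 (2 * Real.pi),
        ENNReal.ofReal (‖deriv F ζ‖ ^ 2) * ENNReal.ofReal (HH F (F ζ) (pt t y)) := by
    refine setLIntegral_mono' (measurableSet_strip _ _) fun ζ hζ => ?_
    have h1 := GG_le_tv F M hF (F ζ) y hy (by linarith) (hnot ζ hζ) ζ.re
    rw [ENNReal.ofReal_mul (by positivity)]
    have hHm : Measurable (fun t : ℝ => ENNReal.ofReal (HH F (F ζ) (pt t y))) := by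
      have h2 : Measurable (fun t : ℝ => (F ζ, pt t y)) :=
        measurable_const.prodMk (s2_cont_pt y).measurable
      exact ((measurable_HH F hFm).comp h2).ennreal_ofReal
    calc ENNReal.ofReal (‖deriv F ζ‖ ^ 2) * ENNReal.ofReal (GG F (F ζ) (pt ζ.re y))
        ≤ ENNReal.ofReal (‖deriv F ζ‖ ^ 2) * ((1 / 2) *
          ∫⁻ t in Ioo 0 (2 * Real.pi), ENNReal.ofReal (HH F (F ζ) (pt t y))) := by gcongr
      _ = (1 / 2) * (ENNReal.ofReal (‖deriv F ζ‖ ^ 2) *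
          ∫⁻ t in Ioo 0 (2 * Real.pi), ENNReal.ofReal (HH F (F ζ) (pt t y))) := by ring
      _ = _ := by rw [lintegral_const_mul _ hHm]
  have hm1 : Measurable (fun ζ : ℂ => ∫⁻ t in Ioo 0 (2 * Real.pi),
      ENNReal.ofReal (‖deriv F ζ‖ ^ 2) * ENNReal.ofReal (HH F (F ζ) (pt t y))) :=
    hmeas.lintegral_prod_right'
  have step2 : ∫⁻ ζ in strip a (3 / 5 * y), (1 / 2) * ∫⁻ t in Ioo 0 (2 * Real.pi),
        ENNReal.ofReal (‖deriv F ζ‖ ^ 2) * ENNReal.ofReal (HH F (F ζ) (pt t y)) =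
      (1 / 2) * ∫⁻ t in Ioo 0 (2 * Real.pi), ∫⁻ ζ in strip a (3 / 5 * y),
        ENNReal.ofReal (‖deriv F ζ‖ ^ 2) * ENNReal.ofReal (HH F (F ζ) (pt t y)) := by
    rw [lintegral_const_mul _ hm1, lintegral_lintegral_swap hmeas.aemeasurable]
  -- the inner integral
  have step3 : ∀ t : ℝ, ∫⁻ ζ in strip a (3 / 5 * y),
        ENNReal.ofReal (‖deriv F ζ‖ ^ 2) * ENNReal.ofReal (HH F (F ζ) (pt t y)) ≤
      ENNReal.ofReal (y ^ (1 / 2 : ℝ) * (‖deriv F (pt t y)‖ ^ (3 / 2 : ℝ) *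
        (cQ0 + cQ1 * (AA F (pt t y)).im + cQ2 * ‖AA F (pt t y)‖ ^ 2))) := by
    intro t
    have h1 := cost_change F M hF t y a hy (by linarith) ha
    have h2 : ∀ ζ : ℂ, ENNReal.ofReal (‖deriv F ζ‖ ^ 2) * ENNReal.ofReal (HH F (F ζ) (pt t y)) =
        ENNReal.ofReal (‖deriv F ζ‖ ^ 2 * HH F (F ζ) (pt t y)) := fun ζ =>
      (ENNReal.ofReal_mul (by positivity)).symm
    simp only [h2]
    refine h1.trans ?_
    have h3 : closedBall ((1 + Complex.I * AA F (pt t y)) / 2) ((4 + eps0) / 2 + 4 * y) ⊆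
        closedBall ((1 + Complex.I * AA F (pt t y)) / 2) RR := by
      apply closedBall_subset_closedBall
      have := eps0_ub
      unfold RR
      linarith
    have h4 : ‖AA F (pt t y) - Complex.I‖ ≤ 2 + 1 / 1000 := by
      have := AA_near F M hF t y hy (by linarith)
      linarith
    have h5 := (lintegral_mono_set h3).trans (psi_le (AA F (pt t y)) h4)
    calc ENNReal.ofReal (y ^ (1 / 2 : ℝ) * ‖deriv F (pt t y)‖ ^ (3 / 2 : ℝ)) *
          ∫⁻ s in closedBall ((1 + Complex.I * AA F (pt t y)) / 2) ((4 + eps0) / 2 + 4 * y),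
            ENNReal.ofReal (KA (AA F (pt t y)) s)
        ≤ ENNReal.ofReal (y ^ (1 / 2 : ℝ) * ‖deriv F (pt t y)‖ ^ (3 / 2 : ℝ)) *
          ENNReal.ofReal (cQ0 + cQ1 * (AA F (pt t y)).im + cQ2 * ‖AA F (pt t y)‖ ^ 2) := by
          gcongr
      _ = _ := by
          rw [← ENNReal.ofReal_mul (by positivity), mul_assoc]
  -- the integral in `t`
  have cp := s2_cont_pow F M hF y (3 / 2) hy
  have cA := s2_cont_AA F M hF y hy
  have cAi : Continuous (fun t : ℝ => (AA F (pt t y)).im) := Complex.continuous_im.comp cA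
  have i0 : IntervalIntegrable (fun t : ℝ => ‖deriv F (pt t y)‖ ^ (3 / 2 : ℝ)) volume 0
    (2 * Real.pi) := cp.intervalIntegrable _ _
  have i1 : IntervalIntegrable (fun t : ℝ => ‖deriv F (pt t y)‖ ^ (3 / 2 : ℝ) *
    (AA F (pt t y)).im) volume 0 (2 * Real.pi) := (cp.mul cAi).intervalIntegrable _ _
  have i2 : IntervalIntegrable (fun t : ℝ => ‖deriv F (pt t y)‖ ^ (3 / 2 : ℝ) *
    ‖AA F (pt t y)‖ ^ 2) volume 0 (2 * Real.pi) := (cp.mul (cA.norm.pow 2)).intervalIntegrable _ _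
  have hI : ∫ t in (0 : ℝ)..(2 * Real.pi), ‖deriv F (pt t y)‖ ^ (3 / 2 : ℝ) *
        (cQ0 + cQ1 * (AA F (pt t y)).im + cQ2 * ‖AA F (pt t y)‖ ^ 2) =
      cQ0 * PP F (3 / 2) y + cQ1 * B1 F (3 / 2) y + cQ2 * B2 F (3 / 2) y := by
    have e1 : ∀ t : ℝ, ‖deriv F (pt t y)‖ ^ (3 / 2 : ℝ) *
        (cQ0 + cQ1 * (AA F (pt t y)).im + cQ2 * ‖AA F (pt t y)‖ ^ 2) =
        cQ0 * ‖deriv F (pt t y)‖ ^ (3 / 2 : ℝ) +
          cQ1 * (‖deriv F (pt t y)‖ ^ (3 / 2 : ℝ) * (AA F (pt t y)).im) +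
          cQ2 * (‖deriv F (pt t y)‖ ^ (3 / 2 : ℝ) * ‖AA F (pt t y)‖ ^ 2) := fun t => by ring
    simp only [e1]
    rw [intervalIntegral.integral_add ((i0.const_mul _).add (i1.const_mul _)) (i2.const_mul _),
      intervalIntegral.integral_add (i0.const_mul _) (i1.const_mul _),
      intervalIntegral.integral_const_mul, intervalIntegral.integral_const_mul,
      intervalIntegral.integral_const_mul]
    rfl
  set g : ℝ → ℝ := fun t => y ^ (1 / 2 : ℝ) * (‖deriv F (pt t y)‖ ^ (3 / 2 : ℝ) *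
        (cQ0 + cQ1 * (AA F (pt t y)).im + cQ2 * ‖AA F (pt t y)‖ ^ 2)) with hg
  have cg : Continuous g := by
    rw [hg]
    fun_prop
  have g0 : ∀ t, 0 ≤ g t := fun t =>
    mul_nonneg (by positivity) (mul_nonneg (by positivity) (Q_nonneg _))
  have step4 : ∫⁻ t in Ioo 0 (2 * Real.pi), ENNReal.ofReal (g t) =
      ENNReal.ofReal (y ^ (1 / 2 : ℝ) *
        (cQ0 * PP F (3 / 2) y + cQ1 * B1 F (3 / 2) y + cQ2 * B2 F (3 / 2) y)) := by
    rw [← ofReal_integral_eq_lintegral_ofReal]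
    · congr 1
      rw [integral_Ioc_eq_integral_Ioo.symm, ← intervalIntegral.integral_of_le (by positivity),
        ← hI, ← intervalIntegral.integral_const_mul]
    · exact (cg.integrableOn_Icc (a := 0) (b := 2 * Real.pi)).mono_set Ioo_subset_Icc_self
    · exact Filter.Eventually.of_forall g0
  calc ∫⁻ ζ in strip a (3 / 5 * y), ENNReal.ofReal (‖deriv F ζ‖ ^ 2 * GG F (F ζ) (pt ζ.re y))
      ≤ (1 / 2) * ∫⁻ t in Ioo 0 (2 * Real.pi), ∫⁻ ζ in strip a (3 / 5 * y),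
        ENNReal.ofReal (‖deriv F ζ‖ ^ 2) * ENNReal.ofReal (HH F (F ζ) (pt t y)) :=
        step1.trans_eq step2
    _ ≤ (1 / 2) * ∫⁻ t in Ioo 0 (2 * Real.pi), ENNReal.ofReal (g t) := by
        gcongr with t
        exact step3 t
    _ = ENNReal.ofReal (1 / 2 * y ^ (1 / 2 : ℝ) *
        (cQ0 * PP F (3 / 2) y + cQ1 * B1 F (3 / 2) y + cQ2 * B2 F (3 / 2) y)) := by
        rw [step4, mul_assoc, ENNReal.ofReal_mul (by norm_num : (0 : ℝ) ≤ 1 / 2)]
        congr 1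
        rw [ENNReal.ofReal_div_of_pos (by norm_num)]
        norm_num

end H62.CJ
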