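import Pool.Agent.H62.CJ.S1
import Pool.Agent.H62.CJ.S2
import Pool.Agent.H62.CJ.M1
import Pool.Agent.H62.CJ.K1
import Pool.Agent.H62.CJ.P2
import Pool.Agent.H62.CJ.N1

/-!
# CJ-S3: the key inequality

`key_real`: there is `CJ >= 0` depending on `M` only with
`c int_{3T/5}^{3 y0/5} v^(kap-1/2)(n0 PP + n1 B1 + n2 B2) dv
   <= CJ + (1/2) int_T^{y0} y^(kap-1/2)(cQ0 PP + cQ1 B1 + cQ2 B2) dy`, `c = 2^(-1/2)(5/3)^kap`.
PROOF.  `consumption` (`a = 3/5 T`, `b = 3/5 y0`), `master`, `J_bound` (first term), `cost` with `a = 3/5 T` for each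
`y ∈ (T, y0)`: `ofReal (y^(kap-1)) * ofReal (1/2 y^(1/2) Q) = ofReal (1/2 y^(kap-1/2) Q)`, where
`Q = cQ0 PP + cQ1 B1 + cQ2 B2 >= 0` (integral of `‖F'‖^(3/2) (cQ0 + cQ1 Im A + cQ2 ‖A‖^2)`, `Q_nonneg`), and
`int⁻ ofReal = ofReal int` (continuous nonnegative).  So
`ofReal LHS <= ofReal CJ + ofReal (int) = ofReal (CJ + int)`, and then `LHS <= CJ + int` as the right side is
nonnegative (`ENNReal.ofReal_le_ofReal_iff`).

`star`.  `I = int_T^{y0} y^(kap-1/2) PP`, `nu = kap + 1/2`, so `nu - 1 = kap - 1/2`.  By `parts1`, `parts2`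
(`p = 3/2`, `μ = nu`), for `0 < a <= b <= 1/2` and constants `q0, q1, q2`:
`int_a^b y^(nu-1)(q0 PP + q1 B1 + q2 B2) = (q0 + q1 nu/(3/2) + q2 nu(nu+1)/(3/2)^2) int_a^b y^(nu-1) PP + Err`,
`|Err| <= (|q1| + 8 |q2|)(a^nu PP a + b^nu PP b)` (`B1_le`: `|B1| <= 4 PP`).
Also `int_{3T/5}^{3y0/5} y^(nu-1) PP >= I - int_{3y0/5}^{y0} y^(nu-1) PP` (if `T <= 3 y0/5` by splitting the
intervals; if `T > 3 y0/5` the right side is `<= 0`).  With `c1 = ` cost coefficient, `c2 = ` consumption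
coefficient of `num_ineq`, `c1 + 1/1000 <= c2` (so `c2 > 0` if `c1 >= 0`; in any case) and `I >= 0`:
`c2 (I - D) - E1 <= CJ + c1 I + E2`, `D = int_{3y0/5}^{y0} y^(nu-1) PP`, hence
`I/1000 <= c2 D + CJ + E1 + E2`.  (If `c2 < 0` were possible the first step would fail; `c2 >= 0` follows from
`n0 + ... > 0`: e.g. from `num_ineq` and `cQ0 + cQ1 nu/p + cQ2 nu(nu+1)/p^2 >= 0`, which is `Q_nonneg` at a
complex number `A` with `Im A = nu/p` and `‖A‖^2 = nu(nu+1)/p^2 >= (nu/p)^2`.)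
The quantities at `y0` and `3 y0/5` and `D` are bounded by constants depending on `M` by `PP_le`
(`PP <= 2 pi (M/y)^(3/2)`); the quantities at `T` and `3T/5` are kept.  `M >= 0` if the class is nonempty.
-/

set_option autoImplicit false

open Set Metric MeasureTheory

namespace H62.CJ

private theorem s3_cont_ddF (F : ℂ → ℂ) (M : ℝ) (hF : Cls F M) (y : ℝ) (hy : 0 < y) :
    Continuous (fun t : ℝ => deriv (deriv F) (pt t y)) := by
  rw [continuous_iff_continuousAt]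
  intro t
  have h1 : pt t y ∈ HP := hy
  have h3 : DifferentiableOn ℂ (deriv (deriv F)) HP :=
    (hF.diff.deriv T3_isOpen_HP).deriv T3_isOpen_HP
  have h2 : ContinuousAt (deriv (deriv F)) (pt t y) :=
    (h3.differentiableAt (T3_isOpen_HP.mem_nhds h1)).continuousAt
  exact ContinuousAt.comp (f := fun t : ℝ => pt t y) h2 (T3_cont_pt y).continuousAt

private theorem s3_cont_AA (F : ℂ → ℂ) (M : ℝ) (hF : Cls F M) (y : ℝ) (hy : 0 < y) :
    Continuous (fun t : ℝ => AA F (pt t y)) := by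
  unfold AA
  simp only [pt_im]
  exact (continuous_const.mul (s3_cont_ddF F M hF y hy)).div (T3_cont_dF F M hF y hy)
    (fun t => deriv_ne F M hF (pt t y) hy)

private theorem s3_Q (F : ℂ → ℂ) (M : ℝ) (hF : Cls F M) (y : ℝ) (hy : 0 < y) :
    0 ≤ cQ0 * PP F (3 / 2) y + cQ1 * B1 F (3 / 2) y + cQ2 * B2 F (3 / 2) y := by
  have h1 : Continuous (fun x : ℝ => ‖deriv F (pt x y)‖ ^ (3 / 2 : ℝ)) :=
    (T3_cont_dF F M hF y hy).norm.rpow_const (fun x => Or.inr (by norm_num))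
  have h2 : Continuous (fun x : ℝ => ‖deriv F (pt x y)‖ ^ (3 / 2 : ℝ) * (AA F (pt x y)).im) :=
    h1.mul (Complex.continuous_im.comp (s3_cont_AA F M hF y hy))
  have h3 : Continuous (fun x : ℝ => ‖deriv F (pt x y)‖ ^ (3 / 2 : ℝ) * ‖AA F (pt x y)‖ ^ 2) :=
    h1.mul ((s3_cont_AA F M hF y hy).norm.pow 2)
  have h4 : cQ0 * PP F (3 / 2) y + cQ1 * B1 F (3 / 2) y + cQ2 * B2 F (3 / 2) y =
      ∫ x in (0 : ℝ)..(2 * Real.pi), (cQ0 * ‖deriv F (pt x y)‖ ^ (3 / 2 : ℝ) +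
        cQ1 * (‖deriv F (pt x y)‖ ^ (3 / 2 : ℝ) * (AA F (pt x y)).im) +
        cQ2 * (‖deriv F (pt x y)‖ ^ (3 / 2 : ℝ) * ‖AA F (pt x y)‖ ^ 2)) := by
    have e1 : IntervalIntegrable (fun x : ℝ => cQ0 * ‖deriv F (pt x y)‖ ^ (3 / 2 : ℝ)) volume 0
        (2 * Real.pi) := (continuous_const.mul h1).intervalIntegrable _ _
    have e2 : IntervalIntegrable (fun x : ℝ =>
        cQ1 * (‖deriv F (pt x y)‖ ^ (3 / 2 : ℝ) * (AA F (pt x y)).im)) volume 0
        (2 * Real.pi) := (continuous_const.mul h2).intervalIntegrable _ _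
    have e3 : IntervalIntegrable (fun x : ℝ =>
        cQ2 * (‖deriv F (pt x y)‖ ^ (3 / 2 : ℝ) * ‖AA F (pt x y)‖ ^ 2)) volume 0
        (2 * Real.pi) := (continuous_const.mul h3).intervalIntegrable _ _
    rw [intervalIntegral.integral_add (e1.add e2) e3, intervalIntegral.integral_add e1 e2,
      intervalIntegral.integral_const_mul, intervalIntegral.integral_const_mul,
      intervalIntegral.integral_const_mul]
    rfl
  rw [h4]
  apply intervalIntegral.integral_nonneg (by positivity)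
  intro x _
  have h6 := Q_nonneg (AA F (pt x y))
  have h5 : 0 ≤ ‖deriv F (pt x y)‖ ^ (3 / 2 : ℝ) := by positivity
  have h7 := mul_nonneg h5 h6
  calc (0 : ℝ) ≤ ‖deriv F (pt x y)‖ ^ (3 / 2 : ℝ) *
        (cQ0 + cQ1 * (AA F (pt x y)).im + cQ2 * ‖AA F (pt x y)‖ ^ 2) := h7
    _ = _ := by ring

private theorem s3_lin (F : ℂ → ℂ) (M : ℝ) (hF : Cls F M) (q0 q1 q2 : ℝ) :
    ContinuousOn (fun y => q0 * PP F (3 / 2) y + q1 * B1 F (3 / 2) y + q2 * B2 F (3 / 2) y)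
      (Ioi 0) :=
  ((continuousOn_const.mul (PP_continuousOn F M hF _)).add
    (continuousOn_const.mul (B1_continuousOn F M hF _))).add
    (continuousOn_const.mul (B2_continuousOn F M hF _))

private theorem s3_rpow (r : ℝ) : ContinuousOn (fun y : ℝ => y ^ r) (Ioi 0) :=
  continuousOn_id.rpow_const fun y hy => Or.inl (ne_of_gt hy)

private theorem s3_ii (f : ℝ → ℝ) (hf : ContinuousOn f (Ioi 0)) (a b : ℝ) (ha : 0 < a)
    (hb : 0 < b) : IntervalIntegrable f volume a b := by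
  apply ContinuousOn.intervalIntegrable
  apply hf.mono
  intro x hx
  have h1 : min a b ≤ x := hx.1
  exact lt_of_lt_of_le (lt_min ha hb) h1

theorem key_real (M : ℝ) : ∃ CJ : ℝ, 0 ≤ CJ ∧ ∀ F : ℂ → ℂ, Cls F M → ∀ T : ℝ, 0 < T → T < y0 →
    (2 : ℝ) ^ (-(1 / 2) : ℝ) * (5 / 3 : ℝ) ^ kap * (∫ v in (3 / 5 * T)..(3 / 5 * y0),
      v ^ (kap - 1 / 2) * (n0 * PP F (3 / 2) v + n1 * B1 F (3 / 2) v + n2 * B2 F (3 / 2) v)) ≤
    CJ + 1 / 2 * ∫ y in T..y0,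
      y ^ (kap - 1 / 2) * (cQ0 * PP F (3 / 2) y + cQ1 * B1 F (3 / 2) y + cQ2 * B2 F (3 / 2) y) := by
  obtain ⟨C, hC, hJ⟩ := J_bound M
  refine ⟨C, hC, ?_⟩
  intro F hF T hT hT1
  have ha : 0 < 3 / 5 * T := by positivity
  have h1 := consumption F M hF (3 / 5 * T) (3 / 5 * y0) ha (by linarith) le_rfl
  have h2 := master F M hF T hT hT1
  have h3 := hJ F hF (3 / 5 * T) ha
  have hcont : ContinuousOn (fun y : ℝ => 1 / 2 * (y ^ (kap - 1 / 2) *
      (cQ0 * PP F (3 / 2) y + cQ1 * B1 F (3 / 2) y + cQ2 * B2 F (3 / 2) y))) (Ioi 0) :=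
    continuousOn_const.mul ((s3_rpow _).mul (s3_lin F M hF _ _ _))
  have hint : IntegrableOn (fun y : ℝ => 1 / 2 * (y ^ (kap - 1 / 2) *
      (cQ0 * PP F (3 / 2) y + cQ1 * B1 F (3 / 2) y + cQ2 * B2 F (3 / 2) y))) (Ioo T y0) volume := by
    have e1 := s3_ii _ hcont T y0 hT (hT.trans hT1)
    rw [intervalIntegrable_iff_integrableOn_Ioo_of_le hT1.le] at e1
    exact e1
  have hnn : ∀ y : ℝ, 0 < y → 0 ≤ 1 / 2 * (y ^ (kap - 1 / 2) *
      (cQ0 * PP F (3 / 2) y + cQ1 * B1 F (3 / 2) y + cQ2 * B2 F (3 / 2) y)) := by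
    intro y hy
    have e1 := s3_Q F M hF y hy
    have e2 : 0 ≤ y ^ (kap - 1 / 2) := Real.rpow_nonneg hy.le _
    positivity
  have hI : 0 ≤ 1 / 2 * ∫ y in T..y0, y ^ (kap - 1 / 2) *
      (cQ0 * PP F (3 / 2) y + cQ1 * B1 F (3 / 2) y + cQ2 * B2 F (3 / 2) y) := by
    rw [← intervalIntegral.integral_const_mul]
    apply intervalIntegral.integral_nonneg hT1.le
    intro y hy
    exact hnn y (hT.trans_le hy.1)
  have h4 : ∫⁻ y in Ioo T y0, ENNReal.ofReal (y ^ (kap - 1)) *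
        ∫⁻ ζ in strip (3 / 5 * T) (3 / 5 * y),
          ENNReal.ofReal (‖deriv F ζ‖ ^ 2 * GG F (F ζ) (pt ζ.re y)) ≤
      ENNReal.ofReal (1 / 2 * ∫ y in T..y0, y ^ (kap - 1 / 2) *
      (cQ0 * PP F (3 / 2) y + cQ1 * B1 F (3 / 2) y + cQ2 * B2 F (3 / 2) y)) := by
    have e1 : ∫⁻ y in Ioo T y0, ENNReal.ofReal (y ^ (kap - 1)) *
        ∫⁻ ζ in strip (3 / 5 * T) (3 / 5 * y),
          ENNReal.ofReal (‖deriv F ζ‖ ^ 2 * GG F (F ζ) (pt ζ.re y)) ≤
        ∫⁻ y in Ioo T y0, ENNReal.ofReal (1 / 2 * (y ^ (kap - 1 / 2) *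
      (cQ0 * PP F (3 / 2) y + cQ1 * B1 F (3 / 2) y + cQ2 * B2 F (3 / 2) y))) := by
      refine setLIntegral_mono' measurableSet_Ioo ?_
      intro y hy
      have hyp : 0 < y := hT.trans hy.1
      have hc := cost F M hF y (3 / 5 * T) hyp hy.2.le ha
      refine (mul_le_mul_right hc _).trans (le_of_eq ?_)
      rw [← ENNReal.ofReal_mul (Real.rpow_nonneg hyp.le _)]
      congr 1
      have e2 : y ^ (kap - 1 / 2) = y ^ (kap - 1) * y ^ (1 / 2 : ℝ) := by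
        rw [← Real.rpow_add hyp]
        congr 1
        ring
      rw [e2]
      ring
    refine e1.trans (le_of_eq ?_)
    rw [← ofReal_integral_eq_lintegral_ofReal hint]
    · rw [intervalIntegral.integral_of_le hT1.le, integral_const_mul, integral_Ioc_eq_integral_Ioo]
    · filter_upwards [ae_restrict_mem measurableSet_Ioo] with y hy
      exact hnn y (hT.trans hy.1)
  have h5 := h1.trans (h2.trans (add_le_add h3 h4))
  rw [← ENNReal.ofReal_add hC hI] at h5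
  exact (ENNReal.ofReal_le_ofReal_iff (add_nonneg hC hI)).1 h5

private theorem s3_parts (F : ℂ → ℂ) (M : ℝ) (hF : Cls F M) (q0 q1 q2 a b : ℝ) (ha : 0 < a)
    (hab : a ≤ b) (hb : b ≤ 1 / 2) :
    |(∫ y in a..b, y ^ (nu - 1) *
        (q0 * PP F (3 / 2) y + q1 * B1 F (3 / 2) y + q2 * B2 F (3 / 2) y)) -
      (q0 + q1 * (nu / (3 / 2)) + q2 * (nu * (nu + 1) / (3 / 2) ^ 2)) *
        ∫ y in a..b, y ^ (nu - 1) * PP F (3 / 2) y| ≤
      (|q1| + 8 * |q2|) * (a ^ nu * PP F (3 / 2) a + b ^ nu * PP F (3 / 2) b) := by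
  have hb0 : 0 < b := ha.trans_le hab
  have e0 := s3_ii (fun y : ℝ => y ^ (nu - 1) * PP F (3 / 2) y)
    ((s3_rpow _).mul (PP_continuousOn F M hF _)) a b ha hb0
  have e1 := s3_ii (fun y : ℝ => y ^ (nu - 1) * B1 F (3 / 2) y)
    ((s3_rpow _).mul (B1_continuousOn F M hF _)) a b ha hb0
  have e2 := s3_ii (fun y : ℝ => y ^ (nu - 1) * B2 F (3 / 2) y)
    ((s3_rpow _).mul (B2_continuousOn F M hF _)) a b ha hb0
  have h1 : (∫ y in a..b, y ^ (nu - 1) *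
        (q0 * PP F (3 / 2) y + q1 * B1 F (3 / 2) y + q2 * B2 F (3 / 2) y)) =
      q0 * (∫ y in a..b, y ^ (nu - 1) * PP F (3 / 2) y) +
      q1 * (∫ y in a..b, y ^ (nu - 1) * B1 F (3 / 2) y) +
      q2 * (∫ y in a..b, y ^ (nu - 1) * B2 F (3 / 2) y) := by
    rw [← intervalIntegral.integral_const_mul, ← intervalIntegral.integral_const_mul,
      ← intervalIntegral.integral_const_mul,
      ← intervalIntegral.integral_add (e0.const_mul _) (e1.const_mul _),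
      ← intervalIntegral.integral_add ((e0.const_mul _).add (e1.const_mul _)) (e2.const_mul _)]
    congr 1
    funext y
    ring
  have h2 := parts1 F M hF (3 / 2) nu a b (by norm_num) ha hab
  have h3 := parts2 F M hF (3 / 2) nu a b (by norm_num) ha hab
  have h4 := B1_le F M hF (3 / 2) a ha (hab.trans hb)
  have h5 := B1_le F M hF (3 / 2) b hb0 hb
  have h6 := (PP_pos F M hF (3 / 2) a ha).le
  have h7 := (PP_pos F M hF (3 / 2) b hb0).le
  have h8 : 0 ≤ a ^ nu := Real.rpow_nonneg ha.le _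
  have h9 : 0 ≤ b ^ nu := Real.rpow_nonneg hb0.le _
  rw [h1, h3, h2]
  generalize (∫ y in a..b, y ^ (nu - 1) * PP F (3 / 2) y) = I
  generalize PP F (3 / 2) a = Pa at *
  generalize PP F (3 / 2) b = Pb at *
  generalize B1 F (3 / 2) a = Ba at *
  generalize B1 F (3 / 2) b = Bb at *
  generalize a ^ nu = A at *
  generalize b ^ nu = B at *
  have k1 : |A * Pa - B * Pb| ≤ A * Pa + B * Pb := by
    rw [abs_le]
    constructor <;> nlinarith [mul_nonneg h8 h6, mul_nonneg h9 h7]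
  have k2 : |A * Ba - B * Bb| ≤ 4 * (A * Pa + B * Pb) := by
    have i1 : |A * Ba| ≤ A * (4 * Pa) := by
      rw [abs_mul, abs_of_nonneg h8]
      exact mul_le_mul_of_nonneg_left h4 h8
    have i2 : |B * Bb| ≤ B * (4 * Pb) := by
      rw [abs_mul, abs_of_nonneg h9]
      exact mul_le_mul_of_nonneg_left h5 h9
    calc |A * Ba - B * Bb| ≤ |A * Ba| + |B * Bb| := abs_sub _ _
      _ ≤ A * (4 * Pa) + B * (4 * Pb) := add_le_add i1 i2
      _ = _ := by ring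
  have hX : 0 ≤ A * Pa + B * Pb := by positivity
  have hnu : nu = 6369 / 10000 := rfl
  have k3 : (q0 * I + q1 * (1 / (3 / 2) * (A * Pa - B * Pb) + nu / (3 / 2) * I) +
      q2 * (1 / (3 / 2) * (A * Ba - B * Bb) +
        (nu + 1) / (3 / 2) * (1 / (3 / 2) * (A * Pa - B * Pb) + nu / (3 / 2) * I))) -
      (q0 + q1 * (nu / (3 / 2)) + q2 * (nu * (nu + 1) / (3 / 2) ^ 2)) * I =
      q1 * (2 / 3 * (A * Pa - B * Pb)) + q2 * (2 / 3 * (A * Ba - B * Bb) +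
        (nu + 1) * (4 / 9) * (A * Pa - B * Pb)) := by ring
  rw [k3]
  have k4 : |2 / 3 * (A * Pa - B * Pb)| ≤ A * Pa + B * Pb := by
    rw [abs_mul, abs_of_nonneg (by norm_num : (0 : ℝ) ≤ 2 / 3)]
    linarith
  have k5 : |2 / 3 * (A * Ba - B * Bb) + (nu + 1) * (4 / 9) * (A * Pa - B * Pb)| ≤
      8 * (A * Pa + B * Pb) := by
    refine (abs_add_le _ _).trans ?_
    rw [abs_mul, abs_of_nonneg (by norm_num : (0 : ℝ) ≤ 2 / 3), abs_mul,
      abs_of_nonneg (by rw [hnu]; norm_num : (0 : ℝ) ≤ (nu + 1) * (4 / 9)), hnu]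
    linarith
  calc |q1 * (2 / 3 * (A * Pa - B * Pb)) + q2 * (2 / 3 * (A * Ba - B * Bb) +
        (nu + 1) * (4 / 9) * (A * Pa - B * Pb))|
      ≤ |q1 * (2 / 3 * (A * Pa - B * Pb))| + |q2 * (2 / 3 * (A * Ba - B * Bb) +
        (nu + 1) * (4 / 9) * (A * Pa - B * Pb))| := abs_add_le _ _
    _ ≤ |q1| * (A * Pa + B * Pb) + |q2| * (8 * (A * Pa + B * Pb)) := by
        rw [abs_mul q1, abs_mul q2]
        exact add_le_add (mul_le_mul_of_nonneg_left k4 (abs_nonneg _))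
          (mul_le_mul_of_nonneg_left k5 (abs_nonneg _))
    _ = _ := by ring

private theorem s3_c1_nonneg :
    0 ≤ cQ0 + cQ1 * (nu / (3 / 2)) + cQ2 * (nu * (nu + 1) / (3 / 2) ^ 2) := by
  have hnu : nu = 6369 / 10000 := rfl
  have h0 : (0 : ℝ) ≤ nu * (nu + 1) / (3 / 2) ^ 2 - (nu / (3 / 2)) ^ 2 := by
    rw [hnu]
    norm_num
  have h1 := Q_nonneg (⟨Real.sqrt (nu * (nu + 1) / (3 / 2) ^ 2 - (nu / (3 / 2)) ^ 2),
    nu / (3 / 2)⟩ : ℂ)
  have h2 : ‖(⟨Real.sqrt (nu * (nu + 1) / (3 / 2) ^ 2 - (nu / (3 / 2)) ^ 2),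
    nu / (3 / 2)⟩ : ℂ)‖ ^ 2 = nu * (nu + 1) / (3 / 2) ^ 2 := by
    rw [← Complex.normSq_eq_norm_sq, Complex.normSq_mk, Real.mul_self_sqrt h0]
    ring
  rw [h2] at h1
  exact h1

private theorem s3_PP_le (F : ℂ → ℂ) (M : ℝ) (hF : Cls F M) (a y : ℝ) (ha : 0 < a)
    (hay : a ≤ y) (hy1 : y ≤ 1) : PP F (3 / 2) y ≤ 2 * Real.pi * (|M| / a) ^ (3 / 2 : ℝ) := by
  have hy : 0 < y := ha.trans_le hay
  have h0 : 0 ≤ M := (norm_nonneg _).trans (hF.bdd (pt 0 1) (by simp) (by simp))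
  refine (PP_le F M hF (3 / 2) y (by norm_num) hy hy1).trans ?_
  have h1 : M / y ≤ |M| / a := by
    rw [abs_of_nonneg h0]
    exact div_le_div_of_nonneg_left h0 ha hay
  have h2 : (M / y) ^ (3 / 2 : ℝ) ≤ (|M| / a) ^ (3 / 2 : ℝ) :=
    Real.rpow_le_rpow (by positivity) h1 (by norm_num)
  have h3 : 0 ≤ 2 * Real.pi := by positivity
  exact mul_le_mul_of_nonneg_left h2 h3

theorem star (M : ℝ) : ∃ K : ℝ, 0 ≤ K ∧ ∀ F : ℂ → ℂ, Cls F M → ∀ T : ℝ, 0 < T → T < y0 →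
    1 / 1000 * ∫ y in T..y0, y ^ (nu - 1) * PP F (3 / 2) y ≤
      K * (1 + T ^ nu * PP F (3 / 2) T + (3 / 5 * T) ^ nu * PP F (3 / 2) (3 / 5 * T)) := by
  obtain ⟨CJ, hCJ, hkey⟩ := key_real M
  have hy0 : (0 : ℝ) < y0 := by unfold y0; norm_num
  have hy0' : y0 = 1 / 100000 := rfl
  have hnu : nu = 6369 / 10000 := rfl
  have hkap : kap = 1369 / 10000 := rfl
  set c : ℝ := (2 : ℝ) ^ (-(1 / 2) : ℝ) * (5 / 3 : ℝ) ^ kap with hc
  have hcpos : 0 < c := by rw [hc]; positivity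
  set cc : ℝ := cQ0 + cQ1 * (nu / (3 / 2)) + cQ2 * (nu * (nu + 1) / (3 / 2) ^ 2) with hcc
  set nn : ℝ := n0 + n1 * (nu / (3 / 2)) + n2 * (nu * (nu + 1) / (3 / 2) ^ 2) with hnn
  have hnum : 1 / 2 * cc + 1 / 1000 ≤ c * nn := num_ineq
  have hcc0 : 0 ≤ cc := s3_c1_nonneg
  have hcn0 : 0 ≤ c * nn := by linarith
  set PB : ℝ := 2 * Real.pi * (|M| / (3 / 5 * y0)) ^ (3 / 2 : ℝ) with hPB
  have hPB0 : 0 ≤ PB := by rw [hPB]; positivity
  set D0 : ℝ := (3 / 5 * y0) ^ (nu - 1) * PB * (2 / 5 * y0) with hD0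
  have hD00 : 0 ≤ D0 := by rw [hD0]; positivity
  set W1 : ℝ := 1 / 2 * (|cQ1| + 8 * |cQ2|) with hW1
  set W2 : ℝ := c * (|n1| + 8 * |n2|) with hW2
  have hW10 : 0 ≤ W1 := by rw [hW1]; positivity
  have hW20 : 0 ≤ W2 := by rw [hW2]; positivity
  set S : ℝ := y0 ^ nu * PB + (3 / 5 * y0) ^ nu * PB with hS
  have hS0 : 0 ≤ S := by rw [hS]; positivity
  refine ⟨CJ + c * nn * D0 + (W1 + W2) * S + (W1 + W2), by positivity, ?_⟩
  intro F hF T hT hT1
  have hk := hkey F hF T hT hT1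
  have hexp : kap - 1 / 2 = nu - 1 := by rw [hkap, hnu]; norm_num
  rw [hexp] at hk
  have hT5 : 0 < 3 / 5 * T := by positivity
  have hy5 : 0 < 3 / 5 * y0 := by positivity
  have p1 := s3_parts F M hF cQ0 cQ1 cQ2 T y0 hT hT1.le (by rw [hy0']; norm_num)
  have p2 := s3_parts F M hF n0 n1 n2 (3 / 5 * T) (3 / 5 * y0) hT5 (by linarith)
    (by rw [hy0']; norm_num)
  rw [← hcc] at p1
  rw [← hnn] at p2
  have i0 : ∀ a b : ℝ, 0 < a → 0 < b → IntervalIntegrable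
      (fun y : ℝ => y ^ (nu - 1) * PP F (3 / 2) y) volume a b := fun a b ha hb =>
    s3_ii _ ((s3_rpow _).mul (PP_continuousOn F M hF _)) a b ha hb
  have fnn : ∀ y : ℝ, 0 < y → 0 ≤ y ^ (nu - 1) * PP F (3 / 2) y := fun y hy =>
    mul_nonneg (Real.rpow_nonneg hy.le _) (PP_pos F M hF _ y hy).le
  have s1 := intervalIntegral.integral_add_adjacent_intervals
    (i0 (3 / 5 * T) (3 / 5 * y0) hT5 hy5) (i0 (3 / 5 * y0) y0 hy5 hy0)
  have s2 := intervalIntegral.integral_add_adjacent_intervals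
    (i0 (3 / 5 * T) T hT5 hT) (i0 T y0 hT hy0)
  have s3 : 0 ≤ ∫ y in (3 / 5 * T)..T, y ^ (nu - 1) * PP F (3 / 2) y := by
    apply intervalIntegral.integral_nonneg (by linarith)
    intro y hy
    exact fnn y (hT5.trans_le hy.1)
  have s4 : 0 ≤ ∫ y in T..y0, y ^ (nu - 1) * PP F (3 / 2) y := by
    apply intervalIntegral.integral_nonneg hT1.le
    intro y hy
    exact fnn y (hT.trans_le hy.1)
  have s5 : ∫ y in (3 / 5 * y0)..y0, y ^ (nu - 1) * PP F (3 / 2) y ≤ D0 := by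
    have t1 : ∫ y in (3 / 5 * y0)..y0, y ^ (nu - 1) * PP F (3 / 2) y ≤
        ∫ y in (3 / 5 * y0)..y0, (3 / 5 * y0) ^ (nu - 1) * PB := by
      apply intervalIntegral.integral_mono_on (by linarith) (i0 _ _ hy5 hy0)
        intervalIntegrable_const
      intro y hy
      have u1 : PP F (3 / 2) y ≤ PB :=
        s3_PP_le F M hF (3 / 5 * y0) y hy5 hy.1 (hy.2.trans (by rw [hy0']; norm_num))
      have u2 : y ^ (nu - 1) ≤ (3 / 5 * y0) ^ (nu - 1) :=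
        Real.rpow_le_rpow_of_nonpos hy5 hy.1 (by rw [hnu]; norm_num)
      exact mul_le_mul u2 u1 (PP_pos F M hF _ y (hy5.trans_le hy.1)).le
        (Real.rpow_nonneg hy5.le _)
    refine t1.trans (le_of_eq ?_)
    rw [intervalIntegral.integral_const, smul_eq_mul, hD0]
    ring
  have q1 : PP F (3 / 2) y0 ≤ PB :=
    s3_PP_le F M hF (3 / 5 * y0) y0 hy5 (by linarith) (by rw [hy0']; norm_num)
  have q2 : PP F (3 / 2) (3 / 5 * y0) ≤ PB :=
    s3_PP_le F M hF (3 / 5 * y0) (3 / 5 * y0) hy5 le_rfl (by rw [hy0']; norm_num)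
  have q3 : y0 ^ nu * PP F (3 / 2) y0 ≤ y0 ^ nu * PB :=
    mul_le_mul_of_nonneg_left q1 (Real.rpow_nonneg hy0.le _)
  have q4 : (3 / 5 * y0) ^ nu * PP F (3 / 2) (3 / 5 * y0) ≤ (3 / 5 * y0) ^ nu * PB :=
    mul_le_mul_of_nonneg_left q2 (Real.rpow_nonneg hy5.le _)
  have q5 : 0 ≤ T ^ nu * PP F (3 / 2) T :=
    mul_nonneg (Real.rpow_nonneg hT.le _) (PP_pos F M hF _ T hT).le
  have q6 : 0 ≤ (3 / 5 * T) ^ nu * PP F (3 / 2) (3 / 5 * T) :=
    mul_nonneg (Real.rpow_nonneg hT5.le _) (PP_pos F M hF _ _ hT5).le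
  have q7 : 0 ≤ y0 ^ nu * PB := by positivity
  have q8 : 0 ≤ (3 / 5 * y0) ^ nu * PB := by positivity
  have p1' := (abs_le.1 p1).2
  have p2' := (abs_le.1 p2).1
  generalize (∫ y in (3 / 5 * T)..(3 / 5 * y0), y ^ (nu - 1) * (n0 * PP F (3 / 2) y +
    n1 * B1 F (3 / 2) y + n2 * B2 F (3 / 2) y)) = LI at hk p2'
  generalize (∫ y in T..y0, y ^ (nu - 1) * (cQ0 * PP F (3 / 2) y +
    cQ1 * B1 F (3 / 2) y + cQ2 * B2 F (3 / 2) y)) = RI at hk p1'
  generalize (∫ y in T..y0, y ^ (nu - 1) * PP F (3 / 2) y) = I at *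
  generalize (∫ y in (3 / 5 * T)..(3 / 5 * y0), y ^ (nu - 1) * PP F (3 / 2) y) = I' at *
  generalize (∫ y in (3 / 5 * y0)..y0, y ^ (nu - 1) * PP F (3 / 2) y) = DD at *
  generalize (∫ y in (3 / 5 * T)..T, y ^ (nu - 1) * PP F (3 / 2) y) = EE at *
  generalize T ^ nu * PP F (3 / 2) T = X1 at *
  generalize (3 / 5 * T) ^ nu * PP F (3 / 2) (3 / 5 * T) = X2 at *
  generalize y0 ^ nu * PP F (3 / 2) y0 = Z1 at *
  generalize (3 / 5 * y0) ^ nu * PP F (3 / 2) (3 / 5 * y0) = Z2 at *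
  -- lower bound of the left side
  have r1 : I - D0 ≤ I' := by linarith
  have r2 : c * (nn * I' - (|n1| + 8 * |n2|) * (X2 + Z2)) ≤ c * LI :=
    mul_le_mul_of_nonneg_left (by linarith) hcpos.le
  have r3 : c * nn * (I - D0) ≤ c * nn * I' := mul_le_mul_of_nonneg_left r1 hcn0
  have r4 : (1 / 2 * cc + 1 / 1000) * I ≤ c * nn * I := mul_le_mul_of_nonneg_right hnum s4
  have r5 : c * ((|n1| + 8 * |n2|) * (X2 + Z2)) = W2 * (X2 + Z2) := by rw [hW2]; ring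
  have r6 : 1 / 2 * ((|cQ1| + 8 * |cQ2|) * (X1 + Z1)) = W1 * (X1 + Z1) := by rw [hW1]; ring
  have r7 : 1 / 1000 * I ≤ CJ + c * nn * D0 + W2 * (X2 + Z2) + W1 * (X1 + Z1) := by
    linarith
  have r8 : W2 * (X2 + Z2) ≤ W2 * (X2 + S) := mul_le_mul_of_nonneg_left (by linarith) hW20
  have r9 : W1 * (X1 + Z1) ≤ W1 * (X1 + S) := mul_le_mul_of_nonneg_left (by linarith) hW10
  have r10 : 0 ≤ c * nn * D0 := mul_nonneg hcn0 hD00
  have r11 : 0 ≤ (W1 + W2) * S := by positivity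
  have r12 : 0 ≤ (CJ + c * nn * D0 + (W1 + W2) * S) * (X1 + X2) := by positivity
  have r13 : 0 ≤ W1 * X2 := by positivity
  have r14 : 0 ≤ W2 * X1 := by positivity
  calc 1 / 1000 * I ≤ CJ + c * nn * D0 + W2 * (X2 + S) + W1 * (X1 + S) := by linarith
    _ ≤ (CJ + c * nn * D0 + (W1 + W2) * S + (W1 + W2)) * (1 + X1 + X2) := by
        have e : (CJ + c * nn * D0 + (W1 + W2) * S + (W1 + W2)) * (1 + X1 + X2) =
          (CJ + c * nn * D0 + W2 * (X2 + S) + W1 * (X1 + S)) +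
          (CJ + c * nn * D0 + (W1 + W2) * S) * (X1 + X2) + W1 * X2 + W2 * X1 + (W1 + W2) := by ring
        rw [e]
        linarith

end H62.CJ
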