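import Pool.Agent.H62.CJ.S3

/-!
# CJ-S4: the bound for the 3/2 mean

`shift_cls`: if `F` is in the class with bound `M` and `‖F‖ <= M` on `0 < Im <= 3`, then for `0 <= τ <= 1` the
function `z ↦ F (z + i τ)` on the upper half plane (and also as a function on `ℂ`) is in the class.
PROOF.  Measurable: composition.  Differentiable, periodic, injective, bounded: immediate.  `mean`: the
integrand at height `y` is the integrand of `F` at height `y + τ` (`deriv (fun z => F (z + iτ)) z = deriv F (z + iτ)`,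
`deriv_comp_add_const`), and a value omitted by the shifted function on `Im >= y` is omitted by `F` on
`Im >= y + τ`.

`P32_bound`.  PROOF.  Let `0 < τ < y0/4`, `Fτ z = F (z + i τ)`, so `PP Fτ p y = PP F p (y + τ)`.  `star` for `Fτ` and
`0 < T < y0`: `int_T^{y0} y^(nu-1) PP Fτ (3/2) y dy <= 1000 K (1 + T^nu PP Fτ T + (3T/5)^nu PP Fτ (3T/5))`, and
`PP Fτ (3/2) y = PP F (3/2) (y + τ) <= 2 pi (M/τ)^(3/2)` for `y + τ <= 1` (`PP_le`, monotone in the height),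
so for `T` small enough (depending on `τ`, `M`) the right side is `<= 3000 K`.  Hence, taking such a
`T < τ`: `int_τ^{2τ} y^(nu-1) PP F (3/2) (y+τ) dy <= 3000 K`.  For `y ∈ [τ, 2τ]`: `y^(nu-1) >= (2τ)^(nu-1)` (`nu < 1`),
and `PP F (3/2) (2τ) <= ((y+τ)/(2τ))^6 PP F (3/2) (y+τ) <= (3/2)^6 PP F (3/2) (y+τ)` (`PP_harnack1`).  So
`τ (2τ)^(nu-1) (2/3)^6 PP F (3/2) (2τ) <= 3000 K`, i.e. `PP F (3/2) (2τ) <= 6000 K (3/2)^6 (2τ)^(-nu)`.
This covers all heights `2τ < y0/2`; for `y0/2 <= y <= y0` use `PP_le` (bounded by a constant, and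
`y^(-nu) >= 1`).
-/

set_option autoImplicit false

open Set Metric MeasureTheory

namespace H62.CJ

private theorem s4_pt (x y τ : ℝ) : pt x y + (τ : ℂ) * Complex.I = pt x (y + τ) := by
  apply Complex.ext <;> simp

theorem shift_cls (F : ℂ → ℂ) (M : ℝ) (hF : Cls F M)
    (h3 : ∀ z : ℂ, 0 < z.im → z.im ≤ 3 → ‖F z‖ ≤ M) (τ : ℝ) (h0 : 0 ≤ τ) (h1 : τ ≤ 1) :
    Cls (fun z => F (z + (τ : ℂ) * Complex.I)) M := by
  have him : ∀ z : ℂ, (z + (τ : ℂ) * Complex.I).im = z.im + τ := by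
    intro z
    simp
  refine ⟨hF.meas.comp (measurable_id.add_const _), ?_, ?_, ?_, ?_, ?_⟩
  · refine hF.diff.comp (differentiable_id.add_const _).differentiableOn ?_
    intro z hz
    have hz' : 0 < z.im := hz
    show 0 < (z + (τ : ℂ) * Complex.I).im
    rw [him]
    linarith
  · intro z hz
    have h := hF.per (z + (τ : ℂ) * Complex.I) (by rw [him]; linarith)
    rw [← h]
    congr 1
    ring
  · intro z w hz hw h
    obtain ⟨k, hk⟩ := hF.inj (z + (τ : ℂ) * Complex.I) (w + (τ : ℂ) * Complex.I)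
      (by rw [him]; linarith) (by rw [him]; linarith) h
    refine ⟨k, ?_⟩
    rw [← hk]
    ring
  · intro z hz hz2
    exact h3 _ (by rw [him]; linarith) (by rw [him]; linarith)
  · intro y hy w hw
    have h := hF.mean (y + τ) (by linarith) w (by
      intro z hz
      have h2 := hw (z - (τ : ℂ) * Complex.I) (by
        have : (z - (τ : ℂ) * Complex.I).im = z.im - τ := by simp
        rw [this]
        linarith)
      simpa using h2)
    have e : (∫ x in (0 : ℝ)..(2 * Real.pi),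
        deriv (fun z => F (z + (τ : ℂ) * Complex.I)) (pt x y) /
          ((fun z => F (z + (τ : ℂ) * Complex.I)) (pt x y) - w)) =
        ∫ x in (0 : ℝ)..(2 * Real.pi), deriv F (pt x (y + τ)) / (F (pt x (y + τ)) - w) := by
      refine intervalIntegral.integral_congr (fun x _ => ?_)
      simp only [deriv_comp_add_const, s4_pt]
    rw [e]
    exact h

private theorem s4_PP (F : ℂ → ℂ) (τ p y : ℝ) :
    PP (fun z => F (z + (τ : ℂ) * Complex.I)) p y = PP F p (y + τ) := by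
  unfold PP
  refine intervalIntegral.integral_congr (fun x _ => ?_)
  simp only [deriv_comp_add_const, s4_pt]

private theorem s4_main (M K : ℝ) (hK : 0 ≤ K)
    (hs : ∀ F : ℂ → ℂ, Cls F M → ∀ T : ℝ, 0 < T → T < y0 →
      1 / 1000 * ∫ y in T..y0, y ^ (nu - 1) * PP F (3 / 2) y ≤
        K * (1 + T ^ nu * PP F (3 / 2) T + (3 / 5 * T) ^ nu * PP F (3 / 2) (3 / 5 * T)))
    (F : ℂ → ℂ) (hF : Cls F M) (h3 : ∀ z : ℂ, 0 < z.im → z.im ≤ 3 → ‖F z‖ ≤ M)
    (τ : ℝ) (hτ : 0 < τ) (hτ1 : τ < y0 / 4) :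
    PP F (3 / 2) (2 * τ) ≤ 6000 * K * (3 / 2) ^ (6 : ℝ) * (2 * τ) ^ (-nu) := by
  have hy0 : y0 = 1 / 100000 := rfl
  have hnu : nu = 6369 / 10000 := rfl
  have hnu0 : 0 < nu := by rw [hnu]; norm_num
  have hM : 0 ≤ M := (norm_nonneg _).trans (hF.bdd (pt 0 1) (by simp) (by simp))
  have hG := shift_cls F M hF h3 τ hτ.le (by rw [hy0] at hτ1; linarith)
  set G : ℂ → ℂ := fun z => F (z + (τ : ℂ) * Complex.I) with hGdef
  have hPP : ∀ y : ℝ, PP G (3 / 2) y = PP F (3 / 2) (y + τ) := fun y => s4_PP F τ (3 / 2) y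
  set A : ℝ := 2 * Real.pi * (M / τ) ^ (3 / 2 : ℝ) with hA
  have hA0 : 0 ≤ A := by rw [hA]; positivity
  have hPA : ∀ y : ℝ, 0 < y → y ≤ 1 / 2 → PP G (3 / 2) y ≤ A := by
    intro y hy hy1
    rw [hPP]
    refine (PP_le F M hF (3 / 2) (y + τ) (by norm_num) (by linarith)
      (by rw [hy0] at hτ1; linarith)).trans ?_
    have h1 : M / (y + τ) ≤ M / τ := div_le_div_of_nonneg_left hM hτ (by linarith)
    have h2 : (M / (y + τ)) ^ (3 / 2 : ℝ) ≤ (M / τ) ^ (3 / 2 : ℝ) :=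
      Real.rpow_le_rpow (div_nonneg hM (by linarith)) h1 (by norm_num)
    exact mul_le_mul_of_nonneg_left h2 (by positivity)
  -- choice of T
  set T : ℝ := min (τ / 2) ((1 / (A + 1)) ^ (1 / nu)) with hT
  have hT0 : 0 < T := lt_min (by linarith) (by positivity)
  have hT1 : T ≤ τ / 2 := min_le_left _ _
  have hT2 : T ^ nu ≤ 1 / (A + 1) := by
    have h1 : T ^ nu ≤ ((1 / (A + 1)) ^ (1 / nu)) ^ nu :=
      Real.rpow_le_rpow hT0.le (min_le_right _ _) hnu0.le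
    rw [← Real.rpow_mul (by positivity), one_div_mul_cancel hnu0.ne', Real.rpow_one] at h1
    exact h1
  have hTA : T ^ nu * A ≤ 1 := by
    have h1 : T ^ nu * A ≤ 1 / (A + 1) * A := mul_le_mul_of_nonneg_right hT2 hA0
    have h2 : 1 / (A + 1) * A ≤ 1 := by
      rw [one_div, inv_mul_le_iff₀ (by linarith)]
      linarith
    exact h1.trans h2
  have hTy : T < y0 := by linarith
  have hstar := hs G hG T hT0 hTy
  have q1 : T ^ nu * PP G (3 / 2) T ≤ 1 :=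
    (mul_le_mul_of_nonneg_left (hPA T hT0 (by rw [hy0] at hτ1; linarith))
      (Real.rpow_nonneg hT0.le _)).trans hTA
  have q2 : (3 / 5 * T) ^ nu * PP G (3 / 2) (3 / 5 * T) ≤ 1 := by
    have e1 : (3 / 5 * T) ^ nu ≤ T ^ nu :=
      Real.rpow_le_rpow (by positivity) (by linarith) hnu0.le
    have e2 := hPA (3 / 5 * T) (by positivity) (by rw [hy0] at hτ1; linarith)
    have e3 : 0 ≤ PP G (3 / 2) (3 / 5 * T) := (PP_pos G M hG _ _ (by positivity)).le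
    exact (mul_le_mul e1 e2 e3 (Real.rpow_nonneg hT0.le _)).trans hTA
  have q3 : ∫ y in T..y0, y ^ (nu - 1) * PP G (3 / 2) y ≤ 3000 * K := by
    have e1 : K * (1 + T ^ nu * PP G (3 / 2) T +
        (3 / 5 * T) ^ nu * PP G (3 / 2) (3 / 5 * T)) ≤ K * 3 :=
      mul_le_mul_of_nonneg_left (by linarith) hK
    linarith
  -- restrict to [τ, 2τ]
  have hcont : ContinuousOn (fun y : ℝ => y ^ (nu - 1) * PP G (3 / 2) y) (Ioi 0) :=
    (continuousOn_id.rpow_const fun y hy => Or.inl (ne_of_gt hy)).mul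
      (PP_continuousOn G M hG _)
  have hii : ∀ a b : ℝ, 0 < a → 0 < b → IntervalIntegrable
      (fun y : ℝ => y ^ (nu - 1) * PP G (3 / 2) y) volume a b := by
    intro a b ha hb
    apply ContinuousOn.intervalIntegrable
    apply hcont.mono
    intro x hx
    exact lt_of_lt_of_le (lt_min ha hb) hx.1
  have hnn : ∀ y : ℝ, 0 < y → 0 ≤ y ^ (nu - 1) * PP G (3 / 2) y := fun y hy =>
    mul_nonneg (Real.rpow_nonneg hy.le _) (PP_pos G M hG _ y hy).le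
  have q4 : ∫ y in τ..(2 * τ), y ^ (nu - 1) * PP G (3 / 2) y ≤
      ∫ y in T..y0, y ^ (nu - 1) * PP G (3 / 2) y := by
    refine intervalIntegral.integral_mono_interval (by linarith) (by linarith) (by linarith) ?_
      (hii T y0 hT0 (by rw [hy0]; norm_num))
    filter_upwards [ae_restrict_mem measurableSet_Ioc] with y hy
    exact hnn y (hT0.trans hy.1)
  have q5 : τ * ((2 * τ) ^ (nu - 1) * ((3 / 2 : ℝ) ^ (6 : ℝ))⁻¹ * PP F (3 / 2) (2 * τ)) ≤
      ∫ y in τ..(2 * τ), y ^ (nu - 1) * PP G (3 / 2) y := by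
    have e1 : τ * ((2 * τ) ^ (nu - 1) * ((3 / 2 : ℝ) ^ (6 : ℝ))⁻¹ * PP F (3 / 2) (2 * τ)) =
        ∫ y in τ..(2 * τ),
          ((2 * τ) ^ (nu - 1) * ((3 / 2 : ℝ) ^ (6 : ℝ))⁻¹ * PP F (3 / 2) (2 * τ)) := by
      rw [intervalIntegral.integral_const, smul_eq_mul]
      ring
    rw [e1]
    apply intervalIntegral.integral_mono_on (by linarith) intervalIntegrable_const
      (hii τ (2 * τ) hτ (by linarith))
    intro y hy
    have hy1 : 0 < y := hτ.trans_le hy.1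
    have f1 : (2 * τ) ^ (nu - 1) ≤ y ^ (nu - 1) :=
      Real.rpow_le_rpow_of_nonpos hy1 hy.2 (by rw [hnu]; norm_num)
    have f2 : PP F (3 / 2) (2 * τ) ≤ (3 / 2 : ℝ) ^ (6 : ℝ) * PP G (3 / 2) y := by
      rw [hPP]
      have g1 := PP_harnack1 F M hF (3 / 2) (2 * τ) (y + τ) (by norm_num) (by linarith)
        (by linarith [hy.1]) (by rw [hy0] at hτ1; linarith [hy.2])
      refine g1.trans ?_
      have g2 : ((y + τ) / (2 * τ)) ^ (4 * (3 / 2) : ℝ) ≤ (3 / 2 : ℝ) ^ (6 : ℝ) := by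
        rw [show (4 * (3 / 2) : ℝ) = 6 by norm_num]
        refine Real.rpow_le_rpow (by positivity) ?_ (by norm_num)
        rw [div_le_iff₀ (by linarith)]
        linarith [hy.2]
      exact mul_le_mul_of_nonneg_right g2 (PP_pos F M hF _ _ (by linarith)).le
    have f3 : ((3 / 2 : ℝ) ^ (6 : ℝ))⁻¹ * PP F (3 / 2) (2 * τ) ≤ PP G (3 / 2) y := by
      rw [inv_mul_le_iff₀ (by positivity)]
      exact f2
    have f4 : 0 ≤ ((3 / 2 : ℝ) ^ (6 : ℝ))⁻¹ * PP F (3 / 2) (2 * τ) :=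
      mul_nonneg (by positivity) (PP_pos F M hF _ _ (by linarith)).le
    rw [mul_assoc]
    exact mul_le_mul f1 f3 f4 (Real.rpow_nonneg hy1.le _)
  have q6 : τ * ((2 * τ) ^ (nu - 1) * ((3 / 2 : ℝ) ^ (6 : ℝ))⁻¹ * PP F (3 / 2) (2 * τ)) ≤
      3000 * K := q5.trans (q4.trans q3)
  have h2τ : 0 < 2 * τ := by linarith
  have e5 : (2 * τ) ^ (nu - 1) = (2 * τ) ^ nu / (2 * τ) := by
    rw [Real.rpow_sub h2τ, Real.rpow_one]
  have e6 : τ * ((2 * τ) ^ (nu - 1) * ((3 / 2 : ℝ) ^ (6 : ℝ))⁻¹ * PP F (3 / 2) (2 * τ)) =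
      (2 * τ) ^ nu * ((3 / 2 : ℝ) ^ (6 : ℝ))⁻¹ * PP F (3 / 2) (2 * τ) / 2 := by
    rw [e5]
    field_simp
  rw [e6] at q6
  have e7 : (2 * τ) ^ (-nu) = ((2 * τ) ^ nu)⁻¹ := Real.rpow_neg h2τ.le _
  rw [e7]
  have hX : 0 < (2 * τ) ^ nu := Real.rpow_pos_of_pos h2τ _
  have hY : 0 < (3 / 2 : ℝ) ^ (6 : ℝ) := by positivity
  have e8 : PP F (3 / 2) (2 * τ) =
      ((2 * τ) ^ nu * ((3 / 2 : ℝ) ^ (6 : ℝ))⁻¹ * PP F (3 / 2) (2 * τ) / 2) *
        (2 * (3 / 2 : ℝ) ^ (6 : ℝ) * ((2 * τ) ^ nu)⁻¹) := by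
    field_simp
  rw [e8]
  calc ((2 * τ) ^ nu * ((3 / 2 : ℝ) ^ (6 : ℝ))⁻¹ * PP F (3 / 2) (2 * τ) / 2) *
        (2 * (3 / 2 : ℝ) ^ (6 : ℝ) * ((2 * τ) ^ nu)⁻¹)
      ≤ 3000 * K * (2 * (3 / 2 : ℝ) ^ (6 : ℝ) * ((2 * τ) ^ nu)⁻¹) :=
        mul_le_mul_of_nonneg_right q6 (by positivity)
    _ = 6000 * K * (3 / 2 : ℝ) ^ (6 : ℝ) * ((2 * τ) ^ nu)⁻¹ := by ring

theorem P32_bound (M : ℝ) : ∃ C : ℝ, 0 < C ∧ ∀ F : ℂ → ℂ, Cls F M →
    (∀ z : ℂ, 0 < z.im → z.im ≤ 3 → ‖F z‖ ≤ M) → ∀ y : ℝ, 0 < y → y ≤ y0 →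
      PP F (3 / 2) y ≤ C * y ^ (-nu) := by
  obtain ⟨K, hK, hs⟩ := star M
  have hy0 : y0 = 1 / 100000 := rfl
  have hnu : nu = 6369 / 10000 := rfl
  refine ⟨6000 * K * (3 / 2) ^ (6 : ℝ) + 2 * Real.pi * (|M| / (y0 / 2)) ^ (3 / 2 : ℝ) + 1,
    ?_, ?_⟩
  · rw [hy0]
    positivity
  intro F hF h3 y hy hy1
  have hP2 : 0 ≤ 2 * Real.pi * (|M| / (y0 / 2)) ^ (3 / 2 : ℝ) := by
    rw [hy0]
    positivity
  have hP1 : 0 ≤ 6000 * K * (3 / 2 : ℝ) ^ (6 : ℝ) := by positivity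
  have hyn : 0 ≤ y ^ (-nu) := Real.rpow_nonneg hy.le _
  by_cases hc : y < y0 / 2
  · have h := s4_main M K hK hs F hF h3 (y / 2) (by linarith) (by linarith)
    rw [show 2 * (y / 2) = y by ring] at h
    refine h.trans (mul_le_mul_of_nonneg_right ?_ hyn)
    linarith
  · push Not at hc
    have hM : 0 ≤ M := (norm_nonneg _).trans (hF.bdd (pt 0 1) (by simp) (by simp))
    have h1 := PP_le F M hF (3 / 2) y (by norm_num) hy (by rw [hy0] at hy1; linarith)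
    have h2 : M / y ≤ |M| / (y0 / 2) := by
      rw [abs_of_nonneg hM]
      exact div_le_div_of_nonneg_left hM (by rw [hy0]; norm_num) hc
    have h3' : (M / y) ^ (3 / 2 : ℝ) ≤ (|M| / (y0 / 2)) ^ (3 / 2 : ℝ) :=
      Real.rpow_le_rpow (by positivity) h2 (by norm_num)
    have h4 : PP F (3 / 2) y ≤ 2 * Real.pi * (|M| / (y0 / 2)) ^ (3 / 2 : ℝ) :=
      h1.trans (mul_le_mul_of_nonneg_left h3' (by positivity))
    have h5 : (1 : ℝ) ≤ y ^ (-nu) :=
      Real.one_le_rpow_of_pos_of_le_one_of_nonpos hy (by rw [hy0] at hy1; linarith)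
        (by rw [hnu]; norm_num)
    have h6 : (6000 * K * (3 / 2) ^ (6 : ℝ) + 2 * Real.pi * (|M| / (y0 / 2)) ^ (3 / 2 : ℝ) + 1) *
        1 ≤ (6000 * K * (3 / 2) ^ (6 : ℝ) + 2 * Real.pi * (|M| / (y0 / 2)) ^ (3 / 2 : ℝ) + 1) *
        y ^ (-nu) := mul_le_mul_of_nonneg_left h5 (by linarith)
    linarith

end H62.CJ
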