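import Pool.Agent.H62.CJ.P2

/-!
# CJ-S5: the mean with the small exponent p = 1/16

PROOF.  `p = 1/16`, `P = PP F p`.  `AA_sq`: `‖A‖^2 <= 3 + 2 Im A + 20 y`, multiply with `‖F'‖^p` and integrate:
`B2 <= (3 + 20 y) P + 2 B1` for `0 < y <= 1/2`.
`P' = - (p/y) B1`; `B1' = B1/y - (p/y) B2` (product rule from `B1_hasDerivAt`: `B1 = y (B1/y)`).
Let `λ = 0.0132`, `μ = λ + 1 - 2p = 0.8882`; `λ μ = 0.01172424 >= p^2 (3 + 20 y0) = 3.0002/256 = 0.011719531...`.
`Z = p B1 + μ P`.  `- y Z' - λ Z = - p B1 + p^2 B2 + μ p B1 - λ p B1 - λ μ P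
 <= p B1 (-1 + μ - λ + 2p) + (p^2 (3+20y) - λ μ) P <= 0` because `-1 + μ - λ + 2 p = 0`, `P >= 0`.
So `(y^λ Z)' = y^(λ-1)(λ Z + y Z') >= 0`: `y^λ Z y <= y0^λ Z y0 =: c0`, and `c0 <= y0^λ (4p + μ) P y0 <= 2 P y0`
(`B1_le`).  Let `c = 2 P y0 >= 0`: `Z y <= c y^(-λ)` on `(0, y0]`.
`(y^(-μ) P)' = y^(-μ-1)(y P' - μ P) = - y^(-μ-1) Z >= - c y^(-μ-λ-1)`.  So
`Ψ y = y^(-μ) P y - (c/(μ+λ)) y^(-μ-λ)` has `Ψ' = - y^(-μ-1) Z + c y^(-μ-λ-1) >= 0`; `Ψ y <= Ψ y0 <= y0^(-μ) P y0`: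
`P y <= (y/y0)^μ P y0 + (c/(μ+λ)) y^(-λ) <= (1 + 2/(μ+λ)) P y0 y^(-λ) <= 4 P y0 y^(-λ)` (`y <= y0 < 1`), and
`P y0 <= 2 pi (M/y0)^(1/16)` (`PP_le`).
-/

set_option autoImplicit false

open Set Metric MeasureTheory

namespace H62.CJ

private theorem s5_isOpen : IsOpen HP := isOpen_lt continuous_const Complex.continuous_im

private theorem s5_pt (y : ℝ) : Continuous (fun x : ℝ => pt x y) := by
  simp only [pt_eq]
  fun_prop

private theorem s5_c1 (F : ℂ → ℂ) (M : ℝ) (hF : Cls F M) (y : ℝ) (hy : 0 < y) :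
    Continuous (fun x : ℝ => deriv F (pt x y)) ∧
      Continuous (fun x : ℝ => deriv (deriv F) (pt x y)) := by
  have h1 : DifferentiableOn ℂ (deriv F) HP := hF.diff.deriv s5_isOpen
  have h2 : DifferentiableOn ℂ (deriv (deriv F)) HP := h1.deriv s5_isOpen
  have hm : ∀ x : ℝ, pt x y ∈ HP := fun x => hy
  exact ⟨h1.continuousOn.comp_continuous (s5_pt y) hm, h2.continuousOn.comp_continuous (s5_pt y) hm⟩

private theorem s5_B2 (F : ℂ → ℂ) (M : ℝ) (hF : Cls F M) (p y : ℝ) (hy : 0 < y)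
    (hy1 : y ≤ 1 / 2) : B2 F p y ≤ (3 + 20 * y) * PP F p y + 2 * B1 F p y := by
  obtain ⟨h1, h2⟩ := s5_c1 F M hF y hy
  have hne : ∀ x : ℝ, deriv F (pt x y) ≠ 0 := fun x => deriv_ne F M hF (pt x y) hy
  have hA : Continuous (fun x : ℝ => AA F (pt x y)) := by
    have : (fun x : ℝ => AA F (pt x y)) =
        fun x : ℝ => (y : ℂ) * deriv (deriv F) (pt x y) / deriv F (pt x y) := rfl
    rw [this]
    exact (continuous_const.mul h2).div h1 hne
  have hP : Continuous (fun x : ℝ => ‖deriv F (pt x y)‖ ^ p) :=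
    h1.norm.rpow_const fun x => Or.inl (norm_ne_zero_iff.2 (hne x))
  have hB : Continuous (fun x : ℝ => ‖deriv F (pt x y)‖ ^ p * (AA F (pt x y)).im) :=
    hP.mul (Complex.continuous_im.comp hA)
  have hB2 : Continuous (fun x : ℝ => ‖deriv F (pt x y)‖ ^ p * ‖AA F (pt x y)‖ ^ 2) :=
    hP.mul (hA.norm.pow 2)
  have hpi : (0 : ℝ) ≤ 2 * Real.pi := by positivity
  unfold B2 PP B1
  rw [← intervalIntegral.integral_const_mul, ← intervalIntegral.integral_const_mul,
    ← intervalIntegral.integral_add ((hP.const_mul _).intervalIntegrable _ _)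
      ((hB.const_mul _).intervalIntegrable _ _)]
  refine intervalIntegral.integral_mono_on hpi (hB2.intervalIntegrable _ _)
    (((hP.const_mul _).add (hB.const_mul _)).intervalIntegrable _ _) ?_
  intro x _
  have h3 := AA_sq F M hF x y hy hy1
  have h4 : 0 ≤ ‖deriv F (pt x y)‖ ^ p := Real.rpow_nonneg (norm_nonneg _) _
  nlinarith [mul_le_mul_of_nonneg_left h3 h4]

private theorem s5_B1der (F : ℂ → ℂ) (M : ℝ) (hF : Cls F M) (p y : ℝ) (hy : 0 < y) :
    HasDerivAt (B1 F p) (B1 F p y / y - p / y * B2 F p y) y := by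
  have h1 := (hasDerivAt_id y).mul (B1_hasDerivAt F M hF p y hy)
  have h2 : (id * fun r => B1 F p r / r) =ᶠ[nhds y] B1 F p := by
    filter_upwards [lt_mem_nhds hy] with r hr
    simp only [Pi.mul_apply, id]
    field_simp
  have h3 := h1.congr_of_eventuallyEq h2.symm
  refine h3.congr_deriv ?_
  simp only [id]
  field_simp
  ring

theorem P116_bound (M : ℝ) : ∃ C : ℝ, 0 < C ∧ ∀ F : ℂ → ℂ, Cls F M → ∀ y : ℝ, 0 < y → y ≤ y0 →
    PP F (1 / 16) y ≤ C * y ^ (-(132 / 10000) : ℝ) := by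
  refine ⟨|4 * (2 * Real.pi * (M / y0) ^ (1 / 16 : ℝ))| + 1, by positivity, ?_⟩
  intro F hF y hy hyy
  have hy00 : (0 : ℝ) < y0 := by unfold y0; norm_num
  have hy01 : y0 ≤ 1 / 100000 := le_of_eq rfl
  have hPy0 := PP_le F M hF (1 / 16) y0 (by norm_num) hy00 (by linarith)
  have hP0 : 0 < PP F (1 / 16) y0 := PP_pos F M hF _ _ hy00
  suffices hs : PP F (1 / 16) y ≤ 4 * PP F (1 / 16) y0 * y ^ (-(132 / 10000) : ℝ) by
    refine hs.trans ?_
    refine mul_le_mul_of_nonneg_right ?_ (Real.rpow_nonneg hy.le _)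
    have h1 := le_abs_self (4 * (2 * Real.pi * (M / y0) ^ (1 / 16 : ℝ)))
    linarith
  -- first step
  have hIcc : ∀ t ∈ Icc y y0, 0 < t := fun t ht => hy.trans_le ht.1
  have hW : ∀ t ∈ Icc y y0, t ^ (132 / 10000 : ℝ) *
      (1 / 16 * B1 F (1 / 16) t + 8882 / 10000 * PP F (1 / 16) t) ≤ 2 * PP F (1 / 16) y0 := by
    intro t ht
    have hder : ∀ r : ℝ, 0 < r → HasDerivAt (fun r : ℝ => r ^ (132 / 10000 : ℝ) *
        (1 / 16 * B1 F (1 / 16) r + 8882 / 10000 * PP F (1 / 16) r))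
        (132 / 10000 * r ^ ((132 / 10000 : ℝ) - 1) *
          (1 / 16 * B1 F (1 / 16) r + 8882 / 10000 * PP F (1 / 16) r) +
        r ^ (132 / 10000 : ℝ) * (1 / 16 * (B1 F (1 / 16) r / r - 1 / 16 / r * B2 F (1 / 16) r) +
          8882 / 10000 * (-(1 / 16 / r) * B1 F (1 / 16) r))) r := by
      intro r hr
      exact (Real.hasDerivAt_rpow_const (Or.inl hr.ne')).mul
        (((s5_B1der F M hF (1 / 16) r hr).const_mul (1 / 16)).add
          ((PP_hasDerivAt F M hF (1 / 16) r hr).const_mul (8882 / 10000)))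
    have hmono : MonotoneOn (fun r : ℝ => r ^ (132 / 10000 : ℝ) *
        (1 / 16 * B1 F (1 / 16) r + 8882 / 10000 * PP F (1 / 16) r)) (Icc y y0) := by
      refine monotoneOn_of_deriv_nonneg (convex_Icc _ _)
        (fun r hr => (hder r (hIcc r hr)).continuousAt.continuousWithinAt)
        (fun r hr => (hder r (hIcc r (interior_subset hr))).differentiableAt.differentiableWithinAt)
        ?_
      intro r hr
      have hr' := interior_subset hr
      have hr0 := hIcc r hr'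
      rw [(hder r hr0).deriv]
      have h2 := s5_B2 F M hF (1 / 16) r hr0 (by linarith [hr'.2])
      have h3 : 0 < PP F (1 / 16) r := PP_pos F M hF _ _ hr0
      have h4 : r ≤ 1 / 100000 := hr'.2.trans hy01
      have h5 : r ^ (132 / 10000 : ℝ) = r ^ ((132 / 10000 : ℝ) - 1) * r := by
        rw [← Real.rpow_add_one hr0.ne']
        norm_num
      rw [h5]
      have h6 : 132 / 10000 * r ^ ((132 / 10000 : ℝ) - 1) *
          (1 / 16 * B1 F (1 / 16) r + 8882 / 10000 * PP F (1 / 16) r) +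
        r ^ ((132 / 10000 : ℝ) - 1) * r *
          (1 / 16 * (B1 F (1 / 16) r / r - 1 / 16 / r * B2 F (1 / 16) r) +
          8882 / 10000 * (-(1 / 16 / r) * B1 F (1 / 16) r)) =
          r ^ ((132 / 10000 : ℝ) - 1) * (132 / 10000 *
          (1 / 16 * B1 F (1 / 16) r + 8882 / 10000 * PP F (1 / 16) r) +
          1 / 16 * (B1 F (1 / 16) r - 1 / 16 * B2 F (1 / 16) r) -
          8882 / 10000 * (1 / 16 * B1 F (1 / 16) r)) := by
        generalize r ^ ((132 / 10000 : ℝ) - 1) = u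
        field_simp
        ring
      rw [h6]
      refine mul_nonneg (Real.rpow_nonneg hr0.le _) ?_
      nlinarith [mul_nonneg h3.le (sub_nonneg.2 h4)]
    have h7 := hmono ht (right_mem_Icc.2 hyy) ht.2
    refine h7.trans ?_
    show y0 ^ (132 / 10000 : ℝ) *
        (1 / 16 * B1 F (1 / 16) y0 + 8882 / 10000 * PP F (1 / 16) y0) ≤ 2 * PP F (1 / 16) y0
    have h8 := B1_le F M hF (1 / 16) y0 hy00 (by linarith)
    have h9 := (abs_le.1 h8).2
    have h10 : 0 ≤ y0 ^ (132 / 10000 : ℝ) := Real.rpow_nonneg hy00.le _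
    have h11 : y0 ^ (132 / 10000 : ℝ) ≤ 1 :=
      Real.rpow_le_one hy00.le (by linarith) (by norm_num)
    calc y0 ^ (132 / 10000 : ℝ) *
        (1 / 16 * B1 F (1 / 16) y0 + 8882 / 10000 * PP F (1 / 16) y0)
        ≤ y0 ^ (132 / 10000 : ℝ) * (2 * PP F (1 / 16) y0) :=
          mul_le_mul_of_nonneg_left (by linarith) h10
      _ ≤ 1 * (2 * PP F (1 / 16) y0) := mul_le_mul_of_nonneg_right h11 (by linarith)
      _ = 2 * PP F (1 / 16) y0 := one_mul _
  -- second step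
  have hder2 : ∀ r : ℝ, 0 < r → HasDerivAt (fun r : ℝ => r ^ (-(8882 / 10000) : ℝ) *
      PP F (1 / 16) r - 2 * PP F (1 / 16) y0 / (9014 / 10000) * r ^ (-(9014 / 10000) : ℝ))
      (-(8882 / 10000) * r ^ ((-(8882 / 10000) : ℝ) - 1) * PP F (1 / 16) r +
        r ^ (-(8882 / 10000) : ℝ) * (-(1 / 16 / r) * B1 F (1 / 16) r) -
        2 * PP F (1 / 16) y0 / (9014 / 10000) *
          (-(9014 / 10000) * r ^ ((-(9014 / 10000) : ℝ) - 1))) r := by
    intro r hr
    exact ((Real.hasDerivAt_rpow_const (Or.inl hr.ne')).mul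
      (PP_hasDerivAt F M hF (1 / 16) r hr)).sub
        ((Real.hasDerivAt_rpow_const (Or.inl hr.ne')).const_mul _)
  have hmono2 : MonotoneOn (fun r : ℝ => r ^ (-(8882 / 10000) : ℝ) *
      PP F (1 / 16) r - 2 * PP F (1 / 16) y0 / (9014 / 10000) * r ^ (-(9014 / 10000) : ℝ))
      (Icc y y0) := by
    refine monotoneOn_of_deriv_nonneg (convex_Icc _ _)
      (fun r hr => (hder2 r (hIcc r hr)).continuousAt.continuousWithinAt)
      (fun r hr => (hder2 r (hIcc r (interior_subset hr))).differentiableAt.differentiableWithinAt)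
      ?_
    intro r hr
    have hr' := interior_subset hr
    have hr0 := hIcc r hr'
    rw [(hder2 r hr0).deriv]
    have h2 := hW r hr'
    have e1 : r ^ (-(8882 / 10000) : ℝ) = r ^ ((-(8882 / 10000) : ℝ) - 1) * r := by
      rw [← Real.rpow_add_one hr0.ne']
      norm_num
    have e2 : r ^ ((-(8882 / 10000) : ℝ) - 1) =
        r ^ ((-(9014 / 10000) : ℝ) - 1) * r ^ (132 / 10000 : ℝ) := by
      rw [← Real.rpow_add hr0]
      norm_num
    have h6 : -(8882 / 10000) * r ^ ((-(8882 / 10000) : ℝ) - 1) * PP F (1 / 16) r +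
        r ^ (-(8882 / 10000) : ℝ) * (-(1 / 16 / r) * B1 F (1 / 16) r) -
        2 * PP F (1 / 16) y0 / (9014 / 10000) *
          (-(9014 / 10000) * r ^ ((-(9014 / 10000) : ℝ) - 1)) =
        r ^ ((-(9014 / 10000) : ℝ) - 1) * (2 * PP F (1 / 16) y0 - r ^ (132 / 10000 : ℝ) *
          (1 / 16 * B1 F (1 / 16) r + 8882 / 10000 * PP F (1 / 16) r)) := by
      rw [e1, e2]
      generalize r ^ ((-(9014 / 10000) : ℝ) - 1) = u
      generalize r ^ (132 / 10000 : ℝ) = v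
      field_simp
      ring
    rw [h6]
    exact mul_nonneg (Real.rpow_nonneg hr0.le _) (sub_nonneg.2 h2)
  have h7 := hmono2 (left_mem_Icc.2 hyy) (right_mem_Icc.2 hyy) hyy
  simp only at h7
  have h8 : 0 ≤ 2 * PP F (1 / 16) y0 / (9014 / 10000) * y0 ^ (-(9014 / 10000) : ℝ) := by
    have := Real.rpow_nonneg hy00.le (-(9014 / 10000) : ℝ)
    positivity
  have h9 : y ^ (-(8882 / 10000) : ℝ) * PP F (1 / 16) y ≤
      y0 ^ (-(8882 / 10000) : ℝ) * PP F (1 / 16) y0 +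
        2 * PP F (1 / 16) y0 / (9014 / 10000) * y ^ (-(9014 / 10000) : ℝ) := by linarith
  have h10 : y0 ^ (-(8882 / 10000) : ℝ) ≤ y ^ (-(8882 / 10000) : ℝ) :=
    Real.rpow_le_rpow_of_nonpos hy hyy (by norm_num)
  have h11 : y ^ (-(9014 / 10000) : ℝ) = y ^ (-(8882 / 10000) : ℝ) * y ^ (-(132 / 10000) : ℝ) := by
    rw [← Real.rpow_add hy]
    norm_num
  have h12 : 1 ≤ y ^ (-(132 / 10000) : ℝ) :=
    Real.one_le_rpow_of_pos_of_le_one_of_nonpos hy (by linarith) (by norm_num)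
  have hu : 0 < y ^ (-(8882 / 10000) : ℝ) := Real.rpow_pos_of_pos hy _
  refine le_of_mul_le_mul_left ?_ hu
  rw [h11] at h9
  refine h9.trans ?_
  generalize y ^ (-(8882 / 10000) : ℝ) = u at *
  generalize y ^ (-(132 / 10000) : ℝ) = w at *
  generalize y0 ^ (-(8882 / 10000) : ℝ) = u0 at *
  generalize PP F (1 / 16) y0 = q at *
  have h13 : u0 * q ≤ u * q * w := by
    calc u0 * q ≤ u * q := mul_le_mul_of_nonneg_right h10 hP0.le
      _ = u * q * 1 := (mul_one _).symm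
      _ ≤ u * q * w := mul_le_mul_of_nonneg_left h12 (by positivity)
  have h14 : 0 ≤ u * q * w := by positivity
  have h15 : 2 * q / (9014 / 10000) * (u * w) = 20000 / 9014 * (u * q * w) := by
    field_simp
    ring
  rw [h15]
  nlinarith

end H62.CJ
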