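import Pool.Agent.H62.CJ.S4
import Pool.Agent.H62.CJ.S5

/-!
# CJ-S6: the first mean

PROOF.  Hoelder with exponents `23/8` and `23/15` (`8/23 + 15/23 = 1`):
`‖F'‖ = ‖F'‖^((1/16)(8/23)) ‖F'‖^((3/2)(15/23))` since `(1/16)(8/23) + (3/2)(15/23) = (1/2 + 45/2)/23 = 1`, so
`PP F 1 y <= (PP F (1/16) y)^(8/23) (PP F (3/2) y)^(15/23)`
(`MeasureTheory.integral_mul_le_Lp_mul_Lq_of_nonneg`, continuous positive functions on `[0, 2 pi]`).
With `P116_bound`, `P32_bound`: for `0 < y <= y0` it is at most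
`C y^(-(8/23)(0.0132) - (15/23)(0.6369)) = C y^(-0.41996...) <= C y^(-0.42)` as `y <= 1`
(`(8 * 0.0132 + 15 * 0.6369)/23 = 9.6591/23 < 0.42`).
For `y0 < y <= 1`: `PP_le` with `p = 1`: `PP F 1 y <= 2 pi M/y <= 2 pi M/y0 <= (2 pi M/y0) y^(-0.42)`
(`M >= 0` when the class is nonempty).
-/

set_option autoImplicit false

open Set Metric MeasureTheory

namespace H62.CJ

theorem PP_holder (F : ℂ → ℂ) (M : ℝ) (hF : Cls F M) (y : ℝ) (hy : 0 < y) :
    PP F 1 y ≤ (PP F (1 / 16) y) ^ (8 / 23 : ℝ) * (PP F (3 / 2) y) ^ (15 / 23 : ℝ) := by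
  have hcont : Continuous fun x : ℝ => ‖deriv F (pt x y)‖ := by
    have hopen : IsOpen HP := isOpen_lt continuous_const Complex.continuous_im
    have h1 : ContinuousOn (deriv F) HP := (hF.diff.deriv hopen).continuousOn
    have h2 : Continuous fun x : ℝ => pt x y := by
      simp only [pt_eq]
      fun_prop
    exact (h1.comp_continuous h2 fun x => hy).norm
  have hpow : ∀ c : ℝ, 0 ≤ c → Continuous fun x : ℝ => ‖deriv F (pt x y)‖ ^ c := fun c hc =>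
    hcont.rpow_const fun x => Or.inr hc
  have hmem : ∀ c : ℝ, 0 ≤ c → ∀ q : ENNReal, MemLp (fun x : ℝ => ‖deriv F (pt x y)‖ ^ c) q
      (volume.restrict (Ioc (0 : ℝ) (2 * Real.pi))) := by
    intro c hc q
    obtain ⟨B, hB⟩ := (isCompact_Icc (a := (0 : ℝ)) (b := 2 * Real.pi)).exists_bound_of_continuousOn
      (hpow c hc).continuousOn
    refine MemLp.of_bound (hpow c hc).aestronglyMeasurable B ?_
    refine (ae_restrict_iff' measurableSet_Ioc).mpr (Filter.Eventually.of_forall fun x hx => ?_)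
    exact hB x (Ioc_subset_Icc_self hx)
  have hpq : (23 / 8 : ℝ).HolderConjugate (23 / 15) := by
    rw [Real.holderConjugate_iff]
    norm_num
  have key := integral_mul_le_Lp_mul_Lq_of_nonneg
    (μ := volume.restrict (Ioc (0 : ℝ) (2 * Real.pi))) hpq
    (f := fun x : ℝ => ‖deriv F (pt x y)‖ ^ (1 / 46 : ℝ))
    (g := fun x : ℝ => ‖deriv F (pt x y)‖ ^ (45 / 46 : ℝ))
    (Filter.Eventually.of_forall fun x => by positivity)
    (Filter.Eventually.of_forall fun x => by positivity)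
    (hmem _ (by norm_num) _) (hmem _ (by norm_num) _)
  have hpi : (0 : ℝ) ≤ 2 * Real.pi := by positivity
  have e1 : PP F 1 y = ∫ x in Ioc (0 : ℝ) (2 * Real.pi),
      ‖deriv F (pt x y)‖ ^ (1 / 46 : ℝ) * ‖deriv F (pt x y)‖ ^ (45 / 46 : ℝ) := by
    rw [PP, intervalIntegral.integral_of_le hpi]
    refine integral_congr_ae (Filter.Eventually.of_forall fun x => ?_)
    change ‖deriv F (pt x y)‖ ^ (1 : ℝ) =
      ‖deriv F (pt x y)‖ ^ (1 / 46 : ℝ) * ‖deriv F (pt x y)‖ ^ (45 / 46 : ℝ)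
    rw [← Real.rpow_add_of_nonneg (norm_nonneg _) (by norm_num) (by norm_num)]
    norm_num
  have e2 : PP F (1 / 16) y = ∫ x in Ioc (0 : ℝ) (2 * Real.pi),
      (‖deriv F (pt x y)‖ ^ (1 / 46 : ℝ)) ^ (23 / 8 : ℝ) := by
    rw [PP, intervalIntegral.integral_of_le hpi]
    refine integral_congr_ae (Filter.Eventually.of_forall fun x => ?_)
    change ‖deriv F (pt x y)‖ ^ (1 / 16 : ℝ) =
      (‖deriv F (pt x y)‖ ^ (1 / 46 : ℝ)) ^ (23 / 8 : ℝ)
    rw [← Real.rpow_mul (norm_nonneg _)]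
    norm_num
  have e3 : PP F (3 / 2) y = ∫ x in Ioc (0 : ℝ) (2 * Real.pi),
      (‖deriv F (pt x y)‖ ^ (45 / 46 : ℝ)) ^ (23 / 15 : ℝ) := by
    rw [PP, intervalIntegral.integral_of_le hpi]
    refine integral_congr_ae (Filter.Eventually.of_forall fun x => ?_)
    change ‖deriv F (pt x y)‖ ^ (3 / 2 : ℝ) =
      (‖deriv F (pt x y)‖ ^ (45 / 46 : ℝ)) ^ (23 / 15 : ℝ)
    rw [← Real.rpow_mul (norm_nonneg _)]
    norm_num
  rw [e1, e2, e3]
  have n1 : (1 / (23 / 8) : ℝ) = 8 / 23 := by norm_num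
  have n2 : (1 / (23 / 15) : ℝ) = 15 / 23 := by norm_num
  rw [n1, n2] at key
  exact key

theorem P1_bound (M : ℝ) : ∃ C : ℝ, 0 < C ∧ ∀ F : ℂ → ℂ, Cls F M →
    (∀ z : ℂ, 0 < z.im → z.im ≤ 3 → ‖F z‖ ≤ M) → ∀ y : ℝ, 0 < y → y ≤ 1 →
      PP F 1 y ≤ C * y ^ (-(42 / 100) : ℝ) := by
  obtain ⟨C1, hC1, h32⟩ := P32_bound M
  obtain ⟨C2, hC2, h116⟩ := P116_bound M
  refine ⟨C2 ^ (8 / 23 : ℝ) * C1 ^ (15 / 23 : ℝ) + 2 * Real.pi * |M| * 100000,
    add_pos_of_pos_of_nonneg (by positivity) (by positivity), fun F hF h3 y hy hy1 => ?_⟩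
  have hA : 0 ≤ C2 ^ (8 / 23 : ℝ) * C1 ^ (15 / 23 : ℝ) := by positivity
  have hB : 0 ≤ 2 * Real.pi * |M| * 100000 := by positivity
  have hY : 0 ≤ y ^ (-(42 / 100) : ℝ) := by positivity
  rcases le_or_gt y y0 with hle | hgt
  · have hp1 := (PP_pos F M hF (1 / 16) y hy).le
    have hp2 := (PP_pos F M hF (3 / 2) y hy).le
    have s1 : (PP F (1 / 16) y) ^ (8 / 23 : ℝ) ≤
        (C2 * y ^ (-(132 / 10000) : ℝ)) ^ (8 / 23 : ℝ) :=
      Real.rpow_le_rpow hp1 (h116 F hF y hy hle) (by norm_num)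
    have s2 : (PP F (3 / 2) y) ^ (15 / 23 : ℝ) ≤ (C1 * y ^ (-nu)) ^ (15 / 23 : ℝ) :=
      Real.rpow_le_rpow hp2 (h32 F hF h3 y hy hle) (by norm_num)
    have s3 := mul_le_mul s1 s2 (by positivity) (by positivity)
    have s4 : (C2 * y ^ (-(132 / 10000) : ℝ)) ^ (8 / 23 : ℝ) * (C1 * y ^ (-nu)) ^ (15 / 23 : ℝ) =
        C2 ^ (8 / 23 : ℝ) * C1 ^ (15 / 23 : ℝ) *
          y ^ (-(132 / 10000) * (8 / 23) + -nu * (15 / 23) : ℝ) := by
      rw [Real.mul_rpow hC2.le (by positivity), Real.mul_rpow hC1.le (by positivity),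
        ← Real.rpow_mul hy.le, ← Real.rpow_mul hy.le, Real.rpow_add hy]
      ring
    have s5 : y ^ (-(132 / 10000) * (8 / 23) + -nu * (15 / 23) : ℝ) ≤ y ^ (-(42 / 100) : ℝ) := by
      refine Real.rpow_le_rpow_of_exponent_ge hy hy1 ?_
      rw [nu]
      norm_num
    calc PP F 1 y ≤ _ := PP_holder F M hF y hy
      _ ≤ _ := s3
      _ = _ := s4
      _ ≤ C2 ^ (8 / 23 : ℝ) * C1 ^ (15 / 23 : ℝ) * y ^ (-(42 / 100) : ℝ) :=
        mul_le_mul_of_nonneg_left s5 hA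
      _ ≤ _ := mul_le_mul_of_nonneg_right (le_add_of_nonneg_right hB) hY
  · have t1 := PP_le F M hF 1 y zero_le_one hy hy1
    rw [Real.rpow_one] at t1
    have t2 : M / y ≤ |M| * 100000 := by
      rw [div_le_iff₀ hy]
      have : (1 / 100000 : ℝ) ≤ y := by
        have := hgt.le
        rwa [y0] at this
      calc M ≤ |M| := le_abs_self M
        _ = |M| * 100000 * (1 / 100000) := by ring
        _ ≤ |M| * 100000 * y := mul_le_mul_of_nonneg_left this (by positivity)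
    have t3 : 1 ≤ y ^ (-(42 / 100) : ℝ) :=
      Real.one_le_rpow_of_pos_of_le_one_of_nonpos hy hy1 (by norm_num)
    calc PP F 1 y ≤ 2 * Real.pi * (M / y) := t1
      _ ≤ 2 * Real.pi * (|M| * 100000) := mul_le_mul_of_nonneg_left t2 (by positivity)
      _ = (2 * Real.pi * |M| * 100000) * 1 := by ring
      _ ≤ (2 * Real.pi * |M| * 100000) * y ^ (-(42 / 100) : ℝ) :=
        mul_le_mul_of_nonneg_left t3 hB
      _ ≤ _ := mul_le_mul_of_nonneg_right (le_add_of_nonneg_left hA) hY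

end H62.CJ
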