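import Pool.Agent.H62.CJ.Def

/-!
# CJ-T1: the total variation lemma

`G` is `C^1`, periodic with period `L = 2 pi`, and `G x1 <= 0` for some `x1`.  Then for all `x`
`G x <= (1/2) int_0^{2 pi} |G'| 1_{G > 0}`.

PROOF.  Assume `G x > 0` (otherwise the left side is `0`).  Replacing `x1` by `x1 + 2 pi k` we may assume
`x1 < x < x1 + 2 pi` (`G (x1 + 2 pi k) = G x1 <= 0`, so `x` is not one of these points).  Let
`c = sSup {t ∈ [x1, x] : G t <= 0}` and `d = sInf {t ∈ [x, x1 + 2 pi] : G t <= 0}` (nonempty closed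
bounded sets).  Then `x1 <= c < x < d <= x1 + 2 pi`, `G c <= 0`, `G d <= 0`, `G > 0` on `(c, d)`.
`G x <= G x - G c = int_c^x G' <= int_c^x |G'|` and `G x <= G x - G d = - int_x^d G' <= int_x^d |G'|`.
Sum: `2 G x <= int_c^d |G'| = int_{(c,d)} |G'| 1_{G>0} <= int_{(x1, x1 + 2 pi)} |G'| 1_{G > 0}`, and the last
integral equals the integral over `(0, 2 pi)` because the integrand is periodic (`G'` is periodic as the
derivative of a periodic function).  All integrals of the nonnegative functions may be taken as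
lintegrals: `ofReal (int_c^x |G'|) = int⁻_{Ioc c x} ofReal |G'|`
(`ofReal_integral_eq_lintegral_ofReal`).  Periodicity for lintegrals: split
`(x1, x1 + 2 pi)` at the multiple of `2 pi` in it and translate the two pieces
(`MeasureTheory.MeasurePreserving.setLIntegral_comp_preimage_emb` for translations, or
`Function.Periodic.lintegral...` / `IsAddFundamentalDomain.setLIntegral_eq` with
`isAddFundamentalDomain_Ioc`); or use `Function.Periodic.intervalIntegral_add_eq` for the real
interval integral of the bounded measurable function.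
-/

set_option autoImplicit false

open Set Metric MeasureTheory

namespace H62.CJ

theorem tv_lemma_real (G G' : ℝ → ℝ) (hd : ∀ x, HasDerivAt G (G' x) x) (hc : Continuous G')
    (g : ℝ → ℝ) (hg : g = fun t => if 0 < G t then |G' t| else 0)
    (hint : ∀ a b, IntervalIntegrable g volume a b) (T : ℝ)
    (x1 x : ℝ) (h1 : G x1 ≤ 0) (h2 : G (x1 + T) ≤ 0) (hx : 0 < G x)
    (hx1 : x1 ≤ x) (hx2 : x ≤ x1 + T) :
    2 * G x ≤ ∫ t in x1..(x1 + T), g t := by
  have hGc : Continuous G := continuous_iff_continuousAt.2 fun y => (hd y).continuousAt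
  have hg0 : ∀ t, 0 ≤ g t := by
    intro t
    rw [hg]
    simp only
    split_ifs
    · exact abs_nonneg _
    · exact le_rfl
  have hgpos : ∀ t, 0 < G t → g t = |G' t| := by
    intro t ht
    rw [hg]
    simp only
    rw [if_pos ht]
  -- left end
  obtain ⟨c, hc1, hc2, hc3, hc4⟩ : ∃ c, x1 ≤ c ∧ c ≤ x ∧ G c ≤ 0 ∧ ∀ t, c < t → t ≤ x → 0 < G t := by
    have hcl : IsClosed {t | t ∈ Icc x1 x ∧ G t ≤ 0} := by
      apply IsClosed.inter isClosed_Icc
      exact isClosed_le hGc continuous_const
    have hne : {t | t ∈ Icc x1 x ∧ G t ≤ 0}.Nonempty := ⟨x1, ⟨le_rfl, hx1⟩, h1⟩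
    have hbd : BddAbove {t | t ∈ Icc x1 x ∧ G t ≤ 0} := ⟨x, fun t ht => ht.1.2⟩
    have hmem := hcl.csSup_mem hne hbd
    refine ⟨_, hmem.1.1, hmem.1.2, hmem.2, ?_⟩
    intro t ht1 ht2
    by_contra hcon
    have : t ≤ sSup {t | t ∈ Icc x1 x ∧ G t ≤ 0} :=
      le_csSup hbd ⟨⟨le_trans hmem.1.1 ht1.le, ht2⟩, not_lt.1 hcon⟩
    linarith
  obtain ⟨d, hd1, hd2, hd3, hd4⟩ : ∃ d, x ≤ d ∧ d ≤ x1 + T ∧ G d ≤ 0 ∧
      ∀ t, x ≤ t → t < d → 0 < G t := by
    have hcl : IsClosed {t | t ∈ Icc x (x1 + T) ∧ G t ≤ 0} := by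
      apply IsClosed.inter isClosed_Icc
      exact isClosed_le hGc continuous_const
    have hne : {t | t ∈ Icc x (x1 + T) ∧ G t ≤ 0}.Nonempty := ⟨x1 + T, ⟨hx2, le_rfl⟩, h2⟩
    have hbd : BddBelow {t | t ∈ Icc x (x1 + T) ∧ G t ≤ 0} := ⟨x, fun t ht => ht.1.1⟩
    have hmem := hcl.csInf_mem hne hbd
    refine ⟨_, hmem.1.1, hmem.1.2, hmem.2, ?_⟩
    intro t ht1 ht2
    by_contra hcon
    have : sInf {t | t ∈ Icc x (x1 + T) ∧ G t ≤ 0} ≤ t :=
      csInf_le hbd ⟨⟨ht1, le_trans ht2.le hmem.1.2⟩, not_lt.1 hcon⟩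
    linarith
  have hI : ∀ a b, ∫ t in a..b, G' t = G b - G a := by
    intro a b
    exact intervalIntegral.integral_eq_sub_of_hasDerivAt (fun t _ => hd t)
      (hc.intervalIntegrable a b)
  have e1 : G x ≤ ∫ t in c..x, g t := by
    have e2 : ∫ t in c..x, g t = ∫ t in c..x, |G' t| := by
      rw [intervalIntegral.integral_of_le hc2, intervalIntegral.integral_of_le hc2]
      apply setIntegral_congr_fun measurableSet_Ioc
      intro t ht
      exact hgpos t (hc4 t ht.1 ht.2)
    have e3 : ∫ t in c..x, G' t ≤ ∫ t in c..x, |G' t| :=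
      intervalIntegral.integral_mono_on hc2 (hc.intervalIntegrable _ _)
        (hc.abs.intervalIntegrable _ _) (fun t _ => le_abs_self _)
    rw [e2]
    have e4 := hI c x
    linarith
  have e5 : G x ≤ ∫ t in x..d, g t := by
    have e2 : ∫ t in x..d, g t = ∫ t in x..d, |G' t| := by
      rw [intervalIntegral.integral_of_le hd1, intervalIntegral.integral_of_le hd1,
        integral_Ioc_eq_integral_Ioo, integral_Ioc_eq_integral_Ioo]
      apply setIntegral_congr_fun measurableSet_Ioo
      intro t ht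
      exact hgpos t (hd4 t ht.1.le ht.2)
    have e3 : ∫ t in x..d, (-|G' t|) ≤ ∫ t in x..d, G' t :=
      intervalIntegral.integral_mono_on hd1 (hc.abs.neg.intervalIntegrable _ _)
        (hc.intervalIntegrable _ _) (fun t _ => neg_abs_le _)
    rw [intervalIntegral.integral_neg] at e3
    rw [e2]
    have e4 := hI x d
    linarith
  have e6 : 0 ≤ ∫ t in x1..c, g t := intervalIntegral.integral_nonneg hc1 (fun t _ => hg0 t)
  have e7 : 0 ≤ ∫ t in d..(x1 + T), g t := intervalIntegral.integral_nonneg hd2 (fun t _ => hg0 t)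
  have e8 : ∫ t in x1..(x1 + T), g t
      = (∫ t in x1..c, g t) + (∫ t in c..x, g t) + (∫ t in x..d, g t) + ∫ t in d..(x1 + T), g t := by
    rw [intervalIntegral.integral_add_adjacent_intervals (hint _ _) (hint _ _),
      intervalIntegral.integral_add_adjacent_intervals (hint _ _) (hint _ _),
      intervalIntegral.integral_add_adjacent_intervals (hint _ _) (hint _ _)]
  rw [e8]
  linarith

theorem tv_lemma (G G' : ℝ → ℝ) (hd : ∀ x, HasDerivAt G (G' x) x) (hc : Continuous G')
    (hper : ∀ x, G (x + 2 * Real.pi) = G x) (x1 : ℝ) (h1 : G x1 ≤ 0) (x : ℝ) :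
    ENNReal.ofReal (G x) ≤ (1 / 2) *
      ∫⁻ t in Ioo 0 (2 * Real.pi), ENNReal.ofReal (if 0 < G t then |G' t| else 0) := by
  rcases le_or_gt (G x) 0 with hx | hx
  · rw [ENNReal.ofReal_of_nonpos hx]
    exact bot_le
  set g : ℝ → ℝ := fun t => if 0 < G t then |G' t| else 0 with hg
  have hpi : 0 < 2 * Real.pi := by positivity
  have hGc : Continuous G := continuous_iff_continuousAt.2 fun y => (hd y).continuousAt
  have hgm : Measurable g :=
    Measurable.ite (measurableSet_lt measurable_const hGc.measurable) hc.abs.measurable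
      measurable_const
  have hg0 : ∀ t, 0 ≤ g t := by
    intro t
    rw [hg]
    simp only
    split_ifs
    · exact abs_nonneg _
    · exact le_rfl
  have hgle : ∀ t, g t ≤ |G' t| := by
    intro t
    rw [hg]
    simp only
    split_ifs
    · exact le_rfl
    · exact abs_nonneg _
  have hint : ∀ a b, IntervalIntegrable g volume a b := by
    intro a b
    apply (hc.abs.intervalIntegrable a b).mono_fun hgm.aestronglyMeasurable
    filter_upwards with t
    rw [Real.norm_eq_abs, Real.norm_eq_abs, abs_of_nonneg (hg0 t), abs_abs]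
    exact hgle t
  have hG'per : ∀ t, G' (t + 2 * Real.pi) = G' t := by
    intro t
    have h2 := (hd (t + 2 * Real.pi)).comp_add_const t (2 * Real.pi)
    have h3 : (fun y => G (y + 2 * Real.pi)) = G := funext hper
    rw [h3] at h2
    exact h2.unique (hd t)
  have hgper : Function.Periodic g (2 * Real.pi) := by
    intro t
    rw [hg]
    simp only
    rw [hper t, hG'per t]
  -- move the base point
  have hPG : Function.Periodic G (2 * Real.pi) := hper
  set k : ℤ := ⌊(x - x1) / (2 * Real.pi)⌋ with hk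
  set x2 : ℝ := x1 + k * (2 * Real.pi) with hx2
  have hG2 : G x2 ≤ 0 := by
    rw [hx2]
    have h4 := hPG.int_mul k x1
    rw [h4]
    exact h1
  have hle1 : x2 ≤ x := by
    have h5 := Int.floor_le ((x - x1) / (2 * Real.pi))
    rw [← hk, le_div_iff₀ hpi] at h5
    rw [hx2]
    linarith
  have hle2 : x ≤ x2 + 2 * Real.pi := by
    have h5 := (Int.lt_floor_add_one ((x - x1) / (2 * Real.pi))).le
    rw [← hk, div_le_iff₀ hpi] at h5
    rw [hx2]
    linarith
  have hmain := tv_lemma_real G G' hd hc g hg hint (2 * Real.pi) x2 x hG2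
    (by rw [hper]; exact hG2) hx hle1 hle2
  rw [hgper.intervalIntegral_add_eq x2 0, zero_add] at hmain
  have hI : ∫⁻ t in Ioo 0 (2 * Real.pi), ENNReal.ofReal (g t)
      = ENNReal.ofReal (∫ t in (0 : ℝ)..(2 * Real.pi), g t) := by
    rw [intervalIntegral.integral_of_le hpi.le, integral_Ioc_eq_integral_Ioo,
      ofReal_integral_eq_lintegral_ofReal]
    · have := hint 0 (2 * Real.pi)
      rw [intervalIntegrable_iff_integrableOn_Ioo_of_le hpi.le] at this
      exact this
    · filter_upwards with t using hg0 t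
  have hhalf : (1 / 2 : ENNReal) = ENNReal.ofReal (1 / 2) := by
    rw [ENNReal.ofReal_div_of_pos two_pos]
    simp
  rw [hI, hhalf, ← ENNReal.ofReal_mul (by norm_num)]
  apply ENNReal.ofReal_le_ofReal
  linarith

end H62.CJ
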