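import Pool.Agent.H62.CJ.Def

/-!
# CJ-Z0: functions of the punctured disc in the coordinate ζ, ξ = exp (i ζ)

`FF ψ ζ = ψ (exp (i ζ))` on the upper half plane, `0` elsewhere.  `|exp (i ζ)| = exp (- Im ζ)`, so `exp (i ζ)` is in
the punctured unit disc for `Im ζ > 0`.
* `FF_meas`: `FF ψ` is continuous on the open (measurable) set `HP` and constant on the complement
  (`ContinuousOn.measurable_piecewise`, or `Measurable.ite` with the restriction; or
  `measurable_of_restrict...`).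
* `FF_deriv`: near `ζ` with `Im ζ > 0` the function `FF ψ` equals `ψ ∘ (exp (i ·))`; chain rule.
* `FF_per`: `exp (i (ζ + 2 pi)) = exp (i ζ)`.
* `FF_inj`: `exp (i z) = exp (i w)` gives `i z = i w + 2 pi i k` (`Complex.exp_eq_exp_iff_exists_int`).
* `FF_mean`: with `R = exp (-y)` and `ξ = circleMap 0 R x = R exp (i x) = exp (i (x + i y))`:
  `deriv (FF ψ) (pt x y) = i ξ ψ' ξ` and `deriv (circleMap 0 R) x = i ξ`, so the two integrals agree
  (unfold `circleIntegral`).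
* `PP_FF`: `‖deriv (FF ψ) (pt x y)‖ = R ‖ψ' ξ‖`.
-/

set_option autoImplicit false

open Set Metric MeasureTheory

namespace H62.CJ

/-- the function in the half plane coordinate -/
noncomputable def FF (ψ : ℂ → ℂ) (ζ : ℂ) : ℂ :=
  if 0 < ζ.im then ψ (Complex.exp (Complex.I * ζ)) else 0

theorem FF_of_pos (ψ : ℂ → ℂ) (ζ : ℂ) (h : 0 < ζ.im) :
    FF ψ ζ = ψ (Complex.exp (Complex.I * ζ)) := by
  simp [FF, h]

theorem norm_exp_I_mul (ζ : ℂ) : ‖Complex.exp (Complex.I * ζ)‖ = Real.exp (-ζ.im) := by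
  rw [Complex.norm_exp]
  simp

theorem exp_mem (ζ : ℂ) (h : 0 < ζ.im) :
    Complex.exp (Complex.I * ζ) ∈ ball (0 : ℂ) 1 \ {0} := by
  refine ⟨?_, ?_⟩
  · rw [mem_ball_zero_iff, norm_exp_I_mul, Real.exp_lt_one_iff]
    linarith
  · rw [mem_singleton_iff]
    exact Complex.exp_ne_zero _

theorem z0_HP_open : IsOpen HP := isOpen_lt continuous_const Complex.continuous_im

theorem z0_open : IsOpen (ball (0 : ℂ) 1 \ {0}) := isOpen_ball.sdiff isClosed_singleton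

theorem z0_exp_diff : Differentiable ℂ (fun ζ : ℂ => Complex.exp (Complex.I * ζ)) := by
  fun_prop

theorem z0_comp_diff (ψ : ℂ → ℂ) (hψ : DifferentiableOn ℂ ψ (ball 0 1 \ {0})) :
    DifferentiableOn ℂ (fun ζ : ℂ => ψ (Complex.exp (Complex.I * ζ))) HP :=
  hψ.comp z0_exp_diff.differentiableOn (fun ζ hζ => exp_mem ζ hζ)

theorem FF_diff (ψ : ℂ → ℂ) (hψ : DifferentiableOn ℂ ψ (ball 0 1 \ {0})) :
    DifferentiableOn ℂ (FF ψ) HP :=
  (z0_comp_diff ψ hψ).congr (fun ζ hζ => FF_of_pos ψ ζ hζ)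

theorem FF_meas (ψ : ℂ → ℂ) (hψ : DifferentiableOn ℂ ψ (ball 0 1 \ {0})) : Measurable (FF ψ) := by
  classical
  have hm : MeasurableSet HP := z0_HP_open.measurableSet
  have h1 : FF ψ = HP.piecewise (fun ζ : ℂ => ψ (Complex.exp (Complex.I * ζ))) (fun _ => 0) := by
    funext ζ
    by_cases h : 0 < ζ.im
    · rw [FF_of_pos ψ ζ h, piecewise_eq_of_mem _ _ _ (show ζ ∈ HP from h)]
    · rw [piecewise_eq_of_notMem _ _ _ (show ζ ∉ HP from h)]
      simp [FF, h]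
  rw [h1]
  exact (z0_comp_diff ψ hψ).continuousOn.measurable_piecewise continuousOn_const hm

theorem FF_deriv (ψ : ℂ → ℂ) (hψ : DifferentiableOn ℂ ψ (ball 0 1 \ {0})) (ζ : ℂ)
    (hζ : 0 < ζ.im) :
    deriv (FF ψ) ζ =
      Complex.I * Complex.exp (Complex.I * ζ) * deriv ψ (Complex.exp (Complex.I * ζ)) := by
  have h1 : HasDerivAt ψ (deriv ψ (Complex.exp (Complex.I * ζ))) (Complex.exp (Complex.I * ζ)) :=
    (hψ.differentiableAt (z0_open.mem_nhds (exp_mem ζ hζ))).hasDerivAt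
  have h2 : HasDerivAt (fun z : ℂ => Complex.exp (Complex.I * z))
      (Complex.exp (Complex.I * ζ) * (Complex.I * 1)) ζ :=
    ((hasDerivAt_id ζ).const_mul Complex.I).cexp
  have h3 := h1.comp ζ h2
  have h4 : HasDerivAt (FF ψ) (deriv ψ (Complex.exp (Complex.I * ζ)) *
      (Complex.exp (Complex.I * ζ) * (Complex.I * 1))) ζ := by
    refine h3.congr_of_eventuallyEq ?_
    filter_upwards [z0_HP_open.mem_nhds (show ζ ∈ HP from hζ)] with z hz
    exact FF_of_pos ψ z hz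
  rw [h4.deriv]
  ring

theorem FF_per (ψ : ℂ → ℂ) (z : ℂ) (hz : 0 < z.im) :
    FF ψ (z + ((2 * Real.pi : ℝ) : ℂ)) = FF ψ z := by
  have h1 : 0 < (z + ((2 * Real.pi : ℝ) : ℂ)).im := by
    rw [Complex.add_im, Complex.ofReal_im, add_zero]
    exact hz
  rw [FF_of_pos ψ _ h1, FF_of_pos ψ z hz]
  congr 1
  have h2 : Complex.I * (z + ((2 * Real.pi : ℝ) : ℂ)) = Complex.I * z + 2 * Real.pi * Complex.I := by
    push_cast
    ring
  rw [h2]
  exact Complex.exp_periodic _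

theorem FF_inj (ψ : ℂ → ℂ) (hi : InjOn ψ (ball 0 1 \ {0})) (z w : ℂ) (hz : 0 < z.im)
    (hw : 0 < w.im) (h : FF ψ z = FF ψ w) :
    ∃ k : ℤ, z - w = (((k : ℝ) * (2 * Real.pi) : ℝ) : ℂ) := by
  rw [FF_of_pos ψ z hz, FF_of_pos ψ w hw] at h
  have h1 := hi (exp_mem z hz) (exp_mem w hw) h
  rw [Complex.exp_eq_exp_iff_exists_int] at h1
  obtain ⟨k, hk⟩ := h1
  refine ⟨k, ?_⟩
  have h2 : Complex.I * (z - w) = Complex.I * (((k : ℝ) * (2 * Real.pi) : ℝ) : ℂ) := by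
    push_cast
    linear_combination hk
  exact mul_left_cancel₀ Complex.I_ne_zero h2

theorem z0_circle (x y : ℝ) :
    Complex.exp (Complex.I * pt x y) = circleMap 0 (Real.exp (-y)) x := by
  rw [pt_eq, circleMap_zero, Complex.ofReal_exp, ← Complex.exp_add]
  congr 1
  push_cast
  linear_combination (y : ℂ) * Complex.I_mul_I

theorem FF_mean (ψ : ℂ → ℂ) (hψ : DifferentiableOn ℂ ψ (ball 0 1 \ {0})) (y : ℝ) (hy : 0 < y)
    (w : ℂ) :
    (∫ x in (0 : ℝ)..(2 * Real.pi), deriv (FF ψ) (pt x y) / (FF ψ (pt x y) - w)) =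
      ∮ ξ in C(0, Real.exp (-y)), deriv ψ ξ / (ψ ξ - w) := by
  unfold circleIntegral
  refine intervalIntegral.integral_congr (fun x _ => ?_)
  have h0 : 0 < (pt x y).im := hy
  simp only [FF_deriv ψ hψ _ h0, FF_of_pos ψ _ h0, z0_circle, deriv_circleMap, smul_eq_mul]
  ring

theorem PP_FF (ψ : ℂ → ℂ) (hψ : DifferentiableOn ℂ ψ (ball 0 1 \ {0})) (y : ℝ) (hy : 0 < y) :
    PP (FF ψ) 1 y =
      ∫ θ in (0 : ℝ)..(2 * Real.pi), ‖deriv ψ (circleMap 0 (Real.exp (-y)) θ)‖ * Real.exp (-y) := by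
  unfold PP
  refine intervalIntegral.integral_congr (fun x _ => ?_)
  have h0 : 0 < (pt x y).im := hy
  have h1 : ‖circleMap 0 (Real.exp (-y)) x‖ = Real.exp (-y) := by
    rw [← z0_circle, norm_exp_I_mul]
    rfl
  simp only [FF_deriv ψ hψ _ h0, z0_circle, Real.rpow_one, norm_mul, Complex.norm_I, one_mul, h1]
  ring

end H62.CJ
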